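import Pool.Agent.H42.RAT2.Path

/-!
# RATS (MP_a315fd): the step from a typical second term to `1^x 2^y`
-/

set_option autoImplicit false

namespace Pool.RAT

open List

/-- a second term whose column sums are all `10` or `11` -/
def TG (q0 q1 q2 q3 p1 p2 p3 p4 r : ℕ) : List ℕ :=
  replicate q0 9 ++ ((replicate p1 9 ++ ((replicate q1 8 ++ ((replicate p2 8 ++ ((replicate q2 7 ++
  ((replicate p3 7 ++ ((replicate q3 6 ++ (tw 6 5 p4 (r + p4) ++ replicate q3 4)) ++
  replicate p3 4)) ++ replicate q2 3)) ++ replicate p2 3)) ++ replicate q1 2)) ++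
  replicate p1 2)) ++ replicate q0 1)

theorem count_TG (q0 q1 q2 q3 p1 p2 p3 p4 r d : ℕ) : (TG q0 q1 q2 q3 p1 p2 p3 p4 r).count d =
    (if 9 = d then q0 + p1 else 0) + (if 8 = d then q1 + p2 else 0) +
    (if 7 = d then q2 + p3 else 0) + (if 6 = d then q3 + p4 else 0) +
    (if 5 = d then p4 + r else 0) + (if 4 = d then q3 + p3 else 0) +
    (if 3 = d then q2 + p2 else 0) + (if 2 = d then q1 + p1 else 0) + (if 1 = d then q0 else 0) := by
  simp only [TG, tw, count_append, count_replicate, beq_iff_eq]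
  split_ifs <;> omega

theorem st_TG (q0 q1 q2 q3 p1 p2 p3 p4 r : ℕ) : St (TG q0 q1 q2 q3 p1 p2 p3 p4 r) := by
  have e : TG q0 q1 q2 q3 p1 p2 p3 p4 r =
      replicate (q0 + p1) 9 ++ (replicate (q1 + p2) 8 ++ (replicate (q2 + p3) 7 ++
      (replicate (q3 + p4) 6 ++ (replicate (r + p4) 5 ++ (replicate (q3 + p3) 4 ++
      (replicate (q2 + p2) 3 ++ (replicate (q1 + p1) 2 ++ replicate q0 1))))))) := by
    simp only [TG, tw, replicate_add, append_assoc]
  rw [e]
  constructor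
  · simp only [pairwise_append, pairwise_replicate, mem_append, mem_replicate]
    refine ⟨Or.inr (le_refl _), ⟨Or.inr (le_refl _), ⟨Or.inr (le_refl _), ⟨Or.inr (le_refl _),
      ⟨Or.inr (le_refl _), ⟨Or.inr (le_refl _), ⟨Or.inr (le_refl _), ⟨Or.inr (le_refl _),
      Or.inr (le_refl _), ?_⟩, ?_⟩, ?_⟩, ?_⟩, ?_⟩, ?_⟩, ?_⟩, ?_⟩
    all_goals
      intro x hx y hy
      omega
  · intro d hd
    simp only [mem_append, mem_replicate] at hd
    omega

theorem cs_TG (q0 q1 q2 q3 p1 p2 p3 p4 r : ℕ) : cs (TG q0 q1 q2 q3 p1 p2 p3 p4 r) =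
    replicate q0 10 ++ ((replicate p1 11 ++ ((replicate q1 10 ++ ((replicate p2 11 ++
    ((replicate q2 10 ++ ((replicate p3 11 ++ ((replicate q3 10 ++ ((replicate p4 11 ++
    (replicate r 10 ++ replicate p4 11)) ++ replicate q3 10)) ++ replicate p3 11)) ++
    replicate q2 10)) ++ replicate p2 11)) ++ replicate q1 10)) ++ replicate p1 11)) ++
    replicate q0 10) := by
  rw [TG, cs_wrap, cs_wrap, cs_wrap, cs_wrap, cs_wrap, cs_wrap, cs_wrap, cs_tw]

theorem stepG (q0 q1 q2 q3 p1 p2 p3 p4 r : ℕ) :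
    rats (Nat.ofDigits 10 (TG (q0 + 1) q1 q2 q3 p1 p2 p3 p4 r)) =
      Nat.ofDigits 10 (tw 2 1 (2 * (p1 + p2 + p3 + p4)) (2 * (q0 + 1 + q1 + q2 + q3) + r)) := by
  have hc : cs (TG (q0 + 1) q1 q2 q3 p1 p2 p3 p4 r) =
    10 :: (replicate q0 10 ++ ((replicate p1 11 ++ ((replicate q1 10 ++ ((replicate p2 11 ++
    ((replicate q2 10 ++ ((replicate p3 11 ++ ((replicate q3 10 ++ ((replicate p4 11 ++
    (replicate r 10 ++ replicate p4 11)) ++ replicate q3 10)) ++ replicate p3 11)) ++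
    replicate q2 10)) ++ replicate p2 11)) ++ replicate q1 10)) ++ replicate p1 11)) ++
    replicate (q0 + 1) 10)) := by
    rw [cs_TG, replicate_succ, cons_append]
  rw [rats_F (st_TG _ _ _ _ _ _ _ _ _) hc (by norm_num)]
  · congr 1
    apply nz_eq' _ (st_tw (by norm_num) (by norm_num) (by norm_num) _ _)
    intro x hx
    simp only [tw, map_append, map_replicate, count_append, count_cons, count_replicate,
      beq_iff_eq, count_nil]
    norm_num
    split_ifs <;> omega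
  · intro d hd
    simp only [mem_append, mem_replicate] at hd
    omega

theorem trib_TG {q0 q1 q2 q3 p1 p2 p3 p4 r m : ℕ} (hq : 1 ≤ q0)
    (hY : 54 ≤ 2 * (p1 + p2 + p3 + p4))
    (h : 2 * 64 ^ m * (2 * (p1 + p2 + p3 + p4)) =
      (2 * (q0 + q1 + q2 + q3) + r) + 2 * (p1 + p2 + p3 + p4) + m + 1 + 20 * gm m) :
    Trib (Nat.ofDigits 10 (TG q0 q1 q2 q3 p1 p2 p3 p4 r)) := by
  obtain ⟨q, rfl⟩ : ∃ q, q0 = q + 1 := ⟨q0 - 1, by omega⟩
  apply trib_rats
  rw [stepG]
  exact famE m _ _ hY h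

end Pool.RAT
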