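import Pool.Agent.H42.RAT2.Det

/-!
# RATS (MP_a315fd): symbolic systems

A symbolic system describes the numbers with two large bulks of digits (`a` and `b` copies); the
rest of the digits is a function of the symbolic state.
-/

set_option autoImplicit false

namespace Pool.RAT

/-- the word `w` leads to a success -/
def Goal {Q : Type} (st : Q → Bool → Q) (suc : Q → Bool → Prop) : Q → List Bool → Prop
  | _, [] => False
  | q, x :: w => suc q x ∨ Goal st suc (st q x) w

/-- a symbolic system for `rats` -/
structure Sys where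
  /-- states -/
  Q : Type
  /-- the number with state `q` and bulks `a`, `b` -/
  num : Q → ℕ → ℕ → ℕ
  /-- the next state; `false`: the first bulk is larger, `true`: the second one is -/
  st : Q → Bool → Q
  /-- zeros are deleted -/
  del : Q → Bool → Bool
  /-- corrections -/
  e1 : Q → Bool → ℤ
  /-- corrections -/
  e2 : Q → Bool → ℤ
  /-- the margin -/
  C : Q → ℕ
  /-- success -/
  suc : Q → Bool → Prop
  /-- the initial state -/
  q0 : Q
  h0 : ∀ q, ¬ suc q false → ∀ a b a' b' : ℕ, b + C q ≤ a → C q ≤ b →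
    (a' : ℤ) = (a : ℤ) - b + e1 q false →
    (b' : ℤ) = (if del q false = true then 1 else 2) * (b : ℤ) + e2 q false →
    rats (num q a b) = num (st q false) a' b'
  h1 : ∀ q, ¬ suc q true → ∀ a b a' b' : ℕ, a + C q ≤ b → C q ≤ a →
    (a' : ℤ) = (if del q true = true then 1 else 2) * (a : ℤ) + e1 q true →
    (b' : ℤ) = (b : ℤ) - a + e2 q true →
    rats (num q a b) = num (st q true) a' b'
  hs0 : ∀ q, suc q false → ∃ V : ℕ, ∀ a b : ℕ, b + C q ≤ a → C q ≤ b →
    (Nat.digits 10 (rats (num q a b))).countP (fun d => decide (d ≠ 1)) ≤ V ∧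
    a ≤ b + V + (Nat.digits 10 (rats (num q a b))).length
  hs1 : ∀ q, suc q true → ∃ V : ℕ, ∀ a b : ℕ, a + C q ≤ b → C q ≤ a →
    (Nat.digits 10 (rats (num q a b))).countP (fun d => decide (d ≠ 1)) ≤ V ∧
    b ≤ a + V + (Nat.digits 10 (rats (num q a b))).length
  hdel : ∀ q x y, del q x = true → del (st q x) y = false
  /-- the length of the winning words -/
  W : ℕ
  win : ∀ q, ∃ w : List Bool, w.length ≤ W ∧ Goal st suc q w
  hq0 : ∀ a b : ℕ, num q0 a b = Nat.ofDigits 10 (tw 2 1 b a)

end Pool.RAT
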