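import Pool.Agent.H42.RAT.Run

/-!
# RATS (MP_a315fd): an explicit path from `1^x 2^y` to Conway's sequence
-/

set_option autoImplicit false

namespace Pool.RAT

open List

/-- `q < p` digits: `a` digits `p`, `b` digits `q` -/
def tw (p q a b : ℕ) : List ℕ := replicate a p ++ replicate b q

theorem st_tw {p q : ℕ} (h1 : 1 ≤ q) (h2 : q < p) (h9 : p ≤ 9) (a b : ℕ) : St (tw p q a b) := by
  constructor
  · simp only [tw, pairwise_append, pairwise_replicate, mem_replicate]
    refine ⟨Or.inr (le_refl _), Or.inr (le_refl _), ?_⟩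
    rintro x ⟨-, rfl⟩ y ⟨-, rfl⟩
    omega
  · intro d hd
    simp only [tw, mem_append, mem_replicate] at hd
    omega

theorem cs_tw (p q a k : ℕ) :
    cs (tw p q a (k + a)) = replicate a (p + q) ++ (replicate k (q + q) ++ replicate a (q + p)) := by
  rw [tw, replicate_add, cs_wrap, cs_rep]

/-- a carry-free step from two digits -/
theorem tw_N {p q : ℕ} (h1 : 1 ≤ q) (h2 : q < p) (h9 : p + q ≤ 9) (a k : ℕ) :
    rats (Nat.ofDigits 10 (tw p q a (k + a))) =
      Nat.ofDigits 10 (tw (p + q) (q + q) (2 * a) k) := by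
  apply rats_N (st_tw h1 h2 (by omega) _ _) (st_tw (by omega) (by omega) h9 _ _)
  rw [cs_tw, perm_iff_count]
  intro x
  simp only [tw, count_append, count_replicate, beq_iff_eq]
  split_ifs <;> omega

/-- `8^p 7^q 1` -/
def l871 (p q : ℕ) : List ℕ := replicate p 8 ++ (replicate q 7 ++ replicate 1 1)

/-- `9 6^p 5^q 1` -/
def l9651 (p q : ℕ) : List ℕ := replicate 1 9 ++ ((replicate p 6 ++ replicate q 5) ++ replicate 1 1)

theorem st_l871 (p q : ℕ) : St (l871 p q) := by
  constructor
  · simp only [l871, pairwise_append, pairwise_replicate, mem_append, mem_replicate]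
    refine ⟨Or.inr (le_refl _), ⟨Or.inr (le_refl _), Or.inr (le_refl _), ?_⟩, ?_⟩
    all_goals
      intro x hx y hy
      omega
  · intro d hd
    simp only [l871, mem_append, mem_replicate] at hd
    omega

theorem st_l9651 (p q : ℕ) : St (l9651 p q) := by
  constructor
  · simp only [l9651, pairwise_append, pairwise_replicate, mem_append, mem_replicate]
    refine ⟨Or.inr (le_refl _), ⟨⟨Or.inr (le_refl _), Or.inr (le_refl _), ?_⟩, Or.inr (le_refl _), ?_⟩, ?_⟩
    all_goals
      intro x hx y hy
      omega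
  · intro d hd
    simp only [l9651, mem_append, mem_replicate] at hd
    omega

theorem nz_eq' {D m : List ℕ} (h : ∀ x, 0 < x → D.count x = m.count x) (hm : St m) : nz D = m := by
  apply sort_eq _ hm.1
  rw [perm_iff_count]
  intro x
  by_cases hx : 0 < x
  · rw [count_filter (by simpa using hx), h x hx]
  · have h0 : x = 0 := by omega
    subst h0
    rw [count_eq_zero.mpr (by simp), count_eq_zero.mpr (fun h0 => by have := (hm.2 0 h0).1; omega)]

/-- `9^a 8^(a+k) ↦ 1 7^(k+1) 8^(2a-1)` -/
theorem step98 (a k : ℕ) :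
    rats (Nat.ofDigits 10 (tw 9 8 (a + 1) (k + (a + 1)))) =
      Nat.ofDigits 10 (l871 (2 * a + 1) (k + 1)) := by
  have h : cs (tw 9 8 (a + 1) (k + (a + 1))) = 17 :: (replicate a 17 ++ (replicate k 16 ++
      replicate (a + 1) 17)) := by
    rw [cs_tw]
    simp only [replicate_succ, cons_append]
  rw [rats_F (st_tw (by norm_num) (by norm_num) (by norm_num) _ _) h (by norm_num)]
  · congr 1
    apply nz_eq _ (st_l871 _ _)
    rw [perm_iff_count]
    intro x
    simp only [l871, map_append, map_replicate, count_append, count_cons, count_replicate,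
      beq_iff_eq, count_nil]
    norm_num
    split_ifs <;> omega
  · intro d hd
    simp only [mem_append, mem_replicate] at hd
    omega

/-- `8^(p+1) 7^(p+j) 1 ↦ 1 5^(j+1) 6^(2p-1) 9` -/
theorem step871 (p j : ℕ) :
    rats (Nat.ofDigits 10 (l871 (p + 1 + 1) (p + 1 + j))) =
      Nat.ofDigits 10 (l9651 (2 * p + 1) (j + 1)) := by
  have h : cs (l871 (p + 1 + 1) (p + 1 + j)) = 9 :: (15 :: (replicate p 15 ++ (replicate j 14 ++
      (replicate (p + 1) 15 ++ replicate 1 9)))) := by
    have a1 : replicate (p + 1 + 1) 8 = replicate 1 8 ++ replicate (p + 1) 8 := by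
      rw [← replicate_add, Nat.add_comm 1]
    have a2 : replicate (p + 1 + j) 7 = replicate j 7 ++ replicate (p + 1) 7 := by
      rw [← replicate_add, Nat.add_comm j]
    have e1 : l871 (p + 1 + 1) (p + 1 + j) =
        replicate 1 8 ++ ((replicate (p + 1) 8 ++ (replicate j 7 ++ replicate (p + 1) 7)) ++
          replicate 1 1) := by
      rw [l871, a1, a2]
      simp only [append_assoc]
    rw [e1, cs_wrap, cs_wrap, cs_rep]
    simp only [replicate_succ, cons_append, append_assoc]
    norm_num
  obtain ⟨t, ht⟩ : ∃ t, t = replicate p 15 ++ (replicate j 14 ++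
      (replicate (p + 1) 15 ++ replicate 1 9)) := ⟨_, rfl⟩
  rw [← ht] at h
  have ht9 : ∀ d ∈ t, 9 ≤ d ∧ d ≤ 18 := by
    intro d hd
    rw [ht] at hd
    simp only [mem_append, mem_replicate] at hd
    omega
  have h1 : Nat.ofDigits 10 (cs (l871 (p + 1 + 1) (p + 1 + j))) =
      Nat.ofDigits 10 (9 :: ((15 - 10) :: (t.map (fun d => d - 9) ++ [1]))) := by
    rw [h, ← digits_F (by norm_num : 10 ≤ 15) (by norm_num) ht9]
    simp only [Nat.ofDigits_cons, Nat.ofDigits_digits]
  have h10 : ∀ d ∈ (9 :: ((15 - 10) :: (t.map (fun d => d - 9) ++ [1]))), d < 10 := by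
    intro d hd
    rw [mem_cons, mem_cons, mem_append, mem_map, mem_singleton] at hd
    rcases hd with rfl | rfl | ⟨e, he, rfl⟩ | rfl
    · norm_num
    · norm_num
    · have := ht9 e he; omega
    · norm_num
  rw [rats_st (st_l871 _ _), h1, nz_digits h10]
  congr 1
  apply nz_eq' _ (st_l9651 _ _)
  intro x hx
  rw [ht]
  simp only [l9651, map_append, map_replicate, count_append, count_cons, count_replicate,
    beq_iff_eq, count_nil]
  norm_num
  split_ifs <;> omega

/-- `9 6^p 5^(p+k) 1 ↦ 1^(k+2) 2^(2p)` -/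
theorem step9651 (p k : ℕ) :
    rats (Nat.ofDigits 10 (l9651 p (k + p))) = Nat.ofDigits 10 (tw 2 1 (2 * p) (k + 2)) := by
  have h : cs (l9651 p (k + p)) = 10 :: (replicate p 11 ++ (replicate k 10 ++
      (replicate p 11 ++ replicate 1 10))) := by
    rw [l9651, cs_wrap, replicate_add, cs_wrap, cs_rep]
    simp only [replicate_succ, cons_append, append_assoc]
    norm_num
  rw [rats_F (st_l9651 _ _) h (by norm_num)]
  · congr 1
    apply nz_eq' _ (st_tw (by norm_num) (by norm_num) (by norm_num) _ _)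
    intro x hx
    simp only [tw, map_append, map_replicate, count_append, count_cons, count_replicate,
      beq_iff_eq, count_nil]
    norm_num
    split_ifs <;> omega
  · intro d hd
    simp only [mem_append, mem_replicate] at hd
    omega

/-- six steps: `1^x 2^y ↦ 1^(x+11-63y) 2^(64y-10)` -/
theorem six (y k : ℕ) (h : 9 ≤ 63 * y + k) (hy : 1 ≤ y) :
    rats (rats (rats (rats (rats (rats (Nat.ofDigits 10 (tw 2 1 y (63 * y + k - 9)))))))) =
      Nat.ofDigits 10 (tw 2 1 (64 * y - 10) (k + 2)) := by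
  obtain ⟨z, rfl⟩ := Nat.exists_eq_add_of_le' hy
  rw [show 63 * (z + 1) + k - 9 = (62 * (z + 1) + k - 9) + (z + 1) by omega,
    tw_N (by norm_num) (by norm_num) (by norm_num),
    show 62 * (z + 1) + k - 9 = (60 * (z + 1) + k - 9) + 2 * (z + 1) by omega,
    tw_N (by norm_num) (by norm_num) (by norm_num),
    show 60 * (z + 1) + k - 9 = (56 * (z + 1) + k - 9) + 2 * (2 * (z + 1)) by omega,
    tw_N (by norm_num) (by norm_num) (by norm_num),
    show 2 * (2 * (2 * (z + 1))) = (8 * z + 7) + 1 by ring,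
    show 56 * (z + 1) + k - 9 = (48 * (z + 1) + k - 9) + ((8 * z + 7) + 1) by omega]
  norm_num only
  rw [step98, show 2 * (8 * z + 7) + 1 = (16 * z + 13) + 1 + 1 by ring,
    show 48 * (z + 1) + k - 9 + 1 = (16 * z + 13) + 1 + (32 * z + k + 26) by omega,
    step871, show 32 * z + k + 26 + 1 = k + (2 * (16 * z + 13) + 1) by ring, step9651]
  congr 2
  omega

/-- `1^x 2^(x+1) ↦ 3^(2x) 4` -/
theorem stepE1 (x : ℕ) :
    rats (Nat.ofDigits 10 (tw 2 1 (x + 1) x)) = Nat.ofDigits 10 (bA 0 0 (2 * x) 1) := by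
  apply rats_N (st_tw (by norm_num) (by norm_num) (by norm_num) _ _) (st_bA _ _ _ _)
  have e : tw 2 1 (x + 1) x = replicate x 2 ++ (replicate 1 2 ++ replicate x 1) := by
    rw [tw, replicate_add, append_assoc]
  rw [e, cs_wrap, cs_rep, perm_iff_count]
  intro z
  simp only [bA, count_append, count_replicate, beq_iff_eq]
  split_ifs <;> omega

/-- `6^(k+2) 7^2 ↦ 1 3^(k+1) 4^3` -/
theorem stepE3 (k : ℕ) :
    rats (Nat.ofDigits 10 (bB 0 (k + 2) 2 0)) = Nat.ofDigits 10 (bA 1 0 (k + 1) 3) := by
  have h : cs (bB 0 (k + 2) 2 0) = 13 :: (13 :: (replicate k 12 ++ replicate 2 13)) := by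
    have := cs_B 0 k
    rw [Nat.zero_add] at this
    rw [this]
    simp [replicate_succ]
  rw [rats_F (st_bB _ _ _ _) h (by norm_num)]
  · congr 1
    apply nz_eq _ (st_bA _ _ _ _)
    rw [perm_iff_count]
    intro x
    simp only [bA, map_append, map_cons, map_replicate, count_append, count_cons, count_replicate,
      beq_iff_eq, count_nil]
    norm_num
    split_ifs <;> omega
  · intro d hd
    simp only [mem_cons, mem_append, mem_replicate] at hd
    omega

theorem endE (x : ℕ) : Trib (Nat.ofDigits 10 (tw 2 1 (x + 3 + 1) (x + 3))) := by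
  apply trib_rats
  rw [stepE1]
  apply trib_rats
  have h1 := stepA_ge 0 0 1 (2 * x + 5)
  rw [show 1 + (2 * x + 5) = 2 * (x + 3) by ring] at h1
  norm_num only at h1
  rw [h1]
  apply trib_rats
  have h2 := stepE3 (2 * x + 3)
  rw [show 2 * x + 3 + 2 = 2 * x + 5 by ring] at h2
  simp only [Nat.zero_add]
  rw [h2]
  apply trib_rats
  have h3 := stepA_ge 1 0 2 (2 * x + 2)
  rw [show 2 + (2 * x + 2) = 2 * x + 3 + 1 by ring] at h3
  norm_num only at h3
  rw [h3]
  apply trib_rats
  have h4 := stepB 1 (2 * x) (le_refl _)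
  norm_num only at h4
  simp only [Nat.zero_add]
  rw [h4]
  exact ⟨0, _, by omega, rfl⟩

/-- `(64 ^ m - 1) / 63` -/
def gm : ℕ → ℕ
  | 0 => 0
  | m + 1 => 64 * gm m + 1

theorem gm_eq (m : ℕ) : 63 * gm m + 1 = 64 ^ m := by
  induction m with
  | zero => simp [gm]
  | succ m ih => rw [gm, pow_succ, ← ih]; ring

theorem gm_succ (m : ℕ) : gm (m + 1) = 64 ^ m + gm m := by
  have h1 := gm_eq m
  rw [gm]; omega

/-- the family of two parameters -/
theorem famE (m : ℕ) : ∀ x y, 54 ≤ y → 2 * 64 ^ m * y = x + y + m + 1 + 20 * gm m →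
    Trib (Nat.ofDigits 10 (tw 2 1 y x)) := by
  induction m with
  | zero =>
    intro x y hy h
    simp only [gm, pow_zero] at h
    obtain ⟨z, rfl⟩ : ∃ z, x = z + 3 := ⟨x - 3, by omega⟩
    have : y = z + 3 + 1 := by omega
    subst this
    exact endE z
  | succ m ih =>
    intro x y hy h
    have h1 := gm_eq (m + 1)
    have h2 := gm_succ m
    have h3 : 64 ≤ 64 ^ (m + 1) := by
      calc 64 = 64 ^ 1 := by norm_num
        _ ≤ 64 ^ (m + 1) := Nat.pow_le_pow_right (by norm_num) (by omega)
    have h4 : m + 1 < 64 ^ (m + 1) := Nat.lt_pow_self (by norm_num)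
    obtain ⟨k, hk⟩ : ∃ k, x + 9 = 63 * y + k := by
      refine ⟨x + 9 - 63 * y, ?_⟩
      have : 63 * y ≤ x + 9 := by
        nlinarith
      omega
    have hx : x = 63 * y + k - 9 := by omega
    rw [hx]
    apply trib_iter 6
    show Trib (rats (rats (rats (rats (rats (rats _))))))
    rw [six y k (by omega) (by omega)]
    apply ih
    · omega
    · have e1 : 2 * 64 ^ m * (64 * y - 10) + 20 * 64 ^ m = 2 * 64 ^ (m + 1) * y := by
        obtain ⟨w, hw⟩ : ∃ w, 64 * y = w + 10 := ⟨64 * y - 10, by omega⟩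
        rw [hw, Nat.add_sub_cancel, pow_succ]
        calc 2 * 64 ^ m * w + 20 * 64 ^ m = 2 * 64 ^ m * (w + 10) := by ring
          _ = 2 * 64 ^ m * (64 * y) := by rw [hw]
          _ = 2 * (64 ^ m * 64) * y := by ring
      omega

/-- `6^η 5^(η+j)` inside a palindromic pair: `T = G 6^η 5^(η+j) G'` -/
theorem cs_pal (G M : List ℕ) (hG : ∀ d ∈ G, d ≤ 10) :
    cs (G ++ (M ++ (G.map (fun d => 10 - d)).reverse)) =
      replicate G.length 10 ++ (cs M ++ replicate G.length 10) := by
  have e : (G ++ (M ++ (G.map (fun d => 10 - d)).reverse)).reverse =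
      G.map (fun d => 10 - d) ++ (M.reverse ++ G.reverse) := by
    simp only [reverse_append, reverse_reverse, append_assoc]
  have h1 : ∀ H : List ℕ, (∀ d ∈ H, d ≤ 10) →
      List.zipWith (· + ·) H (H.map (fun d => 10 - d)) = replicate H.length 10 := by
    intro H hH
    induction H with
    | nil => simp
    | cons a H ih =>
      have := hH a mem_cons_self
      rw [map_cons, zipWith_cons_cons, ih (fun d hd => hH d (mem_cons_of_mem _ hd)),
        length_cons, replicate_succ]
      congr 1
      omega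
  have h2 : List.zipWith (· + ·) (G.map (fun d => 10 - d)).reverse G.reverse =
      replicate G.length 10 := by
    rw [← reverse_zipWith (by simp)]
    have : List.zipWith (· + ·) (G.map (fun d => 10 - d)) G = replicate G.length 10 := by
      rw [zipWith_comm_of_comm (fun x y => Nat.add_comm x y), h1 G hG]
    rw [this, reverse_replicate]
  rw [cs, e, zipWith_append (by simp), zipWith_append (by simp), h1 G hG, h2, cs]

theorem stepT (G : List ℕ) (h η j : ℕ) (hG : G.length = h + 1) (hG9 : ∀ d ∈ G, d ≤ 9)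
    (hst : St (G ++ (tw 6 5 η (j + η) ++ (G.map (fun d => 10 - d)).reverse))) :
    rats (Nat.ofDigits 10 (G ++ (tw 6 5 η (j + η) ++ (G.map (fun d => 10 - d)).reverse))) =
      Nat.ofDigits 10 (tw 2 1 (2 * η) (2 * (h + 1) + j)) := by
  have hc : cs (G ++ (tw 6 5 η (j + η) ++ (G.map (fun d => 10 - d)).reverse)) =
      10 :: (replicate h 10 ++ ((replicate η 11 ++ (replicate j 10 ++ replicate η 11)) ++
        replicate (h + 1) 10)) := by
    rw [cs_pal G _ (fun d hd => by have := hG9 d hd; omega), cs_tw, hG]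
    simp only [replicate_succ, cons_append]
  rw [rats_F hst hc (by norm_num)]
  · congr 1
    apply nz_eq' _ (st_tw (by norm_num) (by norm_num) (by norm_num) _ _)
    intro x hx
    simp only [tw, map_append, map_replicate, count_append, count_cons, count_replicate,
      beq_iff_eq, count_nil]
    norm_num
    split_ifs <;> omega
  · intro d hd
    simp only [mem_append, mem_replicate] at hd
    omega

end Pool.RAT
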