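import Pool.Agent.H42.RAT2.Blk
import Pool.Agent.H42.RAT2.Path

/-!
# RATS (MP_a315fd): the numbers of the family
-/

set_option autoImplicit false

namespace Pool.RAT

open List

/-- lower digits of a block -/
def ub {B : ℕ} (x : Fin B → Y2) : List ℕ := List.ofFn (fun i => (x i).1.val)
/-- upper digits of a block -/
def vb {B : ℕ} (x : Fin B → Y2) : List ℕ := List.ofFn (fun i => (x i).2.val)

theorem ub_lt {B : ℕ} (x : Fin B → Y2) : ∀ a ∈ ub x, a < 10 := by
  intro a ha
  rw [ub, List.mem_ofFn] at ha
  obtain ⟨i, rfl⟩ := ha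
  exact (x i).1.isLt

theorem vb_lt {B : ℕ} (x : Fin B → Y2) : ∀ a ∈ vb x, a < 10 := by
  intro a ha
  rw [vb, List.mem_ofFn] at ha
  obtain ⟨i, rfl⟩ := ha
  exact (x i).2.isLt

theorem zip_uv {B : ℕ} (x : Fin B → Y2) : List.zipWith (· + ·) (ub x) (vb x) = zb x := by
  apply List.ext_getElem
  · simp [ub, vb, zb]
  · intro i h1 h2
    simp [ub, vb, zb]

theorem uv_inj {B : ℕ} {x y : Fin B → Y2} (h1 : ub x = ub y) (h2 : vb x = vb y) : x = y := by
  rw [ub, ub, List.ofFn_inj] at h1
  rw [vb, vb, List.ofFn_inj] at h2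
  funext i
  exact Prod.ext (Fin.ext (congrFun h1 i)) (Fin.ext (congrFun h2 i))

section

variable {X : Type}

theorem bl_lt {z : X → List ℕ} (hz : ∀ b, ∀ a ∈ z b, a < 10) (bs : List X) :
    ∀ a ∈ bl z bs, a < 10 := by
  intro a ha
  rw [bl, mem_flatMap] at ha
  obtain ⟨b, -, hb⟩ := ha
  rw [mem_append, mem_singleton] at hb
  rcases hb with hb | rfl
  · exact hz b a hb
  · norm_num

theorem len_bl {z : X → List ℕ} {n : ℕ} (hz : ∀ b, (z b).length = n) (bs : List X) :
    (bl z bs).length = bs.length * (n + 1) := by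
  induction bs with
  | nil => simp [bl]
  | cons b bs ih =>
    have e : bl z (b :: bs) = (z b ++ [0]) ++ bl z bs := by simp [bl]
    rw [e, length_append, length_append, ih, hz, length_singleton, length_cons]
    ring

end

theorem len_ub {B : ℕ} (x : Fin B → Y2) : (ub x).length = B := by simp [ub]
theorem len_vb {B : ℕ} (x : Fin B → Y2) : (vb x).length = B := by simp [vb]

theorem bl_cons {X : Type} (z : X → List ℕ) (b : X) (bs : List X) :
    bl z (b :: bs) = (z b ++ [0]) ++ bl z bs := by simp [bl]

theorem zip_bl {B : ℕ} (bs : List (Fin B → Y2)) :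
    List.zipWith (· + ·) (bl ub bs) (bl vb bs) = bl zb bs := by
  induction bs with
  | nil => rfl
  | cons b bs ih =>
    rw [bl_cons, bl_cons, bl_cons, zipWith_append (by simp [len_ub, len_vb]),
      zipWith_append (by simp [len_ub, len_vb]), ih, zip_uv]
    rfl

theorem bl_inj {B : ℕ} : ∀ {bs bs' : List (Fin B → Y2)}, bs.length = bs'.length →
    bl ub bs = bl ub bs' → bl vb bs = bl vb bs' → bs = bs'
  | [], [], _, _, _ => rfl
  | [], _ :: _, h, _, _ => by simp at h
  | _ :: _, [], h, _, _ => by simp at h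
  | b :: bs, b' :: bs', h, h1, h2 => by
    rw [bl_cons, bl_cons] at h1 h2
    obtain ⟨h3, h4⟩ := List.append_inj h1 (by simp [len_ub])
    obtain ⟨h5, h6⟩ := List.append_inj h2 (by simp [len_vb])
    rw [bl_inj (by simpa using h) h4 h6,
      uv_inj (List.append_cancel_right h3) (List.append_cancel_right h5)]

theorem flatMap_inj {α β : Type} (f : α → List β) (hf : Function.Injective f) (n : ℕ)
    (hn : ∀ a, (f a).length = n) : ∀ {L L' : List α}, L.length = L'.length →
    L.flatMap f = L'.flatMap f → L = L'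
  | [], [], _, _ => rfl
  | [], _ :: _, h, _ => by simp at h
  | _ :: _, [], h, _ => by simp at h
  | a :: L, a' :: L', h, h1 => by
    rw [flatMap_cons, flatMap_cons] at h1
    obtain ⟨h3, h4⟩ := List.append_inj h1 (by rw [hn, hn])
    rw [flatMap_inj f hf n hn (by simpa using h) h4, hf h3]

/-- all blocks in the order given by a permutation -/
noncomputable def eb {B : ℕ} (π : Equiv.Perm (Fin B → Y2)) : List (Fin B → Y2) :=
  (Finset.univ.toList).map π

theorem eb_inj {B : ℕ} : Function.Injective (eb (B := B)) := by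
  intro π π' h
  rw [eb, eb, List.map_inj_left] at h
  exact Equiv.ext (fun x => h x (by simp))

theorem len_eb {B : ℕ} (π : Equiv.Perm (Fin B → Y2)) : (eb π).length = 100 ^ B := by
  rw [eb, length_map, Finset.length_toList, Finset.card_univ, card_XB]

/-- the blocks of a number of the family -/
noncomputable def bs {B r : ℕ} (σ : Fin r → Equiv.Perm (Fin B → Y2)) : List (Fin B → Y2) :=
  (List.ofFn σ).flatMap eb

theorem bs_inj {B r : ℕ} : Function.Injective (bs (B := B) (r := r)) := by
  intro σ σ' h
  have := flatMap_inj eb eb_inj _ len_eb (by simp) h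
  exact List.ofFn_injective this

theorem len_flat {B : ℕ} (L : List (Equiv.Perm (Fin B → Y2))) :
    (L.flatMap eb).length = L.length * 100 ^ B := by
  induction L with
  | nil => simp
  | cons a L ih => rw [flatMap_cons, length_append, len_eb, ih, length_cons]; ring

theorem len_bs {B r : ℕ} (σ : Fin r → Equiv.Perm (Fin B → Y2)) : (bs σ).length = r * 100 ^ B := by
  rw [bs, len_flat, length_ofFn]

theorem sum_flat {B : ℕ} (L : List (Equiv.Perm (Fin B → Y2))) (g : (Fin B → Y2) → ℕ) :
    ((L.flatMap eb).map g).sum = L.length * ∑ x, g x := by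
  induction L with
  | nil => simp
  | cons a L ih =>
    rw [flatMap_cons, map_append, sum_append, ih, length_cons]
    have : ((eb a).map g).sum = ∑ x, g x := by
      rw [eb, List.map_map, Finset.sum_map_toList]
      exact Equiv.sum_comp a g
    rw [this]
    ring

theorem sum_bs {B r : ℕ} (σ : Fin r → Equiv.Perm (Fin B → Y2)) (g : (Fin B → Y2) → ℕ) :
    ((bs σ).map g).sum = r * ∑ x, g x := by
  rw [bs, sum_flat, length_ofFn]

/-- lower half -/
def lo {B : ℕ} (s : List ℕ) (b : List (Fin B → Y2)) : List ℕ := (8 :: s) ++ (0 :: bl ub b)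
/-- upper half, reversed -/
def up {B : ℕ} (s : List ℕ) (b : List (Fin B → Y2)) : List ℕ :=
  (1 :: replicate s.length 0) ++ (0 :: bl vb b)
/-- the digits of a number of the family -/
def nl {B : ℕ} (s : List ℕ) (b : List (Fin B → Y2)) : List ℕ := lo s b ++ (up s b).reverse

theorem len_lo {B : ℕ} (s : List ℕ) (b : List (Fin B → Y2)) :
    (lo s b).length = s.length + 2 + b.length * (B + 1) := by
  simp only [lo, length_append, length_cons, len_bl len_ub]; ring

theorem len_up {B : ℕ} (s : List ℕ) (b : List (Fin B → Y2)) :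
    (up s b).length = s.length + 2 + b.length * (B + 1) := by
  simp only [up, length_append, length_cons, length_replicate, len_bl len_vb]; ring

theorem len_nl {B : ℕ} (s : List ℕ) (b : List (Fin B → Y2)) :
    (nl s b).length = 2 * (s.length + 2 + b.length * (B + 1)) := by
  rw [nl, length_append, length_reverse, len_lo, len_up]; ring

theorem zip_zero : ∀ s : List ℕ, List.zipWith (· + ·) s (replicate s.length 0) = s
  | [] => rfl
  | a :: s => by
    rw [length_cons, replicate_succ, zipWith_cons_cons, zip_zero s, add_zero]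

theorem zip_lu {B : ℕ} (s : List ℕ) (b : List (Fin B → Y2)) :
    List.zipWith (· + ·) (lo s b) (up s b) = (9 :: s) ++ (0 :: bl zb b) := by
  rw [lo, up, zipWith_append (by simp), zipWith_cons_cons, zipWith_cons_cons, zip_zero, zip_bl]

theorem zip_comm' (s t : List ℕ) : List.zipWith (· + ·) s t = List.zipWith (· + ·) t s := by
  induction s generalizing t with
  | nil => cases t <;> rfl
  | cons a s ih =>
    cases t with
    | nil => rfl
    | cons b t => rw [zipWith_cons_cons, zipWith_cons_cons, ih, add_comm]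

theorem cs_nl {B : ℕ} (s : List ℕ) (b : List (Fin B → Y2)) :
    cs (nl s b) = ((9 :: s) ++ (0 :: bl zb b)) ++ ((9 :: s) ++ (0 :: bl zb b)).reverse := by
  have e : (nl s b).reverse = up s b ++ (lo s b).reverse := by
    rw [nl, reverse_append, reverse_reverse]
  rw [cs, e, nl, zipWith_append (by rw [len_lo, len_up]), zip_lu, zip_comm' _ (lo s b).reverse,
    ← zip_lu, ← List.reverse_zipWith (by rw [len_lo, len_up])]

theorem nl_lt {B : ℕ} {s : List ℕ} (hs : ∀ a ∈ s, a ≤ 9) (b : List (Fin B → Y2)) :
    ∀ d ∈ nl s b, d < 10 := by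
  intro d hd
  simp only [nl, lo, up, mem_append, mem_reverse, mem_cons, mem_replicate] at hd
  rcases hd with ((rfl | hd) | (rfl | hd)) | ((rfl | ⟨-, rfl⟩) | (rfl | hd))
  · norm_num
  · have := hs d hd; omega
  · norm_num
  · exact bl_lt ub_lt b d hd
  · norm_num
  · norm_num
  · norm_num
  · exact bl_lt vb_lt b d hd

theorem nl_last {B : ℕ} (s : List ℕ) (b : List (Fin B → Y2)) (h : nl s b ≠ []) :
    (nl s b).getLast h ≠ 0 := by
  have e : nl s b = (lo s b ++ ((replicate s.length 0) ++ (0 :: bl vb b)).reverse) ++ [1] := by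
    simp only [nl, up, cons_append, reverse_cons, append_assoc]
  simp only [e, getLast_append_singleton]
  norm_num

theorem nl_inj {B : ℕ} {s : List ℕ} (hs : ∀ a ∈ s, a ≤ 9) {b b' : List (Fin B → Y2)}
    (hb : b.length = b'.length)
    (h : Nat.ofDigits 10 (nl s b) = Nat.ofDigits 10 (nl s b')) : b = b' := by
  have h1 : nl s b = nl s b' :=
    Nat.ofDigits_inj_of_len_eq (by norm_num) (by rw [len_nl, len_nl, hb]) (nl_lt hs b) (nl_lt hs b') h
  obtain ⟨h2, h3⟩ := List.append_inj h1 (by rw [len_lo, len_lo, hb])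
  have h4 := List.reverse_injective h3
  rw [lo, lo] at h2
  rw [up, up] at h4
  have h5 := List.append_cancel_left h2
  have h6 := List.append_cancel_left h4
  simp only [cons.injEq, true_and] at h5 h6
  exact bl_inj hb h5 h6

/-- the digits of the second term -/
theorem rats_nl {B : ℕ} {s : List ℕ} (hs : ∀ a ∈ s, a ≤ 9) (b : List (Fin B → Y2)) {T : List ℕ}
    (hT : St T) (hc : ∀ d, 1 ≤ d → d ≤ 9 →
      T.count d = 2 * (9 :: s).count d + (b.map (fun x => ph (zb x) d)).sum) :
    rats (Nat.ofDigits 10 (nl s b)) = Nat.ofDigits 10 T := by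
  rw [rats_out (nl_lt hs b) (nl_last s b), cs_nl]
  obtain ⟨h1, h2⟩ := out_total (zb (B := B)) zb_le (9 :: s)
    (by intro a ha; rw [mem_cons] at ha; rcases ha with rfl | ha; exacts [le_refl _, hs a ha]) b
  congr 1
  apply nz_eq' _ hT
  intro x hx
  rw [h1, count_append, count_singleton]
  simp only [beq_iff_eq]
  rw [if_neg (by omega), add_zero]
  by_cases h9 : x ≤ 9
  · rw [h2 x hx, hc x hx h9]
  · rw [count_eq_zero.mpr, count_eq_zero.mpr]
    · intro h3
      have := (hT.2 x h3).2
      omega
    · intro h3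
      have := out_lt _ _ x h3
      omega

end Pool.RAT
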