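import Pool.Agent.H42.RAT2.Typ
import Pool.Agent.H42.RAT2.Fam

/-!
# RATS (MP_a315fd): for almost all numbers the third term has digits 1, 2 only
-/

set_option autoImplicit false

namespace Pool.RAT

open List

/-- the third term has digits 1, 2 only -/
def G12 (n : ℕ) : Prop := ∀ d ∈ Nat.digits 10 (rats (rats n)), d = 1 ∨ d = 2

/-- total deviation of a word of pairs of digits -/
def Q2 {M : ℕ} (w : Fin M → Y2) : ℤ :=
  ∑ d : Fin 10, ((10 * ((out 0 (zb w)).count d.val : ℤ) - M) ^ 2 +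
    (10 * ((out 0 (zb w).reverse).count d.val : ℤ) - M) ^ 2 +
    (10 * ((out 1 (zb w).reverse).count d.val : ℤ) - M) ^ 2)

theorem sum_revZ' {B : ℕ} (f : (Fin B → Y2) → ℤ) :
    ∑ x : Fin B → Y2, f (fun i => x i.rev) = ∑ x : Fin B → Y2, f x :=
  Fintype.sum_equiv ((Fin.revPerm).arrowCongr (Equiv.refl Y2)) _ _ (fun _ => rfl)

theorem sq_rev (M : ℕ) {c d : ℕ} (hc : c ≤ 1) (hd : d < 10) :
    ∑ w : Fin M → Y2, ((10 * ((out c (zb w).reverse).count d : ℤ) - (M : ℤ)) ^ 2 : ℤ) =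
      9 * (M : ℤ) * 100 ^ M := by
  rw [← sq_out M c hc d hd, ← sum_revZ' (fun x => ((10 * ((out c (zb x)).count d : ℤ) - (M : ℤ)) ^ 2 : ℤ))]
  apply Finset.sum_congr rfl
  intro w _
  rw [zb_rev]

theorem sum_Q2 (M : ℕ) : ∑ w : Fin M → Y2, Q2 w = 270 * (M : ℤ) * 100 ^ M := by
  simp only [Q2]
  rw [Finset.sum_comm]
  have h : ∀ d : Fin 10, ∑ w : Fin M → Y2, ((10 * ((out 0 (zb w)).count d.val : ℤ) - M) ^ 2 +
    (10 * ((out 0 (zb w).reverse).count d.val : ℤ) - M) ^ 2 +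
    (10 * ((out 1 (zb w).reverse).count d.val : ℤ) - M) ^ 2) = 27 * (M : ℤ) * 100 ^ M := by
    intro d
    rw [Finset.sum_add_distrib, Finset.sum_add_distrib, sq_out M 0 (by norm_num) d.val d.isLt,
      sq_rev M (by norm_num) d.isLt, sq_rev M (by norm_num) d.isLt]
    ring
  rw [Finset.sum_congr rfl (fun d _ => h d), Finset.sum_const, Finset.card_univ, Fintype.card_fin,
    nsmul_eq_mul]
  push_cast
  ring

/-- words with large deviation -/
def BB (M : ℕ) : Finset (Fin M → Y2) := Finset.univ.filter (fun w => (M : ℤ) ^ 2 < 625 * Q2 w)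

theorem card_BB {M : ℕ} (hM : 1 ≤ M) : (BB M).card * M ≤ 168750 * 100 ^ M := by
  have hQ0 : ∀ w : Fin M → Y2, 0 ≤ Q2 w := fun w => Finset.sum_nonneg (fun d _ => by positivity)
  have h2 : ((BB M).card : ℤ) * (M : ℤ) ^ 2 ≤ 625 * (270 * (M : ℤ) * 100 ^ M) := by
    rw [← sum_Q2, Finset.mul_sum]
    calc ((BB M).card : ℤ) * (M : ℤ) ^ 2 = ∑ w ∈ BB M, (M : ℤ) ^ 2 := by
          rw [Finset.sum_const, nsmul_eq_mul]
      _ ≤ ∑ w ∈ BB M, 625 * Q2 w := by
          apply Finset.sum_le_sum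
          intro w hw
          exact (Finset.mem_filter.mp hw).2.le
      _ ≤ ∑ w : Fin M → Y2, 625 * Q2 w :=
          Finset.sum_le_sum_of_subset_of_nonneg (Finset.subset_univ _)
            (fun w _ _ => mul_nonneg (by norm_num) (hQ0 w))
  have hM' : (0 : ℤ) < M := by exact_mod_cast hM
  have h3 : ((BB M).card : ℤ) * M ≤ 168750 * 100 ^ M := by
    refine le_of_mul_le_mul_right ?_ hM'
    calc ((BB M).card : ℤ) * M * M = ((BB M).card : ℤ) * (M : ℤ) ^ 2 := by ring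
      _ ≤ 625 * (270 * (M : ℤ) * 100 ^ M) := h2
      _ = 168750 * 100 ^ M * M := by ring
  exact_mod_cast h3

theorem BB_bd {M : ℕ} {w : Fin M → Y2} (hw : w ∉ BB M) {c d : ℕ} (hc : c ≤ 1) (hd : d < 10) :
    |25 * (10 * ((out 0 (zb w)).count d : ℤ) - M)| ≤ M ∧
    |25 * (10 * ((out c (zb w).reverse).count d : ℤ) - M)| ≤ M := by
  have h : 625 * Q2 w ≤ (M : ℤ) ^ 2 := by
    by_contra hcon
    exact hw (Finset.mem_filter.mpr ⟨Finset.mem_univ _, by omega⟩)
  have h1 := Finset.single_le_sum (f := fun d : Fin 10 =>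
    ((10 * ((out 0 (zb w)).count d.val : ℤ) - M) ^ 2 +
    (10 * ((out 0 (zb w).reverse).count d.val : ℤ) - M) ^ 2 +
    (10 * ((out 1 (zb w).reverse).count d.val : ℤ) - M) ^ 2))
    (fun d _ => by positivity) (Finset.mem_univ (⟨d, hd⟩ : Fin 10))
  have h2 : ((10 * ((out 0 (zb w)).count d : ℤ) - M) ^ 2 +
    (10 * ((out 0 (zb w).reverse).count d : ℤ) - M) ^ 2 +
    (10 * ((out 1 (zb w).reverse).count d : ℤ) - M) ^ 2) ≤ Q2 w := h1
  have p1 := sq_nonneg (10 * ((out 0 (zb w)).count d : ℤ) - M)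
  have p2 := sq_nonneg (10 * ((out 0 (zb w).reverse).count d : ℤ) - M)
  have p3 := sq_nonneg (10 * ((out 1 (zb w).reverse).count d : ℤ) - M)
  have hM0 : (0 : ℤ) ≤ M := Int.natCast_nonneg M
  have aux : ∀ x : ℤ, 625 * x ^ 2 ≤ (M : ℤ) ^ 2 → |25 * x| ≤ M := by
    intro x hx
    apply abs_le_of_sq_le_sq _ hM0
    linarith
  refine ⟨aux _ (by linarith), ?_⟩
  interval_cases c
  · exact aux _ (by linarith)
  · exact aux _ (by linarith)

/-- a number with a good word -/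
theorem good_word {M : ℕ} (hM : 400 ≤ M) {w : Fin M → Y2} (hw : w ∉ BB M) {μ : List ℕ}
    (hμ : μ.length ≤ 1) (hμ9 : ∀ d ∈ μ, d < 10)
    (hl : ∀ h : (ub w ++ (μ ++ (vb w).reverse)) ≠ [],
      (ub w ++ (μ ++ (vb w).reverse)).getLast h ≠ 0) :
    G12 (Nat.ofDigits 10 (ub w ++ (μ ++ (vb w).reverse))) := by
  have h10 : ∀ d ∈ (ub w ++ (μ ++ (vb w).reverse)), d < 10 := by
    intro d hd
    simp only [mem_append, mem_reverse] at hd
    rcases hd with hd | hd | hd
    · exact ub_lt w d hd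
    · exact hμ9 d hd
    · exact vb_lt w d hd
  have hμr : μ.reverse = μ := by
    match μ, hμ with
    | [], _ => rfl
    | [a], _ => rfl
    | a :: b :: μ, h => simp at h
  have hcs : cs (ub w ++ (μ ++ (vb w).reverse)) = zb w ++ (cs μ ++ (zb w).reverse) := by
    have e : (ub w ++ (μ ++ (vb w).reverse)).reverse = vb w ++ (μ.reverse ++ (ub w).reverse) := by
      simp
    rw [cs, e, zipWith_append (by simp [len_ub, len_vb]), zipWith_append (by simp), zip_uv, cs,
      ← List.reverse_zipWith (by simp [len_ub, len_vb]), zip_comm' (vb w), zip_uv]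
  have h18 : ∀ a ∈ cs μ, a ≤ 18 := by
    intro a ha
    obtain ⟨x, hx, y, hy, rfl⟩ := mem_cs ha
    have := hμ9 x hx
    have := hμ9 y hy
    omega
  obtain ⟨c1, hc1⟩ : ∃ c, c = co 0 (zb w) := ⟨_, rfl⟩
  obtain ⟨c2, hc2⟩ : ∃ c, c = co c1 (cs μ) := ⟨_, rfl⟩
  obtain ⟨c3, hc3⟩ : ∃ c, c = co c2 (zb w).reverse := ⟨_, rfl⟩
  have l1 : c1 ≤ 1 := by rw [hc1]; exact co_le (by norm_num) (zb_le w)
  have l2 : c2 ≤ 1 := by rw [hc2]; exact co_le l1 h18
  have l3 : c3 ≤ 1 := by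
    rw [hc3]; exact co_le l2 (fun a ha => zb_le w a (mem_reverse.mp ha))
  obtain ⟨D, hD⟩ : ∃ D, D = out 0 (zb w) ++ (out c1 (cs μ) ++ out c2 (zb w).reverse) ++ [c3] :=
    ⟨_, rfl⟩
  have h1 : rats (Nat.ofDigits 10 (ub w ++ (μ ++ (vb w).reverse))) =
      Nat.ofDigits 10 (RL (fun d => D.count d)) := by
    rw [rats_out h10 hl, hcs, out_append, co_append, out_append, co_append, ← hc1, ← hc2, ← hc3,
      ← hD, nz_RL]
    intro d hd
    rw [hD] at hd
    simp only [mem_append, mem_singleton] at hd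
    rcases hd with (hd | hd | hd) | rfl
    · exact out_lt _ _ d hd
    · exact out_lt _ _ d hd
    · exact out_lt _ _ d hd
    · omega
  have hlenμ : (out c1 (cs μ)).length ≤ 1 := by
    have e : ∀ (c : ℕ) (s : List ℕ), (out c s).length = s.length := by
      intro c s
      induction s generalizing c with
      | nil => rfl
      | cons a s ih => rw [out, length_cons, length_cons, ih]
    rw [e, cs, length_zipWith, length_reverse, min_self]
    exact hμ
  have hcount : ∀ d, D.count d = (out 0 (zb w)).count d + (out c1 (cs μ)).count d +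
      (out c2 (zb w).reverse).count d + (if c3 = d then 1 else 0) := by
    intro d
    rw [hD, count_append, count_append, count_append, count_singleton]
    simp only [beq_iff_eq]
    ring
  have hbd : ∀ d, d < 10 → 2 * M ≤ 10 * D.count d + (2 * M / 25 + 20) ∧
      10 * D.count d ≤ 2 * M + (2 * M / 25 + 20) := by
    intro d hd
    obtain ⟨b1, b2⟩ := BB_bd hw l2 hd
    rw [abs_le] at b1 b2
    have h3 := hcount d
    have h4 : (out c1 (cs μ)).count d ≤ 1 := count_le_length.trans hlenμ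
    have h5 : (if c3 = d then 1 else 0) ≤ 1 := by split_ifs <;> omega
    omega
  rw [G12, h1]
  exact rats_RL (K := 2 * M) (η := 2 * M / 25 + 20) (fun d h1 h9 => (hbd d (by omega)).1)
    (fun d h1 h9 => (hbd d (by omega)).2) (by omega)

/-- lists as words -/
theorem exists_word {M : ℕ} {P V : List ℕ} (hP : P.length = M) (hV : V.length = M)
    (hP9 : ∀ d ∈ P, d < 10) (hV9 : ∀ d ∈ V, d < 10) :
    ∃ w : Fin M → Y2, ub w = P ∧ vb w = V := by
  refine ⟨fun i => (⟨P[i.val]'(by omega), hP9 _ (getElem_mem _)⟩,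
    ⟨V[i.val]'(by omega), hV9 _ (getElem_mem _)⟩), ?_, ?_⟩
  · apply List.ext_getElem
    · rw [len_ub, hP]
    · intro i h1 h2
      simp [ub]
  · apply List.ext_getElem
    · rw [len_vb, hV]
    · intro i h1 h2
      simp [vb]

/-- numbers with `L` digits whose third term is not as wanted -/
def SL (L : ℕ) : Set ℕ := {n | 10 ^ (L - 1) ≤ n ∧ n < 10 ^ L ∧ ¬ G12 n}

theorem SL_sub (L : ℕ) : SL L ⊆ ((Finset.range (10 ^ L) : Finset ℕ) : Set ℕ) := by
  intro n hn
  simp only [Finset.coe_range, Set.mem_Iio]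
  exact hn.2.1

theorem SL_triv (L : ℕ) : (SL L).ncard ≤ 10 ^ L := by
  have h := Set.ncard_le_ncard (SL_sub L) (Finset.finite_toSet _)
  rwa [Set.ncard_coe_finset, Finset.card_range] at h

theorem len_digits {L n : ℕ} (hL : 1 ≤ L) (h1 : 10 ^ (L - 1) ≤ n) (h2 : n < 10 ^ L) :
    (Nat.digits 10 n).length = L := by
  have hn : n ≠ 0 := by
    have : 1 ≤ 10 ^ (L - 1) := Nat.one_le_pow _ _ (by norm_num)
    omega
  rw [Nat.digits_len 10 n (by norm_num) hn]
  have h3 : Nat.log 10 n = L - 1 := by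
    rw [Nat.log_eq_iff (Or.inr ⟨by norm_num, hn⟩)]
    refine ⟨h1, ?_⟩
    have : L - 1 + 1 = L := by omega
    rw [this]; exact h2
  omega

theorem SL_bd {L : ℕ} (hL : 802 ≤ L) : (SL L).ncard * L ≤ 506250 * 10 ^ L := by
  classical
  obtain ⟨M, hM⟩ : ∃ M, M = L / 2 := ⟨_, rfl⟩
  obtain ⟨e, he⟩ : ∃ e, e = L - 2 * M := ⟨_, rfl⟩
  have he1 : e ≤ 1 := by omega
  have hLe : L = 2 * M + e := by omega
  -- the image
  have hsub : SL L ⊆ (((BB M ×ˢ (Finset.range (10 ^ e))).image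
      (fun p => Nat.ofDigits 10 (ub p.1 ++ (replicate e p.2 ++ (vb p.1).reverse))) :
        Finset ℕ) : Set ℕ) := by
    intro n hn
    obtain ⟨h1, h2, h3⟩ := hn
    have hn0 : n ≠ 0 := by
      have : 1 ≤ 10 ^ (L - 1) := Nat.one_le_pow _ _ (by norm_num)
      omega
    obtain ⟨l, hl⟩ : ∃ l, l = Nat.digits 10 n := ⟨_, rfl⟩
    have hlen : l.length = L := by rw [hl]; exact len_digits (by omega) h1 h2
    have hl10 : ∀ d ∈ l, d < 10 := by rw [hl]; exact fun d hd => Nat.digits_lt_base (by norm_num) hd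
    have hlast : ∀ h : l ≠ [], l.getLast h ≠ 0 := by
      rw [hl]; exact fun h => Nat.getLast_digit_ne_zero 10 hn0
    have hsplit : l = l.take M ++ ((l.drop M).take e ++ (l.drop M).drop e) := by
      rw [take_append_drop, take_append_drop]
    obtain ⟨w, hw1, hw2⟩ := exists_word (M := M) (P := l.take M) (V := ((l.drop M).drop e).reverse)
      (by rw [length_take, hlen]; omega)
      (by rw [length_reverse, length_drop, length_drop, hlen]; omega)
      (fun d hd => hl10 d (mem_of_mem_take hd))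
      (fun d hd => hl10 d (mem_of_mem_drop (mem_of_mem_drop (mem_reverse.mp hd))))
    obtain ⟨μ, hμ⟩ : ∃ μ, μ = (l.drop M).take e := ⟨_, rfl⟩
    have hμl : μ.length = e := by rw [hμ, length_take, length_drop, hlen]; omega
    have hμ10 : ∀ d ∈ μ, d < 10 := by
      rw [hμ]
      exact fun d hd => hl10 d (mem_of_mem_drop (mem_of_mem_take hd))
    have hl2 : l = ub w ++ (μ ++ (vb w).reverse) := by
      rw [hw1, hw2, reverse_reverse, hμ]; exact hsplit
    obtain ⟨a, ha, hμa⟩ : ∃ a, a < 10 ^ e ∧ μ = replicate e a := by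
      interval_cases e
      · exact ⟨0, by norm_num, by rw [replicate_zero]; exact length_eq_zero_iff.mp hμl⟩
      · obtain ⟨a, rfl⟩ := length_eq_one_iff.mp hμl
        exact ⟨a, by have := hμ10 a (by simp); omega, rfl⟩
    have hnl : n = Nat.ofDigits 10 (ub w ++ (μ ++ (vb w).reverse)) := by
      rw [← hl2, hl, Nat.ofDigits_digits]
    have hwB : w ∈ BB M := by
      by_contra hcon
      apply h3
      rw [hnl]
      apply good_word (by omega) hcon (by omega) hμ10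
      rw [← hl2]
      exact hlast
    rw [Finset.coe_image]
    refine ⟨(w, a), ?_, ?_⟩
    · rw [Finset.mem_coe, Finset.mem_product]
      exact ⟨hwB, Finset.mem_range.mpr ha⟩
    · simp only
      rw [hnl, hμa]
  have h1 := Set.ncard_le_ncard hsub (Finset.finite_toSet _)
  rw [Set.ncard_coe_finset] at h1
  have h2 : (SL L).ncard ≤ (BB M).card * 10 ^ e := by
    refine h1.trans (Finset.card_image_le.trans ?_)
    rw [Finset.card_product, Finset.card_range]
  have h3 := card_BB (M := M) (by omega)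
  have h4 : 10 ^ L = 100 ^ M * 10 ^ e := by
    rw [hLe, pow_add, pow_mul]
    norm_num
  have h5 : L ≤ 3 * M := by omega
  calc (SL L).ncard * L ≤ ((BB M).card * 10 ^ e) * (3 * M) := Nat.mul_le_mul h2 h5
    _ = 3 * 10 ^ e * ((BB M).card * M) := by ring
    _ ≤ 3 * 10 ^ e * (168750 * 100 ^ M) := Nat.mul_le_mul_left _ h3
    _ = 506250 * 10 ^ L := by rw [h4]; ring

theorem SL_all {L : ℕ} : (SL L).ncard * L ≤ 506250 * 10 ^ L := by
  by_cases h : 802 ≤ L
  · exact SL_bd h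
  · calc (SL L).ncard * L ≤ 10 ^ L * 506250 := Nat.mul_le_mul (SL_triv L) (by omega)
      _ = 506250 * 10 ^ L := by ring

/-- numbers up to `N` whose third term is not as wanted -/
def EN (N : ℕ) : Set ℕ := {n | 1 ≤ n ∧ n ≤ N ∧ ¬ G12 n}

theorem EN_pow (m : ℕ) : (m + 1) * ({n | 1 ≤ n ∧ n < 10 ^ (m + 1) ∧ ¬ G12 n} : Set ℕ).ncard ≤
    1012500 * 10 ^ (m + 1) := by
  induction m with
  | zero =>
    have hsub : ({n | 1 ≤ n ∧ n < 10 ^ (0 + 1) ∧ ¬ G12 n} : Set ℕ) ⊆
        ((Finset.range 10 : Finset ℕ) : Set ℕ) := by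
      intro n hn
      simp only [Finset.coe_range, Set.mem_Iio]
      have := hn.2.1
      norm_num at this
      exact this
    have h := Set.ncard_le_ncard hsub (Finset.finite_toSet _)
    rw [Set.ncard_coe_finset, Finset.card_range] at h
    omega
  | succ m ih =>
    have hsub : ({n | 1 ≤ n ∧ n < 10 ^ (m + 1 + 1) ∧ ¬ G12 n} : Set ℕ) ⊆
        ({n | 1 ≤ n ∧ n < 10 ^ (m + 1) ∧ ¬ G12 n} : Set ℕ) ∪ SL (m + 2) := by
      intro n hn
      obtain ⟨h1, h2, h3⟩ := hn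
      by_cases h : n < 10 ^ (m + 1)
      · exact Or.inl ⟨h1, h, h3⟩
      · exact Or.inr ⟨by simpa using h, h2, h3⟩
    have hfin : (({n | 1 ≤ n ∧ n < 10 ^ (m + 1) ∧ ¬ G12 n} : Set ℕ) ∪ SL (m + 2)).Finite := by
      apply Set.Finite.union
      · exact (Set.finite_Iio (10 ^ (m + 1))).subset (fun n hn => hn.2.1)
      · exact (Finset.finite_toSet _).subset (SL_sub _)
    have h1 := (Set.ncard_le_ncard hsub hfin).trans (Set.ncard_union_le _ _)
    obtain ⟨a, ha⟩ : ∃ a, a = ({n | 1 ≤ n ∧ n < 10 ^ (m + 1 + 1) ∧ ¬ G12 n} : Set ℕ).ncard := ⟨_, rfl⟩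
    obtain ⟨b, hb⟩ : ∃ b, b = ({n | 1 ≤ n ∧ n < 10 ^ (m + 1) ∧ ¬ G12 n} : Set ℕ).ncard := ⟨_, rfl⟩
    obtain ⟨c, hc⟩ : ∃ c, c = (SL (m + 2)).ncard := ⟨_, rfl⟩
    rw [← ha, ← hb, ← hc] at h1
    rw [← hb] at ih
    rw [← ha]
    have h2 : c * (m + 2) ≤ 506250 * 10 ^ (m + 2) := by rw [hc]; exact SL_all
    -- (m+2) a ≤ (m+2) b + (m+2) c
    have h3 : (m + 1 + 1) * a ≤ (m + 2) * b + c * (m + 2) := by
      calc (m + 1 + 1) * a ≤ (m + 1 + 1) * (b + c) := Nat.mul_le_mul_left _ h1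
        _ = (m + 2) * b + c * (m + 2) := by ring
    have h4 : (m + 2) * b ≤ 2 * ((m + 1) * b) := by
      rw [← Nat.mul_assoc]
      exact Nat.mul_le_mul_right _ (by omega)
    have h5 : 10 ^ (m + 1 + 1) = 10 * 10 ^ (m + 1) := by rw [pow_succ]; ring
    have h6 : 10 ^ (m + 2) = 10 * 10 ^ (m + 1) := by rw [pow_succ]; ring
    rw [h5]
    rw [h6] at h2
    omega

/-- all but `C N / log N` of the numbers up to `N` have a third term with digits `1, 2` only -/
theorem almost_all : ∃ C : ℝ, ∀ N : ℕ, 2 ≤ N → ((EN N).ncard : ℝ) ≤ C * N / Real.log N := by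
  refine ⟨30375000, fun N hN => ?_⟩
  obtain ⟨L, hL⟩ : ∃ L, L = Nat.log 10 N := ⟨_, rfl⟩
  have hL1 : 10 ^ L ≤ N := by rw [hL]; exact Nat.pow_log_le_self 10 (by omega)
  have hL2 : N < 10 ^ (L + 1) := by rw [hL]; exact Nat.lt_pow_succ_log_self (by norm_num) N
  have hsub : EN N ⊆ ({n | 1 ≤ n ∧ n < 10 ^ (L + 1) ∧ ¬ G12 n} : Set ℕ) := by
    intro n hn
    exact ⟨hn.1, lt_of_le_of_lt hn.2.1 hL2, hn.2.2⟩
  have hfin : ({n | 1 ≤ n ∧ n < 10 ^ (L + 1) ∧ ¬ G12 n} : Set ℕ).Finite :=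
    (Set.finite_Iio (10 ^ (L + 1))).subset (fun n hn => hn.2.1)
  have h1 := Set.ncard_le_ncard hsub hfin
  have h2 := EN_pow L
  have h3 : (L + 1) * (EN N).ncard ≤ 10125000 * N := by
    calc (L + 1) * (EN N).ncard ≤ (L + 1) * _ := Nat.mul_le_mul_left _ h1
      _ ≤ 1012500 * 10 ^ (L + 1) := h2
      _ = 10125000 * 10 ^ L := by rw [pow_succ]; ring
      _ ≤ 10125000 * N := Nat.mul_le_mul_left _ hL1
  have h3' : ((L : ℝ) + 1) * ((EN N).ncard : ℝ) ≤ 10125000 * N := by exact_mod_cast h3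
  have hN1 : (1 : ℝ) < N := by
    have : (2 : ℝ) ≤ N := by exact_mod_cast hN
    linarith
  have hlog : 0 < Real.log N := Real.log_pos hN1
  have hlog10 : Real.log 10 ≤ 3 := by
    rw [Real.log_le_iff_le_exp (by norm_num)]
    have h := Real.add_one_le_exp (1 : ℝ)
    calc (10 : ℝ) ≤ 2.7 ^ 3 := by norm_num
      _ ≤ (Real.exp 1) ^ 3 := by
          apply pow_le_pow_left₀ (by norm_num)
          have := Real.exp_one_gt_d9
          linarith
      _ = Real.exp 3 := by rw [← Real.exp_nat_mul]; norm_num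
  have hlogN : Real.log N ≤ 3 * (L + 1) := by
    have h4 : (N : ℝ) ≤ 10 ^ (L + 1) := by exact_mod_cast hL2.le
    have h5 := Real.log_le_log (by linarith) h4
    rw [Real.log_pow] at h5
    have h6 : ((L + 1 : ℕ) : ℝ) * Real.log 10 ≤ ((L + 1 : ℕ) : ℝ) * 3 :=
      mul_le_mul_of_nonneg_left hlog10 (Nat.cast_nonneg _)
    push_cast at h5 h6
    linarith
  rw [le_div_iff₀ hlog]
  have hE : (0 : ℝ) ≤ ((EN N).ncard : ℝ) := by positivity
  calc ((EN N).ncard : ℝ) * Real.log N ≤ ((EN N).ncard : ℝ) * (3 * (L + 1)) :=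
        mul_le_mul_of_nonneg_left hlogN hE
    _ = 3 * (((L : ℝ) + 1) * ((EN N).ncard : ℝ)) := by ring
    _ ≤ 3 * (10125000 * N) := mul_le_mul_of_nonneg_left h3' (by norm_num)
    _ = 30375000 * N := by ring

end Pool.RAT
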