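import Pool.Agent.H42.RAT2.Alm

/-!
# RATS (MP_a315fd): the third term is `1^x 2^y`
-/

set_option autoImplicit false

namespace Pool.RAT

open List

theorem g12_form {n : ℕ} (h : G12 n) :
    ∃ x y : ℕ, rats (rats n) = Nat.ofDigits 10 (replicate y 2 ++ replicate x 1) := by
  obtain ⟨l, hl⟩ : ∃ l, l = Nat.digits 10 (rats (rats n)) := ⟨_, rfl⟩
  refine ⟨l.count 1, l.count 2, ?_⟩
  have hst : St l := by
    rw [hl, rats_nz (rats n), digits_st]
    · apply nz_st
      exact fun d hd => Nat.digits_lt_base (by norm_num) hd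
    · apply nz_st
      exact fun d hd => Nat.digits_lt_base (by norm_num) hd
  have h12 : ∀ d ∈ l, d = 1 ∨ d = 2 := by rw [hl]; exact h
  have e : l = replicate (l.count 2) 2 ++ replicate (l.count 1) 1 := by
    apply Perm.eq_of_pairwise' hst.1 (st_tw (p := 2) (q := 1) (by norm_num) (by norm_num)
      (by norm_num) (l.count 2) (l.count 1)).1
    rw [perm_iff_count]
    intro d
    simp only [tw, count_append, count_replicate, beq_iff_eq]
    by_cases h2 : d = 2
    · subst h2; norm_num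
    · by_cases h1 : d = 1
      · subst h1; norm_num
      · rw [count_eq_zero.mpr (fun hd => by rcases h12 d hd with h | h <;> omega),
          if_neg (by omega), if_neg (by omega)]
  rw [← e, hl, Nat.ofDigits_digits]

theorem almost_all' : ∃ C : ℝ, ∀ N : ℕ, 2 ≤ N →
    (({n : ℕ | 1 ≤ n ∧ n ≤ N ∧ ¬ ∃ x y : ℕ, rats (rats n) =
      Nat.ofDigits 10 (replicate y 2 ++ replicate x 1)}).ncard : ℝ) ≤ C * N / Real.log N := by
  obtain ⟨C, hC⟩ := almost_all
  refine ⟨C, fun N hN => le_trans ?_ (hC N hN)⟩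
  have hsub : {n : ℕ | 1 ≤ n ∧ n ≤ N ∧ ¬ ∃ x y : ℕ, rats (rats n) =
      Nat.ofDigits 10 (replicate y 2 ++ replicate x 1)} ⊆ EN N := by
    intro n hn
    exact ⟨hn.1, hn.2.1, fun h => hn.2.2 (g12_form h)⟩
  have hfin : (EN N).Finite := (Set.finite_Iic N).subset (fun _ h => h.2.1)
  exact_mod_cast Set.ncard_le_ncard hsub hfin

end Pool.RAT
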