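import Pool.Agent.H42.RAT2.Out

/-!
# RATS (MP_a315fd): sums over all blocks of pairs of digits
-/

set_option autoImplicit false

namespace Pool.RAT

open List

/-- a pair of digits -/
abbrev Y2 : Type := Fin 10 × Fin 10

/-- the column sums of a block -/
def zb {B : ℕ} (x : Fin B → Y2) : List ℕ := List.ofFn (fun i => (x i).1.val + (x i).2.val)

theorem zb_le {B : ℕ} (x : Fin B → Y2) : ∀ a ∈ zb x, a ≤ 18 := by
  intro a ha
  rw [zb, List.mem_ofFn] at ha
  obtain ⟨i, rfl⟩ := ha
  have := (x i).1.isLt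
  have := (x i).2.isLt
  omega

theorem zb_cons {B : ℕ} (y : Y2) (t : Fin B → Y2) :
    zb (Fin.cons y t : Fin (B + 1) → Y2) = (y.1.val + y.2.val) :: zb t := by
  rw [zb, List.ofFn_succ]
  rfl

theorem sum_cons_eq {B : ℕ} (f : (Fin (B + 1) → Y2) → ℕ) :
    ∑ x, f x = ∑ y : Y2, ∑ t : Fin B → Y2, f (Fin.cons y t : Fin (B + 1) → Y2) := by
  rw [← Fintype.sum_prod_type' (f := fun (y : Y2) (t : Fin B → Y2) =>
    f (Fin.cons y t : Fin (B + 1) → Y2))]
  exact (Fintype.sum_equiv (Fin.consEquiv (fun _ : Fin (B + 1) => Y2)) _ _ (fun x => rfl)).symm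

/-- number of times a digit occurs in all blocks -/
def Nb : ℕ → ℕ
  | 0 => 0
  | B + 1 => 10 * 100 ^ B + 100 * Nb B

theorem dcnt10 : ∀ c : Fin 2, ∀ d : Fin 10,
    (∑ y : Y2, if (y.1.val + y.2.val + c.val) % 10 = d.val then 1 else 0) = 10 := by
  decide +kernel

theorem dcnt45 : ∀ c : Fin 2,
    (∑ y : Y2, if (y.1.val + y.2.val + c.val) / 10 = 1 then 1 else 0) = 45 + 10 * c.val := by
  decide +kernel

theorem dcnt55 : ∀ c : Fin 2,
    (∑ y : Y2, (1 - (if (y.1.val + y.2.val + c.val) / 10 = 1 then 1 else 0))) =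
      55 - 10 * c.val := by
  decide +kernel

theorem card_XB (B : ℕ) : Fintype.card (Fin B → Y2) = 100 ^ B := by
  rw [Fintype.card_fun, Fintype.card_prod, Fintype.card_fin, Fintype.card_fin]

theorem sum_out (B : ℕ) : ∀ c ≤ 1, ∀ d < 10,
    ∑ x : Fin B → Y2, (out c (zb x)).count d = Nb B := by
  induction B with
  | zero =>
    intro c _ d _
    simp [zb, out, Nb]
  | succ B ih =>
    intro c hc d hd
    rw [sum_cons_eq]
    have h1 : ∀ y : Y2, ∑ t : Fin B → Y2, (out c (zb (Fin.cons y t : Fin (B + 1) → Y2))).count d =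
        (if (y.1.val + y.2.val + c) % 10 = d then 1 else 0) * 100 ^ B + Nb B := by
      intro y
      have hy1 := y.1.isLt
      have hy2 := y.2.isLt
      have h2 : ∀ t : Fin B → Y2, (out c (zb (Fin.cons y t : Fin (B + 1) → Y2))).count d =
          (if (y.1.val + y.2.val + c) % 10 = d then 1 else 0) +
          (out ((y.1.val + y.2.val + c) / 10) (zb t)).count d := by
        intro t
        rw [zb_cons, out, List.count_cons, add_comm]
        simp only [beq_iff_eq]
      rw [Finset.sum_congr rfl (fun t _ => h2 t), Finset.sum_add_distrib,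
        ih _ (by omega) d hd, Finset.sum_const, Finset.card_univ, card_XB, smul_eq_mul, mul_comm]
    rw [Finset.sum_congr rfl (fun y _ => h1 y), Finset.sum_add_distrib, ← Finset.sum_mul,
      Finset.sum_const, Finset.card_univ]
    have h3 := dcnt10 ⟨c, by omega⟩ ⟨d, hd⟩
    simp only at h3
    rw [h3, Fintype.card_prod, Fintype.card_fin, smul_eq_mul, Nb]

theorem sum_co (B : ℕ) :
    2 * (∑ x : Fin B → Y2, co 0 (zb x)) + 10 ^ B = 100 ^ B ∧
    2 * (∑ x : Fin B → Y2, co 1 (zb x)) = 100 ^ B + 10 ^ B := by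
  induction B with
  | zero => simp [zb, co]
  | succ B ih =>
    obtain ⟨ih0, ih1⟩ := ih
    have key : ∀ c : Fin 2, ∑ x : Fin (B + 1) → Y2, co c.val (zb x) =
        (45 + 10 * c.val) * (∑ x : Fin B → Y2, co 1 (zb x)) +
        (55 - 10 * c.val) * (∑ x : Fin B → Y2, co 0 (zb x)) := by
      intro c
      rw [sum_cons_eq]
      have h1 : ∀ y : Y2, ∑ t : Fin B → Y2, co c.val (zb (Fin.cons y t : Fin (B + 1) → Y2)) =
          (if (y.1.val + y.2.val + c.val) / 10 = 1 then 1 else 0) *
            (∑ x : Fin B → Y2, co 1 (zb x)) +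
          (1 - (if (y.1.val + y.2.val + c.val) / 10 = 1 then 1 else 0)) *
            (∑ x : Fin B → Y2, co 0 (zb x)) := by
        intro y
        have hy1 := y.1.isLt
        have hy2 := y.2.isLt
        have hc := c.isLt
        have h2 : ∀ t : Fin B → Y2, co c.val (zb (Fin.cons y t : Fin (B + 1) → Y2)) =
            co ((y.1.val + y.2.val + c.val) / 10) (zb t) := by
          intro t
          rw [zb_cons, co]
        rw [Finset.sum_congr rfl (fun t _ => h2 t)]
        by_cases h : (y.1.val + y.2.val + c.val) / 10 = 1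
        · rw [h]; simp
        · have h0 : (y.1.val + y.2.val + c.val) / 10 = 0 := by omega
          rw [h0]; simp
      rw [Finset.sum_congr rfl (fun y _ => h1 y), Finset.sum_add_distrib, ← Finset.sum_mul,
        ← Finset.sum_mul, dcnt45]
      rw [dcnt55]
    have k0 := key 0
    have k1 := key 1
    simp only [Fin.val_zero, Fin.val_one, mul_zero, mul_one, add_zero, Nat.sub_zero] at k0 k1
    rw [k0, k1, pow_succ, pow_succ]
    constructor <;> omega

theorem sum_co_if (B : ℕ) (d : ℕ) (hd : 1 ≤ d) :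
    2 * (∑ x : Fin B → Y2, if co 0 (zb x) = d then 1 else 0) =
      if d = 1 then 100 ^ B - 10 ^ B else 0 := by
  have hco : ∀ x : Fin B → Y2, co 0 (zb x) ≤ 1 := fun x => co_le (by norm_num) (zb_le x)
  by_cases h : d = 1
  · subst h
    rw [if_pos rfl]
    have h1 : ∀ x : Fin B → Y2, (if co 0 (zb x) = 1 then 1 else 0) = co 0 (zb x) := by
      intro x
      have := hco x
      split_ifs <;> omega
    rw [Finset.sum_congr rfl (fun x _ => h1 x)]
    have := (sum_co B).1
    omega
  · rw [if_neg h]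
    have h1 : ∀ x : Fin B → Y2, (if co 0 (zb x) = d then 1 else 0) = 0 := by
      intro x
      have := hco x
      rw [if_neg (by omega)]
    rw [Finset.sum_congr rfl (fun x _ => h1 x)]
    simp

theorem zb_rev {B : ℕ} (x : Fin B → Y2) : (zb x).reverse = zb (fun i => x i.rev) := by
  apply List.ext_getElem
  · simp [zb]
  · intro i h1 h2
    have hi : i < B := by simpa [zb] using h2
    rw [List.getElem_reverse]
    simp only [zb, List.getElem_ofFn, List.length_ofFn]
    have e : (Fin.rev ⟨i, hi⟩ : Fin B) = ⟨B - 1 - i, by omega⟩ := by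
      apply Fin.ext
      rw [Fin.val_rev]
      simp only
      omega
    rw [e]

theorem sum_rev {B : ℕ} (f : (Fin B → Y2) → ℕ) :
    ∑ x : Fin B → Y2, f (fun i => x i.rev) = ∑ x : Fin B → Y2, f x :=
  Fintype.sum_equiv ((Fin.revPerm).arrowCongr (Equiv.refl Y2)) _ _ (fun _ => rfl)

/-- the sum of the contributions of all blocks -/
theorem sum_ph (B : ℕ) (d : ℕ) (h1 : 1 ≤ d) (h9 : d ≤ 9) :
    ∑ x : Fin B → Y2, ph (zb x) d =
      2 * Nb B + (if d = 1 then 100 ^ B - 10 ^ B else 0) := by
  have e : ∀ x : Fin B → Y2, ph (zb x) d =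
      ((out 0 (zb x)).count d + (if co 0 (zb x) = d then 1 else 0)) +
      ((out 0 (zb (fun i => x i.rev))).count d +
        (if co 0 (zb (fun i => x i.rev)) = d then 1 else 0)) := by
    intro x
    rw [ph, zb_rev]
  rw [Finset.sum_congr rfl (fun x _ => e x), Finset.sum_add_distrib,
    sum_rev (fun x => (out 0 (zb x)).count d + (if co 0 (zb x) = d then 1 else 0)),
    Finset.sum_add_distrib, sum_out B 0 (by norm_num) d (by omega)]
  have := sum_co_if B d h1
  omega

end Pool.RAT
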