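import Pool.Agent.H42.RAT2.Sys

/-!
# RATS (MP_a315fd): cells of a symbolic system
-/

set_option autoImplicit false

namespace Pool.RAT

/-- one of the first `κ` terms after `n` has at most `V` digits other than `1` and at least `m`
digits -/
def NG (κ V m n : ℕ) : Prop :=
  ∃ k ≤ κ, (Nat.digits 10 (rats^[k] n)).countP (fun d => decide (d ≠ 1)) ≤ V ∧
    m ≤ (Nat.digits 10 (rats^[k] n)).length

theorem NG.mono {κ κ' V V' m m' n : ℕ} (h1 : κ ≤ κ') (h2 : V ≤ V') (h3 : m' ≤ m)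
    (hn : NG κ V m n) : NG κ' V' m' n := by
  obtain ⟨k, hk1, hk, hk2⟩ := hn
  exact ⟨k, hk1.trans h1, hk.trans h2, h3.trans hk2⟩

theorem NG_of_rats {κ V m n : ℕ} (h : NG κ V m (rats n)) : NG (κ + 1) V m n := by
  obtain ⟨k, hk1, hk, hk2⟩ := h
  refine ⟨k + 1, by omega, ?_⟩
  rw [Function.iterate_succ_apply]
  exact ⟨hk, hk2⟩

theorem NG_iter {κ V m n : ℕ} (k : ℕ) (h : NG κ V m (rats^[k] n)) : NG (κ + k) V m n := by
  obtain ⟨j, hj1, hj, hj2⟩ := h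
  refine ⟨j + k, by omega, ?_⟩
  rw [Function.iterate_add_apply]
  exact ⟨hj, hj2⟩

theorem NG_one {V m n : ℕ}
    (h : (Nat.digits 10 (rats n)).countP (fun d => decide (d ≠ 1)) ≤ V)
    (h2 : m ≤ (Nat.digits 10 (rats n)).length) :
    NG (V + 1) (V + 1) m n :=
  ⟨1, by omega, by rw [Function.iterate_one]; exact ⟨by omega, h2⟩⟩

theorem cell_fin {α β A B : ℤ} (hα : 1 ≤ α) (hβ : 1 ≤ β) :
    ({Y | 0 ≤ A - α * Y ∧ 0 ≤ B + β * Y} : Set ℤ).Finite := by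
  apply (Set.finite_Icc (-|B|) |A|).subset
  rintro Y ⟨h1, h2⟩
  have hA := le_abs_self A
  have hB := le_abs_self B
  have hA0 := abs_nonneg A
  have hB0 := abs_nonneg B
  constructor
  · by_contra hc
    push Not at hc
    nlinarith
  · by_contra hc
    push Not at hc
    nlinarith

theorem cell_card {α β A B : ℤ} (hα : 1 ≤ α) (hβ : 1 ≤ β) {l : ℝ} (h0 : 0 ≤ l)
    (h : (A : ℝ) / α + B / β ≤ l) :
    ((({Y | 0 ≤ A - α * Y ∧ 0 ≤ B + β * Y} : Set ℤ).ncard : ℕ) : ℝ) ≤ l + 1 := by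
  have hα' : (1 : ℝ) ≤ α := by exact_mod_cast hα
  have hβ' : (1 : ℝ) ≤ β := by exact_mod_cast hβ
  have hsub : ({Y | 0 ≤ A - α * Y ∧ 0 ≤ B + β * Y} : Set ℤ) ⊆
      ((Finset.Icc ⌈-((B : ℝ) / β)⌉ ⌊(A : ℝ) / α⌋ : Finset ℤ) : Set ℤ) := by
    rintro Y ⟨h1, h2⟩
    rw [Finset.coe_Icc, Set.mem_Icc, Int.ceil_le, Int.le_floor]
    have h1' : (0 : ℝ) ≤ A - α * Y := by exact_mod_cast h1
    have h2' : (0 : ℝ) ≤ B + β * Y := by exact_mod_cast h2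
    constructor
    · rw [← neg_div, div_le_iff₀ (by linarith)]
      linarith
    · rw [le_div_iff₀ (by linarith)]
      linarith
  have h1 := Set.ncard_le_ncard hsub (Finset.finite_toSet _)
  rw [Set.ncard_coe_finset, Int.card_Icc] at h1
  have h2 : ((⌊(A : ℝ) / α⌋ + 1 - ⌈-((B : ℝ) / β)⌉ : ℤ) : ℝ) ≤ l + 1 := by
    push_cast
    have ha := Int.floor_le ((A : ℝ) / α)
    have hb := Int.le_ceil (-((B : ℝ) / β))
    linarith
  have h3 : (((⌊(A : ℝ) / α⌋ + 1 - ⌈-((B : ℝ) / β)⌉ : ℤ).toNat : ℕ) : ℝ) ≤ l + 1 := by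
    rcases le_total 0 (⌊(A : ℝ) / α⌋ + 1 - ⌈-((B : ℝ) / β)⌉ : ℤ) with hc | hc
    · have : (((⌊(A : ℝ) / α⌋ + 1 - ⌈-((B : ℝ) / β)⌉ : ℤ).toNat : ℤ) : ℝ) =
          ((⌊(A : ℝ) / α⌋ + 1 - ⌈-((B : ℝ) / β)⌉ : ℤ) : ℝ) := by
        rw [Int.toNat_of_nonneg hc]
      rw [← Int.cast_natCast, this]
      exact h2
    · rw [Int.toNat_of_nonpos hc]
      push_cast
      linarith
  have h4 : ((({Y | 0 ≤ A - α * Y ∧ 0 ≤ B + β * Y} : Set ℤ).ncard : ℕ) : ℝ) ≤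
      (((⌊(A : ℝ) / α⌋ + 1 - ⌈-((B : ℝ) / β)⌉ : ℤ).toNat : ℕ) : ℝ) := by exact_mod_cast h1
  linarith

theorem lin_fin {c d lo hi : ℤ} (hc : c ≠ 0) :
    ({Y | lo ≤ d + c * Y ∧ d + c * Y < hi} : Set ℤ).Finite := by
  apply Set.Finite.of_finite_image (f := fun Y => d + c * Y)
  · apply (Set.finite_Ico lo hi).subset
    rintro _ ⟨Y, ⟨h1, h2⟩, rfl⟩
    exact ⟨h1, h2⟩
  · intro x _ y _ hxy
    simp only at hxy
    have : c * x = c * y := by linarith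
    exact mul_left_cancel₀ hc this

theorem lin_card {c d lo hi : ℤ} (hc : c ≠ 0) :
    ({Y | lo ≤ d + c * Y ∧ d + c * Y < hi} : Set ℤ).ncard ≤ (hi - lo).toNat := by
  rw [← Int.card_Ico, ← Set.ncard_coe_finset]
  apply Set.ncard_le_ncard_of_injOn (fun Y => d + c * Y)
  · rintro Y ⟨h1, h2⟩
    rw [Finset.coe_Ico]
    exact ⟨h1, h2⟩
  · intro x _ y _ hxy
    simp only at hxy
    have : c * x = c * y := by linarith
    exact mul_left_cancel₀ hc this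

/-- the bad part of a cell -/
def bad (α β A B : ℤ) (s : ℤ → ℕ) (V m : ℕ) : Set ℤ :=
  {Y | 0 ≤ A - α * Y ∧ 0 ≤ B + β * Y ∧ ¬ NG V V m (s Y)}

/-- the condition on the slopes -/
def rc (S : Sys) (q : S.Q) (α β : ℤ) : Prop :=
  α ≤ 3 * β ∧ β ≤ 3 * α ∧ ∀ x, S.del q x = true → α ≤ 2 * β ∧ β ≤ 2 * α

/-- a cell with state `q` -/
def Cell (S : Sys) (q : S.Q) (α β A B : ℤ) (s : ℤ → ℕ) : Prop :=
  1 ≤ α ∧ 1 ≤ β ∧ rc S q α β ∧ ∀ Y : ℤ, (S.C q : ℤ) ≤ A - α * Y → (S.C q : ℤ) ≤ B + β * Y →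
    s Y = S.num q (A - α * Y).toNat (B + β * Y).toNat

/-- the bad part of a cell is at most `c` times its length, up to a constant and the part with few
digits -/
def BD (S : Sys) (q : S.Q) (c : ℝ) : Prop := ∃ (V : ℕ) (D : ℝ), 0 ≤ D ∧
  ∀ (α β A B : ℤ) (s : ℤ → ℕ) (l : ℝ) (P m : ℕ), Cell S q α β A B s → 1 ≤ P → (P : ℤ) ≤ α + β →
    0 ≤ l → (A : ℝ) / α + B / β ≤ l →
    (((bad α β A B s V m).ncard : ℕ) : ℝ) ≤ c * l + D * (1 + (m : ℝ) / P)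

theorem bad_fin {α β A B : ℤ} {s : ℤ → ℕ} {V m : ℕ} (hα : 1 ≤ α) (hβ : 1 ≤ β) :
    (bad α β A B s V m).Finite :=
  (cell_fin hα hβ).subset (fun _ h => ⟨h.1, h.2.1⟩)

theorem BD_one (S : Sys) (q : S.Q) : BD S q 1 := by
  refine ⟨0, 1, zero_le_one, fun α β A B s l P m hc _ _ h0 h => ?_⟩
  have h1 : ((bad α β A B s 0 m).ncard) ≤ ({Y | 0 ≤ A - α * Y ∧ 0 ≤ B + β * Y} : Set ℤ).ncard :=
    Set.ncard_le_ncard (fun _ h => ⟨h.1, h.2.1⟩) (cell_fin hc.1 hc.2.1)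
  have h2 := cell_card hc.1 hc.2.1 h0 h
  have h3 : (((bad α β A B s 0 m).ncard : ℕ) : ℝ) ≤
    ((({Y | 0 ≤ A - α * Y ∧ 0 ≤ B + β * Y} : Set ℤ).ncard : ℕ) : ℝ) := by exact_mod_cast h1
  have h4 : (0 : ℝ) ≤ (m : ℝ) / P := by positivity
  linarith

/-- few `Y` give a short term -/
theorem short_card {c d : ℤ} {V m P : ℕ} (hP : 1 ≤ P) (hc : (P : ℤ) ≤ c) {T : Set ℤ}
    (hT : ∀ Y ∈ T, 0 ≤ d - c * Y ∧ d - c * Y < V + m) :
    ((T.ncard : ℕ) : ℝ) ≤ (V + 1) * (1 + (m : ℝ) / P) := by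
  have hc1 : 1 ≤ c := by omega
  have hsub : T ⊆ ({Y | 0 ≤ d - c * Y ∧ 0 ≤ ((V : ℤ) + m - 1 - d) + c * Y} : Set ℤ) := by
    intro Y hY
    obtain ⟨h1, h2⟩ := hT Y hY
    exact ⟨h1, by linarith⟩
  have h1 := Set.ncard_le_ncard hsub (cell_fin hc1 hc1)
  have hPr : (1 : ℝ) ≤ P := by exact_mod_cast hP
  have hcr : (P : ℝ) ≤ c := by exact_mod_cast hc
  have hl : (0 : ℝ) ≤ (V : ℝ) + (m : ℝ) / P := by positivity
  have hlen : (d : ℝ) / c + (((V : ℤ) + m - 1 - d : ℤ) : ℝ) / c ≤ (V : ℝ) + (m : ℝ) / P := by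
    push_cast
    rw [← add_div, show (d : ℝ) + ((V : ℝ) + m - 1 - d) = (V : ℝ) + m - 1 by ring]
    have e1 : ((V : ℝ) + m - 1) / c ≤ ((V : ℝ) + m) / c :=
      div_le_div_of_nonneg_right (by linarith) (by linarith)
    have e2 : ((V : ℝ) + m) / c ≤ ((V : ℝ) + m) / P :=
      div_le_div_of_nonneg_left (by positivity) (by linarith) hcr
    have e3 : ((V : ℝ) + m) / P = (V : ℝ) / P + (m : ℝ) / P := add_div _ _ _
    have e4 : (V : ℝ) / P ≤ V := div_le_self (Nat.cast_nonneg _) hPr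
    linarith
  have h2 := cell_card hc1 hc1 hl hlen
  have h3 : ((T.ncard : ℕ) : ℝ) ≤ ((({Y | 0 ≤ d - c * Y ∧
    0 ≤ ((V : ℤ) + m - 1 - d) + c * Y} : Set ℤ).ncard : ℕ) : ℝ) := by exact_mod_cast h1
  have h4 : (0 : ℝ) ≤ (V : ℝ) * ((m : ℝ) / P) := by positivity
  nlinarith

/-- the margin used in a step -/
def mg (S : Sys) (q : S.Q) : ℤ :=
  S.C q + |S.e1 q false| + |S.e2 q false| + |S.e1 q true| + |S.e2 q true|

/-- success, or a bound at the next state -/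
def BDs (S : Sys) (q : S.Q) (x : Bool) (c : ℝ) : Prop :=
  0 ≤ c ∧ (S.suc q x ∨ BD S (S.st q x) c)

end Pool.RAT
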