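import Pool.Agent.H42.RAT2.Cell

/-!
# RATS (MP_a315fd): one step of a cell
-/

set_option autoImplicit false

namespace Pool.RAT

/-- the part of a cell where the first bulk is larger -/
def R0 (S : Sys) (q : S.Q) (α β A B : ℤ) (s : ℤ → ℕ) (V m : ℕ) : Set ℤ :=
  {Y | B + β * Y + mg S q ≤ A - α * Y ∧ mg S q ≤ B + β * Y ∧ ¬ NG V V m (s Y)}

/-- the part of a cell where the second bulk is larger -/
def R1 (S : Sys) (q : S.Q) (α β A B : ℤ) (s : ℤ → ℕ) (V m : ℕ) : Set ℤ :=
  {Y | A - α * Y + mg S q ≤ B + β * Y ∧ mg S q ≤ A - α * Y ∧ ¬ NG V V m (s Y)}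

theorem mg_le (S : Sys) (q : S.Q) : (S.C q : ℤ) ≤ mg S q ∧ 0 ≤ mg S q ∧
    -(S.e1 q false) ≤ mg S q ∧ -(S.e2 q false) ≤ mg S q ∧ -(S.e1 q true) ≤ mg S q ∧
    -(S.e2 q true) ≤ mg S q := by
  unfold mg
  have h1 := neg_le_abs (S.e1 q false)
  have h2 := neg_le_abs (S.e2 q false)
  have h3 := neg_le_abs (S.e1 q true)
  have h4 := neg_le_abs (S.e2 q true)
  have h5 := abs_nonneg (S.e1 q false)
  have h6 := abs_nonneg (S.e2 q false)
  have h7 := abs_nonneg (S.e1 q true)
  have h8 := abs_nonneg (S.e2 q true)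
  refine ⟨by linarith, by positivity, ?_, ?_, ?_, ?_⟩ <;> linarith [Int.natCast_nonneg (S.C q)]

theorem sub0 (S : Sys) (q : S.Q) {c : ℝ} (hx : BDs S q false c) : ∃ (V : ℕ) (D : ℝ), 0 ≤ D ∧
    ∀ (α β A B : ℤ) (s : ℤ → ℕ) (l : ℝ) (P m : ℕ), Cell S q α β A B s → 1 ≤ P →
      (P : ℤ) ≤ α + β → 0 ≤ l → (A : ℝ) / α + B / β ≤ l →
      (((R0 S q α β A B s V m).ncard : ℕ) : ℝ) ≤ c * (l * ((α : ℝ) / (α + β))) +
        D * (1 + (m : ℝ) / P) := by
  obtain ⟨hc0, hx⟩ := hx
  obtain ⟨m1, m2, m3, m4, -, -⟩ := mg_le S q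
  by_cases hsuc : S.suc q false
  · obtain ⟨V, hV⟩ := S.hs0 q hsuc
    refine ⟨V + 1, V + 1, by positivity, fun α β A B s l P m hcell hP hPc hl h => ?_⟩
    obtain ⟨hα, hβ, -, hs⟩ := hcell
    have hsh := short_card (T := R0 S q α β A B s (V + 1) m) (c := α + β) (d := A - B)
      (V := V) (m := m) hP hPc (by
        rintro Y ⟨h1, h2, h3⟩
        have ha : (((A - α * Y).toNat : ℕ) : ℤ) = A - α * Y := Int.toNat_of_nonneg (by linarith)
        have hb : (((B + β * Y).toNat : ℕ) : ℤ) = B + β * Y := Int.toNat_of_nonneg (by linarith)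
        have hr1 : (B + β * Y).toNat + S.C q ≤ (A - α * Y).toNat := by
          have : (((B + β * Y).toNat + S.C q : ℕ) : ℤ) ≤ ((A - α * Y).toNat : ℕ) := by
            rw [Nat.cast_add, ha, hb]
            linarith
          exact_mod_cast this
        have hr2 : S.C q ≤ (B + β * Y).toNat := by
          have : ((S.C q : ℕ) : ℤ) ≤ ((B + β * Y).toNat : ℕ) := by
            rw [hb]
            linarith
          exact_mod_cast this
        obtain ⟨hv1, hv2⟩ := hV _ _ hr1 hr2
        have e : A - B - (α + β) * Y = (A - α * Y) - (B + β * Y) := by ring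
        rw [e]
        refine ⟨by linarith, ?_⟩
        by_contra hcon
        apply h3
        apply NG_one
        · rw [hs Y (by linarith) (by linarith)]
          exact hv1
        · rw [hs Y (by linarith) (by linarith)]
          omega)
    have hα' : (1 : ℝ) ≤ α := by exact_mod_cast hα
    have hβ' : (1 : ℝ) ≤ β := by exact_mod_cast hβ
    have : 0 ≤ c * (l * ((α : ℝ) / (α + β))) := by positivity
    linarith
  · have hx := hx.resolve_left hsuc
    obtain ⟨V, D, hD, hx⟩ := hx
    refine ⟨V + 1, c * (|(S.e1 q false : ℝ)| + |(S.e2 q false : ℝ)|) + D, by positivity,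
      fun α β A B s l P m' hcell hP hPc hl h => ?_⟩
    obtain ⟨hα, hβ, hrc, hs⟩ := hcell
    obtain ⟨m, hm⟩ : ∃ m : ℤ, m = (if S.del q false = true then 1 else 2) := ⟨_, rfl⟩
    have hm12 : m = 1 ∨ m = 2 := by
      rw [hm]
      split_ifs
      · exact Or.inl rfl
      · exact Or.inr rfl
    have hm1 : 1 ≤ m := by omega
    obtain ⟨s', hs'⟩ : ∃ s' : ℤ → ℕ, ∀ Y, s' Y =
      if B + β * Y + mg S q ≤ A - α * Y ∧ mg S q ≤ B + β * Y then rats (s Y) else
        S.num (S.st q false) ((A - B + S.e1 q false) - (α + β) * Y).toNat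
          ((m * B + S.e2 q false) + (m * β) * Y).toNat := ⟨_, fun _ => rfl⟩
    have hcell' : Cell S (S.st q false) (α + β) (m * β) (A - B + S.e1 q false)
        (m * B + S.e2 q false) s' := by
      refine ⟨by linarith, by nlinarith, ?_, ?_⟩
      · obtain ⟨r1, r2, r3⟩ := hrc
        rcases hm12 with hm1' | hm2
        · have hd : S.del q false = true := by
            by_contra hd
            rw [if_neg hd] at hm
            omega
          have := r3 false hd
          subst hm1'
          refine ⟨by linarith, by linarith, fun x hx => ?_⟩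
          rw [S.hdel q false x hd] at hx
          exact absurd hx (by decide)
        · subst hm2
          refine ⟨by linarith, by linarith, fun x _ => ⟨by linarith, by linarith⟩⟩
      · intro Y hY1 hY2
        rw [hs']
        split_ifs with hif
        · obtain ⟨i1, i2⟩ := hif
          rw [hs Y (by linarith) (by linarith)]
          have ha : (((A - α * Y).toNat : ℕ) : ℤ) = A - α * Y := Int.toNat_of_nonneg (by linarith)
          have hb : (((B + β * Y).toNat : ℕ) : ℤ) = B + β * Y := Int.toNat_of_nonneg (by linarith)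
          have hC := Int.natCast_nonneg (S.C (S.st q false))
          have ha' : (((A - B + S.e1 q false - (α + β) * Y).toNat : ℕ) : ℤ) =
            A - B + S.e1 q false - (α + β) * Y := Int.toNat_of_nonneg (by linarith)
          have hb' : (((m * B + S.e2 q false + (m * β) * Y).toNat : ℕ) : ℤ) =
            m * B + S.e2 q false + (m * β) * Y := Int.toNat_of_nonneg (by linarith)
          apply S.h0 q hsuc
          · have : (((B + β * Y).toNat + S.C q : ℕ) : ℤ) ≤ ((A - α * Y).toNat : ℕ) := by
              rw [Nat.cast_add, ha, hb]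
              linarith
            exact_mod_cast this
          · have : ((S.C q : ℕ) : ℤ) ≤ ((B + β * Y).toNat : ℕ) := by
              rw [hb]
              linarith
            exact_mod_cast this
          · rw [ha', ha, hb]
            ring
          · rw [hb', hb, ← hm]
            ring
        · rfl
    have hα' : (1 : ℝ) ≤ α := by exact_mod_cast hα
    have hβ' : (1 : ℝ) ≤ β := by exact_mod_cast hβ
    have hm' : (1 : ℝ) ≤ m := by exact_mod_cast hm1
    have hl' : (0 : ℝ) ≤ l * ((α : ℝ) / (α + β)) + |(S.e1 q false : ℝ)| + |(S.e2 q false : ℝ)| := by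
      positivity
    have hlen : (((A - B + S.e1 q false : ℤ)) : ℝ) / ((α + β : ℤ) : ℝ) +
        ((m * B + S.e2 q false : ℤ) : ℝ) / ((m * β : ℤ) : ℝ) ≤
        l * ((α : ℝ) / (α + β)) + |(S.e1 q false : ℝ)| + |(S.e2 q false : ℝ)| := by
      push_cast
      have key : (((A : ℝ) - B + S.e1 q false) / (α + β) + ((m : ℝ) * B + S.e2 q false) / (m * β)) =
        ((A : ℝ) / α + B / β) * ((α : ℝ) / (α + β)) + (S.e1 q false : ℝ) / (α + β) +
          (S.e2 q false : ℝ) / (m * β) := by
        field_simp
        ring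
      rw [key]
      have k1 : ((A : ℝ) / α + B / β) * ((α : ℝ) / (α + β)) ≤ l * ((α : ℝ) / (α + β)) :=
        mul_le_mul_of_nonneg_right h (by positivity)
      have k2 : (S.e1 q false : ℝ) / (α + β) ≤ |(S.e1 q false : ℝ)| := by
        refine (div_le_div_of_nonneg_right (le_abs_self _) (by positivity)).trans ?_
        apply div_le_self (abs_nonneg _)
        linarith
      have k3 : (S.e2 q false : ℝ) / (m * β) ≤ |(S.e2 q false : ℝ)| := by
        refine (div_le_div_of_nonneg_right (le_abs_self _) (by positivity)).trans ?_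
        apply div_le_self (abs_nonneg _)
        nlinarith
      linarith
    have hPc' : (P : ℤ) ≤ (α + β) + m * β := by
      nlinarith
    have hb := hx _ _ _ _ s' _ P m' hcell' hP hPc' hl' hlen
    have hsub : R0 S q α β A B s (V + 1) m' ⊆ bad (α + β) (m * β) (A - B + S.e1 q false)
        (m * B + S.e2 q false) s' V m' := by
      rintro Y ⟨h1, h2, h3⟩
      refine ⟨by linarith, ?_, ?_⟩
      · rcases hm12 with rfl | rfl <;> linarith
      · rw [hs', if_pos ⟨h1, h2⟩]
        exact fun hn => h3 ((NG_of_rats hn).mono le_rfl (by omega) le_rfl)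
    have h4 := Set.ncard_le_ncard hsub (bad_fin (by linarith) (by nlinarith))
    have h5 : (((R0 S q α β A B s (V + 1) m').ncard : ℕ) : ℝ) ≤ (((bad (α + β) (m * β)
      (A - B + S.e1 q false) (m * B + S.e2 q false) s' V m').ncard : ℕ) : ℝ) := by exact_mod_cast h4
    refine h5.trans (hb.trans ?_)
    have ht : (0 : ℝ) ≤ (m' : ℝ) / P := by positivity
    have hE : (0 : ℝ) ≤ c * (|(S.e1 q false : ℝ)| + |(S.e2 q false : ℝ)|) := by positivity
    nlinarith

end Pool.RAT
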