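import Pool.Agent.H42.RAT2.Cell2

/-!
# RATS (MP_a315fd): one step of a cell, the other half
-/

set_option autoImplicit false

namespace Pool.RAT

theorem sub1 (S : Sys) (q : S.Q) {c : ℝ} (hx : BDs S q true c) : ∃ (V : ℕ) (D : ℝ), 0 ≤ D ∧
    ∀ (α β A B : ℤ) (s : ℤ → ℕ) (l : ℝ) (P m : ℕ), Cell S q α β A B s → 1 ≤ P →
      (P : ℤ) ≤ α + β → 0 ≤ l → (A : ℝ) / α + B / β ≤ l →
      (((R1 S q α β A B s V m).ncard : ℕ) : ℝ) ≤ c * (l * ((β : ℝ) / (α + β))) +
        D * (1 + (m : ℝ) / P) := by
  obtain ⟨hc0, hx⟩ := hx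
  obtain ⟨m1, m2, -, -, m3, m4⟩ := mg_le S q
  by_cases hsuc : S.suc q true
  · obtain ⟨V, hV⟩ := S.hs1 q hsuc
    refine ⟨V + 1, V + 1, by positivity, fun α β A B s l P m hcell hP hPc hl h => ?_⟩
    obtain ⟨hα, hβ, -, hs⟩ := hcell
    have hsh : (((R1 S q α β A B s (V + 1) m).ncard : ℕ) : ℝ) ≤ (V + 1) * (1 + (m : ℝ) / P) := by
      have hneg := short_card (T := (fun Y : ℤ => -Y) '' R1 S q α β A B s (V + 1) m) (c := α + β)
        (d := B - A) (V := V) (m := m) hP hPc (by
          rintro _ ⟨Y, ⟨h1, h2, h3⟩, rfl⟩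
          simp only
          have ha : (((A - α * Y).toNat : ℕ) : ℤ) = A - α * Y := Int.toNat_of_nonneg (by linarith)
          have hb : (((B + β * Y).toNat : ℕ) : ℤ) = B + β * Y := Int.toNat_of_nonneg (by linarith)
          have hr1 : (A - α * Y).toNat + S.C q ≤ (B + β * Y).toNat := by
            have : (((A - α * Y).toNat + S.C q : ℕ) : ℤ) ≤ ((B + β * Y).toNat : ℕ) := by
              rw [Nat.cast_add, ha, hb]
              linarith
            exact_mod_cast this
          have hr2 : S.C q ≤ (A - α * Y).toNat := by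
            have : ((S.C q : ℕ) : ℤ) ≤ ((A - α * Y).toNat : ℕ) := by
              rw [ha]
              linarith
            exact_mod_cast this
          obtain ⟨hv1, hv2⟩ := hV _ _ hr1 hr2
          have e : B - A - (α + β) * -Y = (B + β * Y) - (A - α * Y) := by ring
          rw [e]
          refine ⟨by linarith, ?_⟩
          by_contra hcon
          apply h3
          apply NG_one
          · rw [hs Y (by linarith) (by linarith)]
            exact hv1
          · rw [hs Y (by linarith) (by linarith)]
            omega)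
      rw [Set.ncard_image_of_injective _ neg_injective] at hneg
      exact hneg
    have hα' : (1 : ℝ) ≤ α := by exact_mod_cast hα
    have hβ' : (1 : ℝ) ≤ β := by exact_mod_cast hβ
    have : 0 ≤ c * (l * ((β : ℝ) / (α + β))) := by positivity
    linarith
  · have hx := hx.resolve_left hsuc
    obtain ⟨V, D, hD, hx⟩ := hx
    refine ⟨V + 1, c * (|(S.e1 q true : ℝ)| + |(S.e2 q true : ℝ)|) + D, by positivity,
      fun α β A B s l P m' hcell hP hPc hl h => ?_⟩
    obtain ⟨hα, hβ, hrc, hs⟩ := hcell
    obtain ⟨m, hm⟩ : ∃ m : ℤ, m = (if S.del q true = true then 1 else 2) := ⟨_, rfl⟩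
    have hm12 : m = 1 ∨ m = 2 := by
      rw [hm]
      split_ifs
      · exact Or.inl rfl
      · exact Or.inr rfl
    have hm1 : 1 ≤ m := by omega
    obtain ⟨s', hs'⟩ : ∃ s' : ℤ → ℕ, ∀ Y, s' Y =
      if A - α * Y + mg S q ≤ B + β * Y ∧ mg S q ≤ A - α * Y then rats (s Y) else
        S.num (S.st q true) ((m * A + S.e1 q true) - (m * α) * Y).toNat
          ((B - A + S.e2 q true) + (α + β) * Y).toNat := ⟨_, fun _ => rfl⟩
    have hcell' : Cell S (S.st q true) (m * α) (α + β) (m * A + S.e1 q true)
        (B - A + S.e2 q true) s' := by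
      refine ⟨by nlinarith, by linarith, ?_, ?_⟩
      · obtain ⟨r1, r2, r3⟩ := hrc
        rcases hm12 with hm1' | hm2
        · have hd : S.del q true = true := by
            by_contra hd
            rw [if_neg hd] at hm
            omega
          have := r3 true hd
          subst hm1'
          refine ⟨by linarith, by linarith, fun x hx => ?_⟩
          rw [S.hdel q true x hd] at hx
          exact absurd hx (by decide)
        · subst hm2
          refine ⟨by linarith, by linarith, fun x _ => ⟨by linarith, by linarith⟩⟩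
      · intro Y hY1 hY2
        rw [hs']
        split_ifs with hif
        · obtain ⟨i1, i2⟩ := hif
          rw [hs Y (by linarith) (by linarith)]
          have ha : (((A - α * Y).toNat : ℕ) : ℤ) = A - α * Y := Int.toNat_of_nonneg (by linarith)
          have hb : (((B + β * Y).toNat : ℕ) : ℤ) = B + β * Y := Int.toNat_of_nonneg (by linarith)
          have hC := Int.natCast_nonneg (S.C (S.st q true))
          have ha' : (((m * A + S.e1 q true - (m * α) * Y).toNat : ℕ) : ℤ) =
            m * A + S.e1 q true - (m * α) * Y := Int.toNat_of_nonneg (by linarith)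
          have hb' : (((B - A + S.e2 q true + (α + β) * Y).toNat : ℕ) : ℤ) =
            B - A + S.e2 q true + (α + β) * Y := Int.toNat_of_nonneg (by linarith)
          apply S.h1 q hsuc
          · have : (((A - α * Y).toNat + S.C q : ℕ) : ℤ) ≤ ((B + β * Y).toNat : ℕ) := by
              rw [Nat.cast_add, ha, hb]
              linarith
            exact_mod_cast this
          · have : ((S.C q : ℕ) : ℤ) ≤ ((A - α * Y).toNat : ℕ) := by
              rw [ha]
              linarith
            exact_mod_cast this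
          · rw [ha', ha, ← hm]
            ring
          · rw [hb', hb, ha]
            ring
        · rfl
    have hα' : (1 : ℝ) ≤ α := by exact_mod_cast hα
    have hβ' : (1 : ℝ) ≤ β := by exact_mod_cast hβ
    have hm' : (1 : ℝ) ≤ m := by exact_mod_cast hm1
    have hl' : (0 : ℝ) ≤ l * ((β : ℝ) / (α + β)) + |(S.e1 q true : ℝ)| + |(S.e2 q true : ℝ)| := by
      positivity
    have hlen : (((m * A + S.e1 q true : ℤ)) : ℝ) / ((m * α : ℤ) : ℝ) +
        ((B - A + S.e2 q true : ℤ) : ℝ) / ((α + β : ℤ) : ℝ) ≤
        l * ((β : ℝ) / (α + β)) + |(S.e1 q true : ℝ)| + |(S.e2 q true : ℝ)| := by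
      push_cast
      have key : (((m : ℝ) * A + S.e1 q true) / (m * α) + ((B : ℝ) - A + S.e2 q true) / (α + β)) =
        ((A : ℝ) / α + B / β) * ((β : ℝ) / (α + β)) + (S.e1 q true : ℝ) / (m * α) +
          (S.e2 q true : ℝ) / (α + β) := by
        field_simp
        ring
      rw [key]
      have k1 : ((A : ℝ) / α + B / β) * ((β : ℝ) / (α + β)) ≤ l * ((β : ℝ) / (α + β)) :=
        mul_le_mul_of_nonneg_right h (by positivity)
      have k2 : (S.e1 q true : ℝ) / (m * α) ≤ |(S.e1 q true : ℝ)| := by
        refine (div_le_div_of_nonneg_right (le_abs_self _) (by positivity)).trans ?_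
        apply div_le_self (abs_nonneg _)
        nlinarith
      have k3 : (S.e2 q true : ℝ) / (α + β) ≤ |(S.e2 q true : ℝ)| := by
        refine (div_le_div_of_nonneg_right (le_abs_self _) (by positivity)).trans ?_
        apply div_le_self (abs_nonneg _)
        linarith
      linarith
    have hPc' : (P : ℤ) ≤ m * α + (α + β) := by
      nlinarith
    have hb := hx _ _ _ _ s' _ P m' hcell' hP hPc' hl' hlen
    have hsub : R1 S q α β A B s (V + 1) m' ⊆ bad (m * α) (α + β) (m * A + S.e1 q true)
        (B - A + S.e2 q true) s' V m' := by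
      rintro Y ⟨h1, h2, h3⟩
      refine ⟨?_, by linarith, ?_⟩
      · rcases hm12 with rfl | rfl <;> linarith
      · rw [hs', if_pos ⟨h1, h2⟩]
        exact fun hn => h3 ((NG_of_rats hn).mono le_rfl (by omega) le_rfl)
    have h4 := Set.ncard_le_ncard hsub (bad_fin (by nlinarith) (by linarith))
    have h5 : (((R1 S q α β A B s (V + 1) m').ncard : ℕ) : ℝ) ≤ (((bad (m * α) (α + β)
      (m * A + S.e1 q true) (B - A + S.e2 q true) s' V m').ncard : ℕ) : ℝ) := by exact_mod_cast h4
    refine h5.trans (hb.trans ?_)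
    have ht : (0 : ℝ) ≤ (m' : ℝ) / P := by positivity
    have hE : (0 : ℝ) ≤ c * (|(S.e1 q true : ℝ)| + |(S.e2 q true : ℝ)|) := by positivity
    nlinarith

end Pool.RAT
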