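import Pool.Agent.H42.RAT2.Cell3

/-!
# RATS (MP_a315fd): the bad part of a cell is small
-/

set_option autoImplicit false

namespace Pool.RAT

theorem R0_fin {S : Sys} {q : S.Q} {α β A B : ℤ} {s : ℤ → ℕ} {V m : ℕ} (hα : 1 ≤ α) (hβ : 1 ≤ β) :
    (R0 S q α β A B s V m).Finite := by
  apply (cell_fin (A := A) (B := B) hα hβ).subset
  rintro Y ⟨h1, h2, -⟩
  have := (mg_le S q).2.1
  exact ⟨by linarith, by linarith⟩

theorem R1_fin {S : Sys} {q : S.Q} {α β A B : ℤ} {s : ℤ → ℕ} {V m : ℕ} (hα : 1 ≤ α) (hβ : 1 ≤ β) :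
    (R1 S q α β A B s V m).Finite := by
  apply (cell_fin (A := A) (B := B) hα hβ).subset
  rintro Y ⟨h1, h2, -⟩
  have := (mg_le S q).2.1
  exact ⟨by linarith, by linarith⟩

theorem comb (S : Sys) (q : S.Q) {α β A B : ℤ} (s : ℤ → ℕ) (V m : ℕ) (hα : 1 ≤ α) (hβ : 1 ≤ β) :
    (bad α β A B s V m).ncard ≤ (R0 S q α β A B s V m).ncard + (R1 S q α β A B s V m).ncard +
      4 * (mg S q).toNat := by
  have hm := (mg_le S q).2.1
  have hsub : bad α β A B s V m ⊆ (R0 S q α β A B s V m ∪ R1 S q α β A B s V m) ∪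
      (({Y | 0 ≤ B + β * Y ∧ B + β * Y < mg S q} ∪ {Y | 0 ≤ A + (-α) * Y ∧ A + (-α) * Y < mg S q}) ∪
        {Y | -(mg S q) ≤ (B - A) + (α + β) * Y ∧ (B - A) + (α + β) * Y < mg S q}) := by
    rintro Y ⟨h1, h2, h3⟩
    by_cases c1 : B + β * Y < mg S q
    · exact Or.inr (Or.inl (Or.inl ⟨h2, c1⟩))
    by_cases c2 : A + (-α) * Y < mg S q
    · exact Or.inr (Or.inl (Or.inr ⟨by linarith, c2⟩))
    by_cases c3 : B + β * Y + mg S q ≤ A - α * Y
    · exact Or.inl (Or.inl ⟨c3, by linarith, h3⟩)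
    by_cases c4 : A - α * Y + mg S q ≤ B + β * Y
    · exact Or.inl (Or.inr ⟨c4, by linarith, h3⟩)
    · exact Or.inr (Or.inr ⟨by linarith, by linarith⟩)
  have hfin : ((R0 S q α β A B s V m ∪ R1 S q α β A B s V m) ∪
      (({Y | 0 ≤ B + β * Y ∧ B + β * Y < mg S q} ∪ {Y | 0 ≤ A + (-α) * Y ∧ A + (-α) * Y < mg S q}) ∪
        {Y | -(mg S q) ≤ (B - A) + (α + β) * Y ∧ (B - A) + (α + β) * Y < mg S q})).Finite := by
    refine ((R0_fin hα hβ).union (R1_fin hα hβ)).union (((lin_fin (by omega)).union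
      (lin_fin (by omega))).union (lin_fin (by omega)))
  refine (Set.ncard_le_ncard hsub hfin).trans ?_
  refine (Set.ncard_union_le _ _).trans ?_
  have h1 := Set.ncard_union_le (R0 S q α β A B s V m) (R1 S q α β A B s V m)
  have h2 := Set.ncard_union_le
    ({Y | 0 ≤ B + β * Y ∧ B + β * Y < mg S q} ∪ {Y | 0 ≤ A + (-α) * Y ∧ A + (-α) * Y < mg S q})
    {Y | -(mg S q) ≤ (B - A) + (α + β) * Y ∧ (B - A) + (α + β) * Y < mg S q}
  have h3 := Set.ncard_union_le {Y | 0 ≤ B + β * Y ∧ B + β * Y < mg S q}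
    {Y | 0 ≤ A + (-α) * Y ∧ A + (-α) * Y < mg S q}
  have h4 := lin_card (c := β) (d := B) (lo := 0) (hi := mg S q) (by omega)
  have h5 := lin_card (c := -α) (d := A) (lo := 0) (hi := mg S q) (by omega)
  have h6 := lin_card (c := α + β) (d := B - A) (lo := -(mg S q)) (hi := mg S q) (by omega)
  have e1 : (mg S q - 0).toNat = (mg S q).toNat := by rw [sub_zero]
  have e2 : (mg S q - -(mg S q)).toNat = 2 * (mg S q).toNat := by omega
  omega

theorem BD_step (S : Sys) (q : S.Q) (x : Bool) {cw c : ℝ} (h1 : BDs S q x cw)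
    (h2 : BDs S q (!x) c) (hle : cw ≤ c) : BD S q (cw / 4 + 3 * c / 4) := by
  cases x with
  | false =>
    obtain ⟨V0, D0, hD0, k0⟩ := sub0 S q h1
    obtain ⟨V1, D1, hD1, k1⟩ := sub1 S q h2
    refine ⟨max V0 V1, D0 + D1 + 4 * (mg S q).toNat, by positivity,
      fun α β A B s l P m hcell hP hPc hl h => ?_⟩
    have hα := hcell.1
    have hβ := hcell.2.1
    have b0 := k0 α β A B s l P m hcell hP hPc hl h
    have b1 := k1 α β A B s l P m hcell hP hPc hl h
    have hc := comb S q (A := A) (B := B) s (max V0 V1) m hα hβ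
    have n0 : (R0 S q α β A B s (max V0 V1) m).ncard ≤ (R0 S q α β A B s V0 m).ncard :=
      Set.ncard_le_ncard (fun Y hY => ⟨hY.1, hY.2.1, fun hn => hY.2.2 (hn.mono (le_max_left _ _) (le_max_left _ _) le_rfl)⟩)
        (R0_fin hα hβ)
    have n1 : (R1 S q α β A B s (max V0 V1) m).ncard ≤ (R1 S q α β A B s V1 m).ncard :=
      Set.ncard_le_ncard (fun Y hY => ⟨hY.1, hY.2.1, fun hn => hY.2.2 (hn.mono (le_max_right _ _) (le_max_right _ _) le_rfl)⟩)
        (R1_fin hα hβ)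
    have hα' : (1 : ℝ) ≤ α := by exact_mod_cast hα
    have hβ' : (1 : ℝ) ≤ β := by exact_mod_cast hβ
    have r1 : (β : ℝ) ≤ 3 * α := by exact_mod_cast hcell.2.2.1.2.1
    have t1 : (1 : ℝ) / 4 ≤ (α : ℝ) / (α + β) := by
      rw [div_le_div_iff₀ (by norm_num) (by linarith)]
      linarith
    have t2 : (β : ℝ) / (α + β) = 1 - (α : ℝ) / (α + β) := by
      field_simp
      ring
    rw [t2] at b1
    have hc' : (((bad α β A B s (max V0 V1) m).ncard : ℕ) : ℝ) ≤
        (((R0 S q α β A B s V0 m).ncard : ℕ) : ℝ) + (((R1 S q α β A B s V1 m).ncard : ℕ) : ℝ) +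
          4 * ((mg S q).toNat : ℕ) := by
      have : (bad α β A B s (max V0 V1) m).ncard ≤ (R0 S q α β A B s V0 m).ncard +
        (R1 S q α β A B s V1 m).ncard + 4 * (mg S q).toNat := by omega
      exact_mod_cast this
    have hk : (c - cw) * l * (1 / 4) ≤ (c - cw) * l * ((α : ℝ) / (α + β)) := by
      apply mul_le_mul_of_nonneg_left t1
      exact mul_nonneg (by linarith) hl
    have ht : (0 : ℝ) ≤ 4 * ((mg S q).toNat : ℕ) * ((m : ℝ) / P) := by positivity
    nlinarith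
  | true =>
    obtain ⟨V1, D1, hD1, k1⟩ := sub1 S q h1
    obtain ⟨V0, D0, hD0, k0⟩ := sub0 S q h2
    refine ⟨max V0 V1, D0 + D1 + 4 * (mg S q).toNat, by positivity,
      fun α β A B s l P m hcell hP hPc hl h => ?_⟩
    have hα := hcell.1
    have hβ := hcell.2.1
    have b0 := k0 α β A B s l P m hcell hP hPc hl h
    have b1 := k1 α β A B s l P m hcell hP hPc hl h
    have hc := comb S q (A := A) (B := B) s (max V0 V1) m hα hβ
    have n0 : (R0 S q α β A B s (max V0 V1) m).ncard ≤ (R0 S q α β A B s V0 m).ncard :=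
      Set.ncard_le_ncard (fun Y hY => ⟨hY.1, hY.2.1, fun hn => hY.2.2 (hn.mono (le_max_left _ _) (le_max_left _ _) le_rfl)⟩)
        (R0_fin hα hβ)
    have n1 : (R1 S q α β A B s (max V0 V1) m).ncard ≤ (R1 S q α β A B s V1 m).ncard :=
      Set.ncard_le_ncard (fun Y hY => ⟨hY.1, hY.2.1, fun hn => hY.2.2 (hn.mono (le_max_right _ _) (le_max_right _ _) le_rfl)⟩)
        (R1_fin hα hβ)
    have hα' : (1 : ℝ) ≤ α := by exact_mod_cast hα
    have hβ' : (1 : ℝ) ≤ β := by exact_mod_cast hβ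
    have r1 : (α : ℝ) ≤ 3 * β := by exact_mod_cast hcell.2.2.1.1
    have t1 : (1 : ℝ) / 4 ≤ (β : ℝ) / (α + β) := by
      rw [div_le_div_iff₀ (by norm_num) (by linarith)]
      linarith
    have t2 : (α : ℝ) / (α + β) = 1 - (β : ℝ) / (α + β) := by
      field_simp
      ring
    rw [t2] at b0
    have hc' : (((bad α β A B s (max V0 V1) m).ncard : ℕ) : ℝ) ≤
        (((R0 S q α β A B s V0 m).ncard : ℕ) : ℝ) + (((R1 S q α β A B s V1 m).ncard : ℕ) : ℝ) +
          4 * ((mg S q).toNat : ℕ) := by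
      have : (bad α β A B s (max V0 V1) m).ncard ≤ (R0 S q α β A B s V0 m).ncard +
        (R1 S q α β A B s V1 m).ncard + 4 * (mg S q).toNat := by omega
      exact_mod_cast this
    have hk : (c - cw) * l * (1 / 4) ≤ (c - cw) * l * ((β : ℝ) / (α + β)) := by
      apply mul_le_mul_of_nonneg_left t1
      exact mul_nonneg (by linarith) hl
    have ht : (0 : ℝ) ≤ 4 * ((mg S q).toNat : ℕ) * ((m : ℝ) / P) := by positivity
    nlinarith

theorem BD.mono {S : Sys} {q : S.Q} {c c' : ℝ} (h : BD S q c) (hc : c ≤ c') : BD S q c' := by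
  obtain ⟨V, D, hD, k⟩ := h
  refine ⟨V, D, hD, fun α β A B s l P m hcell hP hPc hl h =>
    (k α β A B s l P m hcell hP hPc hl h).trans ?_⟩
  have := mul_le_mul_of_nonneg_right hc hl
  linarith

theorem BD_word (S : Sys) {c : ℝ} (hc : 0 ≤ c) (hall : ∀ q, BD S q c) :
    ∀ (w : List Bool) (q : S.Q), Goal S.st S.suc q w → BD S q (c * (1 - (1 / 4) ^ w.length)) := by
  intro w
  induction w with
  | nil => intro q hg; exact absurd hg (by simp [Goal])
  | cons x w ih =>
    intro q hg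
    have hp : (0 : ℝ) < (1 / 4) ^ w.length := by positivity
    have hp1 : ((1 : ℝ) / 4) ^ w.length ≤ 1 := pow_le_one₀ (by norm_num) (by norm_num)
    rw [List.length_cons, pow_succ]
    rcases hg with hs | hg
    · refine (BD_step S q x (cw := 0) ⟨le_rfl, Or.inl hs⟩ ⟨hc, Or.inr (hall _)⟩ hc).mono ?_
      nlinarith
    · have h1 := ih _ hg
      refine (BD_step S q x ⟨mul_nonneg hc (by linarith), Or.inr h1⟩ ⟨hc, Or.inr (hall _)⟩
        (by nlinarith)).mono (le_of_eq ?_)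
      ring

theorem BD_pow (S : Sys) (m : ℕ) : ∀ q, BD S q ((1 - (1 / 4) ^ S.W) ^ m) := by
  have hW : ((1 : ℝ) / 4) ^ S.W ≤ 1 := pow_le_one₀ (by norm_num) (by norm_num)
  induction m with
  | zero => intro q; rw [pow_zero]; exact BD_one S q
  | succ m ih =>
    intro q
    obtain ⟨w, hw, hg⟩ := S.win q
    refine (BD_word S (pow_nonneg (by linarith) m) ih w q hg).mono ?_
    rw [pow_succ]
    apply mul_le_mul_of_nonneg_left _ (pow_nonneg (by linarith) m)
    have : ((1 : ℝ) / 4) ^ S.W ≤ (1 / 4) ^ w.length :=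
      pow_le_pow_of_le_one (by norm_num) (by norm_num) hw
    linarith

/-- the coefficient can be made arbitrarily small -/
theorem BD_small (S : Sys) (q : S.Q) {η : ℝ} (hη : 0 < η) : BD S q η := by
  have hW : ((1 : ℝ) / 4) ^ S.W ≤ 1 := pow_le_one₀ (by norm_num) (by norm_num)
  have hW0 : (0 : ℝ) < (1 / 4) ^ S.W := by positivity
  obtain ⟨m, hm⟩ := exists_pow_lt_of_lt_one hη (show 1 - ((1 : ℝ) / 4) ^ S.W < 1 by linarith)
  exact (BD_pow S m q).mono hm.le

end Pool.RAT
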