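import Pool.Agent.H42.RAT2.Mem

/-!
# RATS (MP_a315fd): counting the numbers that reach Conway's sequence
-/

set_option autoImplicit false

namespace Pool.RAT

open List Nat

theorem fact_ge (B : ℕ) (hB : 1 ≤ B) : 10 ^ ((2 * B - 1) * 100 ^ B) ≤ (100 ^ B)! := by
  obtain ⟨A, hA⟩ : ∃ A, A = 100 ^ B := ⟨_, rfl⟩
  rw [← hA]
  have h1 := Real.pow_div_factorial_le_exp (A : ℝ) (Nat.cast_nonneg A) A
  have h2 : Real.exp (A : ℝ) ≤ 10 ^ A := by
    rw [← Real.exp_one_pow]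
    apply pow_le_pow_left₀ (Real.exp_pos _).le
    have := Real.exp_one_lt_d9
    linarith
  have h3 : (0 : ℝ) < (A ! : ℝ) := by exact_mod_cast Nat.factorial_pos A
  have h4 : (A : ℝ) ^ A ≤ 10 ^ A * (A ! : ℝ) := by
    rw [div_le_iff₀ h3] at h1
    exact h1.trans (mul_le_mul_of_nonneg_right h2 h3.le)
  have h5 : A ^ A ≤ 10 ^ A * A ! := by exact_mod_cast h4
  have h6 : A ^ A = 10 ^ A * 10 ^ ((2 * B - 1) * A) := by
    rw [← pow_add]
    have e : A + (2 * B - 1) * A = 2 * (B * A) := by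
      obtain ⟨b, rfl⟩ : ∃ b, B = b + 1 := ⟨B - 1, by omega⟩
      have : 2 * (b + 1) - 1 = 2 * b + 1 := by omega
      rw [this]; ring
    rw [e, pow_mul 10 2, pow_mul (10 ^ 2) B A]
    norm_num
    rw [← hA]
  rw [h6] at h5
  exact Nat.le_of_mul_le_mul_left h5 (by positivity)

/-- the numbers up to `N` that reach Conway's sequence -/
def TS (N : ℕ) : Set ℕ := {n | 1 ≤ n ∧ n ≤ N ∧ Trib n}

theorem TS_fin (N : ℕ) : (TS N).Finite := (Set.finite_Iic N).subset (fun _ h => h.2.1)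

theorem count_fam {B : ℕ} (hB : 1 ≤ B) : ∃ C, ∀ r, 1 ≤ r → ∀ N,
    10 ^ (2 * (r * (100 ^ B * (B + 2)) + C)) ≤ N → (100 ^ B)! ^ r ≤ (TS N).ncard := by
  obtain ⟨C, hC⟩ := mem_fam hB
  refine ⟨C + 2, fun r hr N hN => ?_⟩
  obtain ⟨s, hs, hl, ht⟩ := hC r hr
  have hinj : Function.Injective
      (fun σ : Fin r → Equiv.Perm (Fin B → Y2) => Nat.ofDigits 10 (nl s (bs σ))) := by
    intro σ σ' h
    exact bs_inj (nl_inj hs (by rw [len_bs, len_bs]) h)
  have hsub : ((Finset.univ.image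
      (fun σ : Fin r → Equiv.Perm (Fin B → Y2) => Nat.ofDigits 10 (nl s (bs σ))) : Finset ℕ) : Set ℕ) ⊆
      TS N := by
    intro n hn
    simp only [Finset.coe_image, Finset.coe_univ, Set.image_univ, Set.mem_range] at hn
    obtain ⟨σ, rfl⟩ := hn
    refine ⟨?_, ?_, ht σ⟩
    · have e : nl s (bs σ) = 8 :: ((s ++ (0 :: bl ub (bs σ))) ++ (up s (bs σ)).reverse) := by
        simp only [nl, lo, cons_append]
      rw [e, Nat.ofDigits_cons]
      norm_num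
      omega
    · have h1 := Nat.ofDigits_lt_base_pow_length (b := 10) (by norm_num) (nl_lt hs (bs σ))
      rw [len_nl, len_bs] at h1
      refine h1.le.trans (le_trans (Nat.pow_le_pow_right (by norm_num) ?_) hN)
      have e : r * (100 ^ B * (B + 2)) = r * 100 ^ B * (B + 1) + r * 100 ^ B := by ring
      rw [e]
      omega
  have h1 := Set.ncard_le_ncard hsub (TS_fin N)
  rw [Set.ncard_coe_finset, Finset.card_image_of_injective _ hinj, Finset.card_univ,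
    Fintype.card_fun, Fintype.card_perm, card_XB, Fintype.card_fin] at h1
  exact h1

/-- for every `ε > 0`, at least `N ^ (1 - ε)` numbers up to `N` reach Conway's sequence -/
theorem many {ε : ℝ} (hε : 0 < ε) : ∃ N0 : ℕ, ∀ N, N0 ≤ N →
    (N : ℝ) ^ (1 - ε) ≤ ((TS N).ncard : ℝ) := by
  -- reduce to ε < 1
  suffices H : ∀ ε : ℝ, 0 < ε → ε < 1 → ∃ N0 : ℕ, ∀ N, N0 ≤ N →
      (N : ℝ) ^ (1 - ε) ≤ ((TS N).ncard : ℝ) by
    obtain ⟨N0, h0⟩ := H (min ε (1 / 2)) (lt_min hε (by norm_num))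
      (lt_of_le_of_lt (min_le_right _ _) (by norm_num))
    refine ⟨max N0 1, fun N hN => ?_⟩
    have h1 : (1 : ℝ) ≤ (N : ℝ) := by exact_mod_cast le_trans (le_max_right _ _) hN
    refine le_trans (Real.rpow_le_rpow_of_exponent_le h1 ?_) (h0 N (le_trans (le_max_left _ _) hN))
    have := min_le_left ε (1 / 2)
    linarith
  clear hε ε
  intro ε hε hε1
  obtain ⟨B, hB⟩ := exists_nat_gt (5 / (2 * ε))
  have hB' : 5 < 2 * ε * B := by
    rw [div_lt_iff₀ (by positivity)] at hB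
    linarith
  have hB1 : 1 ≤ B := by
    by_contra h
    have : B = 0 := by omega
    subst this
    norm_num at hB'
  obtain ⟨C, hC⟩ := count_fam hB1
  obtain ⟨A, hA⟩ : ∃ A, A = 100 ^ B := ⟨_, rfl⟩
  have hA1 : 1 ≤ A := by rw [hA]; exact Nat.one_le_pow _ _ (by norm_num)
  obtain ⟨K, hK⟩ : ∃ K, K = A * (B + 2) := ⟨_, rfl⟩
  have hK1 : 1 ≤ K := by rw [hK]; exact Nat.one_le_iff_ne_zero.mpr (by positivity)
  have hf := fact_ge B hB1
  rw [← hA] at hC hf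
  rw [← hK] at hC
  obtain ⟨δ, hδ⟩ : ∃ δ : ℝ, δ = 2 * ε * B + 4 * ε - 5 := ⟨_, rfl⟩
  have hδ0 : 0 < δ := by rw [hδ]; linarith
  obtain ⟨r0, hr0⟩ := exists_nat_gt ((2 * C + 2 * K) / (δ * A) : ℝ)
  have hA0 : (0 : ℝ) < A := by exact_mod_cast hA1
  have hr0' : (2 * C + 2 * K : ℝ) < r0 * (δ * A) := by
    rwa [div_lt_iff₀ (by positivity)] at hr0
  refine ⟨10 ^ (2 * C + 2 * K * (r0 + 1)), fun N hN => ?_⟩
  have hN0 : N ≠ 0 := by
    have : 1 ≤ 10 ^ (2 * C + 2 * K * (r0 + 1)) := Nat.one_le_pow _ _ (by norm_num)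
    omega
  obtain ⟨L, hL⟩ : ∃ L, L = Nat.log 10 N := ⟨_, rfl⟩
  have hL1 : 10 ^ L ≤ N := by rw [hL]; exact Nat.pow_log_le_self 10 hN0
  have hL2 : N < 10 ^ (L + 1) := by rw [hL]; exact Nat.lt_pow_succ_log_self (by norm_num) N
  have hL3 : 2 * C + 2 * K * (r0 + 1) ≤ L := by
    have h := lt_of_le_of_lt hN hL2
    have := (Nat.pow_lt_pow_iff_right (a := 10) (by norm_num)).mp h
    omega
  obtain ⟨r, hr⟩ : ∃ r, r = (L - 2 * C) / (2 * K) := ⟨_, rfl⟩
  have hr1 : r0 + 1 ≤ r := by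
    rw [hr, Nat.le_div_iff_mul_le (by omega)]
    have : (r0 + 1) * (2 * K) = 2 * K * (r0 + 1) := by ring
    omega
  have hr2 : 2 * (r * K + C) ≤ L := by
    have h := Nat.div_mul_le_self (L - 2 * C) (2 * K)
    rw [← hr] at h
    have : r * (2 * K) = 2 * (r * K) := by ring
    omega
  have hr3 : L + 1 ≤ 2 * C + 2 * K * (r + 1) := by
    have h := Nat.lt_mul_div_succ (L - 2 * C) (b := 2 * K) (by omega)
    rw [← hr] at h
    omega
  have h1 : A ! ^ r ≤ (TS N).ncard :=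
    hC r (by omega) N ((Nat.pow_le_pow_right (by norm_num) hr2).trans hL1)
  have h2 : 10 ^ ((2 * B - 1) * A * r) ≤ (TS N).ncard := by
    refine le_trans ?_ h1
    rw [pow_mul]
    exact Nat.pow_le_pow_left hf r
  have h3 : ((10 : ℝ)) ^ (((2 * B - 1) * A * r : ℕ) : ℝ) ≤ ((TS N).ncard : ℝ) := by
    rw [Real.rpow_natCast]
    exact_mod_cast h2
  refine le_trans ?_ h3
  have h4 : (N : ℝ) ≤ (10 : ℝ) ^ ((2 * C + 2 * K * (r + 1) : ℕ) : ℝ) := by
    rw [Real.rpow_natCast]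
    have : N ≤ 10 ^ (2 * C + 2 * K * (r + 1)) :=
      hL2.le.trans (Nat.pow_le_pow_right (by norm_num) hr3)
    exact_mod_cast this
  refine le_trans (Real.rpow_le_rpow (Nat.cast_nonneg N) h4 (by linarith)) ?_
  rw [← Real.rpow_mul (by norm_num)]
  apply Real.rpow_le_rpow_of_exponent_le (by norm_num)
  have hB2 : ((2 * B - 1 : ℕ) : ℝ) = 2 * B - 1 := by
    rw [Nat.cast_sub (by omega)]
    push_cast
    ring
  push_cast
  rw [hB2]
  have hK' : (K : ℝ) = A * (B + 2) := by rw [hK]; push_cast; ring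
  have hr' : (r0 : ℝ) ≤ r := by exact_mod_cast (by omega : r0 ≤ r)
  have h5 : (2 * C + 2 * K : ℝ) ≤ r * (δ * A) :=
    hr0'.le.trans (mul_le_mul_of_nonneg_right hr' (by positivity))
  have hCK : (0 : ℝ) ≤ 2 * C + 2 * K := by positivity
  calc (2 * (C : ℝ) + 2 * K * (r + 1)) * (1 - ε)
      = 2 * K * r * (1 - ε) + (2 * C + 2 * K) * (1 - ε) := by ring
    _ ≤ 2 * K * r * (1 - ε) + (2 * C + 2 * K) := by nlinarith
    _ ≤ 2 * K * r * (1 - ε) + r * (δ * A) := by linarith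
    _ = (2 * B - 1) * A * r := by rw [hK', hδ]; ring

end Pool.RAT
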