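import Pool.Agent.H42.RAT.Run

/-!
# RATS (MP_a315fd): digits of a sum of columns
-/

set_option autoImplicit false

namespace Pool.RAT

open List

/-- the digits of the column sums, with a carry in -/
def out : ℕ → List ℕ → List ℕ
  | _, [] => []
  | c, a :: t => ((a + c) % 10) :: out ((a + c) / 10) t

/-- the carry out -/
def co : ℕ → List ℕ → ℕ
  | c, [] => c
  | c, a :: t => co ((a + c) / 10) t

theorem out_append (c : ℕ) (s t : List ℕ) : out c (s ++ t) = out c s ++ out (co c s) t := by
  induction s generalizing c with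
  | nil => rfl
  | cons a s ih => simp only [cons_append, out, co, ih]

theorem co_append (c : ℕ) (s t : List ℕ) : co c (s ++ t) = co (co c s) t := by
  induction s generalizing c with
  | nil => rfl
  | cons a s ih => simp only [cons_append, co, ih]

theorem out_lt (c : ℕ) (s : List ℕ) : ∀ d ∈ out c s, d < 10 := by
  induction s generalizing c with
  | nil => simp [out]
  | cons a s ih =>
    intro d hd
    rw [out, mem_cons] at hd
    rcases hd with rfl | hd
    · omega
    · exact ih _ d hd

theorem co_le {c : ℕ} (hc : c ≤ 1) {s : List ℕ} (hs : ∀ a ∈ s, a ≤ 18) : co c s ≤ 1 := by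
  induction s generalizing c with
  | nil => exact hc
  | cons a s ih =>
    have := hs a mem_cons_self
    exact ih (by omega) (fun x hx => hs x (mem_cons_of_mem _ hx))

theorem ofDigits_out (c : ℕ) (s : List ℕ) :
    Nat.ofDigits 10 (out c s ++ [co c s]) = Nat.ofDigits 10 s + c := by
  induction s generalizing c with
  | nil => simp [out, co]
  | cons a s ih =>
    rw [out, co, cons_append, Nat.ofDigits_cons, Nat.ofDigits_cons, ih]
    omega

theorem out_small {s : List ℕ} (hs : ∀ a ∈ s, a ≤ 9) : out 0 s = s ∧ co 0 s = 0 := by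
  induction s with
  | nil => exact ⟨rfl, rfl⟩
  | cons a s ih =>
    have ha := hs a mem_cons_self
    have h1 : (a + 0) / 10 = 0 := by omega
    have h2 : (a + 0) % 10 = a := by omega
    obtain ⟨h3, h4⟩ := ih (fun x hx => hs x (mem_cons_of_mem _ hx))
    rw [out, co, h1, h2, h3, h4]
    exact ⟨rfl, rfl⟩

/-- one step of RATS from a number with given digits -/
theorem rats_out {l : List ℕ} (h10 : ∀ d ∈ l, d < 10) (hne : ∀ h : l ≠ [], l.getLast h ≠ 0) :
    rats (Nat.ofDigits 10 l) = Nat.ofDigits 10 (nz (out 0 (cs l) ++ [co 0 (cs l)])) := by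
  have h18 : ∀ a ∈ cs l, a ≤ 18 := by
    intro a ha
    obtain ⟨x, hx, y, hy, rfl⟩ := mem_cs ha
    have := h10 x hx
    have := h10 y hy
    omega
  rw [rats_nz, Nat.digits_ofDigits 10 (by norm_num) l h10 hne,
    Nat.ofDigits_add_ofDigits_eq_ofDigits_zipWith_of_length_eq (by simp)]
  have e : Nat.ofDigits 10 (List.zipWith (· + ·) l l.reverse) =
      Nat.ofDigits 10 (out 0 (cs l) ++ [co 0 (cs l)]) := by
    rw [ofDigits_out]; rfl
  rw [e, nz_digits]
  intro d hd
  rw [mem_append, mem_singleton] at hd
  rcases hd with hd | rfl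
  · exact out_lt _ _ d hd
  · have := co_le (c := 0) (by norm_num) h18
    omega

section blocks

variable {X : Type} (z : X → List ℕ)

/-- the contribution of a block -/
def ph (w : List ℕ) (d : ℕ) : ℕ :=
  (out 0 w).count d + (if co 0 w = d then 1 else 0) +
    ((out 0 w.reverse).count d + (if co 0 w.reverse = d then 1 else 0))

/-- blocks followed by separators -/
def bl (bs : List X) : List ℕ := bs.flatMap (fun b => z b ++ [0])

theorem out_sep {c : ℕ} (hc : c ≤ 1) : out c [0] = [c] ∧ co c [0] = 0 := by
  simp only [out, co]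
  constructor
  · congr 1; omega
  · omega

theorem out_bl (hz : ∀ b, ∀ a ∈ z b, a ≤ 18) (bs : List X) :
    co 0 (bl z bs) = 0 ∧ ∀ d, (out 0 (bl z bs)).count d =
      (bs.map (fun b => (out 0 (z b)).count d + (if co 0 (z b) = d then 1 else 0))).sum := by
  induction bs with
  | nil => exact ⟨rfl, fun d => by simp [bl, out]⟩
  | cons b bs ih =>
    obtain ⟨h1, h2⟩ := ih
    have e : bl z (b :: bs) = z b ++ ([0] ++ bl z bs) := by
      simp [bl]
    obtain ⟨h3, h4⟩ := out_sep (co_le (c := 0) (by norm_num) (hz b))
    rw [e]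
    constructor
    · rw [co_append, co_append, h4, h1]
    · intro d
      rw [out_append, out_append, h3, h4, count_append, count_append, h2, map_cons, sum_cons,
        count_singleton]
      simp only [beq_iff_eq]
      omega

theorem out_rev (hz : ∀ b, ∀ a ∈ z b, a ≤ 18) (bs : List X) :
    co 0 ((bl z bs).reverse ++ [0]) = 0 ∧ ∀ d, 0 < d → (out 0 ((bl z bs).reverse ++ [0])).count d =
      (bs.map (fun b => (out 0 (z b).reverse).count d +
        (if co 0 (z b).reverse = d then 1 else 0))).sum := by
  induction bs with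
  | nil =>
    refine ⟨rfl, fun d hd => ?_⟩
    have : out 0 ((bl z ([] : List X)).reverse ++ [0]) = [0] := rfl
    rw [this, map_nil, sum_nil, count_singleton]
    simp only [beq_iff_eq]
    rw [if_neg (by omega)]
  | cons b bs ih =>
    obtain ⟨h1, h2⟩ := ih
    have e : (bl z (b :: bs)).reverse ++ [0] = ((bl z bs).reverse ++ [0]) ++ ((z b).reverse ++ [0]) := by
      simp [bl]
    obtain ⟨h3, h4⟩ := out_sep (co_le (c := 0) (by norm_num) (s := (z b).reverse)
      (fun a ha => hz b a (mem_reverse.mp ha)))
    rw [e]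
    constructor
    · rw [co_append 0 ((bl z bs).reverse ++ [0]) ((z b).reverse ++ [0]), h1,
        co_append 0 (z b).reverse [0], h4]
    · intro d hd
      rw [out_append 0 ((bl z bs).reverse ++ [0]) ((z b).reverse ++ [0]), h1,
        out_append 0 (z b).reverse [0], h3, count_append, count_append, h2 d hd, map_cons, sum_cons,
        count_singleton]
      simp only [beq_iff_eq]
      omega

/-- digits of the sum -/
theorem out_total (hz : ∀ b, ∀ a ∈ z b, a ≤ 18) (s0 : List ℕ) (hs : ∀ a ∈ s0, a ≤ 9) (bs : List X) :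
    co 0 ((s0 ++ (0 :: bl z bs)) ++ (s0 ++ (0 :: bl z bs)).reverse) = 0 ∧
    ∀ d, 0 < d → (out 0 ((s0 ++ (0 :: bl z bs)) ++ (s0 ++ (0 :: bl z bs)).reverse)).count d =
      2 * s0.count d + (bs.map (fun b => ph (z b) d)).sum := by
  have e1 : (s0 ++ (0 :: bl z bs)).reverse = ((bl z bs).reverse ++ [0]) ++ s0.reverse := by
    simp
  have e2 : s0 ++ (0 :: bl z bs) = s0 ++ ([0] ++ bl z bs) := by simp
  obtain ⟨a1, a2⟩ := out_small hs
  obtain ⟨b1, b2⟩ := out_small (s := s0.reverse) (fun a ha => hs a (mem_reverse.mp ha))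
  obtain ⟨c1, c2⟩ := out_sep (c := 0) (by norm_num)
  obtain ⟨d1, d2⟩ := out_bl z hz bs
  obtain ⟨f1, f2⟩ := out_rev z hz bs
  have g1 : co 0 (s0 ++ (0 :: bl z bs)) = 0 := by
    rw [e2, co_append, a2, co_append, c2, d1]
  constructor
  · rw [co_append, g1, e1, co_append, f1, b2]
  · intro d hd
    rw [out_append, g1, e1, out_append 0 _ s0.reverse, f1, b1, count_append, count_append, f2 d hd,
      count_reverse, e2, out_append, a2, out_append, c2, a1, c1, count_append, count_append, d2,
      count_singleton]
    simp only [beq_iff_eq]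
    rw [if_neg (by omega)]
    have : (bs.map (fun b => ph (z b) d)).sum =
        (bs.map (fun b => (out 0 (z b)).count d + (if co 0 (z b) = d then 1 else 0))).sum +
        (bs.map (fun b => (out 0 (z b).reverse).count d +
          (if co 0 (z b).reverse = d then 1 else 0))).sum := by
      rw [← List.sum_map_add]
      rfl
    rw [this]
    ring

end blocks

end Pool.RAT
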