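import Pool.Agent.H42.RAT2.Path
import Pool.Agent.H42.RAT2.Out

/-!
# RATS (MP_a315fd): the collapse `1^A 2^(31A-1+t) ↦ 1^(t+2) 2^3` (five steps)
-/

set_option autoImplicit false

namespace Pool.RAT

open List

theorem cs_tw' (p q a k : ℕ) :
    cs (tw p q (a + k) a) = replicate a (p + q) ++ (replicate k (p + p) ++ replicate a (q + p)) := by
  rw [tw, replicate_add, append_assoc, cs_wrap, cs_rep]

/-- a carry-free step from two digits, more of the larger one -/
theorem tw_N' {p q : ℕ} (h1 : 1 ≤ q) (h2 : q < p) (h9 : p + p ≤ 9) (a k : ℕ) :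
    rats (Nat.ofDigits 10 (tw p q (a + k) a)) =
      Nat.ofDigits 10 (tw (p + p) (p + q) k (2 * a)) := by
  apply rats_N (st_tw h1 h2 (by omega) _ _) (st_tw (by omega) (by omega) h9 _ _)
  rw [cs_tw', perm_iff_count]
  intro x
  simp only [tw, count_append, count_replicate, beq_iff_eq]
  split_ifs <;> omega

/-- `7^u 6^v 5 1` -/
def l76 (u v : ℕ) : List ℕ :=
  replicate u 7 ++ (replicate v 6 ++ (replicate 1 5 ++ replicate 1 1))

/-- `9 8 5^u 4^v 3 2` -/
def l98 (u v : ℕ) : List ℕ :=
  replicate 1 9 ++ (replicate 1 8 ++ (replicate u 5 ++ (replicate v 4 ++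
    (replicate 1 3 ++ replicate 1 2))))

theorem st_l76 (u v : ℕ) : St (l76 u v) := by
  constructor
  · simp only [l76, pairwise_append, pairwise_replicate, mem_append, mem_replicate]
    refine ⟨Or.inr (le_refl _), ⟨Or.inr (le_refl _), ⟨Or.inr (le_refl _),
      Or.inr (le_refl _), ?_⟩, ?_⟩, ?_⟩
    all_goals
      intro x hx y hy
      omega
  · intro d hd
    simp only [l76, mem_append, mem_replicate] at hd
    omega

theorem st_l98 (u v : ℕ) : St (l98 u v) := by
  constructor
  · simp only [l98, pairwise_append, pairwise_replicate, mem_append, mem_replicate]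
    refine ⟨Or.inr (le_refl _), ⟨Or.inr (le_refl _), ⟨Or.inr (le_refl _), ⟨Or.inr (le_refl _),
      ⟨Or.inr (le_refl _), Or.inr (le_refl _), ?_⟩, ?_⟩, ?_⟩, ?_⟩, ?_⟩
    all_goals
      intro x hx y hy
      omega
  · intro d hd
    simp only [l98, mem_append, mem_replicate] at hd
    omega

/-- `8^(a+1+k) 7^(a+1) ↦ 7^k 6^(2a+1) 5 1` -/
theorem step87 (a k : ℕ) :
    rats (Nat.ofDigits 10 (tw 8 7 (a + 1 + k) (a + 1))) = Nat.ofDigits 10 (l76 k (2 * a + 1)) := by
  have h : cs (tw 8 7 (a + 1 + k) (a + 1)) = 15 :: (replicate a 15 ++ (replicate k 16 ++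
      replicate (a + 1) 15)) := by
    rw [cs_tw']
    simp only [replicate_succ, cons_append]
  rw [rats_F (st_tw (by norm_num) (by norm_num) (by norm_num) _ _) h (by norm_num)]
  · congr 1
    apply nz_eq' _ (st_l76 _ _)
    intro x hx
    simp only [l76, map_append, map_replicate, count_append, count_cons, count_replicate,
      beq_iff_eq, count_nil]
    norm_num
    split_ifs <;> omega
  · intro d hd
    simp only [mem_append, mem_replicate] at hd
    omega

theorem out_hi {s : List ℕ} (hs : ∀ d ∈ s, 9 ≤ d ∧ d ≤ 18) :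
    out 1 s = s.map (fun d => d - 9) ∧ co 1 s = 1 := by
  induction s with
  | nil => exact ⟨rfl, rfl⟩
  | cons a s ih =>
    obtain ⟨ha1, ha2⟩ := hs a mem_cons_self
    obtain ⟨i1, i2⟩ := ih (fun d hd => hs d (mem_cons_of_mem _ hd))
    have e1 : (a + 1) % 10 = a - 9 := by omega
    have e2 : (a + 1) / 10 = 1 := by omega
    rw [out, co, e1, e2, i1, i2, map_cons]
    exact ⟨rfl, rfl⟩

theorem rats_st_out {l : List ℕ} (h : St l) :
    rats (Nat.ofDigits 10 l) = Nat.ofDigits 10 (nz (out 0 (cs l) ++ [co 0 (cs l)])) :=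
  rats_out (fun d hd => by have := (h.2 d hd).2; omega)
    (fun hne => by have := (h.2 _ (getLast_mem hne)).1; omega)

/-- `7^(v+2+u) 6^v 5 1 ↦ 9 8 5^u 4^(2v) 3 2` -/
theorem step76 (u v : ℕ) :
    rats (Nat.ofDigits 10 (l76 (1 + (1 + (v + u))) v)) = Nat.ofDigits 10 (l98 u (2 * v)) := by
  have h : cs (l76 (1 + (1 + (v + u))) v) = replicate 1 8 ++ ((replicate 1 12 ++
      ((replicate v 13 ++ (replicate u 14 ++ replicate v 13)) ++ replicate 1 12)) ++
      replicate 1 8) := by
    have e : l76 (1 + (1 + (v + u))) v = replicate 1 7 ++ ((replicate 1 7 ++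
      ((replicate v 7 ++ (replicate u 7 ++ replicate v 6)) ++ replicate 1 5)) ++
      replicate 1 1) := by
      rw [l76, replicate_add, replicate_add, replicate_add]
      simp only [append_assoc]
    rw [e, cs_wrap, cs_wrap, cs_wrap, cs_rep]
  obtain ⟨t, ht⟩ : ∃ t, t = replicate v 13 ++ (replicate u 14 ++ replicate v 13) ++ replicate 1 12 :=
    ⟨_, rfl⟩
  have ht9 : ∀ d ∈ t, 9 ≤ d ∧ d ≤ 18 := by
    intro d hd
    rw [ht] at hd
    simp only [mem_append, mem_replicate] at hd
    omega
  have h2 : cs (l76 (1 + (1 + (v + u))) v) = [8, 12] ++ (t ++ [8]) := by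
    rw [h, ht]
    simp only [append_assoc]
    rfl
  obtain ⟨o1, o2⟩ := out_hi ht9
  have h3 : out 0 (cs (l76 (1 + (1 + (v + u))) v)) ++ [co 0 (cs (l76 (1 + (1 + (v + u))) v))] =
      [8, 2] ++ (t.map (fun d => d - 9) ++ [9]) ++ [0] := by
    rw [h2, out_append, co_append]
    have c1 : out 0 [8, 12] = [8, 2] := rfl
    have c2 : co 0 [8, 12] = 1 := rfl
    rw [c1, c2, out_append, co_append, o1, o2]
    rfl
  rw [rats_st_out (st_l76 _ _), h3]
  congr 1
  apply nz_eq' _ (st_l98 _ _)
  intro x hx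
  rw [ht]
  simp only [l98, map_append, map_replicate, count_append, count_cons, count_replicate,
    beq_iff_eq, count_nil]
  norm_num
  split_ifs <;> omega

/-- `9 8 5^(q+t) 4^q 3 2 ↦ 1^(t+2) 2^3` -/
theorem step98' (q t : ℕ) :
    rats (Nat.ofDigits 10 (l98 (q + t) q)) = Nat.ofDigits 10 (tw 2 1 3 (t + 2)) := by
  have h : cs (l98 (q + t) q) = 11 :: (replicate 1 11 ++ ((replicate q 9 ++
      (replicate t 10 ++ replicate q 9)) ++ (replicate 1 11 ++ replicate 1 11))) := by
    have e : l98 (q + t) q = replicate 1 9 ++ ((replicate 1 8 ++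
      ((replicate q 5 ++ (replicate t 5 ++ replicate q 4)) ++ replicate 1 3)) ++
      replicate 1 2) := by
      rw [l98, replicate_add]
      simp only [append_assoc]
    rw [e, cs_wrap, cs_wrap, cs_wrap, cs_rep]
    simp only [append_assoc]
    rfl
  rw [rats_F (st_l98 _ _) h (by norm_num)]
  · congr 1
    apply nz_eq' _ (st_tw (by norm_num) (by norm_num) (by norm_num) _ _)
    intro x hx
    simp only [tw, map_append, map_replicate, count_append, count_cons, count_replicate,
      beq_iff_eq, count_nil]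
    norm_num
    split_ifs <;> omega
  · intro d hd
    simp only [mem_append, mem_replicate] at hd
    omega

/-- the collapse -/
theorem collapse (a t : ℕ) :
    rats^[5] (Nat.ofDigits 10 (tw 2 1 (31 * a + 30 + t) (a + 1))) =
      Nat.ofDigits 10 (tw 2 1 3 (t + 2)) := by
  show rats (rats (rats (rats (rats _)))) = _
  rw [show 31 * a + 30 + t = (a + 1) + (30 * a + 29 + t) by ring,
    tw_N' (by norm_num) (by norm_num) (by norm_num),
    show 30 * a + 29 + t = 2 * (a + 1) + (28 * a + 27 + t) by ring,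
    tw_N' (by norm_num) (by norm_num) (by norm_num)]
  norm_num only
  rw [show 28 * a + 27 + t = ((4 * a + 3) + 1) + (24 * a + 23 + t) by ring,
    show 2 * (2 * (a + 1)) = (4 * a + 3) + 1 by ring, step87,
    show 24 * a + 23 + t = 1 + (1 + ((2 * (4 * a + 3) + 1) + (16 * a + 14 + t))) by ring, step76,
    show 16 * a + 14 + t = 2 * (2 * (4 * a + 3) + 1) + t by ring, step98']

/-- six steps, `m` times -/
theorem ren (m : ℕ) : ∀ x y X Y : ℕ, 1 ≤ y → Y + 10 * gm m = 64 ^ m * y → X + Y = x + y + m →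
    2 ≤ X → rats^[6 * m] (Nat.ofDigits 10 (tw 2 1 y x)) = Nat.ofDigits 10 (tw 2 1 Y X) := by
  induction m with
  | zero =>
    intro x y X Y hy h1 h2 h3
    simp only [gm, pow_zero, mul_zero, add_zero, one_mul] at h1 h2
    subst h1
    have : X = x := by omega
    subst this
    rfl
  | succ m ih =>
    intro x y X Y hy h1 h2 h3
    have hg := gm_succ m
    have hg2 := gm_eq m
    have hm : m ≤ gm m := by
      clear ih h1 h2 hg
      induction m with
      | zero => simp
      | succ m ih =>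
        have := gm_eq m
        rw [gm]
        have h4 := ih this
        omega
    obtain ⟨z, rfl⟩ : ∃ z, y = z + 1 := ⟨y - 1, by omega⟩
    have e1 : 64 ^ (m + 1) * (z + 1) = 64 ^ m * (64 * z + 54) + 10 * 64 ^ m := by
      rw [pow_succ]; ring
    have e2 : 64 ^ m * (64 * z + 54) = 63 * gm m * (64 * z + 54) + (64 * z + 54) := by
      rw [← hg2]; ring
    have e3 : 54 * (63 * gm m) ≤ 63 * gm m * (64 * z + 54) := by
      rw [mul_comm]
      exact Nat.mul_le_mul_left _ (by omega)
    have hY : 64 * z + 54 + m ≤ Y := by omega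
    obtain ⟨k, hk⟩ : ∃ k, x + 9 = 63 * (z + 1) + k := ⟨x + 9 - 63 * (z + 1), by omega⟩
    have hx : x = 63 * (z + 1) + k - 9 := by omega
    have hsix := six (z + 1) k (by omega) (by omega)
    rw [show 6 * (m + 1) = 6 * m + 6 by ring, Function.iterate_add_apply]
    have e4 : rats^[6] (Nat.ofDigits 10 (tw 2 1 (z + 1) x)) =
        Nat.ofDigits 10 (tw 2 1 (64 * (z + 1) - 10) (k + 2)) := by
      rw [hx]; exact hsix
    rw [e4]
    have e5 : 64 * (z + 1) - 10 = 64 * z + 54 := by omega
    rw [e5]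
    apply ih (k + 2) (64 * z + 54) X Y (by omega)
    · omega
    · omega
    · exact h3

end Pool.RAT
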