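import Pool.Agent.H42.RAT2.Par
import Pool.Agent.H42.RAT2.Cnt
import Pool.Agent.H42.RAT2.Gen

/-!
# RATS (MP_a315fd): a lower bound `c N / log N` for the numbers that reach Conway's sequence
-/

set_option autoImplicit false

namespace Pool.RAT

open List

/-- the number of a pair of words -/
def npr {J : ℕ} (p : (Fin J → A3) × (Fin J → A3)) : ℕ :=
  Nat.ofDigits 10 (nl [] [fe J p.1, fe J p.2])

theorem npr_inj {J : ℕ} : Function.Injective (npr (J := J)) := by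
  intro p q h
  have h1 := nl_inj (s := []) (by simp) (by simp) h
  simp only [cons.injEq, and_true] at h1
  exact Prod.ext ((fe J).injective h1.1) ((fe J).injective h1.2)

theorem npr_bd {J : ℕ} (p : (Fin J → A3) × (Fin J → A3)) :
    1 ≤ npr p ∧ npr p < 10 ^ (12 * J + 8) := by
  constructor
  · have e : nl [] [fe J p.1, fe J p.2] =
        8 :: (([] ++ (0 :: bl ub [fe J p.1, fe J p.2])) ++ (up [] [fe J p.1, fe J p.2]).reverse) := by
      simp only [nl, lo, cons_append]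
    rw [npr, e, Nat.ofDigits_cons]
    norm_num
    omega
  · have h1 := Nat.ofDigits_lt_base_pow_length (b := 10) (by norm_num)
      (nl_lt (s := []) (by simp) [fe J p.1, fe J p.2])
    rw [len_nl] at h1
    have e : 2 * (([] : List ℕ).length + 2 + [fe J p.1, fe J p.2].length * (J * 3 + 1)) =
        12 * J + 8 := by
      simp only [length_nil, length_cons]; ring
    rw [e] at h1
    exact h1

/-- the second term with parameters `t` -/
def TT (W η j : ℕ) {B : ℕ} (t : Fin 7 → Fin B) : List ℕ :=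
  TG (W + 2 * t 0) (W + 2 * t 1) (W + 2 * t 2) (W + 2 * t 3) (2 * t 4) (2 * t 5) (2 * t 6)
    (η - 2 * (t 4 + t 5 + t 6)) (j - 4 * (t 0 + t 1 + t 2 + t 3))

/-- the prescribed total contributions -/
def UU (W η j : ℕ) {B : ℕ} (t : Fin 7 → Fin B) : Fin 10 → ℕ :=
  fun d => (TT W η j t).count d.val - (if d.val = 9 then 2 else 0)

theorem npr_trib {J W η j m B : ℕ} (hW : 2 ≤ W) (hη : 54 ≤ 2 * η) (hB1 : 6 * B ≤ η)
    (hB2 : 16 * B ≤ j)
    (h : 2 * 64 ^ m * (2 * η) = (2 * (4 * W) + j) + 2 * η + m + 1 + 20 * gm m)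
    {t : Fin 7 → Fin B} {p : (Fin J → A3) × (Fin J → A3)} (hp : p ∈ PP J (UU W η j t)) :
    Trib (npr p) := by
  have b0 := (t 0).isLt
  have b1 := (t 1).isLt
  have b2 := (t 2).isLt
  have b3 := (t 3).isLt
  have b4 := (t 4).isLt
  have b5 := (t 5).isLt
  have b6 := (t 6).isLt
  rw [PP, Finset.mem_filter] at hp
  apply trib_rats
  rw [npr, rats_nl (by simp) [fe J p.1, fe J p.2] (T := TT W η j t) (st_TG _ _ _ _ _ _ _ _ _)]
  · have e1 : 2 * (t 4 : ℕ) + 2 * (t 5 : ℕ) + 2 * (t 6 : ℕ) +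
        (η - 2 * ((t 4 : ℕ) + t 5 + t 6)) = η := by omega
    apply trib_TG (m := m)
    · omega
    · rw [e1]; exact hη
    · rw [e1, h]
      omega
  · intro d hd1 hd9
    have h1 := hp.2 ⟨d, by omega⟩ (fun hh => by
      have := congrArg Fin.val hh
      simp at this
      omega)
    simp only [map_cons, map_nil, sum_cons, sum_nil, Nat.add_zero]
    simp only [Vd, UU] at h1
    rw [h1]
    by_cases h9 : d = 9
    · subst h9
      have h2 : W ≤ (TT W η j t).count 9 := by rw [TT, count_TG]; norm_num; omega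
      norm_num
      omega
    · rw [if_neg h9, count_cons_of_ne (by omega), count_nil]
      omega

theorem UU_inj {W η j B : ℕ} {t t' : Fin 7 → Fin B}
    (h : ∀ d : Fin 10, d ≠ 0 → UU W η j t d = UU W η j t' d) (hW : 2 ≤ W) : t = t' := by
  have h1 := h 1 (by decide)
  have h2 := h 2 (by decide)
  have h3 := h 3 (by decide)
  have h4 := h 4 (by decide)
  have h7 := h 7 (by decide)
  have h8 := h 8 (by decide)
  have h9 := h 9 (by decide)
  simp only [UU, TT, count_TG] at h1 h2 h3 h4 h7 h8 h9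
  norm_num at h1 h2 h3 h4 h7 h8 h9
  have e0 : t 0 = t' 0 := Fin.ext (by omega)
  have e4 : t 4 = t' 4 := Fin.ext (by rw [e0] at h9; omega)
  have e1 : t 1 = t' 1 := Fin.ext (by rw [e4] at h2; omega)
  have e5 : t 5 = t' 5 := Fin.ext (by rw [e1] at h8; omega)
  have e2 : t 2 = t' 2 := Fin.ext (by rw [e5] at h3; omega)
  have e6 : t 6 = t' 6 := Fin.ext (by rw [e2] at h7; omega)
  have e3 : t 3 = t' 3 := Fin.ext (by rw [e6] at h4; omega)
  funext i
  fin_cases i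
  · exact e0
  · exact e1
  · exact e2
  · exact e3
  · exact e4
  · exact e5
  · exact e6

theorem pp_sum {J W η j m B N : ℕ} (hW : 2 ≤ W) (hη : 54 ≤ 2 * η) (hB1 : 6 * B ≤ η)
    (hB2 : 16 * B ≤ j)
    (h : 2 * 64 ^ m * (2 * η) = (2 * (4 * W) + j) + 2 * η + m + 1 + 20 * gm m)
    (hN : 10 ^ (12 * J + 8) ≤ N) :
    ∑ t : Fin 7 → Fin B, (PP J (UU W η j t)).card ≤ (TS N).ncard := by
  classical
  rw [← Finset.card_biUnion]
  · have hsub : ((((Finset.univ : Finset (Fin 7 → Fin B)).biUnion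
        (fun t => PP J (UU W η j t))).image npr : Finset ℕ) : Set ℕ) ⊆ TS N := by
      intro n hn
      rw [Finset.coe_image] at hn
      obtain ⟨p, hp, rfl⟩ := hn
      obtain ⟨t, -, ht⟩ := Finset.mem_biUnion.mp (Finset.mem_coe.mp hp)
      obtain ⟨h1, h2⟩ := npr_bd p
      exact ⟨h1, by omega, npr_trib hW hη hB1 hB2 h ht⟩
    have h1 := Set.ncard_le_ncard hsub (TS_fin N)
    rwa [Set.ncard_coe_finset, Finset.card_image_of_injective _ npr_inj] at h1
  · intro t _ t' _ hne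
    rw [Function.onFun, Finset.disjoint_left]
    intro p hp hp'
    apply hne
    rw [PP, Finset.mem_filter] at hp hp'
    exact UU_inj (fun d hd => (hp.2 d hd).symm.trans (hp'.2 d hd)) hW

/-- the parameters -/
theorem params {J : ℕ} (hJ : 10 ^ 12 ≤ J) {s : ℝ} (hs : 0 ≤ s) (hJs : (J : ℝ) = s ^ 2) :
    ∃ W η j m B : ℕ, 2 ≤ W ∧ 54 ≤ 2 * η ∧ 6 * B ≤ η ∧ 16 * B ≤ j ∧ s ≤ 8 * B ∧
      2 * 64 ^ m * (2 * η) = (2 * (4 * W) + j) + 2 * η + m + 1 + 20 * gm m ∧
      (∀ (t : Fin 7 → Fin B) (d : Fin 10), d ≠ 0 → UU W η j t d % 2 = 0) ∧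
      (∀ (t : Fin 7 → Fin B) (d : Fin 10), d ≠ 0 →
        |10 * (UU W η j t d : ℝ) - 12 * J| ≤ 200000 * s) := by
  obtain ⟨S, hS⟩ : ∃ S, S = Nat.sqrt J := ⟨_, rfl⟩
  have hS1 : S * S ≤ J := by rw [hS]; exact Nat.sqrt_le J
  have hS2 : J < (S + 1) * (S + 1) := by rw [hS]; exact Nat.lt_succ_sqrt J
  have hS3 : 10 ^ 6 ≤ S := by
    rw [hS, Nat.le_sqrt]
    exact le_trans (by norm_num) hJ
  obtain ⟨a, ha⟩ : ∃ a, a = Nat.log 4096 (S / 64) := ⟨_, rfl⟩
  obtain ⟨m, hm⟩ : ∃ m, m = 2 * a + 1 := ⟨_, rfl⟩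
  obtain ⟨M, hM⟩ : ∃ M, M = 64 ^ m := ⟨_, rfl⟩
  obtain ⟨g, hg⟩ : ∃ g, g = gm m := ⟨_, rfl⟩
  have hM4 : M = 64 * 4096 ^ a := by
    rw [hM, hm, pow_succ, pow_mul]
    norm_num
    ring
  have hS64 : S / 64 ≠ 0 := by omega
  have hMS : M ≤ S := by
    have h1 : 4096 ^ a ≤ S / 64 := by rw [ha]; exact Nat.pow_log_le_self 4096 hS64
    have h2 : 64 * (S / 64) ≤ S := Nat.mul_div_le S 64
    rw [hM4]
    omega
  have hSM : S < 4096 * M := by
    have h1 : S / 64 < 4096 ^ (a + 1) := by rw [ha]; exact Nat.lt_pow_succ_log_self (by norm_num) _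
    have h2 : S < 64 * (4096 ^ (a + 1)) := by
      have := Nat.lt_mul_div_succ S (b := 64) (by norm_num)
      have h3 : S / 64 + 1 ≤ 4096 ^ (a + 1) := h1
      omega
    rw [hM4]
    rw [pow_succ] at h2
    omega
  have hmM : m < M := by rw [hM]; exact Nat.lt_pow_self (by norm_num)
  have hgM : 63 * g + 1 = M := by rw [hg, hM]; exact gm_eq m
  have hM64 : 64 ≤ M := by
    rw [hM4]
    have : 1 ≤ 4096 ^ a := Nat.one_le_pow _ _ (by norm_num)
    omega
  obtain ⟨N, hN⟩ : ∃ N, N = 3 * J / 5 := ⟨_, rfl⟩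
  obtain ⟨D, hD⟩ : ∃ D, D = 4 * M - 1 := ⟨_, rfl⟩
  obtain ⟨R, hR⟩ : ∃ R, R = 9 * N + (a + 1) + 10 * g := ⟨_, rfl⟩
  obtain ⟨q, hq⟩ : ∃ q, q = R / D := ⟨_, rfl⟩
  have hD1 : 255 ≤ D := by omega
  have hq1 : D * q ≤ R := by rw [hq]; exact Nat.mul_div_le R D
  have hq2 : R < D * q + D := by
    rw [hq]
    exact Nat.lt_mul_div_succ R (by omega)
  obtain ⟨k5, hk5⟩ : ∃ k5, k5 = D * q + 14 * D - R := ⟨_, rfl⟩
  have hk5' : k5 + R = D * q + 14 * D := by omega
  have hsm : a + 1 + 10 * g ≤ D := by omega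
  have hqN : q ≤ N + 1 := by
    by_contra hcon
    have : N + 2 ≤ q := by omega
    have h1 : D * (N + 2) ≤ D * q := Nat.mul_le_mul_left _ this
    have h2 : D * (N + 2) = D * N + 2 * D := by ring
    have h3 : 255 * N ≤ D * N := Nat.mul_le_mul_right _ hD1
    omega
  have hN5 : 5 * N ≤ 3 * J := by omega
  have hN5' : 3 * J < 5 * N + 5 := by omega
  -- real bounds
  have hSs : (S : ℝ) ≤ s := by
    have h1 : ((S : ℝ)) ^ 2 ≤ s ^ 2 := by
      rw [← hJs, pow_two]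
      exact_mod_cast hS1
    exact abs_le_of_sq_le_sq' h1 hs |>.2
  have hsS : s ≤ S + 1 := by
    have h1 : s ^ 2 ≤ ((S : ℝ) + 1) ^ 2 := by
      rw [← hJs, pow_two]
      exact_mod_cast hS2.le
    exact abs_le_of_sq_le_sq' h1 (by positivity) |>.2
  have hs6 : (1000000 : ℝ) ≤ s := le_trans (by exact_mod_cast hS3) hSs
  have hMr : (M : ℝ) ≤ s := le_trans (by exact_mod_cast hMS) hSs
  have hsMr : s ≤ 4096 * M := by
    have : (S : ℝ) + 1 ≤ 4096 * M := by exact_mod_cast hSM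
    linarith
  have hDr : (D : ℝ) = 4 * M - 1 := by
    rw [hD, Nat.cast_sub (by omega)]
    push_cast
    ring
  have hRr : (R : ℝ) ≤ 6 * s ^ 2 := by
    have h1 : R ≤ 9 * N + D := by omega
    have h2 : (R : ℝ) ≤ 9 * N + D := by exact_mod_cast h1
    have h3 : (5 : ℝ) * N ≤ 3 * J := by exact_mod_cast hN5
    have h4 : 4 * s ≤ s ^ 2 / 2 := by nlinarith
    rw [hJs] at h3
    rw [hDr] at h2
    linarith
  have hqr : (q : ℝ) ≤ 8200 * s := by
    have h1 : (D : ℝ) * q ≤ 6 * s ^ 2 := le_trans (by exact_mod_cast hq1) hRr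
    have h2 : 3 * s ≤ 4096 * (D : ℝ) := by
      rw [hDr]
      have : (64 : ℝ) ≤ M := by exact_mod_cast hM64
      linarith
    by_contra hcon
    push Not at hcon
    have h3 : 8200 * s * (3 * s) < (q : ℝ) * (4096 * D) := by
      have hs3 : 0 < 3 * s := by linarith
      have hq0 : (0 : ℝ) < q := by linarith
      calc 8200 * s * (3 * s) < (q : ℝ) * (3 * s) := mul_lt_mul_of_pos_right hcon hs3
        _ ≤ (q : ℝ) * (4096 * D) := mul_le_mul_of_nonneg_left h2 hq0.le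
    nlinarith
  have hk5r : (k5 : ℝ) ≤ 56 * s := by
    have h1 : k5 ≤ 14 * D := by omega
    have h2 : (k5 : ℝ) ≤ 14 * D := by exact_mod_cast h1
    rw [hDr] at h2
    linarith
  have hη : 2 * (q + 14) ≤ 2 * N + 2 * k5 := by omega
  obtain ⟨B, hB⟩ : ∃ B, B = S / 6 := ⟨_, rfl⟩
  have hηS : S ≤ 2 * (q + 14) := by
    by_contra hcon
    have h1 : 2 * (q + 1) ≤ S := by omega
    have h2 : D ≤ 4 * S := by omega
    have h3 : D * (2 * (q + 1)) ≤ 4 * S * S := Nat.mul_le_mul h2 h1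
    have h4 : D * (2 * (q + 1)) = 2 * (D * q + D) := by ring
    have h5 : 4 * S * S = 4 * (S * S) := by ring
    omega
  have hBr : (B : ℝ) ≤ s := by
    have : (B : ℝ) ≤ S := by exact_mod_cast (by omega : B ≤ S)
    linarith
  have hBs : s ≤ 8 * B := by
    have h1 : S ≤ 6 * B + 5 := by omega
    have h2 : (S : ℝ) ≤ 6 * B + 5 := by exact_mod_cast h1
    linarith
  obtain ⟨j, hj⟩ : ∃ j, j = 2 * N + 2 * k5 - 2 * (q + 14) := ⟨_, rfl⟩
  have hNr : (3 : ℝ) * J ≤ 5 * N + 5 := by exact_mod_cast hN5'.le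
  have hjB : 16 * B ≤ j := by
    have h1 : (16 : ℝ) * B + 2 * (q + 14) ≤ 2 * N := by
      rw [hJs] at hNr
      nlinarith
    have h2 : 16 * B + 2 * (q + 14) ≤ 2 * N := by exact_mod_cast h1
    omega
  refine ⟨2 * N, 2 * (q + 14), j, m, B, by omega, by omega, by omega, hjB, hBs, ?_, ?_, ?_⟩
  · rw [← hM, ← hg]
    have e1 : 2 * M * (2 * (2 * (q + 14))) = 2 * (D * q + 14 * D) + 2 * (q + 14) := by
      have : 4 * M = D + 1 := by omega
      calc 2 * M * (2 * (2 * (q + 14))) = 4 * M * (2 * (q + 14)) := by ring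
        _ = (D + 1) * (2 * (q + 14)) := by rw [this]
        _ = _ := by ring
    rw [e1, ← hk5', hR, hm]
    omega
  · intro t d hd
    have b0 := (t 0).isLt
    have b1 := (t 1).isLt
    have b2 := (t 2).isLt
    have b3 := (t 3).isLt
    have b4 := (t 4).isLt
    have b5 := (t 5).isLt
    have b6 := (t 6).isLt
    rw [UU, TT, count_TG]
    have hv1 : 1 ≤ d.val := by
      have : d.val ≠ 0 := fun h0 => hd (Fin.ext h0)
      omega
    have hv9 : d.val ≤ 9 := by have := d.isLt; omega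
    generalize d.val = v at hv1 hv9 ⊢
    interval_cases v <;> norm_num <;> omega
  · intro t d hd
    have b0 := (t 0).isLt
    have b1 := (t 1).isLt
    have b2 := (t 2).isLt
    have b3 := (t 3).isLt
    have b4 := (t 4).isLt
    have b5 := (t 5).isLt
    have b6 := (t 6).isLt
    have hval : 2 * N ≤ UU (2 * N) (2 * (q + 14)) j t d + 2 + 2 * (q + 14) + 16 * B ∧
        UU (2 * N) (2 * (q + 14)) j t d ≤ 2 * N + 2 * k5 + 2 * (q + 14) + 4 * B := by
      rw [UU, TT, count_TG]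
      have hv1 : 1 ≤ d.val := by
        have : d.val ≠ 0 := fun h0 => hd (Fin.ext h0)
        omega
      have hv9 : d.val ≤ 9 := by have := d.isLt; omega
      generalize d.val = v at hv1 hv9 ⊢
      interval_cases v <;> norm_num <;> omega
    obtain ⟨h1, h2⟩ := hval
    have h1' : 2 * (N : ℝ) ≤ (UU (2 * N) (2 * (q + 14)) j t d : ℝ) + 2 + 2 * (q + 14) + 16 * B := by
      exact_mod_cast h1
    have h2' : (UU (2 * N) (2 * (q + 14)) j t d : ℝ) ≤
        2 * N + 2 * k5 + 2 * (q + 14) + 4 * B := by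
      exact_mod_cast h2
    have h3 : (5 : ℝ) * N ≤ 3 * J := by exact_mod_cast hN5
    rw [abs_le]
    constructor <;> linarith

theorem final_count : ∃ C : ℝ, 0 < C ∧ ∃ J0 : ℕ, ∀ J, J0 ≤ J → ∀ N, 10 ^ (12 * J + 8) ≤ N →
    (10 : ℝ) ^ (12 * J) ≤ C * (J : ℝ) * ((TS N).ncard : ℝ) := by
  refine ⟨8 ^ 7 * (4194304 * cD (200000 + 10020)), by rw [cD]; positivity, 10 ^ 26,
    fun J hJ N hN => ?_⟩
  obtain ⟨s, hs⟩ : ∃ s, s = Real.sqrt J := ⟨_, rfl⟩
  have hJs : (J : ℝ) = s ^ 2 := by rw [hs]; exact (Real.sq_sqrt (Nat.cast_nonneg J)).symm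
  have hs13 : (10 : ℝ) ^ 13 ≤ s := by
    rw [hs]
    apply Real.le_sqrt_of_sq_le
    have : ((10 ^ 26 : ℕ) : ℝ) ≤ J := by exact_mod_cast hJ
    refine le_trans (le_of_eq ?_) this
    norm_num
  have hs0 : 0 < s := lt_of_lt_of_le (by positivity) hs13
  obtain ⟨W, η, j, m, B, h1, h2, h3, h3', hBs, h4, h5, h6⟩ :=
    params (le_trans (by norm_num) hJ) hs0.le hJs
  obtain ⟨C, hC⟩ : ∃ C : ℝ, C = 4194304 * cD (200000 + 10020) := ⟨_, rfl⟩
  have hC0 : 0 < C := by rw [hC, cD]; positivity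
  rw [← hC]
  have h7 : ∀ t : Fin 7 → Fin B, ((1000000 : ℝ) ^ J) ^ 2 ≤ C * s ^ 9 *
      ((PP J (UU W η j t)).card : ℝ) := by
    intro t
    rw [hC]
    exact pairs hJs (c := 200000) (by norm_num) (le_trans (by norm_num) hs13) (h5 t) (h6 t)
  have h8 : (B : ℝ) ^ 7 * ((1000000 : ℝ) ^ J) ^ 2 ≤ C * s ^ 9 * ((TS N).ncard : ℝ) := by
    calc (B : ℝ) ^ 7 * ((1000000 : ℝ) ^ J) ^ 2 =
          ∑ t : Fin 7 → Fin B, ((1000000 : ℝ) ^ J) ^ 2 := by
            rw [Finset.sum_const, Finset.card_univ, Fintype.card_fun, Fintype.card_fin,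
              Fintype.card_fin, nsmul_eq_mul]
            push_cast
            ring
      _ ≤ ∑ t : Fin 7 → Fin B, C * s ^ 9 * ((PP J (UU W η j t)).card : ℝ) :=
          Finset.sum_le_sum (fun t _ => h7 t)
      _ = C * s ^ 9 * ((∑ t : Fin 7 → Fin B, (PP J (UU W η j t)).card : ℕ) : ℝ) := by
          rw [← Finset.mul_sum]
          push_cast
          rfl
      _ ≤ C * s ^ 9 * ((TS N).ncard : ℝ) := by
          apply mul_le_mul_of_nonneg_left _ (by positivity)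
          exact_mod_cast pp_sum h1 h2 h3 h3' h4 hN
  have e : (10 : ℝ) ^ (12 * J) = ((1000000 : ℝ) ^ J) ^ 2 := by
    rw [← pow_mul, mul_comm J 2, pow_mul (1000000 : ℝ) 2 J, pow_mul (10 : ℝ) 12 J]
    norm_num
  rw [e]
  have h9 : s ^ 7 ≤ 8 ^ 7 * (B : ℝ) ^ 7 := by
    rw [← mul_pow]
    exact pow_le_pow_left₀ hs0.le hBs 7
  have h10 : s ^ 7 * ((1000000 : ℝ) ^ J) ^ 2 ≤ s ^ 7 * (8 ^ 7 * C * J * ((TS N).ncard : ℝ)) := by
    calc s ^ 7 * ((1000000 : ℝ) ^ J) ^ 2 ≤ 8 ^ 7 * (B : ℝ) ^ 7 * ((1000000 : ℝ) ^ J) ^ 2 :=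
          mul_le_mul_of_nonneg_right h9 (by positivity)
      _ = 8 ^ 7 * ((B : ℝ) ^ 7 * ((1000000 : ℝ) ^ J) ^ 2) := by ring
      _ ≤ 8 ^ 7 * (C * s ^ 9 * ((TS N).ncard : ℝ)) := mul_le_mul_of_nonneg_left h8 (by positivity)
      _ = s ^ 7 * (8 ^ 7 * C * J * ((TS N).ncard : ℝ)) := by rw [hJs]; ring
  exact le_of_mul_le_mul_left h10 (by positivity)

/-- at least `c N / log N` numbers up to `N` reach Conway's sequence -/
theorem density : ∃ c : ℝ, 0 < c ∧ ∃ N0 : ℕ, ∀ N : ℕ, N0 ≤ N →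
    c * N / Real.log N ≤ ((TS N).ncard : ℝ) := by
  obtain ⟨C, hC, J0, h0⟩ := final_count
  refine ⟨1 / (10 ^ 20 * C), by positivity, 10 ^ (12 * (J0 + 1) + 20), fun N hN => ?_⟩
  have hN0 : N ≠ 0 := by
    have : 1 ≤ 10 ^ (12 * (J0 + 1) + 20) := Nat.one_le_pow _ _ (by norm_num)
    omega
  obtain ⟨L, hL⟩ : ∃ L, L = Nat.log 10 N := ⟨_, rfl⟩
  have hL1 : 10 ^ L ≤ N := by rw [hL]; exact Nat.pow_log_le_self 10 hN0
  have hL2 : N < 10 ^ (L + 1) := by rw [hL]; exact Nat.lt_pow_succ_log_self (by norm_num) N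
  have hL3 : 12 * (J0 + 1) + 20 ≤ L := by
    have h := lt_of_le_of_lt hN hL2
    have := (Nat.pow_lt_pow_iff_right (a := 10) (by norm_num)).mp h
    omega
  obtain ⟨J, hJ⟩ : ∃ J, J = (L - 8) / 12 := ⟨_, rfl⟩
  have hJ1 : J0 + 1 ≤ J := by omega
  have hJ2 : 12 * J + 8 ≤ L := by omega
  have hJ3 : L + 1 ≤ 12 * J + 20 := by omega
  have h1 := h0 J (by omega) N ((Nat.pow_le_pow_right (by norm_num) hJ2).trans hL1)
  have h2 : (N : ℝ) ≤ 10 ^ 20 * 10 ^ (12 * J) := by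
    rw [← pow_add]
    have : N ≤ 10 ^ (20 + 12 * J) := hL2.le.trans (Nat.pow_le_pow_right (by norm_num) (by omega))
    exact_mod_cast this
  have hN1 : (1 : ℝ) < N := by
    have : 10 ≤ N := le_trans (by
      calc 10 = 10 ^ 1 := by norm_num
        _ ≤ 10 ^ (12 * (J0 + 1) + 20) := Nat.pow_le_pow_right (by norm_num) (by omega)) hN
    have h' : (10 : ℝ) ≤ N := by exact_mod_cast this
    linarith
  have hlog : 0 < Real.log N := Real.log_pos hN1
  have hJlog : (J : ℝ) ≤ Real.log N := by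
    have h3 : (10 : ℝ) ^ J ≤ N := by
      have : 10 ^ J ≤ N := (Nat.pow_le_pow_right (by norm_num) (by omega)).trans hL1
      exact_mod_cast this
    have h4 := Real.log_le_log (by positivity) h3
    rw [Real.log_pow] at h4
    have h5 : 1 ≤ Real.log 10 := by
      rw [Real.le_log_iff_exp_le (by norm_num)]
      have := Real.exp_one_lt_d9
      linarith
    have h6 : (J : ℝ) * 1 ≤ J * Real.log 10 := mul_le_mul_of_nonneg_left h5 (Nat.cast_nonneg J)
    linarith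
  have hTS : (0 : ℝ) ≤ ((TS N).ncard : ℝ) := by positivity
  rw [div_le_iff₀ hlog]
  have h3 : (N : ℝ) ≤ 10 ^ 20 * (C * Real.log N * ((TS N).ncard : ℝ)) := by
    refine h2.trans (mul_le_mul_of_nonneg_left (h1.trans ?_) (by norm_num))
    exact mul_le_mul_of_nonneg_right (mul_le_mul_of_nonneg_left hJlog hC.le) hTS
  calc 1 / (10 ^ 20 * C) * (N : ℝ) ≤
        1 / (10 ^ 20 * C) * (10 ^ 20 * (C * Real.log N * ((TS N).ncard : ℝ))) :=
        mul_le_mul_of_nonneg_left h3 (by positivity)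
    _ = ((TS N).ncard : ℝ) * Real.log N := by
        field_simp

end Pool.RAT
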