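import Pool.Agent.H42.RAT2.Path
import Mathlib.Analysis.SpecialFunctions.Pow.Real

/-!
# RATS (MP_a315fd): the statement of the deterministic part
-/

set_option autoImplicit false

namespace Pool.RAT

/-- some term has at most `V` digits other than `1` -/
def NR (V n : ℕ) : Prop :=
  ∃ k : ℕ, (Nat.digits 10 (rats^[k] n)).countP (fun d => decide (d ≠ 1)) ≤ V

/-- the deterministic part: few numbers `1^X 2^Y` of a box are bad -/
def DetStmt : Prop := ∀ K δ : ℝ, 0 < K → 0 < δ → ∃ V L0 : ℕ, ∀ L : ℕ, L0 ≤ L →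
  (({p : ℕ × ℕ | |10 * (p.1 : ℝ) - 9 * L| ≤ K * Real.sqrt L ∧ 1 ≤ p.2 ∧
    (p.2 : ℝ) ≤ K * Real.sqrt L ∧ ¬ NR V (Nat.ofDigits 10 (tw 2 1 p.2 p.1))} :
      Set (ℕ × ℕ)).ncard : ℝ) ≤ δ * L

end Pool.RAT
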