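import Pool.Agent.H42.RAT2.Cell4
import Pool.Agent.H42.RAT2.Path

/-!
# RATS (MP_a315fd): the deterministic part from a symbolic system
-/

set_option autoImplicit false

namespace Pool.RAT

theorem six' {x y : ℕ} (hy : 1 ≤ y) (h : 63 * y ≤ x + 9) :
    rats^[6] (Nat.ofDigits 10 (tw 2 1 y x)) =
      Nat.ofDigits 10 (tw 2 1 (64 * y - 10) (x + y + 1 - (64 * y - 10))) := by
  have h1 := six y (x + 9 - 63 * y) (by omega) hy
  rw [show 63 * y + (x + 9 - 63 * y) - 9 = x by omega] at h1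
  rw [show x + y + 1 - (64 * y - 10) = x + 9 - 63 * y + 2 by omega]
  exact h1

theorem run (j : ℕ) : ∀ x y : ℕ, 1 ≤ y → 64 ^ j * y ≤ x →
    rats^[6 * j] (Nat.ofDigits 10 (tw 2 1 y x)) =
      Nat.ofDigits 10 (tw 2 1 (64 ^ j * y - 10 * gm j) (x + y + j - (64 ^ j * y - 10 * gm j))) := by
  induction j with
  | zero =>
    intro x y _ _
    simp only [mul_zero, Function.iterate_zero, id, pow_zero, one_mul, gm]
    congr 2
    omega
  | succ j ih =>
    intro x y hy h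
    have hg := gm_eq j
    have hgs := gm_succ j
    have hP : 64 ^ (j + 1) * y = 64 * (64 ^ j * y) := by ring
    have hPy : 64 ^ j ≤ 64 ^ j * y := Nat.le_mul_of_pos_right _ hy
    obtain ⟨P, hPd⟩ : ∃ P, P = 64 ^ j * y := ⟨_, rfl⟩
    have h1 := ih x y hy (by omega)
    rw [show 6 * (j + 1) = 6 + 6 * j by ring, Function.iterate_add_apply, h1, hP, ← hPd]
    rw [hP] at h
    rw [← hPd] at h hPy
    rw [six' (by omega) (by omega)]
    congr 2
    · omega
    · omega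

/-- the bad `Y` for a fixed `X` -/
theorem fib (S : Sys) {V κ m : ℕ} {D η : ℝ} (hD : 0 ≤ D)
    (hb : ∀ (α β A B : ℤ) (s : ℤ → ℕ) (l : ℝ) (P m : ℕ), Cell S S.q0 α β A B s → 1 ≤ P →
      (P : ℤ) ≤ α + β → 0 ≤ l → (A : ℝ) / α + B / β ≤ l →
      (((bad α β A B s V m).ncard : ℕ) : ℝ) ≤ η * l + D * (1 + (m : ℝ) / P))
    {X M : ℕ} (hM : 1 ≤ M) (hX : 64 * M ≤ X) (hκ : Nat.log 2 X ≤ κ) :
    ((({Y | 1 ≤ Y ∧ Y ≤ M ∧ ¬ NG (κ + V) V m (Nat.ofDigits 10 (tw 2 1 Y X))} : Set ℕ).ncard : ℕ) :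
      ℝ) ≤ η * (130 * M) + D * (1 + 64 * M * m / X) := by
  obtain ⟨j, hj⟩ : ∃ j, j = Nat.log 64 (X / M) := ⟨_, rfl⟩
  have hXM : 64 ≤ X / M := by
    rw [Nat.le_div_iff_mul_le (by omega)]
    exact hX
  have hj1 : 1 ≤ j := by
    rw [hj]
    exact Nat.log_pos (by norm_num) hXM
  have hjle : 64 ^ j * M ≤ X := by
    rw [← Nat.le_div_iff_mul_le (by omega), hj]
    exact Nat.pow_log_le_self 64 (by omega)
  have hjlt : X < 64 ^ (j + 1) * M := by
    rw [← Nat.div_lt_iff_lt_mul (by omega), hj]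
    exact Nat.lt_pow_succ_log_self (by norm_num) _
  obtain ⟨P, hP⟩ : ∃ P, P = 64 ^ j := ⟨_, rfl⟩
  have hg : 63 * gm j + 1 = P := by rw [hP]; exact gm_eq j
  have hP64 : 64 ≤ P := by
    rw [hP]
    calc 64 = 64 ^ 1 := by norm_num
      _ ≤ 64 ^ j := Nat.pow_le_pow_right (by norm_num) hj1
  have hjP : j ≤ P := by
    rw [hP]
    exact (Nat.lt_pow_self (by norm_num)).le
  have h6j : 6 * j ≤ κ := by
    refine le_trans ?_ hκ
    apply Nat.le_log_of_pow_le (by norm_num)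
    rw [pow_mul]
    exact le_trans (Nat.le_mul_of_pos_right _ (by omega)) hjle
  rw [← hP] at hjle
  rw [pow_succ, ← hP] at hjlt
  obtain ⟨s, hs⟩ : ∃ s : ℤ → ℕ, ∀ Y, s Y = S.num S.q0
    (((X : ℤ) + j + 10 * gm j) - ((P : ℤ) - 1) * Y).toNat ((-(10 * gm j : ℤ)) + (P : ℤ) * Y).toNat :=
    ⟨_, fun _ => rfl⟩
  have hcell : Cell S S.q0 ((P : ℤ) - 1) P ((X : ℤ) + j + 10 * gm j) (-(10 * gm j : ℤ)) s := by
    refine ⟨by omega, by omega, ⟨by omega, by omega, fun _ _ => ⟨by omega, by omega⟩⟩, ?_⟩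
    intro Y _ _
    exact hs Y
  have hPr : (64 : ℝ) ≤ P := by exact_mod_cast hP64
  have hMr : (1 : ℝ) ≤ M := by exact_mod_cast hM
  have e1 : (X : ℝ) < P * 64 * M := by exact_mod_cast hjlt
  have hXr : (0 : ℝ) < X := by
    have : 0 < X := by omega
    exact_mod_cast this
  have hlen : ((((X : ℤ) + j + 10 * gm j : ℤ)) : ℝ) / (((P : ℤ) - 1 : ℤ) : ℝ) +
      ((-(10 * gm j : ℤ) : ℤ) : ℝ) / ((P : ℤ) : ℝ) ≤ 130 * M := by
    push_cast
    have h1 : (-(10 * (gm j : ℝ))) / (P : ℝ) ≤ 0 := by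
      apply div_nonpos_of_nonpos_of_nonneg
      · have : (0 : ℝ) ≤ gm j := Nat.cast_nonneg _
        linarith
      · linarith
    have h2 : ((X : ℝ) + j + 10 * gm j) / ((P : ℝ) - 1) ≤ 130 * M := by
      rw [div_le_iff₀ (by linarith)]
      have e2 : (j : ℝ) ≤ P := by exact_mod_cast hjP
      have e3 : 63 * (gm j : ℝ) + 1 = P := by exact_mod_cast hg
      nlinarith
    linarith
  have hbb := hb _ _ _ _ s (130 * M) P m hcell (by omega) (by omega) (by positivity) hlen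
  have hmP : (m : ℝ) / P ≤ 64 * M * m / X := by
    rw [div_le_div_iff₀ (by linarith) hXr]
    have hm0 : (0 : ℝ) ≤ m := Nat.cast_nonneg _
    nlinarith
  have hbb2 : D * (1 + (m : ℝ) / P) ≤ D * (1 + 64 * M * m / X) :=
    mul_le_mul_of_nonneg_left (by linarith) hD
  have hinj : ({Y | 1 ≤ Y ∧ Y ≤ M ∧ ¬ NG (κ + V) V m (Nat.ofDigits 10 (tw 2 1 Y X))} :
      Set ℕ).ncard ≤
      (bad ((P : ℤ) - 1) P ((X : ℤ) + j + 10 * gm j) (-(10 * gm j : ℤ)) s V m).ncard := by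
    refine Set.ncard_le_ncard_of_injOn (fun Y : ℕ => (Y : ℤ)) ?_ ?_ (bad_fin (by omega) (by omega))
    · rintro Y ⟨h1, h2, h3⟩
      have hPY : P * Y ≤ X := (Nat.mul_le_mul_left P h2).trans hjle
      have hPY1 : P ≤ P * Y := Nat.le_mul_of_pos_right _ h1
      have hPYz : (P : ℤ) * (Y : ℤ) = ((P * Y : ℕ) : ℤ) := by push_cast; ring
      refine ⟨?_, ?_, ?_⟩
      · have : (((P : ℤ) - 1) * (Y : ℤ)) = ((P * Y : ℕ) : ℤ) - Y := by push_cast; ring
        rw [this]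
        omega
      · rw [hPYz]
        omega
      · intro hn
        apply h3
        refine (NG_iter (κ := V) (6 * j) ?_).mono (by omega) le_rfl le_rfl
        rw [run j X Y h1 (by rw [← hP]; exact hPY), ← hP]
        rw [hs, S.hq0] at hn
        have e1 : ((-(10 * gm j : ℤ)) + (P : ℤ) * (Y : ℤ)).toNat = P * Y - 10 * gm j := by
          rw [hPYz]
          omega
        have e2 : (((X : ℤ) + j + 10 * gm j) - ((P : ℤ) - 1) * (Y : ℤ)).toNat =
            X + Y + j - (P * Y - 10 * gm j) := by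
          have : (((P : ℤ) - 1) * (Y : ℤ)) = ((P * Y : ℕ) : ℤ) - Y := by push_cast; ring
          rw [this]
          omega
        rw [e1, e2] at hn
        exact hn
    · intro a _ b _ hab
      simpa using hab
  have : ((({Y | 1 ≤ Y ∧ Y ≤ M ∧ ¬ NG (κ + V) V m (Nat.ofDigits 10 (tw 2 1 Y X))} :
    Set ℕ).ncard : ℕ) : ℝ) ≤
    (((bad ((P : ℤ) - 1) P ((X : ℤ) + j + 10 * gm j) (-(10 * gm j : ℤ)) s V m).ncard : ℕ) : ℝ) := by
    exact_mod_cast hinj
  linarith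

/-- the deterministic part, with the number of steps and the number of digits -/
def DetStmt2 : Prop := ∀ K δ : ℝ, 0 < K → 0 < δ → ∃ (V L0 : ℕ) (c : ℝ), 0 < c ∧ ∀ L : ℕ, L0 ≤ L →
  (({p : ℕ × ℕ | |10 * (p.1 : ℝ) - 9 * L| ≤ K * Real.sqrt L ∧ 1 ≤ p.2 ∧
    (p.2 : ℝ) ≤ K * Real.sqrt L ∧
    ¬ NG (Nat.log 2 L + V) V ⌈c * L⌉₊ (Nat.ofDigits 10 (tw 2 1 p.2 p.1))} :
      Set (ℕ × ℕ)).ncard : ℝ) ≤ δ * L

/-- the deterministic part -/
theorem det_of (S : Sys) : DetStmt2 := by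
  intro K δ hK hδ
  obtain ⟨V, D, hD, hb⟩ := BD_small S S.q0 (η := δ / (60 * K ^ 2)) (by positivity)
  obtain ⟨η, hη⟩ : ∃ η, η = δ / (60 * K ^ 2) := ⟨_, rfl⟩
  have hη0 : 0 < η := by rw [hη]; positivity
  rw [← hη] at hb
  obtain ⟨c, hc⟩ : ∃ c, c = η / (100 * (D + 1)) := ⟨_, rfl⟩
  have hc0 : 0 < c := by rw [hc]; positivity
  have hcD : 128 * c * D ≤ 2 * η := by
    rw [hc]
    have : 128 * (η / (100 * (D + 1))) * D = (128 / 100 * η) * (D / (D + 1)) := by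
      field_simp
    rw [this]
    have h1 : D / (D + 1) ≤ 1 := by
      rw [div_le_one (by positivity)]
      linarith
    have h2 : (128 / 100 * η) * (D / (D + 1)) ≤ (128 / 100 * η) * 1 :=
      mul_le_mul_of_nonneg_left h1 (by positivity)
    linarith
  obtain ⟨c1, hc1⟩ : ∃ c1, c1 = 140 * η * K + 129 * (D * (K + 1)) * (K + 1) := ⟨_, rfl⟩
  have hc10 : 0 ≤ c1 := by rw [hc1]; positivity
  obtain ⟨R0, hR0⟩ : ∃ R0, R0 = 1 + 1 / K + 72 * K + 2 * c1 / δ := ⟨_, rfl⟩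
  have hR00 : 0 ≤ R0 := by rw [hR0]; positivity
  refine ⟨V, ⌈R0 ^ 2⌉₊, c, hc0, fun L hL => ?_⟩
  have hLr : R0 ^ 2 ≤ L := (Nat.le_ceil _).trans (by exact_mod_cast hL)
  obtain ⟨r, hr⟩ : ∃ r, r = Real.sqrt L := ⟨_, rfl⟩
  have hrR : R0 ≤ r := by rw [hr]; exact Real.le_sqrt_of_sq_le hLr
  have hr0 : 0 ≤ r := hR00.trans hrR
  have hrr : r * r = L := by rw [hr]; exact Real.mul_self_sqrt (Nat.cast_nonneg _)
  rw [← hr]
  have i1 : 0 < 1 / K := by positivity
  have i2 : 0 ≤ 2 * c1 / δ := by positivity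
  have q1 : 1 ≤ r := by nlinarith
  have q2 : 1 / K ≤ r := by nlinarith
  have q3 : 72 * K ≤ r := by nlinarith
  have q4 : 2 * c1 / δ ≤ r := by nlinarith
  have q2' : 1 ≤ K * r := by
    rw [div_le_iff₀ hK] at q2
    linarith
  have q4' : 2 * c1 ≤ δ * r := by
    rw [div_le_iff₀ hδ] at q4
    linarith
  have hL1 : (1 : ℝ) ≤ L := by nlinarith
  obtain ⟨m, hm⟩ : ∃ m, m = ⌈c * (L : ℝ)⌉₊ := ⟨_, rfl⟩
  have hmr : (m : ℝ) ≤ c * L + 1 := by
    rw [hm]
    exact (Nat.ceil_lt_add_one (by positivity)).le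
  rw [← hm]
  obtain ⟨M, hM⟩ : ∃ M, M = ⌊K * r⌋₊ := ⟨_, rfl⟩
  have hM1 : 1 ≤ M := by
    rw [hM]
    exact Nat.le_floor (by exact_mod_cast q2')
  have hMr : (M : ℝ) ≤ K * r := by
    rw [hM]
    exact Nat.floor_le (by positivity)
  have hM0 : (0 : ℝ) ≤ M := Nat.cast_nonneg _
  obtain ⟨n, hn⟩ : ∃ n, n = ⌊η * (130 * M) + D * (1 + 128 * M * (c + 1 / L))⌋₊ := ⟨_, rfl⟩
  have hnr : (n : ℝ) ≤ η * (130 * M) + D * (1 + 128 * M * (c + 1 / L)) := by
    rw [hn]
    exact Nat.floor_le (by positivity)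
  obtain ⟨P, hP⟩ : ∃ P : Set (ℕ × ℕ), P = {p : ℕ × ℕ | |10 * (p.1 : ℝ) - 9 * L| ≤ K * r ∧
    1 ≤ p.2 ∧ (p.2 : ℝ) ≤ K * r ∧
      ¬ NG (Nat.log 2 L + V) V m (Nat.ofDigits 10 (tw 2 1 p.2 p.1))} := ⟨_, rfl⟩
  rw [← hP]
  obtain ⟨lo, hlo⟩ : ∃ lo, lo = ⌈(9 * (L : ℝ) - K * r) / 10⌉₊ := ⟨_, rfl⟩
  obtain ⟨hi, hhi⟩ : ∃ hi, hi = ⌊(9 * (L : ℝ) + K * r) / 10⌋₊ := ⟨_, rfl⟩
  have hPsub : ∀ p ∈ P, p.1 ∈ Finset.Icc lo hi ∧ p.2 ∈ Finset.Icc 1 M := by
    intro p hp
    rw [hP] at hp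
    obtain ⟨h1, h2, h3, h4⟩ := hp
    rw [abs_le] at h1
    rw [Finset.mem_Icc, Finset.mem_Icc]
    refine ⟨⟨?_, ?_⟩, h2, ?_⟩
    · rw [hlo]
      apply Nat.ceil_le.mpr
      linarith [h1.1]
    · rw [hhi]
      apply Nat.le_floor
      linarith [h1.2]
    · rw [hM]
      exact Nat.le_floor h3
  have hPfin : P.Finite := by
    apply ((Finset.Icc lo hi ×ˢ Finset.Icc 1 M : Finset (ℕ × ℕ)).finite_toSet).subset
    intro p hp
    rw [Finset.mem_coe, Finset.mem_product]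
    exact hPsub p hp
  rw [Set.ncard_eq_toFinset_card P hPfin]
  have hcard : hPfin.toFinset.card ≤ n * (Finset.Icc lo hi).card := by
    apply Finset.card_le_mul_card_image_of_maps_to (f := Prod.fst)
    · intro p hp
      exact (hPsub p (hPfin.mem_toFinset.mp hp)).1
    · intro X hX
      rw [Finset.mem_Icc] at hX
      have hXlo : (9 * (L : ℝ) - K * r) / 10 ≤ X :=
        (Nat.le_ceil _).trans (by rw [← hlo]; exact_mod_cast hX.1)
      have hX64 : 64 * M ≤ X := by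
        have : (64 * (M : ℝ)) ≤ X := by nlinarith
        exact_mod_cast this
      have hXL2 : (L : ℝ) / 2 ≤ X := by nlinarith
      have hXL : X ≤ L := by
        have h1 : (X : ℝ) ≤ (9 * (L : ℝ) + K * r) / 10 := by
          refine le_trans ?_ (Nat.floor_le (by positivity))
          rw [← hhi]
          exact_mod_cast hX.2
        have : (X : ℝ) ≤ L := by nlinarith
        exact_mod_cast this
      have hf := fib S (κ := Nat.log 2 L) (m := m) hD hb hM1 hX64 (Nat.log_mono_right hXL)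
      have hm2 : 64 * (M : ℝ) * m / X ≤ 128 * M * (c + 1 / L) := by
        have hXpos : (0 : ℝ) < X := by linarith
        rw [div_le_iff₀ hXpos]
        have e1 : 128 * (M : ℝ) * (c + 1 / L) * X = 64 * M * ((c + 1 / L) * (2 * X)) := by ring
        have e2 : (c + 1 / L) * (L : ℝ) = c * L + 1 := by field_simp
        have e3 : (c + 1 / L) * (L : ℝ) ≤ (c + 1 / L) * (2 * X) :=
          mul_le_mul_of_nonneg_left (by linarith) (by positivity)
        have e4 : (m : ℝ) ≤ (c + 1 / L) * (2 * X) := by linarith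
        have e5 : 64 * (M : ℝ) * m ≤ 64 * M * ((c + 1 / L) * (2 * X)) :=
          mul_le_mul_of_nonneg_left e4 (by positivity)
        linarith
      have hf2 : ((({Y | 1 ≤ Y ∧ Y ≤ M ∧ ¬ NG (Nat.log 2 L + V) V m
          (Nat.ofDigits 10 (tw 2 1 Y X))} : Set ℕ).ncard : ℕ) : ℝ) ≤
          η * (130 * M) + D * (1 + 128 * M * (c + 1 / L)) := by
        have := mul_le_mul_of_nonneg_left (show 1 + 64 * (M : ℝ) * m / X ≤
          1 + 128 * M * (c + 1 / L) by linarith) hD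
        linarith
      have hf' : ({Y | 1 ≤ Y ∧ Y ≤ M ∧ ¬ NG (Nat.log 2 L + V) V m
          (Nat.ofDigits 10 (tw 2 1 Y X))} : Set ℕ).ncard ≤ n := by
        rw [hn]
        exact Nat.le_floor hf2
      refine le_trans ?_ hf'
      rw [← Set.ncard_coe_finset]
      refine Set.ncard_le_ncard_of_injOn Prod.snd ?_ ?_
        ((Set.finite_Icc 1 M).subset (fun Y hY => ⟨hY.1, hY.2.1⟩))
      · intro p hp
        rw [Finset.mem_coe, Finset.mem_filter, hPfin.mem_toFinset] at hp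
        obtain ⟨hp1, hp2⟩ := hp
        have h2 := (hPsub p hp1).2
        rw [Finset.mem_Icc] at h2
        rw [hP] at hp1
        refine ⟨h2.1, h2.2, ?_⟩
        rw [← hp2]
        exact hp1.2.2.2
      · intro p hp p' hp' h
        rw [Finset.mem_coe, Finset.mem_filter] at hp hp'
        exact Prod.ext (hp.2.trans hp'.2.symm) h
  have hI : ((Finset.Icc lo hi).card : ℝ) ≤ K * r / 5 + 1 := by
    rw [Nat.card_Icc]
    have hlo' : (9 * (L : ℝ) - K * r) / 10 ≤ lo := by rw [hlo]; exact Nat.le_ceil _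
    have hhi' : (hi : ℝ) ≤ (9 * (L : ℝ) + K * r) / 10 := by
      rw [hhi]
      exact Nat.floor_le (by positivity)
    rcases le_total lo (hi + 1) with h | h
    · rw [Nat.cast_sub h]
      push_cast
      linarith
    · rw [Nat.sub_eq_zero_of_le h]
      push_cast
      positivity
  have hcr : (hPfin.toFinset.card : ℝ) ≤ n * ((Finset.Icc lo hi).card : ℝ) := by
    exact_mod_cast hcard
  have hnn : (n : ℝ) ≤ η * (132 * (K * r)) + 129 * (D * (K + 1)) := by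
    refine hnr.trans ?_
    have g1 := mul_le_mul_of_nonneg_left hMr (show (0 : ℝ) ≤ η * 130 by positivity)
    have g2 : D * (128 * M * c) ≤ 2 * η * (K * r) := by
      have : D * (128 * M * c) = (128 * c * D) * M := by ring
      rw [this]
      exact mul_le_mul hcD hMr hM0 (by positivity)
    have g3 : (M : ℝ) * (1 / L) ≤ K := by
      rw [mul_one_div, div_le_iff₀ (by linarith), ← hrr]
      nlinarith
    have g4 : D * (128 * (M * (1 / L))) ≤ D * (128 * K) := by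
      apply mul_le_mul_of_nonneg_left _ hD
      linarith
    nlinarith
  have hfin : (n : ℝ) * ((Finset.Icc lo hi).card : ℝ) ≤
      (η * (132 * (K * r)) + 129 * (D * (K + 1))) * (K * r / 5 + 1) :=
    mul_le_mul hnn hI (Nat.cast_nonneg _) (by positivity)
  refine hcr.trans (hfin.trans ?_)
  have hηK : 30 * η * K ^ 2 = δ / 2 := by
    rw [hη]
    field_simp
    ring
  have e1 : (η * (132 * (K * r)) + 129 * (D * (K + 1))) * (K * r / 5 + 1) =
      132 / 5 * η * K ^ 2 * (r * r) + 132 * η * K * r +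
        129 * (D * (K + 1)) * (K * r / 5 + 1) := by ring
  rw [e1]
  have e2 : 132 / 5 * η * K ^ 2 * (r * r) ≤ δ / 2 * (r * r) := by
    rw [← hηK]
    have : 0 ≤ η * K ^ 2 * (r * r) := by positivity
    nlinarith
  have e3 : 132 * η * K * r + 129 * (D * (K + 1)) * (K * r / 5 + 1) ≤ c1 * r := by
    rw [hc1]
    have f1 : K * r / 5 + 1 ≤ (K + 1) * r := by nlinarith
    have f2 : 129 * (D * (K + 1)) * (K * r / 5 + 1) ≤ 129 * (D * (K + 1)) * ((K + 1) * r) :=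
      mul_le_mul_of_nonneg_left f1 (by positivity)
    have f3 : 0 ≤ η * K * r := by positivity
    nlinarith
  have e4 : c1 * r ≤ δ / 2 * (r * r) := by nlinarith
  rw [← hrr]
  linarith

end Pool.RAT
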