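import Pool.Agent.H42.RAT2.Wrd

/-!
# RATS (MP_a315fd): typical words
-/

set_option autoImplicit false

namespace Pool.RAT

open List

theorem sum_revZ {B : ℕ} (f : (Fin B → Y2) → ℤ) :
    ∑ x : Fin B → Y2, f (fun i => x i.rev) = ∑ x : Fin B → Y2, f x :=
  Fintype.sum_equiv ((Fin.revPerm).arrowCongr (Equiv.refl Y2)) _ _ (fun _ => rfl)

/-- forward digit count of a word -/
def Fa {J : ℕ} (w : Fin J → A3) (d : Fin 10) : ℕ := (out 0 (zb (fe J w))).count d.val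
/-- backward digit count of a word -/
def Fb {J : ℕ} (w : Fin J → A3) (d : Fin 10) : ℕ := (out 0 (zb (fe J w)).reverse).count d.val
/-- contribution of a word -/
def Vd {J : ℕ} (w : Fin J → A3) (d : Fin 10) : ℕ := ph (zb (fe J w)) d.val

theorem Vd_bd {J : ℕ} (w : Fin J → A3) (d : Fin 10) :
    Fa w d + Fb w d ≤ Vd w d ∧ Vd w d ≤ Fa w d + Fb w d + 2 := by
  simp only [Vd, ph, Fa, Fb]
  split_ifs <;> omega

theorem sq_Fa (J : ℕ) (d : Fin 10) :
    ∑ w : Fin J → A3, (10 * (Fa w d : ℤ) - 3 * J) ^ 2 = 27 * (J : ℤ) * 1000000 ^ J := by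
  have h := sq_out (J * 3) 0 (by norm_num) d.val d.isLt
  rw [← Equiv.sum_comp (fe J)] at h
  have e : (100 : ℤ) ^ (J * 3) = 1000000 ^ J := by rw [mul_comm, pow_mul]; norm_num
  rw [e] at h
  have e2 : ∀ w : Fin J → A3, (10 * (Fa w d : ℤ) - 3 * J) ^ 2 =
      (10 * ((out 0 (zb (fe J w))).count d.val : ℤ) - ((J * 3 : ℕ) : ℤ)) ^ 2 := by
    intro w
    rw [Fa]
    push_cast
    ring
  rw [Finset.sum_congr rfl (fun w _ => e2 w), h]
  push_cast
  ring

theorem sq_Fb (J : ℕ) (d : Fin 10) :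
    ∑ w : Fin J → A3, (10 * (Fb w d : ℤ) - 3 * J) ^ 2 = 27 * (J : ℤ) * 1000000 ^ J := by
  have h := sq_out (J * 3) 0 (by norm_num) d.val d.isLt
  rw [← sum_revZ, ← Equiv.sum_comp (fe J)] at h
  have e : (100 : ℤ) ^ (J * 3) = 1000000 ^ J := by rw [mul_comm, pow_mul]; norm_num
  rw [e] at h
  have e2 : ∀ w : Fin J → A3, (10 * (Fb w d : ℤ) - 3 * J) ^ 2 =
      (10 * ((out 0 (zb (fun i => fe J w i.rev))).count d.val : ℤ) - ((J * 3 : ℕ) : ℤ)) ^ 2 := by
    intro w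
    rw [Fb, zb_rev]
    push_cast
    ring
  rw [Finset.sum_congr rfl (fun w _ => e2 w), h]
  push_cast
  ring

theorem sq_K (J : ℕ) (i : Fin 10) :
    ∑ w : Fin J → A3, (1000000 * (kk (sg i) w : ℤ) - J) ^ 2 = 999999 * (J : ℤ) * 1000000 ^ J := by
  have h := sq_kk (sg i) J
  rw [card_A3] at h
  push_cast at h
  rw [h]
  ring

/-- total deviation -/
def Qd {J : ℕ} (w : Fin J → A3) : ℤ :=
  ∑ d : Fin 10, ((10 * (Fa w d : ℤ) - 3 * J) ^ 2 + (10 * (Fb w d : ℤ) - 3 * J) ^ 2 +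
    (1000000 * (kk (sg d) w : ℤ) - J) ^ 2)

theorem sum_Qd (J : ℕ) : ∑ w : Fin J → A3, Qd w = 10000530 * J * 1000000 ^ J := by
  simp only [Qd]
  rw [Finset.sum_comm]
  have h : ∀ d : Fin 10, ∑ w : Fin J → A3, ((10 * (Fa w d : ℤ) - 3 * J) ^ 2 +
      (10 * (Fb w d : ℤ) - 3 * J) ^ 2 + (1000000 * (kk (sg d) w : ℤ) - J) ^ 2) =
      1000053 * (J : ℤ) * 1000000 ^ J := by
    intro d
    rw [Finset.sum_add_distrib, Finset.sum_add_distrib, sq_Fa, sq_Fb, sq_K]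
    ring
  rw [Finset.sum_congr rfl (fun d _ => h d), Finset.sum_const, Finset.card_univ, Fintype.card_fin,
    nsmul_eq_mul]
  push_cast
  ring

/-- typical words -/
def Gd (J : ℕ) : Finset (Fin J → A3) := Finset.univ.filter (fun w => Qd w ≤ 25000000 * J)

theorem card_Gd {J : ℕ} (hJ : 1 ≤ J) : 1000000 ^ J ≤ 2 * (Gd J).card := by
  have h1 : (Gd J).card + (Finset.univ.filter (fun w : Fin J → A3 => ¬ Qd w ≤ 25000000 * J)).card =
      1000000 ^ J := by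
    rw [Gd, Finset.card_filter_add_card_filter_not, Finset.card_univ, Fintype.card_fun,
      Fintype.card_fin, card_A3]
  obtain ⟨b, hb⟩ : ∃ b, b = (Finset.univ.filter (fun w : Fin J → A3 => ¬ Qd w ≤ 25000000 * J)).card :=
    ⟨_, rfl⟩
  have hQ0 : ∀ w : Fin J → A3, 0 ≤ Qd w := fun w => Finset.sum_nonneg (fun d _ => by positivity)
  have h2 : (b : ℤ) * (25000000 * J) ≤ 10000530 * J * 1000000 ^ J := by
    rw [← sum_Qd, hb]
    calc (((Finset.univ.filter (fun w : Fin J → A3 => ¬ Qd w ≤ 25000000 * J)).card : ℕ) : ℤ) *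
          (25000000 * J) =
        ∑ w ∈ (Finset.univ.filter (fun w : Fin J → A3 => ¬ Qd w ≤ 25000000 * J)),
          (25000000 * J : ℤ) := by
            rw [Finset.sum_const, nsmul_eq_mul]
      _ ≤ ∑ w ∈ (Finset.univ.filter (fun w : Fin J → A3 => ¬ Qd w ≤ 25000000 * J)), Qd w := by
          apply Finset.sum_le_sum
          intro w hw
          have := (Finset.mem_filter.mp hw).2
          omega
      _ ≤ ∑ w : Fin J → A3, Qd w :=
          Finset.sum_le_sum_of_subset_of_nonneg (Finset.filter_subset _ _) (fun w _ _ => hQ0 w)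
  have h3 : (b : ℤ) * 25000000 ≤ 10000530 * 1000000 ^ J := by
    have hJ' : (0 : ℤ) < J := by exact_mod_cast hJ
    refine le_of_mul_le_mul_right ?_ hJ'
    calc (b : ℤ) * 25000000 * J = b * (25000000 * J) := by ring
      _ ≤ 10000530 * J * 1000000 ^ J := h2
      _ = 10000530 * 1000000 ^ J * J := by ring
  have h4 : ((Gd J).card : ℤ) + b = 1000000 ^ J := by rw [hb]; exact_mod_cast h1
  have h5 : (1000000 ^ J : ℤ) ≤ 2 * (Gd J).card := by
    have : (0 : ℤ) ≤ 1000000 ^ J := by positivity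
    nlinarith
  exact_mod_cast h5

theorem abs_of_sq {x s J : ℝ} (hs : 0 ≤ s) (hJ : J = s ^ 2) (h : x ^ 2 ≤ 25000000 * J) :
    |x| ≤ 5000 * s := by
  apply abs_le_of_sq_le_sq _ (by positivity)
  rw [hJ] at h
  calc x ^ 2 ≤ 25000000 * s ^ 2 := h
    _ = (5000 * s) ^ 2 := by ring

theorem Gd_bd {J : ℕ} {w : Fin J → A3} (hw : w ∈ Gd J) {s : ℝ} (hs : 0 ≤ s) (hJ : (J : ℝ) = s ^ 2)
    (d : Fin 10) :
    |10 * (Fa w d : ℝ) - 3 * J| ≤ 5000 * s ∧ |10 * (Fb w d : ℝ) - 3 * J| ≤ 5000 * s ∧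
    |1000000 * (kk (sg d) w : ℝ) - J| ≤ 5000 * s := by
  have h := (Finset.mem_filter.mp hw).2
  have h1 := Finset.single_le_sum (f := fun d : Fin 10 => ((10 * (Fa w d : ℤ) - 3 * J) ^ 2 +
    (10 * (Fb w d : ℤ) - 3 * J) ^ 2 + (1000000 * (kk (sg d) w : ℤ) - J) ^ 2))
    (fun d _ => by positivity) (Finset.mem_univ d)
  have h2 : ((10 * (Fa w d : ℤ) - 3 * J) ^ 2 +
    (10 * (Fb w d : ℤ) - 3 * J) ^ 2 + (1000000 * (kk (sg d) w : ℤ) - J) ^ 2) ≤ 25000000 * J :=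
    h1.trans h
  have p1 := sq_nonneg (10 * (Fa w d : ℤ) - 3 * J)
  have p2 := sq_nonneg (10 * (Fb w d : ℤ) - 3 * J)
  have p3 := sq_nonneg (1000000 * (kk (sg d) w : ℤ) - J)
  have q1 : (10 * (Fa w d : ℤ) - 3 * J) ^ 2 ≤ 25000000 * J := by linarith
  have q2 : (10 * (Fb w d : ℤ) - 3 * J) ^ 2 ≤ 25000000 * J := by linarith
  have q3 : (1000000 * (kk (sg d) w : ℤ) - J) ^ 2 ≤ 25000000 * J := by linarith
  refine ⟨abs_of_sq hs hJ ?_, abs_of_sq hs hJ ?_, abs_of_sq hs hJ ?_⟩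
  · exact_mod_cast q1
  · exact_mod_cast q2
  · exact_mod_cast q3

/-- the counting constant -/
noncomputable def cD (c : ℝ) : ℝ := Real.exp (10 + (810 * (c + 10000) ^ 2 * 1000000) / 10)

open Classical in
/-- in the class of a typical word, a good proportion has given contributions -/
theorem cls {J : ℕ} {w : Fin J → A3} (hw : w ∈ Gd J) {s : ℝ} (hJ : (J : ℝ) = s ^ 2)
    {c : ℝ} (hc : 0 ≤ c) (hsc : 1000000 * (10 * (c + 10000) + 10) ≤ s) {u : Fin 10 → ℕ}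
    (hpar : ∀ d : Fin 10, d ≠ 0 → (u d) % 2 = (Vd w d) % 2)
    (hu : ∀ d : Fin 10, d ≠ 0 → |10 * (u d : ℝ) - 6 * J| ≤ c * s) :
    ((Finset.univ.filter (fun w' : Fin J → A3 => rst sg w' = rst sg w)).card : ℝ) ≤
      cD c * s ^ 9 *
      ((Finset.univ.filter (fun w' : Fin J → A3 => rst sg w' = rst sg w ∧
        ∀ d : Fin 10, d ≠ 0 → Vd w' d = u d)).card : ℝ) := by
  have hs1 : 1 ≤ s := by nlinarith
  have hs0 : 0 ≤ s := by linarith
  obtain ⟨K, hK⟩ : ∃ K, K = ∑ i, kk (sg i) w := ⟨_, rfl⟩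
  obtain ⟨c2, hc2⟩ : ∃ c2 : ℝ, c2 = c + 10000 := ⟨_, rfl⟩
  have hc20 : 10000 ≤ c2 := by linarith
  -- the new composition, in integers
  obtain ⟨kz, hkz⟩ : ∃ kz : Fin 10 → ℤ, kz = fun d =>
    (kk (sg d) w : ℤ) + ((u d : ℤ) - Vd w d) / 2 := ⟨_, rfl⟩
  have hkz2 : ∀ d, d ≠ 0 → 2 * (kz d - kk (sg d) w) = (u d : ℤ) - Vd w d := by
    intro d hd
    have := hpar d hd
    rw [hkz]
    simp only
    omega
  obtain ⟨k0, hk0⟩ : ∃ k0 : ℤ, k0 = (K : ℤ) - ∑ d : Fin 9, kz d.succ := ⟨_, rfl⟩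
  obtain ⟨kn, hkn⟩ : ∃ kn : Fin 10 → ℤ, kn = fun d => if d = 0 then k0 else kz d := ⟨_, rfl⟩
  have hkn0 : kn 0 = k0 := by rw [hkn]; simp
  have hkns : ∀ d : Fin 9, kn d.succ = kz d.succ := by
    intro d
    rw [hkn]
    simp only
    rw [if_neg (Fin.succ_ne_zero d)]
  have hsum : ∑ d, kn d = K := by
    rw [Fin.sum_univ_succ, hkn0, Finset.sum_congr rfl (fun d _ => hkns d), hk0]
    ring
  -- real bounds
  have hKe : |1000000 * (K : ℝ) - 10 * J| ≤ 50000 * s := by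
    have e : 1000000 * (K : ℝ) - 10 * J = ∑ i : Fin 10, (1000000 * (kk (sg i) w : ℝ) - J) := by
      rw [Finset.sum_sub_distrib, ← Finset.mul_sum, Finset.sum_const, Finset.card_univ,
        Fintype.card_fin, hK]
      push_cast
      ring
    rw [e]
    refine (Finset.abs_sum_le_sum_abs _ _).trans ?_
    refine (Finset.sum_le_sum (fun i _ => (Gd_bd hw hs0 hJ i).2.2)).trans (le_of_eq ?_)
    rw [Finset.sum_const, Finset.card_univ, Fintype.card_fin]
    ring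
  have hb1 : ∀ d : Fin 9, |10 * (kz d.succ : ℝ) - K| ≤ c2 * s := by
    intro d
    have hne : d.succ ≠ (0 : Fin 10) := Fin.succ_ne_zero d
    have h1 := hkz2 d.succ hne
    have h1' : 2 * ((kz d.succ : ℝ) - (kk (sg d.succ) w : ℝ)) = (u d.succ : ℝ) - Vd w d.succ := by
      exact_mod_cast h1
    obtain ⟨g1, g2, g3⟩ := Gd_bd hw hs0 hJ d.succ
    obtain ⟨v1, v2⟩ := Vd_bd w d.succ
    have v1' : (Fa w d.succ : ℝ) + Fb w d.succ ≤ Vd w d.succ := by exact_mod_cast v1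
    have v2' : (Vd w d.succ : ℝ) ≤ Fa w d.succ + Fb w d.succ + 2 := by exact_mod_cast v2
    have hud := hu d.succ hne
    rw [abs_le] at g1 g2 g3 hud hKe ⊢
    obtain ⟨g1a, g1b⟩ := g1
    obtain ⟨g2a, g2b⟩ := g2
    obtain ⟨g3a, g3b⟩ := g3
    obtain ⟨ua, ub⟩ := hud
    obtain ⟨ka, kb⟩ := hKe
    have hcs : 0 ≤ c * s := mul_nonneg hc hs0
    have e2 : c2 * s = c * s + 10000 * s := by rw [hc2]; ring
    rw [e2]
    constructor <;> linarith
  have hb0 : |10 * (k0 : ℝ) - K| ≤ 9 * (c2 * s) := by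
    have e : 10 * (k0 : ℝ) - K = - ∑ d : Fin 9, (10 * (kz d.succ : ℝ) - K) := by
      rw [Finset.sum_sub_distrib, ← Finset.mul_sum, Finset.sum_const, Finset.card_univ,
        Fintype.card_fin, hk0]
      push_cast
      rw [nsmul_eq_mul]
      push_cast
      ring
    rw [e, abs_neg]
    refine (Finset.abs_sum_le_sum_abs _ _).trans ?_
    refine (Finset.sum_le_sum (fun i _ => hb1 i)).trans (le_of_eq ?_)
    rw [Finset.sum_const, Finset.card_univ, Fintype.card_fin]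
    ring
  have hcs0 : 0 ≤ c2 * s := by positivity
  have hb : ∀ d : Fin 10, |10 * (kn d : ℝ) - K| ≤ 9 * (c2 * s) := by
    intro d
    refine Fin.cases ?_ (fun d => ?_) d
    · rw [hkn0]; exact hb0
    · rw [hkns]
      exact (hb1 d).trans (by linarith)
  have hKlow : s * (10 * c2 + 10) ≤ (K : ℝ) := by
    have h1 := (abs_le.mp hKe).1
    have h2 : 1000000 * (10 * c2 + 10) * s ≤ s ^ 2 := by
      rw [pow_two]
      exact mul_le_mul_of_nonneg_right (by rw [hc2]; exact hsc) hs0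
    rw [hJ] at h1
    nlinarith
  have hK6 : (J : ℝ) ≤ 1000000 * K := by
    have h1 := (abs_le.mp hKe).1
    have h2 : 1000000 * s ≤ s ^ 2 := by nlinarith
    rw [hJ] at h1 ⊢
    linarith
  have hKJ : (K : ℝ) ≤ J := by
    have h1 := (abs_le.mp hKe).2
    have h2 : 1000000 * s ≤ s ^ 2 := by nlinarith
    rw [hJ] at h1 ⊢
    linarith
  have hkn1 : ∀ d : Fin 10, 1 ≤ kn d := by
    intro d
    have h1 := (abs_le.mp (hb d)).1
    have h2 : (10 : ℝ) ≤ 10 * (kn d : ℝ) := by nlinarith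
    have h3 : (1 : ℝ) ≤ (kn d : ℝ) := by linarith
    exact_mod_cast h3
  obtain ⟨k, hk⟩ : ∃ k : Fin 10 → ℕ, k = fun d => (kn d).toNat := ⟨_, rfl⟩
  have hkk : ∀ d, (k d : ℤ) = kn d := by
    intro d
    rw [hk]
    exact Int.toNat_of_nonneg (by have := hkn1 d; omega)
  have hkR : ∀ d, (k d : ℝ) = (kn d : ℝ) := by
    intro d
    have := hkk d
    exact_mod_cast this
  have hsumk : ∑ i, k i = K := by
    have h1 : (((∑ i, k i : ℕ)) : ℤ) = K := by
      push_cast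
      rw [Finset.sum_congr rfl (fun d _ => hkk d), hsum]
    exact_mod_cast h1
  have hk1 : ∀ i, 1 ≤ k i := by
    intro i
    have h1 := hkk i
    have h2 := hkn1 i
    omega
  have hD : ∑ i, (10 * (k i : ℝ) - K) ^ 2 ≤ (810 * (c + 10000) ^ 2 * 1000000) * K := by
    have h1 : ∀ i, (10 * (k i : ℝ) - K) ^ 2 ≤ 81 * c2 ^ 2 * J := by
      intro i
      rw [hkR, hJ]
      calc (10 * (kn i : ℝ) - K) ^ 2 = |10 * (kn i : ℝ) - K| ^ 2 := (sq_abs _).symm
        _ ≤ (9 * (c2 * s)) ^ 2 := pow_le_pow_left₀ (abs_nonneg _) (hb i) 2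
        _ = 81 * c2 ^ 2 * s ^ 2 := by ring
    refine (Finset.sum_le_sum (fun i _ => h1 i)).trans ?_
    rw [Finset.sum_const, Finset.card_univ, Fintype.card_fin, nsmul_eq_mul, ← hc2]
    calc ((10 : ℕ) : ℝ) * (81 * c2 ^ 2 * J) = 810 * c2 ^ 2 * J := by push_cast; ring
      _ ≤ 810 * c2 ^ 2 * (1000000 * K) := mul_le_mul_of_nonneg_left hK6 (by positivity)
      _ = 810 * c2 ^ 2 * 1000000 * K := by ring
  have key := class_ge sg_inj w hK.symm hsumk hk1 hD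
  refine key.trans ?_
  have hsub : (Finset.univ.filter (fun w' : Fin J → A3 => rst sg w' = rst sg w ∧
      ∀ i, kk (sg i) w' = k i)).card ≤ (Finset.univ.filter (fun w' : Fin J → A3 =>
      rst sg w' = rst sg w ∧ ∀ d : Fin 10, d ≠ 0 → Vd w' d = u d)).card := by
    apply Finset.card_le_card
    intro w' hw'
    simp only [Finset.mem_filter, Finset.mem_univ, true_and] at hw' ⊢
    refine ⟨hw'.1, fun d hd => ?_⟩
    have h1 := ph_exch hw'.1 d
    have h2 := hw'.2 d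
    have h3 := hkz2 d hd
    have h4 := hkk d
    have h5 : kn d = kz d := by rw [hkn]; simp only; rw [if_neg hd]
    rw [h5] at h4
    simp only [Vd] at h3 ⊢
    rw [h2] at h1
    omega
  have hsub' : ((Finset.univ.filter (fun w' : Fin J → A3 => rst sg w' = rst sg w ∧
      ∀ i, kk (sg i) w' = k i)).card : ℝ) ≤ ((Finset.univ.filter (fun w' : Fin J → A3 =>
      rst sg w' = rst sg w ∧ ∀ d : Fin 10, d ≠ 0 → Vd w' d = u d)).card : ℝ) := by
    exact_mod_cast hsub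
  have hK0 : (0 : ℝ) ≤ K := by positivity
  rw [cD]
  apply mul_le_mul _ hsub' (by positivity) (by positivity)
  have hKs : Real.sqrt K ≤ s := by
    rw [Real.sqrt_le_left hs0, ← hJ]
    exact hKJ
  exact mul_le_mul_of_nonneg_left (pow_le_pow_left₀ (Real.sqrt_nonneg _) hKs 9) (Real.exp_pos _).le

end Pool.RAT
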