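import Mathlib

/-!
# Functions with prescribed fibre sizes near the mean
-/

set_option autoImplicit false

namespace Pool.RAT

open Nat

section fib

variable {P : Type} [Fintype P] [DecidableEq P]

/-- the functions to ten values with prescribed fibre sizes -/
def SK (P : Type) [Fintype P] [DecidableEq P] (k : Fin 10 → ℕ) : Finset (P → Fin 10) :=
  Finset.univ.filter (fun f : P → Fin 10 => ∀ i, (Finset.univ.filter (fun p => f p = i)).card = k i)

theorem exists_fib {k : Fin 10 → ℕ} (hk : ∑ i, k i = Fintype.card P) :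
    ∃ f : P → Fin 10, f ∈ SK P k := by
  have h : Fintype.card P = Fintype.card (Σ i, Fin (k i)) := by
    rw [Fintype.card_sigma, ← hk]
    simp
  let e := Fintype.equivOfCardEq h
  refine ⟨fun p => (e p).1, ?_⟩
  rw [SK, Finset.mem_filter]
  refine ⟨Finset.mem_univ _, fun i => ?_⟩
  have h1 : (Finset.univ.filter (fun p => (e p).1 = i)).card =
      (Finset.univ.filter (fun s : (Σ i, Fin (k i)) => s.1 = i)).card := by
    apply Finset.card_bij (fun p _ => e p)
    · intro p hp
      simpa using hp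
    · intro p _ q _ hpq
      exact e.injective hpq
    · intro s hs
      exact ⟨e.symm s, by simpa using hs, by simp⟩
  rw [h1]
  have h2 : (Finset.univ.filter (fun s : (Σ i, Fin (k i)) => s.1 = i)) =
      (Finset.univ : Finset (Fin (k i))).map ⟨fun x => (⟨i, x⟩ : Σ i, Fin (k i)),
        fun x y hxy => by simpa using hxy⟩ := by
    ext ⟨j, x⟩
    simp only [Finset.mem_filter, Finset.mem_univ, true_and, Finset.mem_map,
      Function.Embedding.coeFn_mk]
    constructor
    · rintro rfl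
      exact ⟨x, rfl⟩
    · rintro ⟨y, hy⟩
      exact (congrArg Sigma.fst hy).symm
  rw [h2, Finset.card_map, Finset.card_univ, Fintype.card_fin]

theorem fib_count {k : Fin 10 → ℕ} (hk : ∑ i, k i = Fintype.card P) :
    (Fintype.card P)! ≤ (∏ i, (k i)!) * (SK P k).card := by
  obtain ⟨f0, hf0⟩ := exists_fib hk
  have hf0' := (Finset.mem_filter.mp hf0).2
  have h := Finset.card_le_mul_card_image_of_maps_to
    (s := (Finset.univ : Finset (Equiv.Perm P))) (t := SK P k) (f := fun g : Equiv.Perm P => f0 ∘ g) ?_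
    (∏ i, (k i)!) ?_
  · rwa [Finset.card_univ, Fintype.card_perm] at h
  · intro g _
    rw [SK, Finset.mem_filter]
    refine ⟨Finset.mem_univ _, fun i => ?_⟩
    rw [← hf0' i]
    apply Finset.card_bij (fun p _ => g p)
    · intro p hp
      simpa using hp
    · intro p _ q _ hpq
      exact g.injective hpq
    · intro s hs
      exact ⟨g.symm s, by simpa using hs, by simp⟩
  · intro b hb
    by_cases hne : ∃ g0 : Equiv.Perm P, f0 ∘ g0 = b
    · obtain ⟨g0, rfl⟩ := hne
      have h1 : (Finset.univ.filter (fun g : Equiv.Perm P => f0 ∘ g = f0 ∘ g0)).card =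
          Fintype.card {g : Equiv.Perm P // f0 ∘ g = f0} := by
        rw [Fintype.card_subtype]
        apply Finset.card_bij (fun g _ => g * g0⁻¹)
        · intro g hg
          simp only [Finset.mem_filter, Finset.mem_univ, true_and] at hg ⊢
          funext p
          have := congrFun hg (g0⁻¹ p)
          simpa using this
        · intro g _ g' _ h
          exact mul_right_cancel h
        · intro g hg
          refine ⟨g * g0, ?_, by simp⟩
          simp only [Finset.mem_filter, Finset.mem_univ, true_and] at hg ⊢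
          funext p
          have := congrFun hg (g0 p)
          simpa using this
      rw [h1, DomMulAct.stabilizer_card]
      apply le_of_eq
      apply Finset.prod_congr rfl
      intro i _
      rw [Fintype.card_subtype, hf0' i]
    · rw [Finset.filter_eq_empty_iff.mpr]
      · simp
      · intro g _ hg
        exact hne ⟨g, hg⟩

end fib

theorem fact_le {n : ℕ} (hn : 1 ≤ n) :
    (n ! : ℝ) ≤ Real.exp 1 * Real.sqrt n * ((n : ℝ) / Real.exp 1) ^ n := by
  obtain ⟨m, rfl⟩ : ∃ m, n = m + 1 := ⟨n - 1, by omega⟩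
  have h := Stirling.stirlingSeq'_antitone (Nat.zero_le m)
  simp only [Function.comp_apply, Nat.succ_eq_add_one, zero_add, Stirling.stirlingSeq_one] at h
  rw [Stirling.stirlingSeq, div_le_iff₀ (by positivity)] at h
  refine h.trans (le_of_eq ?_)
  have h2 : Real.sqrt (2 * ((m + 1 : ℕ) : ℝ)) = Real.sqrt 2 * Real.sqrt ((m + 1 : ℕ) : ℝ) :=
    Real.sqrt_mul (by norm_num) _
  rw [h2]
  have h3 : Real.sqrt 2 ≠ 0 := by positivity
  field_simp

theorem fact_ge' (n : ℕ) : ((n : ℝ) / Real.exp 1) ^ n ≤ (n ! : ℝ) := by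
  have h1 := Real.pow_div_factorial_le_exp (n : ℝ) (Nat.cast_nonneg n) n
  have h3 : (0 : ℝ) < (n ! : ℝ) := by exact_mod_cast Nat.factorial_pos n
  rw [div_le_iff₀ h3] at h1
  rw [div_pow, Real.exp_one_pow, div_le_iff₀ (Real.exp_pos _), mul_comm]
  exact h1

theorem multi_ge {k : Fin 10 → ℕ} {K : ℕ} (hK : ∑ i, k i = K) (h1 : ∀ i, 1 ≤ k i) {D : ℝ}
    (hD : ∑ i, (10 * (k i : ℝ) - K) ^ 2 ≤ D * K) :
    (10 : ℝ) ^ K * ((∏ i, (k i)! : ℕ) : ℝ) ≤
      Real.exp (10 + D / 10) * (Real.sqrt K) ^ 9 * (K ! : ℝ) := by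
  have hK1 : 1 ≤ K := by
    rw [← hK]
    exact (h1 0).trans (Finset.single_le_sum (f := k) (fun i _ => Nat.zero_le _) (Finset.mem_univ 0))
  have hK0 : (0 : ℝ) < K := by exact_mod_cast hK1
  have hkK : ∀ i, (k i : ℝ) ≤ K := by
    intro i
    rw [← hK]
    exact_mod_cast Finset.single_le_sum (f := k) (fun i _ => Nat.zero_le _) (Finset.mem_univ i)
  have hk0 : ∀ i, (0 : ℝ) < k i := fun i => by exact_mod_cast h1 i
  have hsum : ∑ i, (k i : ℝ) = K := by rw [← hK]; push_cast; rfl
  -- each factor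
  have e1 : ∀ i, ((k i)! : ℝ) ≤ (Real.exp 1 * Real.sqrt K) *
      (Real.exp ((k i : ℝ) * (10 * (k i : ℝ) / K - 1)) * ((K : ℝ) / (10 * Real.exp 1)) ^ (k i)) := by
    intro i
    refine (fact_le (h1 i)).trans ?_
    apply mul_le_mul
    · exact mul_le_mul_of_nonneg_left (Real.sqrt_le_sqrt (hkK i)) (Real.exp_pos _).le
    · have e2 : (k i : ℝ) / Real.exp 1 = (10 * (k i : ℝ) / K) * ((K : ℝ) / (10 * Real.exp 1)) := by
        field_simp
      rw [e2, mul_pow]
      apply mul_le_mul_of_nonneg_right _ (by positivity)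
      have e3 : 10 * (k i : ℝ) / K ≤ Real.exp (10 * (k i : ℝ) / K - 1) := by
        have := Real.add_one_le_exp (10 * (k i : ℝ) / K - 1)
        linarith
      calc (10 * (k i : ℝ) / K) ^ (k i) ≤ (Real.exp (10 * (k i : ℝ) / K - 1)) ^ (k i) :=
            pow_le_pow_left₀ (by positivity) e3 _
        _ = Real.exp ((k i : ℝ) * (10 * (k i : ℝ) / K - 1)) := by
            rw [← Real.exp_nat_mul]
    · positivity
    · positivity
  have e4 : ((∏ i, (k i)! : ℕ) : ℝ) ≤ (Real.exp 1 * Real.sqrt K) ^ 10 *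
      (Real.exp (∑ i, (k i : ℝ) * (10 * (k i : ℝ) / K - 1)) * ((K : ℝ) / (10 * Real.exp 1)) ^ K) := by
    rw [Nat.cast_prod]
    refine (Finset.prod_le_prod (fun i _ => by positivity) (fun i _ => e1 i)).trans (le_of_eq ?_)
    rw [Finset.prod_mul_distrib, Finset.prod_const, Finset.card_univ, Fintype.card_fin,
      Finset.prod_mul_distrib, ← Real.exp_sum, Finset.prod_pow_eq_pow_sum, hK]
  have e5 : ∑ i, (k i : ℝ) * (10 * (k i : ℝ) / K - 1) ≤ D / 10 := by
    have e6 : ∑ i, (k i : ℝ) * (10 * (k i : ℝ) / K - 1) =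
        (∑ i, (10 * (k i : ℝ) - K) ^ 2) / (10 * K) := by
      have e7 : ∀ i, (10 * (k i : ℝ) - K) ^ 2 = 10 * K * ((k i : ℝ) * (10 * (k i : ℝ) / K - 1)) -
          10 * K * (k i : ℝ) + K ^ 2 := by
        intro i
        field_simp
        ring
      rw [Finset.sum_congr rfl (fun i _ => e7 i), Finset.sum_add_distrib, Finset.sum_sub_distrib,
        ← Finset.mul_sum, ← Finset.mul_sum, hsum]
      rw [Finset.sum_const, Finset.card_univ, Fintype.card_fin]
      generalize (∑ i, (k i : ℝ) * (10 * (k i : ℝ) / K - 1)) = S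
      have e10 : 10 * (K : ℝ) * S - 10 * K * K + 10 • (K : ℝ) ^ 2 = 10 * K * S := by
        rw [nsmul_eq_mul]; push_cast; ring
      rw [e10]
      field_simp
    rw [e6, div_le_div_iff₀ (by positivity) (by norm_num)]
    calc (∑ i, (10 * (k i : ℝ) - K) ^ 2) * 10 ≤ D * K * 10 :=
          mul_le_mul_of_nonneg_right hD (by norm_num)
      _ = D * (10 * K) := by ring
  have e8 : Real.sqrt K * ((10 : ℝ) ^ K * ((K : ℝ) / (10 * Real.exp 1)) ^ K) ≤ (K ! : ℝ) := by
    refine le_trans ?_ (Stirling.le_factorial_stirling K)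
    have h1 : Real.sqrt K ≤ Real.sqrt (2 * Real.pi * K) := by
      apply Real.sqrt_le_sqrt
      have := Real.pi_gt_three
      nlinarith
    have h2 : (10 : ℝ) ^ K * ((K : ℝ) / (10 * Real.exp 1)) ^ K = ((K : ℝ) / Real.exp 1) ^ K := by
      rw [← mul_pow]
      congr 1
      field_simp
    rw [h2]
    exact mul_le_mul_of_nonneg_right h1 (by positivity)
  calc (10 : ℝ) ^ K * ((∏ i, (k i)! : ℕ) : ℝ)
      ≤ (10 : ℝ) ^ K * ((Real.exp 1 * Real.sqrt K) ^ 10 *
        (Real.exp (D / 10) * ((K : ℝ) / (10 * Real.exp 1)) ^ K)) := by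
        apply mul_le_mul_of_nonneg_left _ (by positivity)
        refine e4.trans (mul_le_mul_of_nonneg_left ?_ (by positivity))
        exact mul_le_mul_of_nonneg_right (Real.exp_le_exp.mpr e5) (by positivity)
    _ = (Real.exp 1) ^ 10 * Real.exp (D / 10) * (Real.sqrt K) ^ 9 *
        (Real.sqrt K * ((10 : ℝ) ^ K * ((K : ℝ) / (10 * Real.exp 1)) ^ K)) := by
        rw [mul_pow]; ring
    _ ≤ (Real.exp 1) ^ 10 * Real.exp (D / 10) * (Real.sqrt K) ^ 9 * (K ! : ℝ) :=
        mul_le_mul_of_nonneg_left e8 (by positivity)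
    _ = Real.exp (10 + D / 10) * (Real.sqrt K) ^ 9 * (K ! : ℝ) := by
        rw [Real.exp_one_pow, ← Real.exp_add]
        norm_num

/-- a positive proportion, up to a power, of the functions have given fibre sizes near the mean -/
theorem llt {P : Type} [Fintype P] [DecidableEq P] {k : Fin 10 → ℕ}
    (hK : ∑ i, k i = Fintype.card P) (h1 : ∀ i, 1 ≤ k i) {D : ℝ}
    (hD : ∑ i, (10 * (k i : ℝ) - Fintype.card P) ^ 2 ≤ D * Fintype.card P) :
    (10 : ℝ) ^ (Fintype.card P) ≤
      Real.exp (10 + D / 10) * (Real.sqrt (Fintype.card P)) ^ 9 * ((SK P k).card : ℝ) := by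
  have h2 := multi_ge hK h1 hD
  have h3 : ((Fintype.card P)! : ℝ) ≤ ((∏ i, (k i)! : ℕ) : ℝ) * ((SK P k).card : ℝ) := by
    exact_mod_cast fib_count hK
  have h4 : (0 : ℝ) < ((∏ i, (k i)! : ℕ) : ℝ) := by
    exact_mod_cast Finset.prod_pos (fun i _ => Nat.factorial_pos (k i))
  refine le_of_mul_le_mul_right ?_ h4
  calc (10 : ℝ) ^ (Fintype.card P) * ((∏ i, (k i)! : ℕ) : ℝ)
      ≤ Real.exp (10 + D / 10) * (Real.sqrt (Fintype.card P)) ^ 9 * ((Fintype.card P)! : ℝ) := h2
    _ ≤ Real.exp (10 + D / 10) * (Real.sqrt (Fintype.card P)) ^ 9 *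
        (((∏ i, (k i)! : ℕ) : ℝ) * ((SK P k).card : ℝ)) :=
        mul_le_mul_of_nonneg_left h3 (by positivity)
    _ = _ := by ring

end Pool.RAT
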