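import Pool.Agent.H42.RAT2.Fam

/-!
# RATS (MP_a315fd): every number of the family reaches Conway's sequence
-/

set_option autoImplicit false

namespace Pool.RAT

open List

/-- the upper part of the second term -/
def G2 (W E : ℕ) : List ℕ := replicate (W + E) 9 ++ (replicate W 8 ++ (replicate W 7 ++ replicate W 6))

/-- the second term -/
def T2 (W E η j : ℕ) : List ℕ :=
  G2 W E ++ (tw 6 5 η (j + η) ++ ((G2 W E).map (fun d => 10 - d)).reverse)

theorem T2_eq (W E η j : ℕ) : T2 W E η j =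
    (replicate (W + E) 9 ++ (replicate W 8 ++ (replicate W 7 ++ replicate W 6))) ++
    ((replicate η 6 ++ replicate (j + η) 5) ++
    (((replicate W 4 ++ replicate W 3) ++ replicate W 2) ++ replicate (W + E) 1)) := by
  simp only [T2, G2, tw, map_append, map_replicate, reverse_append, reverse_replicate]

theorem st_T2 (W E η j : ℕ) : St (T2 W E η j) := by
  rw [T2_eq]
  constructor
  · simp only [pairwise_append, pairwise_replicate, mem_append, mem_replicate]
    refine ⟨⟨Or.inr (le_refl _), ⟨Or.inr (le_refl _), ⟨Or.inr (le_refl _), Or.inr (le_refl _), ?_⟩, ?_⟩, ?_⟩,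
      ⟨⟨Or.inr (le_refl _), Or.inr (le_refl _), ?_⟩, ⟨⟨⟨Or.inr (le_refl _), Or.inr (le_refl _), ?_⟩,
      Or.inr (le_refl _), ?_⟩, Or.inr (le_refl _), ?_⟩, ?_⟩, ?_⟩
    all_goals
      intro x hx y hy
      omega
  · intro d hd
    simp only [mem_append, mem_replicate] at hd
    omega

theorem count_T2 (W E η j d : ℕ) : (T2 W E η j).count d =
    (if 9 = d then W + E else 0) + (if 8 = d then W else 0) + (if 7 = d then W else 0) +
    (if 6 = d then W + η else 0) + (if 5 = d then j + η else 0) + (if 4 = d then W else 0) +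
    (if 3 = d then W else 0) + (if 2 = d then W else 0) + (if 1 = d then W + E else 0) := by
  rw [T2_eq]
  simp only [count_append, count_replicate, beq_iff_eq]
  split_ifs <;> omega

theorem trib_T2 {W E η j m : ℕ} (hW : 1 ≤ W) (hη : 54 ≤ 2 * η)
    (h : 2 * 64 ^ m * (2 * η) = (2 * (4 * W + E) + j) + 2 * η + m + 1 + 20 * gm m) :
    Trib (Nat.ofDigits 10 (T2 W E η j)) := by
  apply trib_rats
  have hG : (G2 W E).length = (4 * W + E - 1) + 1 := by
    simp only [G2, length_append, length_replicate]; omega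
  have hG9 : ∀ d ∈ G2 W E, d ≤ 9 := by
    intro d hd
    simp only [G2, mem_append, mem_replicate] at hd
    omega
  rw [T2, stepT (G2 W E) (4 * W + E - 1) η j hG hG9 (st_T2 W E η j)]
  have e : 4 * W + E - 1 + 1 = 4 * W + E := by omega
  rw [e]
  exact famE m _ _ hη h

theorem Nb_eq (B : ℕ) : 10 * Nb B = B * 100 ^ B := by
  induction B with
  | zero => simp [Nb]
  | succ B ih =>
    rw [Nb, pow_succ]
    calc 10 * (10 * 100 ^ B + 100 * Nb B) = 100 * 100 ^ B + 100 * (10 * Nb B) := by ring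
      _ = 100 * 100 ^ B + 100 * (B * 100 ^ B) := by rw [ih]
      _ = (B + 1) * (100 ^ B * 100) := by ring

/-- the small digits of the head of a number -/
def hd9 (k9 k6 k5 : ℕ) : List ℕ := replicate (k9 - 1) 9 ++ (replicate k6 6 ++ replicate k5 5)

theorem hd9_le (k9 k6 k5 : ℕ) : ∀ a ∈ hd9 k9 k6 k5, a ≤ 9 := by
  intro a ha
  simp only [hd9, mem_append, mem_replicate] at ha
  omega

theorem count_hd9 {k9 : ℕ} (h : 1 ≤ k9) (k6 k5 d : ℕ) : (9 :: hd9 k9 k6 k5).count d =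
    (if 9 = d then k9 else 0) + (if 6 = d then k6 else 0) + (if 5 = d then k5 else 0) := by
  simp only [hd9, count_cons, count_append, count_replicate, beq_iff_eq]
  split_ifs <;> omega

theorem mem_fam {B : ℕ} (hB : 1 ≤ B) : ∃ C, ∀ r, 1 ≤ r → ∃ s : List ℕ, (∀ a ∈ s, a ≤ 9) ∧
    s.length ≤ r * 100 ^ B + C ∧
    ∀ σ : Fin r → Equiv.Perm (Fin B → Y2), Trib (Nat.ofDigits 10 (nl s (bs σ))) := by
  -- constants
  obtain ⟨m, hm⟩ : ∃ m, m = 2 * B + 1 := ⟨_, rfl⟩
  obtain ⟨M, hM⟩ : ∃ M, M = 64 ^ m := ⟨_, rfl⟩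
  obtain ⟨A, hA⟩ : ∃ A, A = 100 ^ B := ⟨_, rfl⟩
  obtain ⟨F, hF⟩ : ∃ F, F = (100 ^ B - 10 ^ B) / 2 := ⟨_, rfl⟩
  obtain ⟨g, hg⟩ : ∃ g, g = gm m := ⟨_, rfl⟩
  have hmM : m < M := by rw [hM]; exact Nat.lt_pow_self (by norm_num)
  have hgM : 63 * g + 1 = M := by rw [hg, hM]; exact gm_eq m
  have hM64 : 64 ≤ M := by
    rw [hM, hm, pow_succ]
    have : 1 ≤ 64 ^ (2 * B) := Nat.one_le_pow _ _ (by norm_num)
    omega
  have hN : 10 * Nb B = B * A := by rw [hA]; exact Nb_eq B
  have h10 : 10 ^ B ≤ 100 ^ B := Nat.pow_le_pow_left (by norm_num) B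
  have hF2 : 2 * F = A - 10 ^ B := by
    rw [hF, hA]
    have h2 : 2 ∣ 100 ^ B := Dvd.dvd.trans (by norm_num) (dvd_pow_self 100 (by omega))
    have h3 : 2 ∣ 10 ^ B := Dvd.dvd.trans (by norm_num) (dvd_pow_self 10 (by omega))
    omega
  have hA10 : 10 * 10 ^ B ≤ A := by
    rw [hA]
    obtain ⟨b, rfl⟩ : ∃ b, B = b + 1 := ⟨B - 1, by omega⟩
    calc 10 * 10 ^ (b + 1) = 100 * 10 ^ b := by rw [pow_succ]; ring
      _ ≤ 100 * 100 ^ b := Nat.mul_le_mul_left _ (Nat.pow_le_pow_left (by norm_num) b)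
      _ = 100 ^ (b + 1) := by rw [pow_succ]; ring
  have hp : 1 ≤ 10 ^ B := Nat.one_le_pow _ _ (by norm_num)
  have hF1 : 1 ≤ F := by omega
  have hFA : 2 * F ≤ A := by omega
  have hNA : A ≤ 10 * Nb B := by rw [hN]; exact Nat.le_mul_of_pos_left A hB
  have hNM : 9 * (2 * Nb B) + 4 * F ≤ A * (4 * M - 1) := by
    -- 18 N = 1.8 B A, 4F ≤ 2A
    have h1 : B * A + B * A ≤ A * M := by
      have : 2 * B ≤ M := by omega
      calc B * A + B * A = A * (2 * B) := by ring
        _ ≤ A * M := Nat.mul_le_mul_left _ this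
    have h2 : A * (4 * M - 1) = A * M + A * (3 * M - 1) := by
      rw [← Nat.mul_add]; congr 1; omega
    have h3 : 2 * A ≤ A * (3 * M - 1) := by
      rw [mul_comm]; exact Nat.mul_le_mul_left _ (by omega)
    omega
  refine ⟨15 * (4 * M - 1) + 100, fun r hr => ?_⟩
  obtain ⟨N, hNr⟩ : ∃ N, N = r * Nb B := ⟨_, rfl⟩
  obtain ⟨f, hfr⟩ : ∃ f, f = r * F := ⟨_, rfl⟩
  obtain ⟨a, har⟩ : ∃ a, a = r * A := ⟨_, rfl⟩
  have hf1 : 1 ≤ f := by rw [hfr]; exact Nat.one_le_iff_ne_zero.mpr (by positivity)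
  have hfa : 2 * f ≤ a := by
    rw [hfr, har]
    calc 2 * (r * F) = r * (2 * F) := by ring
      _ ≤ r * A := Nat.mul_le_mul_left _ hFA
  have hNa : a ≤ 10 * N := by
    rw [hNr, har]
    calc r * A ≤ r * (10 * Nb B) := Nat.mul_le_mul_left _ hNA
      _ = 10 * (r * Nb B) := by ring
  have hNMr : 9 * (2 * N) + 4 * f ≤ a * (4 * M - 1) := by
    rw [hNr, hfr, har]
    calc 9 * (2 * (r * Nb B)) + 4 * (r * F) = r * (9 * (2 * Nb B) + 4 * F) := by ring
      _ ≤ r * (A * (4 * M - 1)) := Nat.mul_le_mul_left _ hNM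
      _ = r * A * (4 * M - 1) := by ring
  -- choice
  obtain ⟨D, hD⟩ : ∃ D, D = 4 * M - 1 := ⟨_, rfl⟩
  obtain ⟨R, hR⟩ : ∃ R, R = 9 * N + 2 * f + (B + 1) + 10 * g := ⟨_, rfl⟩
  obtain ⟨q, hq⟩ : ∃ q, q = R / D := ⟨_, rfl⟩
  have hD1 : 255 ≤ D := by omega
  have hq1 : D * q ≤ R := by rw [hq]; exact Nat.mul_div_le R D
  have hq2 : R < D * q + D := by
    rw [hq]
    exact Nat.lt_mul_div_succ R (by omega)
  obtain ⟨k5, hk5⟩ : ∃ k5, k5 = D * q + 14 * D - R := ⟨_, rfl⟩
  have hk5' : k5 + R = D * q + 14 * D := by omega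
  have hsm : B + 1 + 10 * g ≤ D := by omega
  have hqN : q ≤ N + 1 := by
    by_contra hcon
    have : N + 2 ≤ q := by omega
    have h1 : D * (N + 2) ≤ D * q := Nat.mul_le_mul_left _ this
    have h2 : D * (N + 2) = D * N + 2 * D := by ring
    have h3 : 255 * N ≤ D * N := Nat.mul_le_mul_right _ hD1
    omega
  have hqa : 2 * q ≤ a + 2 := by
    by_contra hcon
    have h0 : a + 3 ≤ 2 * q := by omega
    have h1 : D * (a + 3) ≤ D * (2 * q) := Nat.mul_le_mul_left _ h0
    have h2 : D * (a + 3) = D * a + 3 * D := by ring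
    have h3 : D * (2 * q) = 2 * (D * q) := by ring
    have h4 : 18 * N + 4 * f ≤ D * a := by
      rw [hD, mul_comm (4 * M - 1) a]; omega
    omega
  refine ⟨hd9 f (q + 14) k5, hd9_le _ _ _, ?_, ?_⟩
  · simp only [hd9, length_append, length_replicate]
    rw [← hA, ← har]
    omega
  · intro σ
    apply trib_rats
    have key := rats_nl (hd9_le f (q + 14) k5) (bs σ)
      (T := T2 (2 * N) (2 * f) (2 * (q + 14)) (2 * N + 2 * k5 - 2 * (q + 14)))
      (st_T2 _ _ _ _) ?_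
    · rw [key]
      apply trib_T2 (m := m)
      · omega
      · omega
      · rw [← hM, ← hg]
        have e1 : 2 * M * (2 * (2 * (q + 14))) = 2 * (D * q + 14 * D) + 2 * (q + 14) := by
          have : 4 * M = D + 1 := by omega
          calc 2 * M * (2 * (2 * (q + 14))) = 4 * M * (2 * (q + 14)) := by ring
            _ = (D + 1) * (2 * (q + 14)) := by rw [this]
            _ = _ := by ring
        rw [e1, ← hk5', hR, hm]
        omega
    · intro d hd1 hd9
      rw [sum_bs, sum_ph B d hd1 hd9, count_hd9 hf1, count_T2, ← hA]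
      have e1 : r * (2 * Nb B + if d = 1 then A - 10 ^ B else 0) =
          2 * N + if d = 1 then 2 * f else 0 := by
        rw [← hF2]
        split_ifs
        · rw [hNr, hfr]; ring
        · rw [hNr]; ring
      rw [e1]
      have hj : 2 * N + 2 * k5 - 2 * (q + 14) + 2 * (q + 14) = 2 * N + 2 * k5 := by omega
      rw [hj]
      interval_cases d <;> norm_num <;> omega

end Pool.RAT
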