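import Pool.Agent.H42.RAT2.Blk

/-!
# RATS (MP_a315fd): second moments of digit counts
-/

set_option autoImplicit false

namespace Pool.RAT

open List

theorem sum_cons_eqZ {B : ℕ} (f : (Fin (B + 1) → Y2) → ℤ) :
    ∑ x, f x = ∑ y : Y2, ∑ t : Fin B → Y2, f (Fin.cons y t : Fin (B + 1) → Y2) := by
  rw [← Fintype.sum_prod_type' (f := fun (y : Y2) (t : Fin B → Y2) =>
    f (Fin.cons y t : Fin (B + 1) → Y2))]
  exact (Fintype.sum_equiv (Fin.consEquiv (fun _ : Fin (B + 1) => Y2)) _ _ (fun x => rfl)).symm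

theorem dcnt900 : ∀ c : Fin 2, ∀ d : Fin 10,
    (∑ y : Y2, (10 * (if (y.1.val + y.2.val + c.val) % 10 = d.val then (1 : ℤ) else 0) - 1) ^ 2) =
      900 := by
  decide +kernel

theorem sum_outZ (B : ℕ) {c : ℕ} (hc : c ≤ 1) {d : ℕ} (hd : d < 10) :
    ∑ x : Fin B → Y2, (10 * ((out c (zb x)).count d : ℤ) - B) = 0 := by
  rw [Finset.sum_sub_distrib, ← Finset.mul_sum, Finset.sum_const, Finset.card_univ, card_XB]
  have h1 := sum_out B c hc d hd
  have h2 : (∑ x : Fin B → Y2, ((out c (zb x)).count d : ℤ)) = Nb B := by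
    rw [← h1]; push_cast; rfl
  have h3 : (10 * Nb B : ℤ) = B * 100 ^ B := by
    have : 10 * Nb B = B * 100 ^ B := by
      clear h1 h2
      induction B with
      | zero => simp [Nb]
      | succ B ih =>
        rw [Nb, pow_succ]
        calc 10 * (10 * 100 ^ B + 100 * Nb B) = 100 * 100 ^ B + 100 * (10 * Nb B) := by ring
          _ = 100 * 100 ^ B + 100 * (B * 100 ^ B) := by rw [ih]
          _ = (B + 1) * (100 ^ B * 100) := by ring
    exact_mod_cast this
  rw [h2, h3, nsmul_eq_mul]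
  push_cast
  ring

theorem sq_out (B : ℕ) : ∀ c ≤ 1, ∀ d < 10,
    ∑ x : Fin B → Y2, ((10 * ((out c (zb x)).count d : ℤ) - (B : ℤ)) ^ 2 : ℤ) =
      9 * (B : ℤ) * 100 ^ B := by
  induction B with
  | zero =>
    intro c _ d _
    simp [zb, out]
  | succ B ih =>
    intro c hc d hd
    rw [sum_cons_eqZ]
    have h1 : ∀ y : Y2, ∑ t : Fin B → Y2,
        (10 * ((out c (zb (Fin.cons y t : Fin (B + 1) → Y2))).count d : ℤ) - (B + 1 : ℕ)) ^ 2 =
        (10 * (if (y.1.val + y.2.val + c) % 10 = d then (1 : ℤ) else 0) - 1) ^ 2 * 100 ^ B +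
          9 * B * 100 ^ B := by
      intro y
      have hy1 := y.1.isLt
      have hy2 := y.2.isLt
      obtain ⟨e, he⟩ : ∃ e : ℤ, e = 10 * (if (y.1.val + y.2.val + c) % 10 = d then (1 : ℤ) else 0) - 1 :=
        ⟨_, rfl⟩
      have h2 : ∀ t : Fin B → Y2,
          (10 * ((out c (zb (Fin.cons y t : Fin (B + 1) → Y2))).count d : ℤ) - (B + 1 : ℕ)) ^ 2 =
          e ^ 2 + 2 * e * (10 * ((out ((y.1.val + y.2.val + c) / 10) (zb t)).count d : ℤ) - B) +
          (10 * ((out ((y.1.val + y.2.val + c) / 10) (zb t)).count d : ℤ) - B) ^ 2 := by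
        intro t
        rw [zb_cons, out, List.count_cons, he]
        simp only [beq_iff_eq]
        push_cast
        ring
      rw [Finset.sum_congr rfl (fun t _ => h2 t), Finset.sum_add_distrib, Finset.sum_add_distrib,
        ← Finset.mul_sum, sum_outZ B (by omega) hd, ih _ (by omega) d hd, Finset.sum_const,
        Finset.card_univ, card_XB, nsmul_eq_mul, ← he]
      push_cast
      ring
    rw [Finset.sum_congr rfl (fun y _ => h1 y), Finset.sum_add_distrib, ← Finset.sum_mul,
      Finset.sum_const, Finset.card_univ]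
    have h3 := dcnt900 ⟨c, by omega⟩ ⟨d, hd⟩
    simp only at h3
    rw [h3, Fintype.card_prod, Fintype.card_fin, nsmul_eq_mul, pow_succ]
    push_cast
    ring

section letters

variable {A : Type} [Fintype A] [DecidableEq A]

/-- number of occurrences of a letter -/
def kk (a : A) {J : ℕ} (w : Fin J → A) : ℕ := ∑ j, if w j = a then 1 else 0

theorem kk_cons (a : A) {J : ℕ} (t : A) (w : Fin J → A) :
    kk a (Fin.cons t w : Fin (J + 1) → A) = (if t = a then 1 else 0) + kk a w := by
  rw [kk, Fin.sum_univ_succ]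
  rfl

theorem sum_consA {J : ℕ} (f : (Fin (J + 1) → A) → ℤ) :
    ∑ x, f x = ∑ y : A, ∑ t : Fin J → A, f (Fin.cons y t : Fin (J + 1) → A) := by
  rw [← Fintype.sum_prod_type' (f := fun (y : A) (t : Fin J → A) =>
    f (Fin.cons y t : Fin (J + 1) → A))]
  exact (Fintype.sum_equiv (Fin.consEquiv (fun _ : Fin (J + 1) => A)) _ _ (fun x => rfl)).symm

theorem sum_ind (a : A) : ∑ y : A, ((Fintype.card A : ℤ) * (if y = a then 1 else 0) - 1) = 0 := by
  rw [Finset.sum_sub_distrib, ← Finset.mul_sum, Finset.sum_ite_eq' Finset.univ a]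
  simp

theorem sum_ind2 (a : A) : ∑ y : A, ((Fintype.card A : ℤ) * (if y = a then 1 else 0) - 1) ^ 2 =
    (Fintype.card A : ℤ) * (Fintype.card A - 1) := by
  have h : ∀ y : A, ((Fintype.card A : ℤ) * (if y = a then 1 else 0) - 1) ^ 2 =
      (Fintype.card A : ℤ) * (Fintype.card A - 2) * (if y = a then 1 else 0) + 1 := by
    intro y
    split_ifs
    · ring
    · ring
  rw [Finset.sum_congr rfl (fun y _ => h y), Finset.sum_add_distrib, ← Finset.mul_sum,
    Finset.sum_ite_eq' Finset.univ a]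
  simp
  ring

theorem sum_kk (a : A) (J : ℕ) :
    ∑ w : Fin J → A, ((Fintype.card A : ℤ) * (kk a w : ℤ) - J) = 0 := by
  induction J with
  | zero => simp [kk]
  | succ J ih =>
    rw [sum_consA]
    have h : ∀ y : A, ∑ t : Fin J → A,
        ((Fintype.card A : ℤ) * (kk a (Fin.cons y t : Fin (J + 1) → A) : ℤ) - (J + 1 : ℕ)) =
        ((Fintype.card A : ℤ) * (if y = a then 1 else 0) - 1) * (Fintype.card A : ℤ) ^ J := by
      intro y
      have h2 : ∀ t : Fin J → A,
          ((Fintype.card A : ℤ) * (kk a (Fin.cons y t : Fin (J + 1) → A) : ℤ) - (J + 1 : ℕ)) =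
          ((Fintype.card A : ℤ) * (if y = a then 1 else 0) - 1) +
          ((Fintype.card A : ℤ) * (kk a t : ℤ) - J) := by
        intro t
        rw [kk_cons]
        push_cast
        ring
      rw [Finset.sum_congr rfl (fun t _ => h2 t), Finset.sum_add_distrib, ih, Finset.sum_const,
        Finset.card_univ, Fintype.card_fun, Fintype.card_fin, nsmul_eq_mul]
      push_cast
      ring
    rw [Finset.sum_congr rfl (fun y _ => h y), ← Finset.sum_mul, sum_ind, zero_mul]

theorem sq_kk (a : A) (J : ℕ) :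
    ∑ w : Fin J → A, ((Fintype.card A : ℤ) * (kk a w : ℤ) - J) ^ 2 =
      J * (Fintype.card A - 1) * (Fintype.card A : ℤ) ^ J := by
  induction J with
  | zero => simp [kk]
  | succ J ih =>
    rw [sum_consA]
    have h : ∀ y : A, ∑ t : Fin J → A,
        ((Fintype.card A : ℤ) * (kk a (Fin.cons y t : Fin (J + 1) → A) : ℤ) - (J + 1 : ℕ)) ^ 2 =
        ((Fintype.card A : ℤ) * (if y = a then 1 else 0) - 1) ^ 2 * (Fintype.card A : ℤ) ^ J +
        J * (Fintype.card A - 1) * (Fintype.card A : ℤ) ^ J := by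
      intro y
      obtain ⟨e, he⟩ : ∃ e : ℤ, e = (Fintype.card A : ℤ) * (if y = a then 1 else 0) - 1 := ⟨_, rfl⟩
      have h2 : ∀ t : Fin J → A,
          ((Fintype.card A : ℤ) * (kk a (Fin.cons y t : Fin (J + 1) → A) : ℤ) - (J + 1 : ℕ)) ^ 2 =
          e ^ 2 + 2 * e * ((Fintype.card A : ℤ) * (kk a t : ℤ) - J) +
          ((Fintype.card A : ℤ) * (kk a t : ℤ) - J) ^ 2 := by
        intro t
        rw [kk_cons, he]
        push_cast
        ring
      rw [Finset.sum_congr rfl (fun t _ => h2 t), Finset.sum_add_distrib, Finset.sum_add_distrib,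
        ← Finset.mul_sum, sum_kk, ih, Finset.sum_const,
        Finset.card_univ, Fintype.card_fun, Fintype.card_fin, nsmul_eq_mul, ← he]
      push_cast
      ring
    rw [Finset.sum_congr rfl (fun y _ => h y), Finset.sum_add_distrib, ← Finset.sum_mul, sum_ind2,
      Finset.sum_const, Finset.card_univ, nsmul_eq_mul, pow_succ]
    push_cast
    ring

end letters

end Pool.RAT
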