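import Pool.Agent.H42.RAT2.Ub5
import Pool.Agent.H42.RAT2.Det

/-!
# RATS (MP_a315fd): from the deterministic part to almost all numbers
-/

set_option autoImplicit false

namespace Pool.RAT

open List

theorem NR_of_two {V n : ℕ} (h : NR V (rats (rats n))) : NR V n := by
  obtain ⟨k, hk⟩ := h
  refine ⟨k + 2, ?_⟩
  rw [Function.iterate_add_apply]
  exact hk

theorem NR_rep (V X : ℕ) : NR V (Nat.ofDigits 10 (tw 2 1 0 X)) := by
  refine ⟨0, ?_⟩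
  rw [Function.iterate_zero, id, digits_st (st_tw (by norm_num) (by norm_num) (by norm_num) _ _)]
  have : (tw 2 1 0 X).countP (fun d => decide (d ≠ 1)) = 0 := by
    rw [countP_eq_zero]
    intro d hd
    simp only [tw, replicate_zero, nil_append, mem_replicate] at hd
    simp [hd.2]
  omega

/-- the bad pairs -/
def BP (K : ℝ) (V L : ℕ) : Set (ℕ × ℕ) := {p : ℕ × ℕ | |10 * (p.1 : ℝ) - 9 * L| ≤ K * Real.sqrt L ∧
    1 ≤ p.2 ∧ (p.2 : ℝ) ≤ K * Real.sqrt L ∧ ¬ NR V (Nat.ofDigits 10 (tw 2 1 p.2 p.1))}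

theorem BP_fin (K : ℝ) (V L : ℕ) : (BP K V L).Finite := by
  obtain ⟨A, hA⟩ := exists_nat_gt (9 * (L : ℝ) + K * Real.sqrt L)
  obtain ⟨B, hB⟩ := exists_nat_gt (K * Real.sqrt L)
  apply ((Set.finite_Iic A).prod (Set.finite_Iic B)).subset
  rintro ⟨x, y⟩ ⟨h1, h2, h3, h4⟩
  simp only at h1 h2 h3
  rw [abs_le] at h1
  rw [Set.mem_prod, Set.mem_Iic, Set.mem_Iic]
  have hx : (x : ℝ) ≤ A := by
    have : (0 : ℝ) ≤ x := Nat.cast_nonneg _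
    linarith [h1.2]
  have hy : (y : ℝ) ≤ B := by linarith
  exact ⟨by exact_mod_cast hx, by exact_mod_cast hy⟩

theorem per_length (hdet : DetStmt) {δ : ℝ} (hδ : 0 < δ) : ∃ V L0 : ℕ, ∀ L, L0 ≤ L →
    (({n | 10 ^ (L - 1) ≤ n ∧ n < 10 ^ L ∧ ¬ NR V n} : Set ℕ).ncard : ℝ) ≤ δ * 10 ^ L := by
  obtain ⟨K, hK, L1, h1⟩ := TLN (δ := δ / 2) (by positivity)
  obtain ⟨V, L2, h2⟩ := hdet K (δ / 40000000) hK (by positivity)
  refine ⟨V, max L1 L2 + 1, fun L hL => ?_⟩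
  have hLL1 : L1 ≤ L := by have := le_max_left L1 L2; omega
  have hLL2 : L2 ≤ L := by have := le_max_right L1 L2; omega
  have hL1 : 1 ≤ L := by omega
  have ha := h1 L hLL1
  have hb := h2 L hLL2
  obtain ⟨B, hB⟩ : ∃ B, B = (BP_fin K V L).toFinset := ⟨_, rfl⟩
  have hBc : (B.card : ℝ) ≤ δ / 40000000 * L := by
    have e : B.card = (BP K V L).ncard := by
      rw [hB, Set.ncard_eq_toFinset_card _ (BP_fin K V L)]
    rw [e]
    exact hb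
  have hsub : ({n | 10 ^ (L - 1) ≤ n ∧ n < 10 ^ L ∧ ¬ NR V n} : Set ℕ) ⊆
      ({n | 10 ^ (L - 1) ≤ n ∧ n < 10 ^ L ∧ ¬ Typ K L n} : Set ℕ) ∪
      ⋃ p ∈ B, ({n | 10 ^ (L - 1) ≤ n ∧ n < 10 ^ L ∧
        rats (rats n) = Nat.ofDigits 10 (tw 2 1 p.2 p.1)} : Set ℕ) := by
    intro n hn
    obtain ⟨h3, h4, h5⟩ := hn
    by_cases h6 : Typ K L n
    · right
      obtain ⟨X, Y, h7, h8, h9⟩ := h6
      rw [Set.mem_iUnion₂]
      refine ⟨(X, Y), ?_, ⟨h3, h4, h7⟩⟩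
      rw [hB, Set.Finite.mem_toFinset]
      refine ⟨h8, ?_, h9, ?_⟩
      · by_contra hY
        have hY0 : Y = 0 := by
          simp only at hY
          omega
        subst hY0
        apply h5
        apply NR_of_two
        rw [h7]
        exact NR_rep V X
      · intro h10
        apply h5
        apply NR_of_two
        rw [h7]
        exact h10
    · exact Or.inl ⟨h3, h4, h6⟩
  have hfinN : ∀ P : ℕ → Prop, ({n | 10 ^ (L - 1) ≤ n ∧ n < 10 ^ L ∧ P n} : Set ℕ).Finite :=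
    fun P => (Set.finite_Iio (10 ^ L)).subset (fun n hn => hn.2.1)
  have hfin2 : (⋃ p ∈ B, ({n | 10 ^ (L - 1) ≤ n ∧ n < 10 ^ L ∧
        rats (rats n) = Nat.ofDigits 10 (tw 2 1 p.2 p.1)} : Set ℕ)).Finite :=
    Set.Finite.biUnion (Finset.finite_toSet B) (fun p _ => hfinN _)
  have hc1 := (Set.ncard_le_ncard hsub ((hfinN _).union hfin2)).trans (Set.ncard_union_le _ _)
  have hc2 : ((⋃ p ∈ B, ({n | 10 ^ (L - 1) ≤ n ∧ n < 10 ^ L ∧
        rats (rats n) = Nat.ofDigits 10 (tw 2 1 p.2 p.1)} : Set ℕ)).ncard : ℝ) ≤ δ / 2 * 10 ^ L := by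
    have h3 : (⋃ p ∈ B, ({n | 10 ^ (L - 1) ≤ n ∧ n < 10 ^ L ∧
        rats (rats n) = Nat.ofDigits 10 (tw 2 1 p.2 p.1)} : Set ℕ)).ncard ≤
        ∑ p ∈ B, ({n | 10 ^ (L - 1) ≤ n ∧ n < 10 ^ L ∧
        rats (rats n) = Nat.ofDigits 10 (tw 2 1 p.2 p.1)} : Set ℕ).ncard :=
      Finset.set_ncard_biUnion_le B _
    have h4 : ∀ p ∈ B, (L : ℝ) * (({n | 10 ^ (L - 1) ≤ n ∧ n < 10 ^ L ∧
        rats (rats n) = Nat.ofDigits 10 (tw 2 1 p.2 p.1)} : Set ℕ).ncard : ℝ) ≤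
        20000000 * 10 ^ L := by
      intro p hp
      rw [hB, Set.Finite.mem_toFinset] at hp
      exact UBN L p.1 p.2 hL1 hp.2.1
    have h5 : (L : ℝ) * ((⋃ p ∈ B, ({n | 10 ^ (L - 1) ≤ n ∧ n < 10 ^ L ∧
        rats (rats n) = Nat.ofDigits 10 (tw 2 1 p.2 p.1)} : Set ℕ)).ncard : ℝ) ≤
        (L : ℝ) * (δ / 2 * 10 ^ L) := by
      calc (L : ℝ) * ((⋃ p ∈ B, ({n | 10 ^ (L - 1) ≤ n ∧ n < 10 ^ L ∧
            rats (rats n) = Nat.ofDigits 10 (tw 2 1 p.2 p.1)} : Set ℕ)).ncard : ℝ) ≤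
            L * ∑ p ∈ B, (({n | 10 ^ (L - 1) ≤ n ∧ n < 10 ^ L ∧
            rats (rats n) = Nat.ofDigits 10 (tw 2 1 p.2 p.1)} : Set ℕ).ncard : ℝ) := by
            apply mul_le_mul_of_nonneg_left _ (Nat.cast_nonneg _)
            exact_mod_cast h3
        _ = ∑ p ∈ B, (L : ℝ) * (({n | 10 ^ (L - 1) ≤ n ∧ n < 10 ^ L ∧
            rats (rats n) = Nat.ofDigits 10 (tw 2 1 p.2 p.1)} : Set ℕ).ncard : ℝ) :=
            Finset.mul_sum _ _ _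
        _ ≤ ∑ p ∈ B, (20000000 * 10 ^ L : ℝ) := Finset.sum_le_sum h4
        _ = B.card * (20000000 * 10 ^ L) := by rw [Finset.sum_const, nsmul_eq_mul]
        _ ≤ (δ / 40000000 * L) * (20000000 * 10 ^ L) :=
            mul_le_mul_of_nonneg_right hBc (by positivity)
        _ = (L : ℝ) * (δ / 2 * 10 ^ L) := by ring
    have hLp : (0 : ℝ) < L := by exact_mod_cast hL1
    exact le_of_mul_le_mul_left h5 hLp
  have hc1' : (({n | 10 ^ (L - 1) ≤ n ∧ n < 10 ^ L ∧ ¬ NR V n} : Set ℕ).ncard : ℝ) ≤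
      (({n | 10 ^ (L - 1) ≤ n ∧ n < 10 ^ L ∧ ¬ Typ K L n} : Set ℕ).ncard : ℝ) +
      ((⋃ p ∈ B, ({n | 10 ^ (L - 1) ≤ n ∧ n < 10 ^ L ∧
        rats (rats n) = Nat.ofDigits 10 (tw 2 1 p.2 p.1)} : Set ℕ)).ncard : ℝ) := by
    exact_mod_cast hc1
  linarith

/-- all but `δ N` of the numbers up to `N` have a term with at most `V` digits other than `1` -/
theorem almost_repunit (hdet : DetStmt) {δ : ℝ} (hδ : 0 < δ) : ∃ V N0 : ℕ, ∀ N, N0 ≤ N →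
    (({n | 1 ≤ n ∧ n ≤ N ∧ ¬ NR V n} : Set ℕ).ncard : ℝ) ≤ δ * N := by
  obtain ⟨V, L0, h0⟩ := per_length hdet (δ := δ / 40) (by positivity)
  obtain ⟨N1, hN1⟩ := exists_nat_gt (2 * 10 ^ L0 / δ)
  refine ⟨V, N1 + 1, fun N hN => ?_⟩
  have hfin : ∀ m, ({n | 1 ≤ n ∧ n < 10 ^ m ∧ ¬ NR V n} : Set ℕ).Finite :=
    fun m => (Set.finite_Iio (10 ^ m)).subset (fun n hn => hn.2.1)
  have hcum : ∀ j, (({n | 1 ≤ n ∧ n < 10 ^ (L0 + j) ∧ ¬ NR V n} : Set ℕ).ncard : ℝ) ≤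
      10 ^ L0 + 2 * (δ / 40) * 10 ^ (L0 + j) := by
    intro j
    induction j with
    | zero =>
      have hsub : ({n | 1 ≤ n ∧ n < 10 ^ (L0 + 0) ∧ ¬ NR V n} : Set ℕ) ⊆
          ((Finset.range (10 ^ L0) : Finset ℕ) : Set ℕ) := by
        intro n hn
        simp only [Finset.coe_range, Set.mem_Iio]
        exact hn.2.1
      have h := Set.ncard_le_ncard hsub (Finset.finite_toSet _)
      rw [Set.ncard_coe_finset, Finset.card_range] at h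
      have h' : (({n | 1 ≤ n ∧ n < 10 ^ (L0 + 0) ∧ ¬ NR V n} : Set ℕ).ncard : ℝ) ≤ 10 ^ L0 := by
        exact_mod_cast h
      have : (0 : ℝ) ≤ 2 * (δ / 40) * 10 ^ (L0 + 0) := by positivity
      linarith
    | succ j ih =>
      have hsub : ({n | 1 ≤ n ∧ n < 10 ^ (L0 + (j + 1)) ∧ ¬ NR V n} : Set ℕ) ⊆
          ({n | 1 ≤ n ∧ n < 10 ^ (L0 + j) ∧ ¬ NR V n} : Set ℕ) ∪
          ({n | 10 ^ (L0 + j + 1 - 1) ≤ n ∧ n < 10 ^ (L0 + j + 1) ∧ ¬ NR V n} : Set ℕ) := by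
        intro n hn
        obtain ⟨h1, h2, h3⟩ := hn
        by_cases h : n < 10 ^ (L0 + j)
        · exact Or.inl ⟨h1, h, h3⟩
        · exact Or.inr ⟨by simpa using h, h2, h3⟩
      have hfin2 : ({n | 10 ^ (L0 + j + 1 - 1) ≤ n ∧ n < 10 ^ (L0 + j + 1) ∧
          ¬ NR V n} : Set ℕ).Finite :=
        (Set.finite_Iio (10 ^ (L0 + j + 1))).subset (fun n hn => hn.2.1)
      have h1 := (Set.ncard_le_ncard hsub ((hfin _).union hfin2)).trans (Set.ncard_union_le _ _)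
      have h2 := h0 (L0 + j + 1) (by omega)
      have h1' : (({n | 1 ≤ n ∧ n < 10 ^ (L0 + (j + 1)) ∧ ¬ NR V n} : Set ℕ).ncard : ℝ) ≤
          (({n | 1 ≤ n ∧ n < 10 ^ (L0 + j) ∧ ¬ NR V n} : Set ℕ).ncard : ℝ) +
          (({n | 10 ^ (L0 + j + 1 - 1) ≤ n ∧ n < 10 ^ (L0 + j + 1) ∧
            ¬ NR V n} : Set ℕ).ncard : ℝ) := by
        exact_mod_cast h1
      have e : (10 : ℝ) ^ (L0 + j + 1) = 10 * 10 ^ (L0 + j) := by rw [pow_succ]; ring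
      have e2 : (10 : ℝ) ^ (L0 + (j + 1)) = 10 * 10 ^ (L0 + j) := by
        rw [← add_assoc, pow_succ]; ring
      rw [e] at h2
      rw [e2]
      have h5 : (0 : ℝ) < δ * 10 ^ (L0 + j) := by positivity
      have h6 : 2 * (δ / 40) * (10 * 10 ^ (L0 + j)) = 20 / 40 * (δ * 10 ^ (L0 + j)) := by ring
      have h7 : δ / 40 * (10 * 10 ^ (L0 + j)) = 10 / 40 * (δ * 10 ^ (L0 + j)) := by ring
      have h8 : 2 * (δ / 40) * 10 ^ (L0 + j) = 2 / 40 * (δ * 10 ^ (L0 + j)) := by ring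
      rw [h6]
      rw [h7] at h2
      rw [h8] at ih
      linarith
  obtain ⟨L, hL⟩ : ∃ L, L = Nat.log 10 N := ⟨_, rfl⟩
  have hN0 : N ≠ 0 := by omega
  have hL1 : 10 ^ L ≤ N := by rw [hL]; exact Nat.pow_log_le_self 10 hN0
  have hL2 : N < 10 ^ (L + 1) := by rw [hL]; exact Nat.lt_pow_succ_log_self (by norm_num) N
  have hNr : 2 * 10 ^ L0 / δ < N := by
    refine hN1.trans_le ?_
    have : N1 ≤ N := by omega
    exact_mod_cast this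
  have hNr' : (10 : ℝ) ^ L0 ≤ δ / 2 * N := by
    rw [div_lt_iff₀ hδ] at hNr
    linarith
  have hmono : ∀ m, L + 1 ≤ m → ({n | 1 ≤ n ∧ n ≤ N ∧ ¬ NR V n} : Set ℕ) ⊆
      ({n | 1 ≤ n ∧ n < 10 ^ m ∧ ¬ NR V n} : Set ℕ) := by
    intro m hm n hn
    refine ⟨hn.1, lt_of_le_of_lt hn.2.1 (hL2.trans_le ?_), hn.2.2⟩
    exact Nat.pow_le_pow_right (by norm_num) hm
  by_cases hLL : L0 ≤ L + 1
  · obtain ⟨j, hj⟩ : ∃ j, L + 1 = L0 + j := ⟨L + 1 - L0, by omega⟩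
    have h1 := Set.ncard_le_ncard (hmono (L0 + j) (by omega)) (hfin _)
    have h1' : (({n | 1 ≤ n ∧ n ≤ N ∧ ¬ NR V n} : Set ℕ).ncard : ℝ) ≤
        (({n | 1 ≤ n ∧ n < 10 ^ (L0 + j) ∧ ¬ NR V n} : Set ℕ).ncard : ℝ) := by exact_mod_cast h1
    have h2 := hcum j
    have h3 : (10 : ℝ) ^ (L0 + j) ≤ 10 * N := by
      rw [← hj, pow_succ]
      have : (10 : ℝ) ^ L ≤ N := by exact_mod_cast hL1
      linarith
    have h4 : 2 * (δ / 40) * (10 : ℝ) ^ (L0 + j) ≤ 2 * (δ / 40) * (10 * N) :=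
      mul_le_mul_of_nonneg_left h3 (by positivity)
    linarith
  · push Not at hLL
    have h1 := Set.ncard_le_ncard (hmono L0 (by omega)) (hfin _)
    have h2 : ({n | 1 ≤ n ∧ n < 10 ^ L0 ∧ ¬ NR V n} : Set ℕ).ncard ≤ 10 ^ L0 := by
      have hsub : ({n | 1 ≤ n ∧ n < 10 ^ L0 ∧ ¬ NR V n} : Set ℕ) ⊆
          ((Finset.range (10 ^ L0) : Finset ℕ) : Set ℕ) := by
        intro n hn
        simp only [Finset.coe_range, Set.mem_Iio]
        exact hn.2.1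
      have h := Set.ncard_le_ncard hsub (Finset.finite_toSet _)
      rwa [Set.ncard_coe_finset, Finset.card_range] at h
    have h3 : (({n | 1 ≤ n ∧ n ≤ N ∧ ¬ NR V n} : Set ℕ).ncard : ℝ) ≤ 10 ^ L0 := by
      exact_mod_cast h1.trans h2
    have h4 : (0 : ℝ) ≤ δ * N := by positivity
    linarith

end Pool.RAT
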