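import Pool.Agent.H42.RAT2.Ub5
import Pool.Agent.H42.RAT2.DetOf

/-!
# RATS (MP_a315fd): from the deterministic part to almost all numbers, with the number of steps
-/

set_option autoImplicit false

namespace Pool.RAT

open List

/-- `log_2` of the number of digits of `N` is below `2 log log N` -/
theorem steps_bound (c : ℕ) : ∃ N2 : ℕ, ∀ N, N2 ≤ N →
    ((Nat.log 2 (Nat.log 10 N + 1) + c : ℕ) : ℝ) ≤ 2 * Real.log (Real.log N) := by
  have h1 : Filter.Tendsto (fun N : ℕ => Real.log (Real.log (N : ℝ))) Filter.atTop Filter.atTop :=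
    (Real.tendsto_log_atTop.comp Real.tendsto_log_atTop).comp tendsto_natCast_atTop_atTop
  have h2 := h1.eventually_ge_atTop (2 * (c : ℝ) + 2)
  have h3 : ∀ᶠ N : ℕ in Filter.atTop, (3 : ℕ) ≤ N := Filter.eventually_ge_atTop 3
  obtain ⟨N2, hN2⟩ := Filter.eventually_atTop.mp (h2.and h3)
  refine ⟨N2, fun N hN => ?_⟩
  obtain ⟨h4, h5⟩ := hN2 N hN
  have hNr : (3 : ℝ) ≤ N := by exact_mod_cast h5
  have he := Real.exp_one_lt_d9
  have hlog1 : 1 ≤ Real.log N := by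
    rw [Real.le_log_iff_exp_le (by linarith)]
    linarith
  have hl2a := Real.log_two_gt_d9
  have hl2b := Real.log_two_lt_d9
  -- number of digits
  have h6 : (Nat.log 10 N : ℝ) ≤ Real.log N := by
    have h7 : (10 : ℝ) ^ (Nat.log 10 N) ≤ N := by
      exact_mod_cast Nat.pow_log_le_self 10 (show N ≠ 0 by omega)
    have h8 := Real.log_le_log (by positivity) h7
    rw [Real.log_pow] at h8
    have h9 : 1 ≤ Real.log 10 := by
      rw [Real.le_log_iff_exp_le (by norm_num)]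
      linarith
    have h10 : (0 : ℝ) ≤ Nat.log 10 N := Nat.cast_nonneg _
    nlinarith
  have h7 : (2 : ℝ) ^ (Nat.log 2 (Nat.log 10 N + 1)) ≤ 2 * Real.log N := by
    have h8 : (2 : ℝ) ^ (Nat.log 2 (Nat.log 10 N + 1)) ≤ (Nat.log 10 N + 1 : ℕ) := by
      exact_mod_cast Nat.pow_log_le_self 2 (show Nat.log 10 N + 1 ≠ 0 by omega)
    refine h8.trans ?_
    push_cast
    linarith
  have h8 := Real.log_le_log (by positivity) h7
  rw [Real.log_pow, Real.log_mul (by norm_num) (by linarith)] at h8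
  push_cast
  have h9 : (0 : ℝ) ≤ (Nat.log 2 (Nat.log 10 N + 1) : ℝ) := Nat.cast_nonneg _
  nlinarith

theorem NG_of_two {κ V m n : ℕ} (h : NG κ V m (rats (rats n))) : NG (κ + 2) V m n :=
  NG_of_rats (NG_of_rats h)

theorem NG_rep (κ V : ℕ) {m X : ℕ} (hm : m ≤ X) : NG κ V m (Nat.ofDigits 10 (tw 2 1 0 X)) := by
  refine ⟨0, Nat.zero_le _, ?_⟩
  rw [Function.iterate_zero, id, digits_st (st_tw (by norm_num) (by norm_num) (by norm_num) _ _)]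
  have hlen : (tw 2 1 0 X).length = X := by
    simp [tw]
  rw [hlen]
  refine ⟨?_, hm⟩
  have : (tw 2 1 0 X).countP (fun d => decide (d ≠ 1)) = 0 := by
    rw [countP_eq_zero]
    intro d hd
    simp only [tw, replicate_zero, nil_append, mem_replicate] at hd
    simp [hd.2]
  omega

/-- the bad pairs -/
def BQ (K : ℝ) (V m L : ℕ) : Set (ℕ × ℕ) := {p : ℕ × ℕ | |10 * (p.1 : ℝ) - 9 * L| ≤ K * Real.sqrt L ∧
    1 ≤ p.2 ∧ (p.2 : ℝ) ≤ K * Real.sqrt L ∧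
    ¬ NG (Nat.log 2 L + V) V m (Nat.ofDigits 10 (tw 2 1 p.2 p.1))}

theorem BQ_fin (K : ℝ) (V m L : ℕ) : (BQ K V m L).Finite := by
  obtain ⟨A, hA⟩ := exists_nat_gt (9 * (L : ℝ) + K * Real.sqrt L)
  obtain ⟨B, hB⟩ := exists_nat_gt (K * Real.sqrt L)
  apply ((Set.finite_Iic A).prod (Set.finite_Iic B)).subset
  rintro ⟨x, y⟩ ⟨h1, h2, h3, h4⟩
  simp only at h1 h2 h3
  rw [abs_le] at h1
  rw [Set.mem_prod, Set.mem_Iic, Set.mem_Iic]
  have hx : (x : ℝ) ≤ A := by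
    have : (0 : ℝ) ≤ x := Nat.cast_nonneg _
    linarith [h1.2]
  have hy : (y : ℝ) ≤ B := by linarith
  exact ⟨by exact_mod_cast hx, by exact_mod_cast hy⟩

theorem per_length2 (hdet : DetStmt2) {δ : ℝ} (hδ : 0 < δ) : ∃ (V L0 : ℕ) (c : ℝ), 0 < c ∧
    ∀ L, L0 ≤ L → (({n | 10 ^ (L - 1) ≤ n ∧ n < 10 ^ L ∧
      ¬ NG (Nat.log 2 L + V + 2) V ⌈c * L⌉₊ n} : Set ℕ).ncard : ℝ) ≤ δ * 10 ^ L := by
  obtain ⟨K, hK, L1, h1⟩ := TLN (δ := δ / 2) (by positivity)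
  obtain ⟨V, L2, c0, hc0, h2⟩ := hdet K (δ / 40000000) hK (by positivity)
  obtain ⟨c, hc⟩ : ∃ c, c = min c0 (1 / 2) := ⟨_, rfl⟩
  have hcc : 0 < c := by rw [hc]; exact lt_min hc0 (by norm_num)
  have hcc0 : c ≤ c0 := by rw [hc]; exact min_le_left _ _
  have hcc2 : c ≤ 1 / 2 := by rw [hc]; exact min_le_right _ _
  refine ⟨V, max L1 L2 + ⌈K ^ 2⌉₊ + 1, c, hcc, fun L hL => ?_⟩
  have hLL1 : L1 ≤ L := by have := le_max_left L1 L2; omega
  have hLL2 : L2 ≤ L := by have := le_max_right L1 L2; omega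
  have hLK : K ^ 2 ≤ L := (Nat.le_ceil _).trans (by
    have : ⌈K ^ 2⌉₊ ≤ L := by omega
    exact_mod_cast this)
  have hKr : K ≤ Real.sqrt L := Real.le_sqrt_of_sq_le hLK
  have hrr : Real.sqrt L * Real.sqrt L = L := Real.mul_self_sqrt (Nat.cast_nonneg _)
  have hL1 : 1 ≤ L := by omega
  have ha := h1 L hLL1
  have hb := h2 L hLL2
  obtain ⟨B, hB⟩ : ∃ B, B = (BQ_fin K V ⌈c0 * L⌉₊ L).toFinset := ⟨_, rfl⟩
  have hBc : (B.card : ℝ) ≤ δ / 40000000 * L := by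
    have e : B.card = (BQ K V ⌈c0 * L⌉₊ L).ncard := by
      rw [hB, Set.ncard_eq_toFinset_card _ (BQ_fin K V ⌈c0 * L⌉₊ L)]
    rw [e]
    exact hb
  have hsub : ({n | 10 ^ (L - 1) ≤ n ∧ n < 10 ^ L ∧ ¬ NG (Nat.log 2 L + V + 2) V ⌈c * L⌉₊ n} : Set ℕ) ⊆
      ({n | 10 ^ (L - 1) ≤ n ∧ n < 10 ^ L ∧ ¬ Typ K L n} : Set ℕ) ∪
      ⋃ p ∈ B, ({n | 10 ^ (L - 1) ≤ n ∧ n < 10 ^ L ∧
        rats (rats n) = Nat.ofDigits 10 (tw 2 1 p.2 p.1)} : Set ℕ) := by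
    intro n hn
    obtain ⟨h3, h4, h5⟩ := hn
    by_cases h6 : Typ K L n
    · right
      obtain ⟨X, Y, h7, h8, h9⟩ := h6
      rw [Set.mem_iUnion₂]
      refine ⟨(X, Y), ?_, ⟨h3, h4, h7⟩⟩
      rw [hB, Set.Finite.mem_toFinset]
      refine ⟨h8, ?_, h9, ?_⟩
      · by_contra hY
        have hY0 : Y = 0 := by
          simp only at hY
          omega
        subst hY0
        apply h5
        apply NG_of_two
        rw [h7]
        apply NG_rep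
        apply Nat.ceil_le.mpr
        rw [abs_le] at h8
        have hr0 : 0 ≤ Real.sqrt L := Real.sqrt_nonneg _
        have hLr : (0 : ℝ) ≤ L := Nat.cast_nonneg _
        have hcL : c * (L : ℝ) ≤ 1 / 2 * L := mul_le_mul_of_nonneg_right hcc2 hLr
        have hKL : K * Real.sqrt L ≤ L := by nlinarith
        linarith [h8.1]
      · intro h10
        apply h5
        apply NG_of_two
        rw [h7]
        refine h10.mono le_rfl le_rfl (Nat.ceil_mono ?_)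
        exact mul_le_mul_of_nonneg_right hcc0 (Nat.cast_nonneg _)
    · exact Or.inl ⟨h3, h4, h6⟩
  have hfinN : ∀ P : ℕ → Prop, ({n | 10 ^ (L - 1) ≤ n ∧ n < 10 ^ L ∧ P n} : Set ℕ).Finite :=
    fun P => (Set.finite_Iio (10 ^ L)).subset (fun n hn => hn.2.1)
  have hfin2 : (⋃ p ∈ B, ({n | 10 ^ (L - 1) ≤ n ∧ n < 10 ^ L ∧
        rats (rats n) = Nat.ofDigits 10 (tw 2 1 p.2 p.1)} : Set ℕ)).Finite :=
    Set.Finite.biUnion (Finset.finite_toSet B) (fun p _ => hfinN _)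
  have hc1 := (Set.ncard_le_ncard hsub ((hfinN _).union hfin2)).trans (Set.ncard_union_le _ _)
  have hc2 : ((⋃ p ∈ B, ({n | 10 ^ (L - 1) ≤ n ∧ n < 10 ^ L ∧
        rats (rats n) = Nat.ofDigits 10 (tw 2 1 p.2 p.1)} : Set ℕ)).ncard : ℝ) ≤ δ / 2 * 10 ^ L := by
    have h3 : (⋃ p ∈ B, ({n | 10 ^ (L - 1) ≤ n ∧ n < 10 ^ L ∧
        rats (rats n) = Nat.ofDigits 10 (tw 2 1 p.2 p.1)} : Set ℕ)).ncard ≤
        ∑ p ∈ B, ({n | 10 ^ (L - 1) ≤ n ∧ n < 10 ^ L ∧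
        rats (rats n) = Nat.ofDigits 10 (tw 2 1 p.2 p.1)} : Set ℕ).ncard :=
      Finset.set_ncard_biUnion_le B _
    have h4 : ∀ p ∈ B, (L : ℝ) * (({n | 10 ^ (L - 1) ≤ n ∧ n < 10 ^ L ∧
        rats (rats n) = Nat.ofDigits 10 (tw 2 1 p.2 p.1)} : Set ℕ).ncard : ℝ) ≤
        20000000 * 10 ^ L := by
      intro p hp
      rw [hB, Set.Finite.mem_toFinset] at hp
      exact UBN L p.1 p.2 hL1 hp.2.1
    have h5 : (L : ℝ) * ((⋃ p ∈ B, ({n | 10 ^ (L - 1) ≤ n ∧ n < 10 ^ L ∧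
        rats (rats n) = Nat.ofDigits 10 (tw 2 1 p.2 p.1)} : Set ℕ)).ncard : ℝ) ≤
        (L : ℝ) * (δ / 2 * 10 ^ L) := by
      calc (L : ℝ) * ((⋃ p ∈ B, ({n | 10 ^ (L - 1) ≤ n ∧ n < 10 ^ L ∧
            rats (rats n) = Nat.ofDigits 10 (tw 2 1 p.2 p.1)} : Set ℕ)).ncard : ℝ) ≤
            L * ∑ p ∈ B, (({n | 10 ^ (L - 1) ≤ n ∧ n < 10 ^ L ∧
            rats (rats n) = Nat.ofDigits 10 (tw 2 1 p.2 p.1)} : Set ℕ).ncard : ℝ) := by
            apply mul_le_mul_of_nonneg_left _ (Nat.cast_nonneg _)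
            exact_mod_cast h3
        _ = ∑ p ∈ B, (L : ℝ) * (({n | 10 ^ (L - 1) ≤ n ∧ n < 10 ^ L ∧
            rats (rats n) = Nat.ofDigits 10 (tw 2 1 p.2 p.1)} : Set ℕ).ncard : ℝ) :=
            Finset.mul_sum _ _ _
        _ ≤ ∑ p ∈ B, (20000000 * 10 ^ L : ℝ) := Finset.sum_le_sum h4
        _ = B.card * (20000000 * 10 ^ L) := by rw [Finset.sum_const, nsmul_eq_mul]
        _ ≤ (δ / 40000000 * L) * (20000000 * 10 ^ L) :=
            mul_le_mul_of_nonneg_right hBc (by positivity)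
        _ = (L : ℝ) * (δ / 2 * 10 ^ L) := by ring
    have hLp : (0 : ℝ) < L := by exact_mod_cast hL1
    exact le_of_mul_le_mul_left h5 hLp
  have hc1' : (({n | 10 ^ (L - 1) ≤ n ∧ n < 10 ^ L ∧ ¬ NG (Nat.log 2 L + V + 2) V ⌈c * L⌉₊ n} : Set ℕ).ncard : ℝ) ≤
      (({n | 10 ^ (L - 1) ≤ n ∧ n < 10 ^ L ∧ ¬ Typ K L n} : Set ℕ).ncard : ℝ) +
      ((⋃ p ∈ B, ({n | 10 ^ (L - 1) ≤ n ∧ n < 10 ^ L ∧
        rats (rats n) = Nat.ofDigits 10 (tw 2 1 p.2 p.1)} : Set ℕ)).ncard : ℝ) := by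
    exact_mod_cast hc1
  linarith

/-- all but `δ N` of the numbers up to `N` have, after at most `2 log log N` steps, a term with at
most `V` digits other than `1` and at least `c log N` digits -/
theorem almost_repunit2 (hdet : DetStmt2) {δ : ℝ} (hδ : 0 < δ) : ∃ (V N0 : ℕ) (c : ℝ), 0 < c ∧
    ∀ N, N0 ≤ N → (({n | 1 ≤ n ∧ n ≤ N ∧ ¬ ∃ k : ℕ, (k : ℝ) ≤ 2 * Real.log (Real.log N) ∧
      (Nat.digits 10 (rats^[k] n)).countP (fun d => decide (d ≠ 1)) ≤ V ∧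
      c * Real.log N ≤ ((Nat.digits 10 (rats^[k] n)).length : ℝ)} : Set ℕ).ncard : ℝ) ≤ δ * N := by
  obtain ⟨V, L0, c0, hc0, h0⟩ := per_length2 hdet (δ := δ / 40) (by positivity)
  obtain ⟨N2, hN2⟩ := steps_bound (V + 2)
  obtain ⟨t, ht⟩ : ∃ t : ℕ, 2 / δ ≤ 10 ^ t := by
    obtain ⟨t, ht⟩ := pow_unbounded_of_one_lt (2 / δ) (show (1 : ℝ) < 10 by norm_num)
    exact ⟨t, ht.le⟩
  refine ⟨V, max N2 (10 ^ (2 * L0 + 2 * t + 3)), c0 / 36, by positivity, fun N hN => ?_⟩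
  have hNN2 : N2 ≤ N := (le_max_left _ _).trans hN
  have hNN3 : 10 ^ (2 * L0 + 2 * t + 3) ≤ N := (le_max_right _ _).trans hN
  obtain ⟨L, hL⟩ : ∃ L, L = Nat.log 10 N := ⟨_, rfl⟩
  have hN0 : N ≠ 0 := by
    have : 0 < 10 ^ (2 * L0 + 2 * t + 3) := by positivity
    omega
  have hL1 : 10 ^ L ≤ N := by rw [hL]; exact Nat.pow_log_le_self 10 hN0
  have hL2 : N < 10 ^ (L + 1) := by rw [hL]; exact Nat.lt_pow_succ_log_self (by norm_num) N
  have hLbig : 2 * L0 + 2 * t + 3 ≤ L := by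
    rw [hL]
    exact Nat.le_log_of_pow_le (by norm_num) hNN3
  obtain ⟨κ, hκ⟩ : ∃ κ, κ = Nat.log 2 (L + 1) + V + 2 := ⟨_, rfl⟩
  have hκr : (κ : ℝ) ≤ 2 * Real.log (Real.log N) := by
    rw [hκ, hL, add_assoc]
    exact hN2 N hNN2
  obtain ⟨b0, hb0⟩ : ∃ b0, b0 = L / 2 + 1 := ⟨_, rfl⟩
  obtain ⟨m, hm⟩ : ∃ m, m = ⌈c0 / 4 * ((L : ℝ) + 1)⌉₊ := ⟨_, rfl⟩
  have hfin : ∀ e, ({n | 1 ≤ n ∧ n < 10 ^ e ∧ ¬ NG κ V m n} : Set ℕ).Finite :=
    fun e => (Set.finite_Iio (10 ^ e)).subset (fun n hn => hn.2.1)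
  have hcum : ∀ j, b0 + j ≤ L + 1 →
      (({n | 1 ≤ n ∧ n < 10 ^ (b0 + j) ∧ ¬ NG κ V m n} : Set ℕ).ncard : ℝ) ≤
      10 ^ b0 + 2 * (δ / 40) * 10 ^ (b0 + j) := by
    intro j
    induction j with
    | zero =>
      intro _
      have hsub : ({n | 1 ≤ n ∧ n < 10 ^ (b0 + 0) ∧ ¬ NG κ V m n} : Set ℕ) ⊆
          ((Finset.range (10 ^ b0) : Finset ℕ) : Set ℕ) := by
        intro n hn
        simp only [Finset.coe_range, Set.mem_Iio]
        exact hn.2.1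
      have h := Set.ncard_le_ncard hsub (Finset.finite_toSet _)
      rw [Set.ncard_coe_finset, Finset.card_range] at h
      have h' : (({n | 1 ≤ n ∧ n < 10 ^ (b0 + 0) ∧ ¬ NG κ V m n} : Set ℕ).ncard : ℝ) ≤
          10 ^ b0 := by
        exact_mod_cast h
      have : (0 : ℝ) ≤ 2 * (δ / 40) * 10 ^ (b0 + 0) := by positivity
      linarith
    | succ j ih =>
      intro hjL
      have ih := ih (by omega)
      have hκ' : Nat.log 2 (b0 + j + 1) + V + 2 ≤ κ := by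
        have := Nat.log_mono_right (b := 2) (show b0 + j + 1 ≤ L + 1 by omega)
        omega
      have hm' : m ≤ ⌈c0 * ((b0 + j + 1 : ℕ) : ℝ)⌉₊ := by
        rw [hm]
        apply Nat.ceil_mono
        have h1 : (L : ℝ) + 1 ≤ 4 * ((b0 + j + 1 : ℕ) : ℝ) := by
          have : L + 1 ≤ 4 * (b0 + j + 1) := by omega
          exact_mod_cast this
        have := mul_le_mul_of_nonneg_left h1 (show 0 ≤ c0 / 4 by positivity)
        linarith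
      have hsub : ({n | 1 ≤ n ∧ n < 10 ^ (b0 + (j + 1)) ∧ ¬ NG κ V m n} : Set ℕ) ⊆
          ({n | 1 ≤ n ∧ n < 10 ^ (b0 + j) ∧ ¬ NG κ V m n} : Set ℕ) ∪
          ({n | 10 ^ (b0 + j + 1 - 1) ≤ n ∧ n < 10 ^ (b0 + j + 1) ∧
            ¬ NG (Nat.log 2 (b0 + j + 1) + V + 2) V ⌈c0 * ((b0 + j + 1 : ℕ) : ℝ)⌉₊ n} :
              Set ℕ) := by
        intro n hn
        obtain ⟨h1, h2, h3⟩ := hn
        by_cases h : n < 10 ^ (b0 + j)
        · exact Or.inl ⟨h1, h, h3⟩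
        · exact Or.inr ⟨by simpa using h, h2, fun hc => h3 (hc.mono hκ' le_rfl hm')⟩
      have hfin2 : ({n | 10 ^ (b0 + j + 1 - 1) ≤ n ∧ n < 10 ^ (b0 + j + 1) ∧
            ¬ NG (Nat.log 2 (b0 + j + 1) + V + 2) V ⌈c0 * ((b0 + j + 1 : ℕ) : ℝ)⌉₊ n} :
              Set ℕ).Finite :=
        (Set.finite_Iio (10 ^ (b0 + j + 1))).subset (fun n hn => hn.2.1)
      have h1 := (Set.ncard_le_ncard hsub ((hfin _).union hfin2)).trans (Set.ncard_union_le _ _)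
      have h2 := h0 (b0 + j + 1) (by omega)
      have h1' : (({n | 1 ≤ n ∧ n < 10 ^ (b0 + (j + 1)) ∧ ¬ NG κ V m n} : Set ℕ).ncard : ℝ) ≤
          (({n | 1 ≤ n ∧ n < 10 ^ (b0 + j) ∧ ¬ NG κ V m n} : Set ℕ).ncard : ℝ) +
          (({n | 10 ^ (b0 + j + 1 - 1) ≤ n ∧ n < 10 ^ (b0 + j + 1) ∧
            ¬ NG (Nat.log 2 (b0 + j + 1) + V + 2) V ⌈c0 * ((b0 + j + 1 : ℕ) : ℝ)⌉₊ n} :
              Set ℕ).ncard : ℝ) := by
        exact_mod_cast h1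
      have e : (10 : ℝ) ^ (b0 + j + 1) = 10 * 10 ^ (b0 + j) := by rw [pow_succ]; ring
      have e2 : (10 : ℝ) ^ (b0 + (j + 1)) = 10 * 10 ^ (b0 + j) := by
        rw [← add_assoc, pow_succ]; ring
      rw [e] at h2
      rw [e2]
      have h5 : (0 : ℝ) < δ * 10 ^ (b0 + j) := by positivity
      have h6 : 2 * (δ / 40) * (10 * 10 ^ (b0 + j)) = 20 / 40 * (δ * 10 ^ (b0 + j)) := by ring
      have h7 : δ / 40 * (10 * 10 ^ (b0 + j)) = 10 / 40 * (δ * 10 ^ (b0 + j)) := by ring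
      have h8 : 2 * (δ / 40) * 10 ^ (b0 + j) = 2 / 40 * (δ * 10 ^ (b0 + j)) := by ring
      rw [h6]
      rw [h7] at h2
      rw [h8] at ih
      linarith
  have hNr' : (10 : ℝ) ^ b0 ≤ δ / 2 * N := by
    have h1 : (10 : ℝ) ^ (b0 + t) ≤ 10 ^ L := pow_le_pow_right₀ (by norm_num) (by omega)
    have h2 : (10 : ℝ) ^ L ≤ N := by exact_mod_cast hL1
    rw [pow_add] at h1
    have h3 : (10 : ℝ) ^ b0 * (2 / δ) ≤ 10 ^ b0 * 10 ^ t :=
      mul_le_mul_of_nonneg_left ht (by positivity)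
    have h4 : (10 : ℝ) ^ b0 * (2 / δ) ≤ N := by linarith
    rw [mul_div_assoc', div_le_iff₀ hδ] at h4
    linarith
  have hlogN : c0 / 36 * Real.log N ≤ m := by
    have h1 : Real.log N ≤ ((L : ℝ) + 1) * Real.log 10 := by
      have h2 : (N : ℝ) ≤ 10 ^ (L + 1) := by exact_mod_cast hL2.le
      have h3 := Real.log_le_log (by exact_mod_cast Nat.pos_of_ne_zero hN0) h2
      rw [Real.log_pow] at h3
      push_cast at h3
      exact h3
    have h2 : Real.log 10 ≤ 9 := by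
      have := Real.log_le_sub_one_of_pos (show (0 : ℝ) < 10 by norm_num)
      linarith
    have h3 : ((L : ℝ) + 1) * Real.log 10 ≤ ((L : ℝ) + 1) * 9 :=
      mul_le_mul_of_nonneg_left h2 (by positivity)
    have h4 : c0 / 36 * Real.log N ≤ c0 / 36 * (((L : ℝ) + 1) * 9) :=
      mul_le_mul_of_nonneg_left (h1.trans h3) (by positivity)
    have h5 : c0 / 4 * ((L : ℝ) + 1) ≤ m := by rw [hm]; exact Nat.le_ceil _
    linarith
  have hsubf : ({n | 1 ≤ n ∧ n ≤ N ∧ ¬ ∃ k : ℕ, (k : ℝ) ≤ 2 * Real.log (Real.log N) ∧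
      (Nat.digits 10 (rats^[k] n)).countP (fun d => decide (d ≠ 1)) ≤ V ∧
      c0 / 36 * Real.log N ≤ ((Nat.digits 10 (rats^[k] n)).length : ℝ)} : Set ℕ) ⊆
      ({n | 1 ≤ n ∧ n < 10 ^ (L + 1) ∧ ¬ NG κ V m n} : Set ℕ) := by
    intro n hn
    refine ⟨hn.1, lt_of_le_of_lt hn.2.1 hL2, ?_⟩
    rintro ⟨k, hk1, hk2, hk3⟩
    apply hn.2.2
    refine ⟨k, ?_, hk2, ?_⟩
    · have : (k : ℝ) ≤ κ := by exact_mod_cast hk1
      linarith
    · have : (m : ℝ) ≤ ((Nat.digits 10 (rats^[k] n)).length : ℝ) := by exact_mod_cast hk3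
      linarith
  obtain ⟨j, hj⟩ : ∃ j, L + 1 = b0 + j := ⟨L + 1 - b0, by omega⟩
  rw [hj] at hsubf
  have h1 := Set.ncard_le_ncard hsubf (hfin _)
  have h1' : (({n | 1 ≤ n ∧ n ≤ N ∧ ¬ ∃ k : ℕ, (k : ℝ) ≤ 2 * Real.log (Real.log N) ∧
      (Nat.digits 10 (rats^[k] n)).countP (fun d => decide (d ≠ 1)) ≤ V ∧
      c0 / 36 * Real.log N ≤ ((Nat.digits 10 (rats^[k] n)).length : ℝ)} : Set ℕ).ncard : ℝ) ≤
      (({n | 1 ≤ n ∧ n < 10 ^ (b0 + j) ∧ ¬ NG κ V m n} : Set ℕ).ncard : ℝ) := by exact_mod_cast h1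
  have h2 := hcum j (by omega)
  have h3 : (10 : ℝ) ^ (b0 + j) ≤ 10 * N := by
    rw [← hj, pow_succ]
    have : (10 : ℝ) ^ L ≤ N := by exact_mod_cast hL1
    linarith
  have h4 : 2 * (δ / 40) * (10 : ℝ) ^ (b0 + j) ≤ 2 * (δ / 40) * (10 * N) :=
    mul_le_mul_of_nonneg_left h3 (by positivity)
  linarith

end Pool.RAT
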