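import Pool.Agent.H42.RAT2.God

/-!
# RATS (MP_a315fd): pairs of typical words with prescribed contributions
-/

set_option autoImplicit false

namespace Pool.RAT

open List

/-- parities of the contributions -/
def par {J : ℕ} (w : Fin J → A3) : Fin 10 → Bool := fun d => decide (Vd w d % 2 = 1)

theorem par_eq {J : ℕ} {w w' : Fin J → A3} (h : par w = par w') (d : Fin 10) :
    Vd w d % 2 = Vd w' d % 2 := by
  have h1 := congrFun h d
  simp only [par, decide_eq_decide] at h1
  omega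

theorem exists_par (J : ℕ) : ∃ π : Fin 10 → Bool,
    (Gd J).card ≤ 1024 * ((Gd J).filter (fun w => par w = π)).card := by
  obtain ⟨π, -, h⟩ := Finset.exists_le_card_fiber_of_nsmul_le_card_of_maps_to
    (s := Gd J) (t := (Finset.univ : Finset (Fin 10 → Bool))) (f := par)
    (b := ((Gd J).card : ℝ) / 1024) (fun _ _ => Finset.mem_univ _) Finset.univ_nonempty (by
      rw [Finset.card_univ, Fintype.card_fun, Fintype.card_fin, Fintype.card_bool, nsmul_eq_mul]
      norm_num
      exact le_of_eq (by ring))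
  refine ⟨π, ?_⟩
  rw [div_le_iff₀ (by norm_num)] at h
  have h2 : ((Gd J).card : ℝ) ≤ ((1024 * ((Gd J).filter (fun w => par w = π)).card : ℕ) : ℝ) := by
    push_cast
    linarith
  exact_mod_cast h2

open Classical in
theorem count_u {J : ℕ} {s : ℝ} (hJ : (J : ℝ) = s ^ 2) {c : ℝ} (hc : 0 ≤ c)
    (hsc : 1000000 * (10 * (c + 10000) + 10) ≤ s) {u : Fin 10 → ℕ} {π : Fin 10 → Bool}
    (hpar : ∀ w : Fin J → A3, par w = π → ∀ d : Fin 10, d ≠ 0 → (u d) % 2 = (Vd w d) % 2)
    (hu : ∀ d : Fin 10, d ≠ 0 → |10 * (u d : ℝ) - 6 * J| ≤ c * s) :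
    (((Gd J).filter (fun w => par w = π)).card : ℝ) ≤ cD c * s ^ 9 *
      ((Finset.univ.filter (fun w' : Fin J → A3 => ∀ d : Fin 10, d ≠ 0 → Vd w' d = u d)).card : ℝ) := by
  have hs0 : 0 ≤ s := by nlinarith
  obtain ⟨G, hG⟩ : ∃ G, G = (Gd J).filter (fun w => par w = π) := ⟨_, rfl⟩
  obtain ⟨Ω, hΩ⟩ : ∃ Ω, Ω = Finset.univ.filter (fun w' : Fin J → A3 =>
    ∀ d : Fin 10, d ≠ 0 → Vd w' d = u d) := ⟨_, rfl⟩
  rw [← hG, ← hΩ]
  have h1 : G.card = ∑ r ∈ G.image (rst sg), (G.filter (fun w => rst sg w = r)).card :=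
    Finset.card_eq_sum_card_fiberwise (fun w hw => Finset.mem_image_of_mem _ hw)
  have h2 : ∀ r ∈ G.image (rst sg), ((G.filter (fun w => rst sg w = r)).card : ℝ) ≤
      cD c * s ^ 9 * ((Ω.filter (fun w => rst sg w = r)).card : ℝ) := by
    intro r hr
    obtain ⟨w0, hw0, rfl⟩ := Finset.mem_image.mp hr
    rw [hG, Finset.mem_filter] at hw0
    have h3 := cls hw0.1 hJ hc hsc (hpar w0 hw0.2) hu
    have h4 : (G.filter (fun w => rst sg w = rst sg w0)).card ≤
        (Finset.univ.filter (fun w' : Fin J → A3 => rst sg w' = rst sg w0)).card :=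
      Finset.card_le_card (Finset.filter_subset_filter _ (Finset.subset_univ _))
    have h5 : (Finset.univ.filter (fun w' : Fin J → A3 => rst sg w' = rst sg w0 ∧
        ∀ d : Fin 10, d ≠ 0 → Vd w' d = u d)).card ≤
        (Ω.filter (fun w => rst sg w = rst sg w0)).card := by
      apply Finset.card_le_card
      intro w' hw'
      simp only [hΩ, Finset.mem_filter, Finset.mem_univ, true_and] at hw' ⊢
      exact ⟨hw'.2, hw'.1⟩
    have h4' : ((G.filter (fun w => rst sg w = rst sg w0)).card : ℝ) ≤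
        ((Finset.univ.filter (fun w' : Fin J → A3 => rst sg w' = rst sg w0)).card : ℝ) := by
      exact_mod_cast h4
    have h5' : ((Finset.univ.filter (fun w' : Fin J → A3 => rst sg w' = rst sg w0 ∧
        ∀ d : Fin 10, d ≠ 0 → Vd w' d = u d)).card : ℝ) ≤
        ((Ω.filter (fun w => rst sg w = rst sg w0)).card : ℝ) := by
      exact_mod_cast h5
    refine h4'.trans (h3.trans (mul_le_mul_of_nonneg_left h5' ?_))
    rw [cD]
    positivity
  have h6 : ∑ r ∈ G.image (rst sg), (Ω.filter (fun w => rst sg w = r)).card ≤ Ω.card := by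
    rw [Finset.card_eq_sum_card_fiberwise (f := rst sg) (s := Ω)
      (t := (Finset.univ : Finset (Fin J → A3)).image (rst sg))
      (fun w _ => Finset.mem_image_of_mem _ (Finset.mem_univ w))]
    exact Finset.sum_le_sum_of_subset (Finset.image_subset_image (Finset.subset_univ _))
  have h6' : ∑ r ∈ G.image (rst sg), ((Ω.filter (fun w => rst sg w = r)).card : ℝ) ≤ (Ω.card : ℝ) := by
    exact_mod_cast h6
  calc (G.card : ℝ) = ∑ r ∈ G.image (rst sg), ((G.filter (fun w => rst sg w = r)).card : ℝ) := by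
        rw [h1]; push_cast; rfl
    _ ≤ ∑ r ∈ G.image (rst sg), cD c * s ^ 9 *
        ((Ω.filter (fun w => rst sg w = r)).card : ℝ) := Finset.sum_le_sum h2
    _ = cD c * s ^ 9 * ∑ r ∈ G.image (rst sg),
        ((Ω.filter (fun w => rst sg w = r)).card : ℝ) := by rw [Finset.mul_sum]
    _ ≤ cD c * s ^ 9 * (Ω.card : ℝ) := by
        apply mul_le_mul_of_nonneg_left h6'
        rw [cD]
        positivity

/-- pairs of words with prescribed total contributions -/
def PP (J : ℕ) (U : Fin 10 → ℕ) : Finset ((Fin J → A3) × (Fin J → A3)) :=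
  Finset.univ.filter (fun p => ∀ d : Fin 10, d ≠ 0 → Vd p.1 d + Vd p.2 d = U d)

theorem Vd_real {J : ℕ} {w : Fin J → A3} (hw : w ∈ Gd J) {s : ℝ} (hs : 1 ≤ s) (hJ : (J : ℝ) = s ^ 2)
    (d : Fin 10) : |10 * (Vd w d : ℝ) - 6 * J| ≤ 10020 * s := by
  obtain ⟨g1, g2, -⟩ := Gd_bd hw (by linarith) hJ d
  obtain ⟨v1, v2⟩ := Vd_bd w d
  have v1' : (Fa w d : ℝ) + Fb w d ≤ Vd w d := by exact_mod_cast v1
  have v2' : (Vd w d : ℝ) ≤ Fa w d + Fb w d + 2 := by exact_mod_cast v2
  rw [abs_le] at g1 g2 ⊢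
  constructor <;> linarith [g1.1, g1.2, g2.1, g2.2]

theorem pairs {J : ℕ} {s : ℝ} (hJ : (J : ℝ) = s ^ 2) {c : ℝ} (hc : 0 ≤ c)
    (hsc : 1000000 * (10 * (c + 10020 + 10000) + 10) ≤ s) {U : Fin 10 → ℕ}
    (hpar : ∀ d : Fin 10, d ≠ 0 → (U d) % 2 = 0)
    (hU : ∀ d : Fin 10, d ≠ 0 → |10 * (U d : ℝ) - 12 * J| ≤ c * s) :
    ((1000000 : ℝ) ^ J) ^ 2 ≤ 4194304 * cD (c + 10020) * s ^ 9 * ((PP J U).card : ℝ) := by
  classical
  have hs1 : 1 ≤ s := by nlinarith
  have hs0 : 0 ≤ s := by linarith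
  have hJ1 : 1 ≤ J := by
    have : (1 : ℝ) ≤ J := by rw [hJ]; nlinarith
    exact_mod_cast this
  obtain ⟨π, hπ⟩ := exists_par J
  obtain ⟨G, hG⟩ : ∃ G, G = (Gd J).filter (fun w => par w = π) := ⟨_, rfl⟩
  rw [← hG] at hπ
  have hGd := card_Gd hJ1
  have hGc : (1000000 : ℝ) ^ J ≤ 2048 * G.card := by
    have : 1000000 ^ J ≤ 2048 * G.card := by omega
    exact_mod_cast this
  -- each second word
  have h1 : ∀ w2 ∈ G, (G.card : ℝ) ≤ cD (c + 10020) * s ^ 9 *
      (((PP J U).filter (fun p => p.2 = w2)).card : ℝ) := by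
    intro w2 hw2
    rw [hG, Finset.mem_filter] at hw2
    have hv := fun d => Vd_real hw2.1 hs1 hJ d
    have hle : ∀ d : Fin 10, d ≠ 0 → Vd w2 d ≤ U d := by
      intro d hd
      have h2 := (abs_le.mp (hv d)).2
      have h3 := (abs_le.mp (hU d hd)).1
      have h4 : (c + 10020) * s ≤ 6 * s ^ 2 := by nlinarith
      have h5 : (Vd w2 d : ℝ) ≤ U d := by
        rw [hJ] at h2 h3
        linarith
      exact_mod_cast h5
    have h6 := count_u (u := fun d => U d - Vd w2 d) (π := π) hJ (c := c + 10020) (by linarith) hsc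
      (by
        intro w hw d hd
        have h7 := hpar d hd
        have h8 := hle d hd
        have h9 := par_eq (hw.trans hw2.2.symm) d
        omega)
      (by
        intro d hd
        have h8 := hle d hd
        rw [Nat.cast_sub h8]
        have h2 := abs_le.mp (hv d)
        have h3 := abs_le.mp (hU d hd)
        rw [abs_le]
        constructor <;> linarith [h2.1, h2.2, h3.1, h3.2])
    rw [← hG] at h6
    refine h6.trans (mul_le_mul_of_nonneg_left ?_ (by rw [cD]; positivity))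
    have h10 : (Finset.univ.filter (fun w' : Fin J → A3 =>
        ∀ d : Fin 10, d ≠ 0 → Vd w' d = U d - Vd w2 d)).card ≤
        ((PP J U).filter (fun p => p.2 = w2)).card := by
      apply Finset.card_le_card_of_injOn (fun w => (w, w2))
      · intro w hw
        have hw' := (Finset.mem_filter.mp (Finset.mem_coe.mp hw)).2
        refine Finset.mem_coe.mpr (Finset.mem_filter.mpr ⟨?_, rfl⟩)
        rw [PP, Finset.mem_filter]
        refine ⟨Finset.mem_univ _, fun d hd => ?_⟩
        have h11 := hw' d hd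
        have h12 := hle d hd
        simp only
        omega
      · intro w _ w' _ h
        exact congrArg Prod.fst h
    exact_mod_cast h10
  have h2 : ∑ w2 ∈ G, ((PP J U).filter (fun p => p.2 = w2)).card ≤ (PP J U).card := by
    rw [Finset.card_eq_sum_card_fiberwise (f := Prod.snd) (s := PP J U)
      (t := (Finset.univ : Finset (Fin J → A3))) (fun _ _ => Finset.mem_univ _)]
    exact Finset.sum_le_sum_of_subset (Finset.subset_univ _)
  have h2' : ∑ w2 ∈ G, (((PP J U).filter (fun p => p.2 = w2)).card : ℝ) ≤ ((PP J U).card : ℝ) := by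
    exact_mod_cast h2
  have h3 : (G.card : ℝ) * G.card ≤ cD (c + 10020) * s ^ 9 * ((PP J U).card : ℝ) := by
    calc (G.card : ℝ) * G.card = ∑ w2 ∈ G, (G.card : ℝ) := by
          rw [Finset.sum_const, nsmul_eq_mul]
      _ ≤ ∑ w2 ∈ G, cD (c + 10020) * s ^ 9 *
          (((PP J U).filter (fun p => p.2 = w2)).card : ℝ) := Finset.sum_le_sum h1
      _ = cD (c + 10020) * s ^ 9 * ∑ w2 ∈ G,
          (((PP J U).filter (fun p => p.2 = w2)).card : ℝ) := by rw [Finset.mul_sum]
      _ ≤ _ := mul_le_mul_of_nonneg_left h2' (by rw [cD]; positivity)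
  calc ((1000000 : ℝ) ^ J) ^ 2 ≤ (2048 * G.card) ^ 2 :=
        pow_le_pow_left₀ (by positivity) hGc 2
    _ = 4194304 * ((G.card : ℝ) * G.card) := by ring
    _ ≤ 4194304 * (cD (c + 10020) * s ^ 9 * ((PP J U).card : ℝ)) :=
        mul_le_mul_of_nonneg_left h3 (by norm_num)
    _ = _ := by ring

end Pool.RAT
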