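import Pool.Agent.H42.RAT2.Dens
import Pool.Agent.H42.RAT2.Col

/-!
# RATS (MP_a315fd): a positive proportion of the numbers reaches `1^j 2^3` with small `j`
-/

set_option autoImplicit false

namespace Pool.RAT

open List

/-- the second term with nine parameters -/
def T9 (W η : ℕ) {B : ℕ} (t : Fin 9 → Fin B) : List ℕ :=
  TG (W + 2 * t 0) (W + 2 * t 1) (W + 2 * t 2) (W + 2 * t 3) (2 * t 4) (2 * t 5) (2 * t 6)
    (η + 2 * t 7 - 2 * (t 4 + t 5 + t 6)) (W + 2 * t 8 - 4 * (t 0 + t 1 + t 2 + t 3) - 4 * t 7)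

/-- the prescribed total contributions -/
def U9 (W η : ℕ) {B : ℕ} (t : Fin 9 → Fin B) : Fin 10 → ℕ :=
  fun d => (T9 W η t).count d.val - (if d.val = 9 then 2 else 0)

/-- some term is `1^j 2^3` with `j ≤ ℓ` -/
def Hit (ℓ : ℝ) (n : ℕ) : Prop :=
  ∃ k j : ℕ, (j : ℝ) ≤ ℓ ∧ rats^[k] n = Nat.ofDigits 10 (replicate 3 2 ++ replicate j 1)

/-- numbers up to `N` with such a term -/
def HS (ℓ : ℝ) (N : ℕ) : Set ℕ := {n | 1 ≤ n ∧ n ≤ N ∧ Hit ℓ n}

theorem HS_fin (ℓ : ℝ) (N : ℕ) : (HS ℓ N).Finite := (Set.finite_Iic N).subset (fun _ h => h.2.1)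

theorem npr_hit {J W η m M B κ : ℕ} {ℓ : ℝ} (hW : 2 ≤ W) (hM : M = 64 ^ m) (hη : η = 2 * κ)
    (hB1 : 6 * B ≤ η) (hB2 : 20 * B ≤ W) (hη1 : 1 ≤ η)
    (hlow : 320 * gm m + 279 * W + 31 * m + 62 * B < (128 * M - 124) * κ)
    (hhigh : (128 * M - 124) * κ ≤ 320 * gm m + 279 * W + 31 * m + 62 * B + (128 * M - 124))
    (hM1 : 1 ≤ M) (hℓ : 62 * B + 128 * M + 128 * M * B + 3 ≤ 9 * W)
    (hℓ' : ((62 * B + 128 * M + 128 * M * B + 3 : ℕ) : ℝ) ≤ ℓ)
    {t : Fin 9 → Fin B} {p : (Fin J → A3) × (Fin J → A3)} (hp : p ∈ PP J (U9 W η t)) :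
    Hit ℓ (npr p) := by
  have b0 := (t 0).isLt
  have b1 := (t 1).isLt
  have b2 := (t 2).isLt
  have b3 := (t 3).isLt
  have b4 := (t 4).isLt
  have b5 := (t 5).isLt
  have b6 := (t 6).isLt
  have b7 := (t 7).isLt
  have b8 := (t 8).isLt
  rw [PP, Finset.mem_filter] at hp
  -- first step
  have s1 : rats (npr p) = Nat.ofDigits 10 (T9 W η t) := by
    rw [npr]
    apply rats_nl (by simp) [fe J p.1, fe J p.2] (T := T9 W η t) (st_TG _ _ _ _ _ _ _ _ _)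
    intro d hd1 hd9
    have h1 := hp.2 ⟨d, by omega⟩ (fun hh => by
      have := congrArg Fin.val hh
      simp at this
      omega)
    simp only [map_cons, map_nil, sum_cons, sum_nil, Nat.add_zero]
    simp only [Vd, U9] at h1
    rw [h1]
    by_cases h9 : d = 9
    · subst h9
      have h2 : W ≤ (T9 W η t).count 9 := by rw [T9, count_TG]; norm_num; omega
      norm_num
      omega
    · rw [if_neg h9, count_cons_of_ne (by omega), count_nil]
      omega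
  -- second step
  obtain ⟨Y0, hY0⟩ : ∃ Y0, Y0 = 2 * η + 4 * (t 7 : ℕ) := ⟨_, rfl⟩
  obtain ⟨X0, hX0⟩ : ∃ X0, X0 + Y0 = 9 * W + 2 * η + 2 * (t 8 : ℕ) :=
    ⟨9 * W + 2 * η + 2 * (t 8 : ℕ) - Y0, by omega⟩
  have s2 : rats (Nat.ofDigits 10 (T9 W η t)) = Nat.ofDigits 10 (tw 2 1 Y0 X0) := by
    obtain ⟨q, hq⟩ : ∃ q, W + 2 * (t 0 : ℕ) = q + 1 := ⟨W + 2 * (t 0 : ℕ) - 1, by omega⟩
    rw [T9, hq, stepG]
    congr 2
    · omega
    · omega
  -- renormalisation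
  obtain ⟨Y, hY⟩ : ∃ Y, Y + 10 * gm m = 64 ^ m * Y0 := by
    refine ⟨64 ^ m * Y0 - 10 * gm m, ?_⟩
    have h1 := gm_eq m
    have h2 : 64 ^ m * 1 ≤ 64 ^ m * Y0 := Nat.mul_le_mul_left _ (by omega)
    omega
  have hY' : Y + 10 * gm m = 4 * (M * κ) + 4 * (M * (t 7 : ℕ)) := by
    rw [hY, hY0, ← hM, hη]; ring
  have hD : (128 * M - 124) * κ = 128 * (M * κ) - 124 * κ := by
    rw [Nat.sub_mul]; ring_nf
  have hMκ : κ ≤ M * κ := Nat.le_mul_of_pos_left κ hM1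
  have hMt : M * (t 7 : ℕ) + M ≤ M * B := by
    calc M * (t 7 : ℕ) + M = M * ((t 7 : ℕ) + 1) := by ring
      _ ≤ M * B := Nat.mul_le_mul_left _ b7
  have hMB : 128 * M * B = 128 * (M * B) := by ring
  rw [hD] at hlow hhigh
  rw [hMB] at hℓ hℓ'
  -- the value
  obtain ⟨v, hv⟩ : ∃ v, v + 31 * (X0 + Y0 + m) = 32 * Y + 1 := by
    refine ⟨32 * Y + 1 - 31 * (X0 + Y0 + m), ?_⟩
    omega
  have hv2 : v ≤ 62 * B + 128 * M + 128 * (M * B) + 1 := by omega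
  obtain ⟨X, hX⟩ : ∃ X, X + Y = X0 + Y0 + m := by
    refine ⟨X0 + Y0 + m - Y, ?_⟩
    omega
  have hX2 : 2 ≤ X := by omega
  have s3 := ren m X0 Y0 X Y (by omega) hY hX hX2
  obtain ⟨a, rfl⟩ : ∃ a, X = a + 1 := ⟨X - 1, by omega⟩
  have hYv : Y = 31 * a + 30 + v := by omega
  have s4 := collapse a v
  refine ⟨5 + (6 * m + 2), v + 2, ?_, ?_⟩
  · refine le_trans ?_ hℓ'
    have : v + 2 ≤ 62 * B + 128 * M + 128 * (M * B) + 3 := by omega
    exact_mod_cast this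
  · rw [Function.iterate_add_apply, Function.iterate_add_apply]
    show rats^[5] (rats^[6 * m] (rats (rats (npr p)))) = _
    rw [s1, s2, s3, hYv, s4]
    rfl

theorem U9_inj {W η B : ℕ} {t t' : Fin 9 → Fin B}
    (h : ∀ d : Fin 10, d ≠ 0 → U9 W η t d = U9 W η t' d) (hW : 2 ≤ W) (hB1 : 6 * B ≤ η)
    (hB2 : 20 * B ≤ W) : t = t' := by
  have b0 := (t 0).isLt
  have b1 := (t 1).isLt
  have b2 := (t 2).isLt
  have b3 := (t 3).isLt
  have b4 := (t 4).isLt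
  have b5 := (t 5).isLt
  have b6 := (t 6).isLt
  have b7 := (t 7).isLt
  have b8 := (t 8).isLt
  have h1 := h 1 (by decide)
  have h2 := h 2 (by decide)
  have h3 := h 3 (by decide)
  have h4 := h 4 (by decide)
  have h5 := h 5 (by decide)
  have h6 := h 6 (by decide)
  have h7 := h 7 (by decide)
  have h8 := h 8 (by decide)
  have h9 := h 9 (by decide)
  simp only [U9, T9, count_TG] at h1 h2 h3 h4 h5 h6 h7 h8 h9
  norm_num at h1 h2 h3 h4 h5 h6 h7 h8 h9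
  have e0 : t 0 = t' 0 := Fin.ext (by omega)
  have e4 : t 4 = t' 4 := Fin.ext (by rw [e0] at h9; omega)
  have e1 : t 1 = t' 1 := Fin.ext (by rw [e4] at h2; omega)
  have e5 : t 5 = t' 5 := Fin.ext (by rw [e1] at h8; omega)
  have e2 : t 2 = t' 2 := Fin.ext (by rw [e5] at h3; omega)
  have e6 : t 6 = t' 6 := Fin.ext (by rw [e2] at h7; omega)
  have e3 : t 3 = t' 3 := Fin.ext (by rw [e6] at h4; omega)
  have e7 : t 7 = t' 7 := Fin.ext (by
    have c4 := (t' 4).isLt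
    have c5 := (t' 5).isLt
    have c6 := (t' 6).isLt
    rw [e3, e4, e5, e6] at h6; omega)
  have e8 : t 8 = t' 8 := Fin.ext (by
    have c0 := (t' 0).isLt
    have c1 := (t' 1).isLt
    have c2 := (t' 2).isLt
    have c3 := (t' 3).isLt
    have c4 := (t' 4).isLt
    have c5 := (t' 5).isLt
    have c6 := (t' 6).isLt
    have c7 := (t' 7).isLt
    rw [e0, e1, e2, e3, e4, e5, e6, e7] at h5; omega)
  funext i
  fin_cases i
  · exact e0
  · exact e1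
  · exact e2
  · exact e3
  · exact e4
  · exact e5
  · exact e6
  · exact e7
  · exact e8

theorem hs_sum {J W η B N : ℕ} {ℓ : ℝ} (hW : 2 ≤ W) (hB1 : 6 * B ≤ η) (hB2 : 20 * B ≤ W)
    (hhit : ∀ (t : Fin 9 → Fin B) (p : (Fin J → A3) × (Fin J → A3)), p ∈ PP J (U9 W η t) →
      Hit ℓ (npr p))
    (hN : 10 ^ (12 * J + 8) ≤ N) :
    ∑ t : Fin 9 → Fin B, (PP J (U9 W η t)).card ≤ (HS ℓ N).ncard := by
  classical
  rw [← Finset.card_biUnion]
  · have hsub : ((((Finset.univ : Finset (Fin 9 → Fin B)).biUnion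
        (fun t => PP J (U9 W η t))).image npr : Finset ℕ) : Set ℕ) ⊆ HS ℓ N := by
      intro n hn
      rw [Finset.coe_image] at hn
      obtain ⟨p, hp, rfl⟩ := hn
      obtain ⟨t, -, ht⟩ := Finset.mem_biUnion.mp (Finset.mem_coe.mp hp)
      obtain ⟨h1, h2⟩ := npr_bd p
      exact ⟨h1, by omega, hhit t p ht⟩
    have h1 := Set.ncard_le_ncard hsub (HS_fin ℓ N)
    rwa [Set.ncard_coe_finset, Finset.card_image_of_injective _ npr_inj] at h1
  · intro t _ t' _ hne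
    rw [Function.onFun, Finset.disjoint_left]
    intro p hp hp'
    apply hne
    rw [PP, Finset.mem_filter] at hp hp'
    exact U9_inj (fun d hd => (hp.2 d hd).symm.trans (hp'.2 d hd)) hW hB1 hB2

theorem r0 {s : ℝ} (hs : 10000000000000 ≤ s) : 1000 * s ≤ s ^ 2 := by
  rw [pow_two]
  exact mul_le_mul_of_nonneg_right (by linarith) (by linarith)

theorem r1 {s g n m B M : ℝ} (hs : 10000000000000 ≤ s) (hM : M ≤ s) (hg : 63 * g ≤ M)
    (hm : m ≤ M) (hB : B ≤ s / 300) (hn : 5 * n ≤ 3 * s ^ 2) :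
    320 * g + 279 * (2 * n) + 31 * m + 62 * B ≤ 340 * s ^ 2 := by
  have h2 := r0 hs
  linarith

theorem r2 {s κ R D M : ℝ} (hs : 10000000000000 ≤ s) (hD : D = 128 * M - 124) (hM : M ≤ s)
    (hM' : s ≤ 64 * M) (hM1 : 10000 ≤ M) (hR : R ≤ 340 * s ^ 2) (h1 : D * κ ≤ R + D) :
    κ ≤ 240 * s := by
  by_contra hcon
  push Not at hcon
  have h3 : D ≤ 128 * s := by rw [hD]; linarith
  have h4 : 100 * s ≤ 64 * D := by rw [hD]; linarith
  have h5 : 240 * s * (100 * s) < κ * (64 * D) := by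
    have hs3 : 0 < 100 * s := by linarith
    have hq0 : 0 < κ := by linarith
    calc 240 * s * (100 * s) < κ * (100 * s) := mul_lt_mul_of_pos_right hcon hs3
      _ ≤ κ * (64 * D) := mul_le_mul_of_nonneg_left h4 hq0.le
  have h6 := r0 hs
  have e1 : 240 * s * (100 * s) = 24000 * s ^ 2 := by ring
  have e2 : κ * (64 * D) = 64 * (D * κ) := by ring
  rw [e1, e2] at h5
  have h7 : 0 < s ^ 2 := by
    have : 0 < s := by linarith
    positivity
  linarith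

theorem r3 {s κ R D M n : ℝ} (hs : 10000000000000 ≤ s) (hD : D = 128 * M - 124) (hM : M ≤ s)
    (hn : 3 * s ^ 2 ≤ 5 * n + 5) (hR : 279 * (2 * n) ≤ R) (h1 : R < D * κ) (hκ : 0 ≤ κ) :
    s ≤ κ := by
  by_contra hcon
  push Not at hcon
  have h3 : D ≤ 128 * s := by rw [hD]; linarith
  have h4 : D * κ ≤ 128 * s * s :=
    mul_le_mul h3 hcon.le hκ (by linarith)
  have h5 := r0 hs
  have e1 : 128 * s * s = 128 * s ^ 2 := by ring
  rw [e1] at h4
  linarith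

theorem r4 {s B n : ℝ} (hs : 10000000000000 ≤ s) (hB : B ≤ s / 300)
    (hn : 3 * s ^ 2 ≤ 5 * n + 5) : 20 * B ≤ 2 * n ∧ 1 ≤ n := by
  have h5 := r0 hs
  constructor <;> linarith

theorem r6 {s B M δ : ℝ} (hs : 10000000000000 ≤ s) (hδ : 0 < δ) (hB0 : 0 ≤ B)
    (hδs : 10000000000000 ≤ δ * s) (hM : M ≤ s) (hB : B ≤ δ * s / 300) :
    62 * B + 128 * M + 128 * M * B + 3 ≤ δ * s ^ 2 := by
  have h1 : 128 * M * B ≤ 128 * s * (δ * s / 300) :=
    mul_le_mul (by linarith) hB hB0 (by linarith)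
  have h2 : 1000 * s ≤ δ * s * s := mul_le_mul_of_nonneg_right (by linarith) (by linarith)
  have e1 : 128 * s * (δ * s / 300) = 128 / 300 * (δ * s * s) := by ring
  have e2 : δ * s ^ 2 = δ * s * s := by ring
  rw [e1] at h1
  rw [e2]
  have h3 : 1000 * (δ * s) ≤ δ * s * s := by
    have : 0 ≤ δ * s := by linarith
    calc 1000 * (δ * s) ≤ s * (δ * s) := mul_le_mul_of_nonneg_right (by linarith) this
      _ = δ * s * s := by ring
  linarith

theorem r7 {s n δ : ℝ} (hs : 10000000000000 ≤ s) (hδ1 : δ ≤ 1)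
    (hn : 3 * s ^ 2 ≤ 5 * n + 5) : δ * s ^ 2 ≤ 9 * (2 * n) := by
  have h5 := r0 hs
  have h2 : δ * s ^ 2 ≤ 1 * s ^ 2 := mul_le_mul_of_nonneg_right hδ1 (by positivity)
  linarith

/-- the count for one length -/
theorem pos_count {δ : ℝ} (hδ : 0 < δ) (hδ1 : δ ≤ 1) : ∃ c : ℝ, 0 < c ∧ ∃ J0 : ℕ, ∀ J, J0 ≤ J →
    ∀ N, 10 ^ (12 * J + 8) ≤ N → c * (10 : ℝ) ^ (12 * J) ≤ ((HS (δ * J) N).ncard : ℝ) := by
  obtain ⟨C, hC⟩ : ∃ C : ℝ, C = 4194304 * cD (200000 + 10020) := ⟨_, rfl⟩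
  have hC0 : 0 < C := by rw [hC, cD]; positivity
  obtain ⟨K, hK⟩ := exists_nat_gt (10000000000000 / δ)
  refine ⟨(δ / 600) ^ 9 / C, by positivity, K ^ 2, fun J hJ N hN => ?_⟩
  obtain ⟨s, hs⟩ : ∃ s, s = Real.sqrt J := ⟨_, rfl⟩
  have hJs : (J : ℝ) = s ^ 2 := by rw [hs]; exact (Real.sq_sqrt (Nat.cast_nonneg J)).symm
  have hsK : (K : ℝ) ≤ s := by
    rw [hs]
    apply Real.le_sqrt_of_sq_le
    exact_mod_cast hJ
  have hsδ : 10000000000000 ≤ δ * s := by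
    have h1 : 10000000000000 / δ ≤ s := hK.le.trans hsK
    rwa [div_le_iff₀ hδ, mul_comm] at h1
  have hs13 : (10000000000000 : ℝ) ≤ s := by nlinarith
  have hs0 : 0 < s := lt_of_lt_of_le (by positivity) hs13
  -- B
  obtain ⟨B, hB⟩ : ∃ B, B = ⌊δ * s / 300⌋₊ := ⟨_, rfl⟩
  have hB1 : (B : ℝ) ≤ δ * s / 300 := by rw [hB]; exact Nat.floor_le (by positivity)
  have hB2 : δ * s / 600 ≤ B := by
    have h1 : δ * s / 300 < B + 1 := by rw [hB]; exact Nat.lt_floor_add_one _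
    linarith
  have hBs : (B : ℝ) ≤ s / 300 := by
    refine hB1.trans ?_
    have : δ * s ≤ s := by nlinarith
    linarith
  -- S, M, m
  obtain ⟨S, hS⟩ : ∃ S, S = Nat.sqrt J := ⟨_, rfl⟩
  have hS1 : S * S ≤ J := by rw [hS]; exact Nat.sqrt_le J
  have hS2 : J < (S + 1) * (S + 1) := by rw [hS]; exact Nat.lt_succ_sqrt J
  have hSs : (S : ℝ) ≤ s := by
    have h1 : ((S : ℝ)) ^ 2 ≤ s ^ 2 := by
      rw [← hJs, pow_two]
      exact_mod_cast hS1
    exact abs_le_of_sq_le_sq' h1 hs0.le |>.2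
  have hsS : s ≤ S + 1 := by
    have h1 : s ^ 2 ≤ ((S : ℝ) + 1) ^ 2 := by
      rw [← hJs, pow_two]
      exact_mod_cast hS2.le
    exact abs_le_of_sq_le_sq' h1 (by positivity) |>.2
  have hS3 : 1000000 ≤ S := by
    have : (1000000 : ℝ) ≤ S := by linarith
    exact_mod_cast this
  obtain ⟨m, hm⟩ : ∃ m, m = Nat.log 64 S := ⟨_, rfl⟩
  obtain ⟨M, hM⟩ : ∃ M, M = 64 ^ m := ⟨_, rfl⟩
  have hMS : M ≤ S := by rw [hM, hm]; exact Nat.pow_log_le_self 64 (by omega)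
  have hSM : S < 64 * M := by
    have h1 : S < 64 ^ (m + 1) := by rw [hm]; exact Nat.lt_pow_succ_log_self (by norm_num) S
    rw [pow_succ, ← hM] at h1
    omega
  have hmM : m < M := by rw [hM]; exact Nat.lt_pow_self (by norm_num)
  obtain ⟨g, hg⟩ : ∃ g, g = gm m := ⟨_, rfl⟩
  have hgM : 63 * g + 1 = M := by rw [hg, hM]; exact gm_eq m
  have hM1 : 10000 ≤ M := by omega
  have hMr : (M : ℝ) ≤ s := le_trans (by exact_mod_cast hMS) hSs
  have hsMr : s ≤ 64 * M := by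
    have : (S : ℝ) + 1 ≤ 64 * M := by exact_mod_cast hSM
    linarith
  -- W, κ, η
  obtain ⟨n, hn⟩ : ∃ n, n = 3 * J / 5 := ⟨_, rfl⟩
  have hn5 : 5 * n ≤ 3 * J := by omega
  have hn5' : 3 * J ≤ 5 * n + 5 := by omega
  have hnr : (5 : ℝ) * n ≤ 3 * s ^ 2 := by rw [← hJs]; exact_mod_cast hn5
  have hnr' : 3 * s ^ 2 ≤ (5 : ℝ) * n + 5 := by rw [← hJs]; exact_mod_cast hn5'
  obtain ⟨D, hD⟩ : ∃ D, D = 128 * M - 124 := ⟨_, rfl⟩
  have hDr : (D : ℝ) = 128 * M - 124 := by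
    rw [hD, Nat.cast_sub (by omega)]
    push_cast
    ring
  obtain ⟨R, hR⟩ : ∃ R, R = 320 * g + 279 * (2 * n) + 31 * m + 62 * B := ⟨_, rfl⟩
  obtain ⟨κ, hκ⟩ : ∃ κ, κ = R / D + 1 := ⟨_, rfl⟩
  have hk1 : R < D * κ := by rw [hκ]; exact Nat.lt_mul_div_succ R (by omega)
  have hk2 : D * κ ≤ R + D := by
    rw [hκ, Nat.mul_add, Nat.mul_one]
    have := Nat.mul_div_le R D
    omega
  have hMpos : (10000 : ℝ) ≤ M := by exact_mod_cast hM1
  have hgr : (63 : ℝ) * g ≤ M := by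
    have : 63 * g ≤ M := by omega
    exact_mod_cast this
  have hmr : (m : ℝ) ≤ M := by exact_mod_cast hmM.le
  have hRe : (R : ℝ) = 320 * g + 279 * (2 * n) + 31 * m + 62 * B := by rw [hR]; push_cast; ring
  have hRr : (R : ℝ) ≤ 340 * s ^ 2 := by
    rw [hRe]
    exact r1 hs13 hMr hgr hmr hBs hnr
  have hκr : (κ : ℝ) ≤ 240 * s :=
    r2 hs13 hDr hMr hsMr hMpos hRr (by exact_mod_cast hk2)
  have hRn : 279 * (2 * (n : ℝ)) ≤ R := by
    rw [hRe]
    have g0 : (0 : ℝ) ≤ g := Nat.cast_nonneg g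
    have m0 : (0 : ℝ) ≤ m := Nat.cast_nonneg m
    have B0 : (0 : ℝ) ≤ B := Nat.cast_nonneg B
    linarith
  have hκlow : s ≤ κ :=
    r3 hs13 hDr hMr hnr' hRn (by exact_mod_cast hk1) (Nat.cast_nonneg _)
  obtain ⟨hq1, hq2⟩ := r4 hs13 hBs hnr'
  have hB6 : 6 * B ≤ 2 * κ := by
    have : (6 : ℝ) * B ≤ 2 * κ := by linarith
    exact_mod_cast this
  have hB20 : 20 * B ≤ 2 * n := by exact_mod_cast hq1
  have hn1 : 1 ≤ n := by exact_mod_cast hq2
  have hn2 : 2 ≤ 2 * n := by omega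
  have hq3 := r6 hs13 hδ (Nat.cast_nonneg B) hsδ hMr hB1
  have hℓr : (((62 * B + 128 * M + 128 * M * B + 3 : ℕ)) : ℝ) ≤ δ * J := by
    push_cast
    rw [hJs]
    exact hq3
  have hℓ9 : 62 * B + 128 * M + 128 * M * B + 3 ≤ 9 * (2 * n) := by
    have h1 : (((62 * B + 128 * M + 128 * M * B + 3 : ℕ)) : ℝ) ≤ ((9 * (2 * n) : ℕ) : ℝ) := by
      refine hℓr.trans ?_
      push_cast
      rw [hJs]
      exact r7 hs13 hδ1 hnr'
    exact_mod_cast h1
  have hhit : ∀ (t : Fin 9 → Fin B) (p : (Fin J → A3) × (Fin J → A3)),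
      p ∈ PP J (U9 (2 * n) (2 * κ) t) → Hit (δ * J) (npr p) := by
    intro t p hp
    apply npr_hit (m := m) (M := M) (κ := κ) hn2 hM rfl hB6 hB20 _ _ _ (by omega) hℓ9 hℓr hp
    · have : 1 ≤ κ := by rw [hκ]; exact Nat.le_add_left 1 _
      omega
    · rw [← hD, ← hg]; rw [hR] at hk1; exact hk1
    · rw [← hD, ← hg]; rw [hR] at hk2; exact hk2
  have hpar : ∀ (t : Fin 9 → Fin B) (d : Fin 10), d ≠ 0 → U9 (2 * n) (2 * κ) t d % 2 = 0 := by
    intro t d hd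
    have b0 := (t 0).isLt
    have b1 := (t 1).isLt
    have b2 := (t 2).isLt
    have b3 := (t 3).isLt
    have b4 := (t 4).isLt
    have b5 := (t 5).isLt
    have b6 := (t 6).isLt
    have b7 := (t 7).isLt
    have b8 := (t 8).isLt
    rw [U9, T9, count_TG]
    have hv1 : 1 ≤ d.val := by
      have : d.val ≠ 0 := fun h0 => hd (Fin.ext h0)
      omega
    have hv9 : d.val ≤ 9 := by have := d.isLt; omega
    generalize d.val = v at hv1 hv9 ⊢
    interval_cases v <;> norm_num <;> omega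
  have hU : ∀ (t : Fin 9 → Fin B) (d : Fin 10), d ≠ 0 →
      |10 * (U9 (2 * n) (2 * κ) t d : ℝ) - 12 * J| ≤ 200000 * s := by
    intro t d hd
    have b0 := (t 0).isLt
    have b1 := (t 1).isLt
    have b2 := (t 2).isLt
    have b3 := (t 3).isLt
    have b4 := (t 4).isLt
    have b5 := (t 5).isLt
    have b6 := (t 6).isLt
    have b7 := (t 7).isLt
    have b8 := (t 8).isLt
    have hval : 2 * n ≤ U9 (2 * n) (2 * κ) t d + 2 + 20 * B ∧
        U9 (2 * n) (2 * κ) t d ≤ 2 * n + 2 * κ + 10 * B := by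
      rw [U9, T9, count_TG]
      have hv1 : 1 ≤ d.val := by
        have : d.val ≠ 0 := fun h0 => hd (Fin.ext h0)
        omega
      have hv9 : d.val ≤ 9 := by have := d.isLt; omega
      generalize d.val = v at hv1 hv9 ⊢
      interval_cases v <;> norm_num <;> omega
    obtain ⟨h1, h2⟩ := hval
    have h1' : 2 * (n : ℝ) ≤ (U9 (2 * n) (2 * κ) t d : ℝ) + 2 + 20 * B := by exact_mod_cast h1
    have h2' : (U9 (2 * n) (2 * κ) t d : ℝ) ≤ 2 * n + 2 * κ + 10 * B := by exact_mod_cast h2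
    rw [abs_le, hJs]
    constructor <;> linarith
  have h7 : ∀ t : Fin 9 → Fin B, ((1000000 : ℝ) ^ J) ^ 2 ≤ C * s ^ 9 *
      ((PP J (U9 (2 * n) (2 * κ) t)).card : ℝ) := by
    intro t
    rw [hC]
    exact pairs hJs (c := 200000) (by norm_num) (le_trans (by norm_num) hs13) (hpar t) (hU t)
  have h8 : (B : ℝ) ^ 9 * ((1000000 : ℝ) ^ J) ^ 2 ≤ C * s ^ 9 * ((HS (δ * J) N).ncard : ℝ) := by
    calc (B : ℝ) ^ 9 * ((1000000 : ℝ) ^ J) ^ 2 =
          ∑ t : Fin 9 → Fin B, ((1000000 : ℝ) ^ J) ^ 2 := by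
            rw [Finset.sum_const, Finset.card_univ, Fintype.card_fun, Fintype.card_fin,
              Fintype.card_fin, nsmul_eq_mul]
            push_cast
            ring
      _ ≤ ∑ t : Fin 9 → Fin B, C * s ^ 9 * ((PP J (U9 (2 * n) (2 * κ) t)).card : ℝ) :=
          Finset.sum_le_sum (fun t _ => h7 t)
      _ = C * s ^ 9 * ((∑ t : Fin 9 → Fin B, (PP J (U9 (2 * n) (2 * κ) t)).card : ℕ) : ℝ) := by
          rw [← Finset.mul_sum]
          push_cast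
          rfl
      _ ≤ C * s ^ 9 * ((HS (δ * J) N).ncard : ℝ) := by
          apply mul_le_mul_of_nonneg_left _ (by positivity)
          exact_mod_cast hs_sum hn2 hB6 hB20 hhit hN
  have e : (10 : ℝ) ^ (12 * J) = ((1000000 : ℝ) ^ J) ^ 2 := by
    rw [← pow_mul, mul_comm J 2, pow_mul (1000000 : ℝ) 2 J, pow_mul (10 : ℝ) 12 J]
    norm_num
  rw [e]
  have h9 : (δ * s / 600) ^ 9 ≤ (B : ℝ) ^ 9 := pow_le_pow_left₀ (by positivity) hB2 9
  have h10 : s ^ 9 * ((δ / 600) ^ 9 * ((1000000 : ℝ) ^ J) ^ 2) ≤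
      s ^ 9 * (C * ((HS (δ * J) N).ncard : ℝ)) := by
    calc s ^ 9 * ((δ / 600) ^ 9 * ((1000000 : ℝ) ^ J) ^ 2) =
          (δ * s / 600) ^ 9 * ((1000000 : ℝ) ^ J) ^ 2 := by ring
      _ ≤ (B : ℝ) ^ 9 * ((1000000 : ℝ) ^ J) ^ 2 := mul_le_mul_of_nonneg_right h9 (by positivity)
      _ ≤ C * s ^ 9 * ((HS (δ * J) N).ncard : ℝ) := h8
      _ = s ^ 9 * (C * ((HS (δ * J) N).ncard : ℝ)) := by ring
  have h11 := le_of_mul_le_mul_left h10 (by positivity)
  rw [div_mul_eq_mul_div, div_le_iff₀ hC0]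
  linarith

/-- a positive proportion of the numbers up to `N` reaches `1^j 2^3` with `j ≤ δ log N` -/
theorem positive {δ : ℝ} (hδ : 0 < δ) : ∃ c : ℝ, 0 < c ∧ ∃ N0 : ℕ, ∀ N : ℕ, N0 ≤ N →
    c * N ≤ ((HS (δ * Real.log N) N).ncard : ℝ) := by
  obtain ⟨c, hc, J0, h0⟩ := pos_count (δ := min δ 1) (lt_min hδ one_pos) (min_le_right _ _)
  refine ⟨c / 10 ^ 20, by positivity, 10 ^ (12 * (J0 + 1) + 20), fun N hN => ?_⟩
  have hN0 : N ≠ 0 := by
    have : 1 ≤ 10 ^ (12 * (J0 + 1) + 20) := Nat.one_le_pow _ _ (by norm_num)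
    omega
  obtain ⟨L, hL⟩ : ∃ L, L = Nat.log 10 N := ⟨_, rfl⟩
  have hL1 : 10 ^ L ≤ N := by rw [hL]; exact Nat.pow_log_le_self 10 hN0
  have hL2 : N < 10 ^ (L + 1) := by rw [hL]; exact Nat.lt_pow_succ_log_self (by norm_num) N
  have hL3 : 12 * (J0 + 1) + 20 ≤ L := by
    have h := lt_of_le_of_lt hN hL2
    have := (Nat.pow_lt_pow_iff_right (a := 10) (by norm_num)).mp h
    omega
  obtain ⟨J, hJ⟩ : ∃ J, J = (L - 8) / 12 := ⟨_, rfl⟩
  have hJ1 : J0 + 1 ≤ J := by omega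
  have hJ2 : 12 * J + 8 ≤ L := by omega
  have hJ3 : L + 1 ≤ 12 * J + 20 := by omega
  have h1 := h0 J (by omega) N ((Nat.pow_le_pow_right (by norm_num) hJ2).trans hL1)
  have h2 : (N : ℝ) ≤ 10 ^ 20 * 10 ^ (12 * J) := by
    rw [← pow_add]
    have : N ≤ 10 ^ (20 + 12 * J) := hL2.le.trans (Nat.pow_le_pow_right (by norm_num) (by omega))
    exact_mod_cast this
  have hJlog : (J : ℝ) ≤ Real.log N := by
    have h3 : (10 : ℝ) ^ J ≤ N := by
      have : 10 ^ J ≤ N := (Nat.pow_le_pow_right (by norm_num) (by omega)).trans hL1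
      exact_mod_cast this
    have h4 := Real.log_le_log (by positivity) h3
    rw [Real.log_pow] at h4
    have h5 : 1 ≤ Real.log 10 := by
      rw [Real.le_log_iff_exp_le (by norm_num)]
      have := Real.exp_one_lt_d9
      linarith
    have h6 : (J : ℝ) * 1 ≤ J * Real.log 10 := mul_le_mul_of_nonneg_left h5 (Nat.cast_nonneg J)
    linarith
  have hsub : HS (min δ 1 * J) N ⊆ HS (δ * Real.log N) N := by
    intro n hn
    obtain ⟨h3, h4, k, j, h5, h6⟩ := hn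
    refine ⟨h3, h4, k, j, h5.trans ?_, h6⟩
    apply mul_le_mul (min_le_left _ _) hJlog (Nat.cast_nonneg _) hδ.le
  have h3 : ((HS (min δ 1 * J) N).ncard : ℝ) ≤ ((HS (δ * Real.log N) N).ncard : ℝ) := by
    exact_mod_cast Set.ncard_le_ncard hsub (HS_fin _ N)
  calc c / 10 ^ 20 * (N : ℝ) ≤ c / 10 ^ 20 * (10 ^ 20 * 10 ^ (12 * J)) :=
        mul_le_mul_of_nonneg_left h2 (by positivity)
    _ = c * (10 : ℝ) ^ (12 * J) := by
        field_simp
    _ ≤ _ := h1.trans h3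

end Pool.RAT
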