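import Pool.Agent.H42.RAT2.Typ

/-!
# RATS (MP_a315fd): the third term of a typical number in terms of the digit counts
-/

set_option autoImplicit false

namespace Pool.RAT

open List

theorem count_range (a : ℕ) (l : List ℕ) :
    l.count a = ((Finset.range l.length).filter (fun i => l.getD i 0 = a)).card := by
  induction l using List.reverseRecOn with
  | nil => simp
  | append_singleton l b ih =>
    have e : (Finset.range (l ++ [b]).length) = insert l.length (Finset.range l.length) := by
      rw [length_append, length_singleton, Finset.range_add_one]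
    rw [count_append, ih, e, Finset.filter_insert]
    have e2 : (l ++ [b]).getD l.length 0 = b := by simp
    have e3 : (Finset.range l.length).filter (fun i => (l ++ [b]).getD i 0 = a) =
        (Finset.range l.length).filter (fun i => l.getD i 0 = a) := by
      apply Finset.filter_congr
      intro i hi
      rw [List.getD_append _ _ _ _ (Finset.mem_range.mp hi)]
    rw [e2, e3]
    by_cases h : b = a
    · subst h
      rw [if_pos rfl, Finset.card_insert_of_notMem (by simp), count_singleton_self]
    · rw [if_neg h, count_singleton]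
      simp [h]

/-- number of digits at least `v` -/
def Gv (t : ℕ → ℕ) (v : ℕ) : ℕ := (RL t).countP (fun d => decide (v ≤ d))
/-- number of digits at most `v` -/
def Lv (t : ℕ → ℕ) (v : ℕ) : ℕ := (RL t).reverse.countP (fun d => decide (d ≤ v))

theorem sep_GL {t : ℕ → ℕ} {K η : ℕ} (h1 : ∀ d, 1 ≤ d → d ≤ 9 → K ≤ 10 * t d + η)
    (h2 : ∀ d, 1 ≤ d → d ≤ 9 → 10 * t d ≤ K + η) (hη : 15 * η < K) {v v' : ℕ} (hv : 2 ≤ v)
    (hvv : v < v') (hv' : v' ≤ 9) : Gv t v' ≤ Lv t (10 - v) ∧ Lv t (10 - v') ≤ Gv t v := by
  have u1 := h1 1 (by norm_num) (by norm_num)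
  have u2 := h1 2 (by norm_num) (by norm_num)
  have u3 := h1 3 (by norm_num) (by norm_num)
  have u4 := h1 4 (by norm_num) (by norm_num)
  have u5 := h1 5 (by norm_num) (by norm_num)
  have u6 := h1 6 (by norm_num) (by norm_num)
  have u7 := h1 7 (by norm_num) (by norm_num)
  have u8 := h1 8 (by norm_num) (by norm_num)
  have u9 := h1 9 (by norm_num) (by norm_num)
  have v1 := h2 1 (by norm_num) (by norm_num)
  have v2 := h2 2 (by norm_num) (by norm_num)
  have v3 := h2 3 (by norm_num) (by norm_num)
  have v4 := h2 4 (by norm_num) (by norm_num)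
  have v5 := h2 5 (by norm_num) (by norm_num)
  have v6 := h2 6 (by norm_num) (by norm_num)
  have v7 := h2 7 (by norm_num) (by norm_num)
  have v8 := h2 8 (by norm_num) (by norm_num)
  have v9 := h2 9 (by norm_num) (by norm_num)
  rw [Gv, Gv, Lv, Lv, rl_ge, rl_ge, rl_le, rl_le]
  clear h1 h2
  generalize t 1 = t1 at *
  generalize t 2 = t2 at *
  generalize t 3 = t3 at *
  generalize t 4 = t4 at *
  generalize t 5 = t5 at *
  generalize t 6 = t6 at *
  generalize t 7 = t7 at *
  generalize t 8 = t8 at *
  generalize t 9 = t9 at *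
  have hv8 : v ≤ 8 := by omega
  interval_cases v <;> interval_cases v' <;> norm_num <;> omega

theorem sum29 (f : ℕ → ℕ) : ∑ v ∈ Finset.Icc 2 9, f v =
    f 2 + f 3 + f 4 + f 5 + f 6 + f 7 + f 8 + f 9 := by
  have e : Finset.Icc 2 9 = Finset.Ico 2 10 := by decide
  rw [e, Finset.sum_Ico_eq_sum_range]
  simp only [Nat.reduceSub, Finset.sum_range_succ, Finset.sum_range_zero]
  norm_num

theorem getD_cs (T : List ℕ) {i : ℕ} (hi : i < T.length) :
    (cs T).getD i 0 = T[i] + T.reverse[i]'(by rw [length_reverse]; exact hi) := by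
  rw [cs, List.getD_eq_getElem _ _ (by rw [length_zipWith, length_reverse, min_self]; exact hi),
    getElem_zipWith]

theorem cs_count {t : ℕ → ℕ} {K η : ℕ} (h1 : ∀ d, 1 ≤ d → d ≤ 9 → K ≤ 10 * t d + η)
    (h2 : ∀ d, 1 ≤ d → d ≤ 9 → 10 * t d ≤ K + η) (hη : 15 * η < K) :
    (cs (RL t)).count 11 = ∑ v ∈ Finset.Icc 2 9, (Gv t v - Lv t (10 - v)) ∧
    (cs (RL t)).count 9 = ∑ v ∈ Finset.Icc 2 9, (Lv t (10 - v) - Gv t v) := by
  obtain ⟨T, hT⟩ : ∃ T, T = RL t := ⟨_, rfl⟩
  have hst : St T := by rw [hT]; exact st_RL t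
  have hp := hst.1
  have hp' : T.reverse.Pairwise (· ≤ ·) := by
    rw [pairwise_reverse]
    exact hp
  have hlen : (cs T).length = T.length := by rw [cs, length_zipWith, length_reverse, min_self]
  have hall : ∀ a ∈ cs T, 9 ≤ a ∧ a ≤ 11 := by rw [hT]; exact rl_cs h1 h2 hη
  have hsum : ∀ i (hi : i < T.length), 9 ≤ T[i] + T.reverse[i]'(by rw [length_reverse]; exact hi) ∧
      T[i] + T.reverse[i]'(by rw [length_reverse]; exact hi) ≤ 11 := by
    intro i hi
    apply hall
    rw [← getD_cs T hi, List.getD_eq_getElem _ _ (by rw [hlen]; exact hi)]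
    exact getElem_mem _
  have hG : ∀ v, Gv t v = T.countP (fun d => decide (v ≤ d)) := fun v => by rw [Gv, hT]
  have hL : ∀ v, Lv t v = T.reverse.countP (fun d => decide (d ≤ v)) := fun v => by rw [Lv, hT]
  have hdig : ∀ i (hi : i < T.length), 1 ≤ T[i] ∧ T[i] ≤ 9 :=
    fun i hi => hst.2 _ (getElem_mem _)
  have hdig' : ∀ i (hi : i < T.reverse.length), 1 ≤ T.reverse[i] ∧ T.reverse[i] ≤ 9 :=
    fun i hi => hst.2 _ (mem_reverse.mp (getElem_mem _))
  rw [← hT]
  constructor
  · rw [count_range, hlen]
    have hset : (Finset.range T.length).filter (fun i => (cs T).getD i 0 = 11) =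
        (Finset.Icc 2 9).biUnion (fun v => Finset.Ico (Lv t (10 - v)) (Gv t v)) := by
      ext i
      rw [Finset.mem_filter, Finset.mem_range, Finset.mem_biUnion]
      constructor
      · rintro ⟨hi, h11⟩
        rw [getD_cs T hi] at h11
        have hi' : i < T.reverse.length := by rw [length_reverse]; exact hi
        have d1 := hdig i hi
        have d2 := hdig' i hi'
        refine ⟨T[i], Finset.mem_Icc.mpr ⟨by omega, by omega⟩, Finset.mem_Ico.mpr ⟨?_, ?_⟩⟩
        · rw [hL]
          by_contra hcon
          have := (idx_le hp' (10 - T[i]) i hi').mpr (by omega)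
          omega
        · rw [hG]
          exact (idx_ge hp T[i] i hi).mp (le_refl _)
      · rintro ⟨v, hv, hiv⟩
        rw [Finset.mem_Icc] at hv
        rw [Finset.mem_Ico, hL, hG] at hiv
        have hi : i < T.length := lt_of_lt_of_le hiv.2 List.countP_le_length
        have hi' : i < T.reverse.length := by rw [length_reverse]; exact hi
        refine ⟨hi, ?_⟩
        rw [getD_cs T hi]
        have a1 := (idx_ge hp v i hi).mpr hiv.2
        have a2 : ¬ T.reverse[i] ≤ 10 - v := fun h => by
          have := (idx_le hp' (10 - v) i hi').mp h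
          omega
        have a3 := hsum i hi
        omega
    rw [hset, Finset.card_biUnion]
    · apply Finset.sum_congr rfl
      intro v _
      rw [Nat.card_Ico]
    · intro v hv v' hv' hne
      rw [Finset.coe_Icc, Set.mem_Icc] at hv hv'
      rw [Function.onFun, Finset.disjoint_left]
      intro i hi hi'
      rw [Finset.mem_Ico] at hi hi'
      rcases lt_or_gt_of_ne hne with h | h
      · have := (sep_GL h1 h2 hη hv.1 h hv'.2).1
        omega
      · have := (sep_GL h1 h2 hη hv'.1 h hv.2).1
        omega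
  · rw [count_range, hlen]
    have hset : (Finset.range T.length).filter (fun i => (cs T).getD i 0 = 9) =
        (Finset.Icc 2 9).biUnion (fun v => Finset.Ico (Gv t v) (Lv t (10 - v))) := by
      ext i
      rw [Finset.mem_filter, Finset.mem_range, Finset.mem_biUnion]
      constructor
      · rintro ⟨hi, h11⟩
        rw [getD_cs T hi] at h11
        have hi' : i < T.reverse.length := by rw [length_reverse]; exact hi
        have d1 := hdig i hi
        have d2 := hdig' i hi'
        refine ⟨T[i] + 1, Finset.mem_Icc.mpr ⟨by omega, by omega⟩, Finset.mem_Ico.mpr ⟨?_, ?_⟩⟩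
        · rw [hG]
          by_contra hcon
          have := (idx_ge hp (T[i] + 1) i hi).mpr (by omega)
          omega
        · rw [hL]
          exact (idx_le hp' (10 - (T[i] + 1)) i hi').mp (by omega)
      · rintro ⟨v, hv, hiv⟩
        rw [Finset.mem_Icc] at hv
        rw [Finset.mem_Ico, hL, hG] at hiv
        have hi' : i < T.reverse.length := lt_of_lt_of_le hiv.2 List.countP_le_length
        have hi : i < T.length := by rw [length_reverse] at hi'; exact hi'
        refine ⟨hi, ?_⟩
        rw [getD_cs T hi]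
        have a1 := (idx_le hp' (10 - v) i hi').mpr hiv.2
        have a2 : ¬ v ≤ T[i] := fun h => by
          have := (idx_ge hp v i hi).mp h
          omega
        have a3 := hsum i hi
        omega
    rw [hset, Finset.card_biUnion]
    · apply Finset.sum_congr rfl
      intro v _
      rw [Nat.card_Ico]
    · intro v hv v' hv' hne
      rw [Finset.coe_Icc, Set.mem_Icc] at hv hv'
      rw [Function.onFun, Finset.disjoint_left]
      intro i hi hi'
      rw [Finset.mem_Ico] at hi hi'
      rcases lt_or_gt_of_ne hne with h | h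
      · have := (sep_GL h1 h2 hη hv.1 h hv'.2).2
        omega
      · have := (sep_GL h1 h2 hη hv'.1 h hv.2).2
        omega

theorem count3 {l : List ℕ} (h : ∀ a ∈ l, 9 ≤ a ∧ a ≤ 11) :
    l.count 9 + l.count 10 + l.count 11 = l.length := by
  induction l with
  | nil => rfl
  | cons a l ih =>
    have ha := h a mem_cons_self
    have := ih (fun x hx => h x (mem_cons_of_mem _ hx))
    rw [count_cons, count_cons, count_cons, length_cons]
    simp only [beq_iff_eq]
    split_ifs <;> omega

/-- digits `2` of the third term -/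
def Yt (t : ℕ → ℕ) : ℕ := 2 * ((t 9 - t 1) + (t 9 + t 8 - (t 1 + t 2)) +
  (t 9 + t 8 + t 7 - (t 1 + t 2 + t 3)) + (t 9 + t 8 + t 7 + t 6 - (t 1 + t 2 + t 3 + t 4)))

/-- digits lost -/
def Zt (t : ℕ → ℕ) : ℕ := 2 * ((t 1 - t 9) + (t 1 + t 2 - (t 9 + t 8)) +
  (t 1 + t 2 + t 3 - (t 9 + t 8 + t 7)) + (t 1 + t 2 + t 3 + t 4 - (t 9 + t 8 + t 7 + t 6)))

theorem rats_RL_form {t : ℕ → ℕ} {K η : ℕ} (h1 : ∀ d, 1 ≤ d → d ≤ 9 → K ≤ 10 * t d + η)
    (h2 : ∀ d, 1 ≤ d → d ≤ 9 → 10 * t d ≤ K + η) (hη : 15 * η < K) :
    ∃ X, rats (Nat.ofDigits 10 (RL t)) = Nat.ofDigits 10 (tw 2 1 (Yt t) X) ∧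
      X + Yt t + Zt t = t 1 + t 2 + t 3 + t 4 + t 5 + t 6 + t 7 + t 8 + t 9 := by
  have h9 := h1 9 (by norm_num) (by norm_num)
  have h1' := h1 1 (by norm_num) (by norm_num)
  obtain ⟨c11, c9⟩ := cs_count h1 h2 hη
  have hall := rl_cs h1 h2 hη
  have c3 := count3 hall
  have hlenT : (RL t).length = t 1 + t 2 + t 3 + t 4 + t 5 + t 6 + t 7 + t 8 + t 9 := by
    simp only [RL, length_append, length_replicate]
    ring
  have hlen : (cs (RL t)).length = (RL t).length := by
    rw [cs, length_zipWith, length_reverse, min_self]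
  have hY : (cs (RL t)).count 11 = Yt t := by
    rw [c11, sum29, Yt]
    simp only [Gv, Lv, rl_ge, rl_le]
    norm_num
    omega
  have hZ : (cs (RL t)).count 9 = Zt t := by
    rw [c9, sum29, Zt]
    simp only [Gv, Lv, rl_ge, rl_le]
    norm_num
    omega
  obtain ⟨m9, hm9⟩ : ∃ m, t 9 = m + 1 := ⟨t 9 - 1, by omega⟩
  obtain ⟨m1, hm1⟩ : ∃ m, t 1 = m + 1 := ⟨t 1 - 1, by omega⟩
  obtain ⟨M, hM⟩ : ∃ M, RL t = 9 :: (M ++ [1]) := by
    refine ⟨replicate m9 9 ++ (replicate (t 8) 8 ++ (replicate (t 7) 7 ++ (replicate (t 6) 6 ++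
      (replicate (t 5) 5 ++ (replicate (t 4) 4 ++ (replicate (t 3) 3 ++ (replicate (t 2) 2 ++
      replicate m1 1))))))), ?_⟩
    rw [RL, hm9, hm1, replicate_succ, replicate_succ' (n := m1)]
    simp only [append_assoc, cons_append]
  have hc : cs (RL t) = 10 :: (List.zipWith (· + ·) (M ++ [1]) (M.reverse ++ [9])) := by
    rw [cs, hM]
    simp only [reverse_cons, reverse_append, reverse_nil, nil_append, cons_append,
      zipWith_cons_cons]
  obtain ⟨R, hR⟩ : ∃ R, R = List.zipWith (· + ·) (M ++ [1]) (M.reverse ++ [9]) := ⟨_, rfl⟩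
  rw [← hR] at hc
  have hRall : ∀ a ∈ R, 9 ≤ a ∧ a ≤ 11 := fun a ha => hall a (by rw [hc]; exact mem_cons_of_mem _ ha)
  have k11 : R.count 11 = Yt t := by
    rw [← hY, hc, count_cons]
    simp
  have k10 : R.count 10 + 1 = (cs (RL t)).count 10 := by
    rw [hc, count_cons]
    simp
  refine ⟨(cs (RL t)).count 10, ?_, ?_⟩
  · rw [rats_F (st_RL t) hc (by norm_num) (fun d hd => (hRall d hd).1)]
    congr 1
    have km : ∀ x, 1 ≤ x → (R.map (fun d => d - 9)).count x = R.count (x + 9) := by
      intro x hx
      rw [List.count, List.countP_map, List.count]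
      apply List.countP_congr
      intro a _
      simp only [Function.comp_apply, beq_iff_eq]
      omega
    apply nz_eq' _ (st_tw (by norm_num) (by norm_num) (by norm_num) _ _)
    intro x hx
    rw [tw, count_append, count_replicate, count_replicate, count_cons, count_append,
      count_singleton, km x hx]
    simp only [beq_iff_eq]
    by_cases x1 : x = 1
    · subst x1
      have : R.count (1 + 9) = R.count 10 := rfl
      rw [this]
      norm_num
      exact k10
    · by_cases x2 : x = 2
      · subst x2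
        have : R.count (2 + 9) = R.count 11 := rfl
        rw [this, k11]
        norm_num
      · have : R.count (x + 9) = 0 := by
          rw [count_eq_zero]
          intro ha
          have := hRall _ ha
          omega
        rw [this, if_neg (by omega), if_neg (by omega), if_neg (by omega), if_neg (by omega)]
  · rw [hlen, hlenT, hY, hZ] at c3
    omega

end Pool.RAT
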