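import Pool.Agent.H42.RAT2.Mom
import Pool.Agent.H42.RAT2.Path

/-!
# RATS (MP_a315fd): typical numbers have a third term with digits 1, 2 only
-/

set_option autoImplicit false

namespace Pool.RAT

open List

theorem idx_ge : ∀ {T : List ℕ}, T.Pairwise (· ≥ ·) → ∀ (v i : ℕ) (hi : i < T.length),
    v ≤ T[i] ↔ i < T.countP (fun d => decide (v ≤ d))
  | [], _, _, _, hi => by simp at hi
  | a :: T, hT, v, i, hi => by
    rw [pairwise_cons] at hT
    by_cases h : v ≤ a
    · rw [countP_cons_of_pos (by simpa using h)]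
      cases i with
      | zero => simp [h]
      | succ i =>
        have := idx_ge hT.2 v i (by simpa using hi)
        simp only [getElem_cons_succ]
        rw [this]
        omega
    · rw [countP_cons_of_neg (by simpa using h)]
      have h0 : T.countP (fun d => decide (v ≤ d)) = 0 := by
        rw [countP_eq_zero]
        intro d hd
        have := hT.1 d hd
        simp only [decide_eq_true_eq]
        omega
      rw [h0]
      constructor
      · intro h1
        exfalso
        apply h
        refine h1.trans ?_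
        cases i with
        | zero => simp
        | succ i =>
          simp only [getElem_cons_succ]
          exact hT.1 _ (getElem_mem _)
      · intro h1
        omega

theorem idx_le : ∀ {T : List ℕ}, T.Pairwise (· ≤ ·) → ∀ (v i : ℕ) (hi : i < T.length),
    T[i] ≤ v ↔ i < T.countP (fun d => decide (d ≤ v))
  | [], _, _, _, hi => by simp at hi
  | a :: T, hT, v, i, hi => by
    rw [pairwise_cons] at hT
    by_cases h : a ≤ v
    · rw [countP_cons_of_pos (by simpa using h)]
      cases i with
      | zero => simp [h]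
      | succ i =>
        have := idx_le hT.2 v i (by simpa using hi)
        simp only [getElem_cons_succ]
        rw [this]
        omega
    · rw [countP_cons_of_neg (by simpa using h)]
      have h0 : T.countP (fun d => decide (d ≤ v)) = 0 := by
        rw [countP_eq_zero]
        intro d hd
        have := hT.1 d hd
        simp only [decide_eq_true_eq]
        omega
      rw [h0]
      constructor
      · intro h1
        exfalso
        apply h
        refine le_trans ?_ h1
        cases i with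
        | zero => simp
        | succ i =>
          simp only [getElem_cons_succ]
          exact hT.1 _ (getElem_mem _)
      · intro h1
        omega

/-- the sorted list with given digit counts -/
def RL (t : ℕ → ℕ) : List ℕ :=
  replicate (t 9) 9 ++ (replicate (t 8) 8 ++ (replicate (t 7) 7 ++ (replicate (t 6) 6 ++
  (replicate (t 5) 5 ++ (replicate (t 4) 4 ++ (replicate (t 3) 3 ++ (replicate (t 2) 2 ++
  replicate (t 1) 1)))))))

theorem st_RL (t : ℕ → ℕ) : St (RL t) := by
  rw [RL]
  constructor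
  · simp only [pairwise_append, pairwise_replicate, mem_append, mem_replicate]
    refine ⟨Or.inr (le_refl _), ⟨Or.inr (le_refl _), ⟨Or.inr (le_refl _), ⟨Or.inr (le_refl _),
      ⟨Or.inr (le_refl _), ⟨Or.inr (le_refl _), ⟨Or.inr (le_refl _), ⟨Or.inr (le_refl _),
      Or.inr (le_refl _), ?_⟩, ?_⟩, ?_⟩, ?_⟩, ?_⟩, ?_⟩, ?_⟩, ?_⟩
    all_goals
      intro x hx y hy
      omega
  · intro d hd
    simp only [mem_append, mem_replicate] at hd
    omega

theorem count_RL (t : ℕ → ℕ) {d : ℕ} (h1 : 1 ≤ d) (h9 : d ≤ 9) : (RL t).count d = t d := by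
  simp only [RL, count_append, count_replicate, beq_iff_eq]
  interval_cases d <;> norm_num

theorem nz_RL {D : List ℕ} (h : ∀ d ∈ D, d < 10) : nz D = RL (fun d => D.count d) := by
  apply nz_eq' _ (st_RL _)
  intro x hx
  by_cases h9 : x ≤ 9
  · rw [count_RL _ hx h9]
  · rw [count_eq_zero.mpr, count_eq_zero.mpr]
    · intro h3
      have := ((st_RL _).2 x h3).2
      omega
    · intro h3
      have := h x h3
      omega

theorem rl_ge (t : ℕ → ℕ) (v : ℕ) : (RL t).countP (fun d => decide (v ≤ d)) =
    (if v ≤ 9 then t 9 else 0) + (if v ≤ 8 then t 8 else 0) + (if v ≤ 7 then t 7 else 0) +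
    (if v ≤ 6 then t 6 else 0) + (if v ≤ 5 then t 5 else 0) + (if v ≤ 4 then t 4 else 0) +
    (if v ≤ 3 then t 3 else 0) + (if v ≤ 2 then t 2 else 0) + (if v ≤ 1 then t 1 else 0) := by
  simp only [RL, countP_append, countP_replicate, decide_eq_true_eq]
  omega

theorem rl_le (t : ℕ → ℕ) (v : ℕ) : (RL t).reverse.countP (fun d => decide (d ≤ v)) =
    (if 9 ≤ v then t 9 else 0) + (if 8 ≤ v then t 8 else 0) + (if 7 ≤ v then t 7 else 0) +
    (if 6 ≤ v then t 6 else 0) + (if 5 ≤ v then t 5 else 0) + (if 4 ≤ v then t 4 else 0) +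
    (if 3 ≤ v then t 3 else 0) + (if 2 ≤ v then t 2 else 0) + (if 1 ≤ v then t 1 else 0) := by
  rw [countP_reverse]
  simp only [RL, countP_append, countP_replicate, decide_eq_true_eq]
  omega

theorem rl_cs {t : ℕ → ℕ} {K η : ℕ} (h1 : ∀ d, 1 ≤ d → d ≤ 9 → K ≤ 10 * t d + η)
    (h2 : ∀ d, 1 ≤ d → d ≤ 9 → 10 * t d ≤ K + η) (hη : 15 * η < K) :
    ∀ a ∈ cs (RL t), 9 ≤ a ∧ a ≤ 11 := by
  intro a ha
  rw [cs, mem_iff_getElem] at ha
  obtain ⟨i, hi, rfl⟩ := ha
  rw [length_zipWith, length_reverse, min_self] at hi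
  have hi' : i < (RL t).reverse.length := by rw [length_reverse]; exact hi
  rw [getElem_zipWith]
  obtain ⟨x, hx⟩ : ∃ x, x = (RL t)[i] := ⟨_, rfl⟩
  obtain ⟨y, hy⟩ : ∃ y, y = (RL t).reverse[i] := ⟨_, rfl⟩
  rw [← hx, ← hy]
  have sx := (st_RL t).2 x (by rw [hx]; exact getElem_mem _)
  have sy := (st_RL t).2 y (by
    have : y ∈ (RL t).reverse := by rw [hy]; exact getElem_mem _
    exact mem_reverse.mp this)
  have hp := (st_RL t).1
  have hp' : (RL t).reverse.Pairwise (· ≤ ·) := by
    rw [pairwise_reverse]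
    exact hp
  have a1 := (idx_ge hp x i hi).mp (le_of_eq hx)
  have a2 := mt (idx_ge hp (x + 1) i hi).mpr (by rw [← hx]; omega)
  have b1 := (idx_le hp' y i hi').mp (le_of_eq hy.symm)
  have b2 := mt (idx_le hp' (y - 1) i hi').mpr (by rw [← hy]; omega)
  rw [rl_ge] at a1 a2
  rw [rl_le] at b1 b2
  have u1 := h1 1 (by norm_num) (by norm_num)
  have u2 := h1 2 (by norm_num) (by norm_num)
  have u3 := h1 3 (by norm_num) (by norm_num)
  have u4 := h1 4 (by norm_num) (by norm_num)
  have u5 := h1 5 (by norm_num) (by norm_num)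
  have u6 := h1 6 (by norm_num) (by norm_num)
  have u7 := h1 7 (by norm_num) (by norm_num)
  have u8 := h1 8 (by norm_num) (by norm_num)
  have u9 := h1 9 (by norm_num) (by norm_num)
  have v1 := h2 1 (by norm_num) (by norm_num)
  have v2 := h2 2 (by norm_num) (by norm_num)
  have v3 := h2 3 (by norm_num) (by norm_num)
  have v4 := h2 4 (by norm_num) (by norm_num)
  have v5 := h2 5 (by norm_num) (by norm_num)
  have v6 := h2 6 (by norm_num) (by norm_num)
  have v7 := h2 7 (by norm_num) (by norm_num)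
  have v8 := h2 8 (by norm_num) (by norm_num)
  have v9 := h2 9 (by norm_num) (by norm_num)
  clear hx hy hp hp' h1 h2
  obtain ⟨sx1, sx2⟩ := sx
  obtain ⟨sy1, sy2⟩ := sy
  generalize t 1 = t1 at *
  generalize t 2 = t2 at *
  generalize t 3 = t3 at *
  generalize t 4 = t4 at *
  generalize t 5 = t5 at *
  generalize t 6 = t6 at *
  generalize t 7 = t7 at *
  generalize t 8 = t8 at *
  generalize t 9 = t9 at *
  interval_cases x <;> interval_cases y <;> norm_num at a1 a2 b1 b2 ⊢ <;> omega

theorem rats_RL {t : ℕ → ℕ} {K η : ℕ} (h1 : ∀ d, 1 ≤ d → d ≤ 9 → K ≤ 10 * t d + η)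
    (h2 : ∀ d, 1 ≤ d → d ≤ 9 → 10 * t d ≤ K + η) (hη : 15 * η < K) :
    ∀ d ∈ Nat.digits 10 (rats (Nat.ofDigits 10 (RL t))), d = 1 ∨ d = 2 := by
  have h9 := h1 9 (by norm_num) (by norm_num)
  have h1' := h1 1 (by norm_num) (by norm_num)
  obtain ⟨m9, hm9⟩ : ∃ m, t 9 = m + 1 := ⟨t 9 - 1, by omega⟩
  obtain ⟨m1, hm1⟩ : ∃ m, t 1 = m + 1 := ⟨t 1 - 1, by omega⟩
  obtain ⟨M, hM⟩ : ∃ M, RL t = 9 :: (M ++ [1]) := by
    refine ⟨replicate m9 9 ++ (replicate (t 8) 8 ++ (replicate (t 7) 7 ++ (replicate (t 6) 6 ++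
      (replicate (t 5) 5 ++ (replicate (t 4) 4 ++ (replicate (t 3) 3 ++ (replicate (t 2) 2 ++
      replicate m1 1))))))), ?_⟩
    rw [RL, hm9, hm1, replicate_succ, replicate_succ' (n := m1)]
    simp only [append_assoc, cons_append]
  have hc : cs (RL t) = 10 :: (List.zipWith (· + ·) (M ++ [1]) (M.reverse ++ [9])) := by
    rw [cs, hM]
    simp only [reverse_cons, reverse_append, reverse_nil, nil_append, cons_append,
      zipWith_cons_cons]
  have hall := rl_cs h1 h2 hη
  rw [rats_F (st_RL t) hc (by norm_num) (fun d hd => (hall d (by rw [hc]; exact mem_cons_of_mem _ hd)).1)]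
  have hst : St (nz ((10 - 10) ::
      ((List.zipWith (· + ·) (M ++ [1]) (M.reverse ++ [9])).map (fun d => d - 9) ++ [1]))) := by
    apply nz_st
    intro d hd
    simp only [mem_cons, mem_append, mem_map, not_mem_nil, or_false] at hd
    rcases hd with rfl | ⟨a, ha, rfl⟩ | rfl
    · norm_num
    · have := (hall a (by rw [hc]; exact mem_cons_of_mem _ ha)).2
      omega
    · norm_num
  rw [digits_st hst]
  intro d hd
  rw [mem_nz] at hd
  obtain ⟨hd, hd0⟩ := hd
  simp only [mem_cons, mem_append, mem_map, not_mem_nil, or_false] at hd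
  rcases hd with rfl | ⟨a, ha, rfl⟩ | rfl
  · omega
  · have := (hall a (by rw [hc]; exact mem_cons_of_mem _ ha)).2
    omega
  · exact Or.inl rfl

end Pool.RAT
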