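import Pool.Agent.H42.RAT2.Mom

/-!
# RATS (MP_a315fd): an upper local bound for words
-/

set_option autoImplicit false

namespace Pool.RAT

open Finset

theorem cb_bd (n : ℕ) : (2 * n + 1) * (Nat.centralBinom n) ^ 2 ≤ 16 ^ n := by
  induction n with
  | zero => simp
  | succ n ih =>
    have h := Nat.succ_mul_centralBinom_succ n
    obtain ⟨c, hc⟩ : ∃ c, c = Nat.centralBinom n := ⟨_, rfl⟩
    obtain ⟨d, hd⟩ : ∃ d, d = Nat.centralBinom (n + 1) := ⟨_, rfl⟩
    rw [← hc] at h ih
    rw [← hd] at h ⊢
    have h1 : (n + 1) ^ 2 * ((2 * (n + 1) + 1) * d ^ 2) ≤ (n + 1) ^ 2 * 16 ^ (n + 1) := by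
      calc (n + 1) ^ 2 * ((2 * (n + 1) + 1) * d ^ 2) = (2 * (n + 1) + 1) * ((n + 1) * d) ^ 2 := by
            ring
        _ = ((2 * n + 3) * (2 * n + 1)) * 4 * ((2 * n + 1) * c ^ 2) := by rw [h]; ring
        _ ≤ (4 * (n + 1) ^ 2) * 4 * 16 ^ n := by
            apply Nat.mul_le_mul _ ih
            apply Nat.mul_le_mul_right
            nlinarith
        _ = (n + 1) ^ 2 * 16 ^ (n + 1) := by rw [pow_succ]; ring
    exact Nat.le_of_mul_le_mul_left h1 (by positivity)

theorem choose_bd (k a : ℕ) : (k.choose a) ^ 2 * (k + 1) ≤ 4 ^ k := by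
  have h0 : k.choose a ≤ k.choose (k / 2) := Nat.choose_le_middle a k
  refine le_trans (Nat.mul_le_mul_right _ (Nat.pow_le_pow_left h0 2)) ?_
  rcases Nat.even_or_odd' k with ⟨n, rfl | rfl⟩
  · have e : 2 * n / 2 = n := by omega
    rw [e]
    have := cb_bd n
    rw [Nat.centralBinom] at this
    calc ((2 * n).choose n) ^ 2 * (2 * n + 1) = (2 * n + 1) * ((2 * n).choose n) ^ 2 := by ring
      _ ≤ 16 ^ n := this
      _ = 4 ^ (2 * n) := by rw [pow_mul]; norm_num
  · have e : (2 * n + 1) / 2 = n := by omega
    rw [e]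
    have h1 := cb_bd (n + 1)
    rw [Nat.centralBinom] at h1
    have h2 : (2 * (n + 1)).choose (n + 1) = 2 * (2 * n + 1).choose n := by
      have e2 : 2 * (n + 1) = (2 * n + 1) + 1 := by ring
      rw [e2, Nat.choose_succ_succ, Nat.choose_symm_half]
      ring
    rw [h2] at h1
    have h3 : 4 * (((2 * n + 1).choose n) ^ 2 * (2 * n + 1 + 1)) ≤ 4 * 4 ^ (2 * n + 1) := by
      calc 4 * (((2 * n + 1).choose n) ^ 2 * (2 * n + 1 + 1)) ≤
            (2 * (n + 1) + 1) * (2 * (2 * n + 1).choose n) ^ 2 := by
            have : 4 * (((2 * n + 1).choose n) ^ 2 * (2 * n + 1 + 1)) +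
              4 * ((2 * n + 1).choose n) ^ 2 =
              (2 * (n + 1) + 1) * (2 * (2 * n + 1).choose n) ^ 2 := by ring
            omega
        _ ≤ 16 ^ (n + 1) := h1
        _ = 4 * 4 ^ (2 * n + 1) := by
            have : (16 : ℕ) = 4 ^ 2 := by norm_num
            rw [this, ← pow_mul, ← pow_succ']
            congr 1
    omega

theorem prod_bd (k l a b : ℕ) : ((k.choose a * l.choose b : ℕ) : ℝ) ≤
    2 ^ (k + l) * ((1 / (k + 1) + 1 / (l + 1)) / 2) := by
  have h1 : ((k.choose a : ℕ) : ℝ) ^ 2 * (k + 1) ≤ 4 ^ k := by exact_mod_cast choose_bd k a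
  have h2 : ((l.choose b : ℕ) : ℝ) ^ 2 * (l + 1) ≤ 4 ^ l := by exact_mod_cast choose_bd l b
  have hk : (0 : ℝ) < (k : ℝ) + 1 := by positivity
  have hl : (0 : ℝ) < (l : ℝ) + 1 := by positivity
  obtain ⟨x, hx⟩ : ∃ x : ℝ, x = ((k.choose a : ℕ) : ℝ) := ⟨_, rfl⟩
  obtain ⟨y, hy⟩ : ∃ y : ℝ, y = ((l.choose b : ℕ) : ℝ) := ⟨_, rfl⟩
  rw [← hx] at h1
  rw [← hy] at h2
  push_cast
  rw [← hx, ← hy]
  have hx0 : 0 ≤ x := by rw [hx]; positivity
  have hy0 : 0 ≤ y := by rw [hy]; positivity
  have h3 : x ^ 2 ≤ 4 ^ k / (k + 1) := by rw [le_div_iff₀ hk]; exact h1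
  have h4 : y ^ 2 ≤ 4 ^ l / (l + 1) := by rw [le_div_iff₀ hl]; exact h2
  have h5 : (x * y) ^ 2 ≤ (2 ^ (k + l) * ((1 / ((k : ℝ) + 1) + 1 / ((l : ℝ) + 1)) / 2)) ^ 2 := by
    have e1 : (4 : ℝ) ^ k = (2 ^ k) ^ 2 := by rw [← pow_mul, mul_comm, pow_mul]; norm_num
    have e2 : (4 : ℝ) ^ l = (2 ^ l) ^ 2 := by rw [← pow_mul, mul_comm, pow_mul]; norm_num
    obtain ⟨u, hu⟩ : ∃ u : ℝ, u = 1 / ((k : ℝ) + 1) := ⟨_, rfl⟩
    obtain ⟨v, hv⟩ : ∃ v : ℝ, v = 1 / ((l : ℝ) + 1) := ⟨_, rfl⟩
    have hu' : (4 : ℝ) ^ k / (k + 1) = (2 ^ k) ^ 2 * u := by rw [hu, e1]; ring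
    have hv' : (4 : ℝ) ^ l / (l + 1) = (2 ^ l) ^ 2 * v := by rw [hv, e2]; ring
    rw [hu'] at h3
    rw [hv'] at h4
    rw [← hu, ← hv]
    calc (x * y) ^ 2 = x ^ 2 * y ^ 2 := by ring
      _ ≤ ((2 ^ k) ^ 2 * u) * ((2 ^ l) ^ 2 * v) :=
          mul_le_mul h3 h4 (by positivity) (by rw [hu]; positivity)
      _ = (2 ^ (k + l)) ^ 2 * (u * v) := by rw [pow_add]; ring
      _ ≤ (2 ^ (k + l)) ^ 2 * ((u + v) / 2) ^ 2 := by
          apply mul_le_mul_of_nonneg_left _ (by positivity)
          nlinarith [sq_nonneg (u - v)]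
      _ = (2 ^ (k + l) * ((u + v) / 2)) ^ 2 := by ring
  exact (abs_le_of_sq_le_sq' h5 (by positivity)).2

section words

variable {A : Type} [Fintype A] [DecidableEq A]

/-- number of letters of a word in a class of two letters -/
def kc (p q : A) {J : ℕ} (w : Fin J → A) : ℕ := ∑ j, if w j = p ∨ w j = q then 1 else 0

theorem inv_sum {p q : A} (hpq : p ≠ q) (J : ℕ) :
    (2 * (J + 1) : ℝ) * ∑ w : Fin J → A, 1 / ((kc p q w : ℝ) + 1) ≤ (Fintype.card A : ℝ) ^ (J + 1) := by
  -- double counting over words of length J + 1 with a marked letter of the class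
  have h1 : ∑ u : Fin (J + 1) → A, ∑ i : Fin (J + 1),
      (if u i = p ∨ u i = q then 1 / (kc p q u : ℝ) else 0) ≤ (Fintype.card A : ℝ) ^ (J + 1) := by
    have h2 : ∀ u : Fin (J + 1) → A, ∑ i : Fin (J + 1),
        (if u i = p ∨ u i = q then 1 / (kc p q u : ℝ) else 0) ≤ 1 := by
      intro u
      have e : ∀ i : Fin (J + 1), (if u i = p ∨ u i = q then 1 / (kc p q u : ℝ) else 0) =
          (if u i = p ∨ u i = q then (1 : ℝ) else 0) * (1 / (kc p q u : ℝ)) := by
        intro i
        split_ifs <;> simp
      rw [Finset.sum_congr rfl (fun i _ => e i), ← Finset.sum_mul]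
      have e2 : (∑ i : Fin (J + 1), (if u i = p ∨ u i = q then (1 : ℝ) else 0)) = (kc p q u : ℝ) := by
        rw [kc]
        push_cast
        rfl
      rw [e2]
      by_cases h0 : (kc p q u : ℝ) = 0
      · rw [h0]; simp
      · rw [mul_one_div, div_self h0]
    calc ∑ u : Fin (J + 1) → A, ∑ i : Fin (J + 1),
        (if u i = p ∨ u i = q then 1 / (kc p q u : ℝ) else 0) ≤ ∑ u : Fin (J + 1) → A, (1 : ℝ) :=
          Finset.sum_le_sum (fun u _ => h2 u)
      _ = (Fintype.card A : ℝ) ^ (J + 1) := by
          rw [Finset.sum_const, Finset.card_univ, Fintype.card_fun, Fintype.card_fin, nsmul_eq_mul]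
          push_cast
          ring
  rw [Finset.sum_comm] at h1
  have h3 : ∀ i : Fin (J + 1), ∑ u : Fin (J + 1) → A,
      (if u i = p ∨ u i = q then 1 / (kc p q u : ℝ) else 0) =
      2 * ∑ w : Fin J → A, 1 / ((kc p q w : ℝ) + 1) := by
    intro i
    rw [← Equiv.sum_comp (Fin.insertNthEquiv (fun _ => A) i), Fintype.sum_prod_type]
    have h4 : ∀ (a : A) (w : Fin J → A),
        (if (Fin.insertNthEquiv (fun _ => A) i) (a, w) i = p ∨
          (Fin.insertNthEquiv (fun _ => A) i) (a, w) i = q then
          1 / (kc p q ((Fin.insertNthEquiv (fun _ => A) i) (a, w)) : ℝ) else 0) =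
        (if a = p ∨ a = q then (1 : ℝ) else 0) * (1 / ((kc p q w : ℝ) + 1)) := by
      intro a w
      have e1 : (Fin.insertNthEquiv (fun _ => A) i) (a, w) i = a := by
        simp [Fin.insertNthEquiv]
      have e2 : kc p q ((Fin.insertNthEquiv (fun _ => A) i) (a, w)) =
          (if a = p ∨ a = q then 1 else 0) + kc p q w := by
        rw [kc, Fin.sum_univ_succAbove _ i, e1, kc]
        congr 1
        apply Finset.sum_congr rfl
        intro j _
        simp [Fin.insertNthEquiv]
      rw [e1, e2]
      by_cases h : a = p ∨ a = q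
      · rw [if_pos h, if_pos h, if_pos h]
        push_cast
        rw [one_mul, add_comm]
      · rw [if_neg h, if_neg h]
        ring
    rw [Finset.sum_congr rfl (fun a _ => Finset.sum_congr rfl (fun w _ => h4 a w))]
    have h5 : ∀ a : A, ∑ w : Fin J → A, (if a = p ∨ a = q then (1 : ℝ) else 0) *
        (1 / ((kc p q w : ℝ) + 1)) =
        (if a = p ∨ a = q then (1 : ℝ) else 0) * ∑ w : Fin J → A, 1 / ((kc p q w : ℝ) + 1) :=
      fun a => (Finset.mul_sum _ _ _).symm
    rw [Finset.sum_congr rfl (fun a _ => h5 a), ← Finset.sum_mul]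
    congr 1
    have h6 : ∀ a : A, (if a = p ∨ a = q then (1 : ℝ) else 0) =
        (if a = p then 1 else 0) + (if a = q then 1 else 0) := by
      intro a
      by_cases h7 : a = p
      · subst h7
        rw [if_pos (Or.inl rfl), if_pos rfl, if_neg hpq]
        ring
      · by_cases h8 : a = q
        · rw [if_pos (Or.inr h8), if_neg h7, if_pos h8]
          ring
        · rw [if_neg (by tauto), if_neg h7, if_neg h8]
          ring
    rw [Finset.sum_congr rfl (fun a _ => h6 a), Finset.sum_add_distrib,
      Finset.sum_ite_eq' Finset.univ p, Finset.sum_ite_eq' Finset.univ q]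
    simp
    norm_num
  rw [Finset.sum_congr rfl (fun i _ => h3 i), Finset.sum_const, Finset.card_univ,
    Fintype.card_fin, nsmul_eq_mul] at h1
  push_cast at h1
  calc (2 * (J + 1) : ℝ) * ∑ w : Fin J → A, 1 / ((kc p q w : ℝ) + 1) =
      ((J : ℝ) + 1) * (2 * ∑ w : Fin J → A, 1 / ((kc p q w : ℝ) + 1)) := by ring
    _ ≤ _ := h1

/-- the skeleton of a word -/
def sk (p1 q1 p0 q0 : A) {J : ℕ} (w : Fin J → A) : Fin J → A :=
  fun j => if w j = q1 then p1 else if w j = q0 then p0 else w j

theorem local_ub {p1 q1 p0 q0 : A} (h1 : p1 ≠ q1) (h0 : p0 ≠ q0) (h2 : p1 ≠ p0) (h3 : p1 ≠ q0)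
    (h4 : q1 ≠ p0) (h5 : q1 ≠ q0) {J : ℕ} (E : Finset (Fin J → A))
    (hE : ∀ w ∈ E, ∀ w' ∈ E, sk p1 q1 p0 q0 w = sk p1 q1 p0 q0 w' →
      kk q1 w = kk q1 w' ∧ kk q0 w = kk q0 w') :
    2 * (J + 1) * (E.card : ℝ) ≤ (Fintype.card A : ℝ) ^ (J + 1) := by
  classical
  obtain ⟨s, hs⟩ : ∃ s : (Fin J → A) → (Fin J → A), s = sk p1 q1 p0 q0 := ⟨_, rfl⟩
  obtain ⟨g, hg⟩ : ∃ g : (Fin J → A) → ℝ, g = fun w =>
    (1 / ((kc p1 q1 w : ℝ) + 1) + 1 / ((kc p0 q0 w : ℝ) + 1)) / 2 := ⟨_, rfl⟩
  -- one class
  have key : ∀ σ : Fin J → A, ((E.filter (fun w => s w = σ)).card : ℝ) ≤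
      ∑ w ∈ (Finset.univ : Finset (Fin J → A)).filter (fun w => s w = σ), g w := by
    intro σ
    rcases (E.filter (fun w => s w = σ)).eq_empty_or_nonempty with he | ⟨w0, hw0⟩
    · rw [he, Finset.card_empty, Nat.cast_zero]
      apply Finset.sum_nonneg
      intro w _
      rw [hg]
      positivity
    · obtain ⟨hw0E, hw0s⟩ := Finset.mem_filter.mp hw0
      obtain ⟨P1, hP1⟩ : ∃ P1, P1 = (Finset.univ : Finset (Fin J)).filter (fun j => σ j = p1) := ⟨_, rfl⟩
      obtain ⟨P0, hP0⟩ : ∃ P0, P0 = (Finset.univ : Finset (Fin J)).filter (fun j => σ j = p0) := ⟨_, rfl⟩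
      have hσ1 : ∀ j, σ j ≠ q1 := by
        intro j hj
        rw [← hw0s, hs] at hj
        simp only [sk] at hj
        by_cases a1 : w0 j = q1
        · rw [if_pos a1] at hj; exact h1 hj
        · rw [if_neg a1] at hj
          by_cases a2 : w0 j = q0
          · rw [if_pos a2] at hj; exact h4 hj.symm
          · rw [if_neg a2] at hj; exact a1 hj
      have hσ0 : ∀ j, σ j ≠ q0 := by
        intro j hj
        rw [← hw0s, hs] at hj
        simp only [sk] at hj
        by_cases a1 : w0 j = q1
        · rw [if_pos a1] at hj; exact h3 hj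
        · rw [if_neg a1] at hj
          by_cases a2 : w0 j = q0
          · rw [if_pos a2] at hj; exact h0 hj
          · rw [if_neg a2] at hj; exact a2 hj
      -- class membership
      have hc1 : ∀ w, s w = σ → ∀ j, (w j = p1 ∨ w j = q1) ↔ j ∈ P1 := by
        intro w hw j
        rw [hP1, Finset.mem_filter, ← hw, hs]
        simp only [Finset.mem_univ, true_and, sk]
        constructor
        · rintro (h | h)
          · rw [h, if_neg h1, if_neg h3]
          · rw [h, if_pos rfl]
        · intro h
          by_cases a1 : w j = q1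
          · exact Or.inr a1
          · rw [if_neg a1] at h
            by_cases a2 : w j = q0
            · rw [if_pos a2] at h; exact absurd h.symm h2
            · rw [if_neg a2] at h; exact Or.inl h
      have hc0 : ∀ w, s w = σ → ∀ j, (w j = p0 ∨ w j = q0) ↔ j ∈ P0 := by
        intro w hw j
        rw [hP0, Finset.mem_filter, ← hw, hs]
        simp only [Finset.mem_univ, true_and, sk]
        constructor
        · rintro (h | h)
          · rw [h, if_neg h4.symm, if_neg h0]
          · rw [h, if_neg h5.symm, if_pos rfl]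
        · intro h
          by_cases a1 : w j = q1
          · rw [if_pos a1] at h; exact absurd h h2
          · rw [if_neg a1] at h
            by_cases a2 : w j = q0
            · exact Or.inr a2
            · rw [if_neg a2] at h; exact Or.inl h
      have hk1 : ∀ w, s w = σ → kc p1 q1 w = P1.card := by
        intro w hw
        rw [kc, ← Finset.card_filter]
        congr 1
        ext j
        rw [Finset.mem_filter, ← hc1 w hw j]
        simp
      have hk0 : ∀ w, s w = σ → kc p0 q0 w = P0.card := by
        intro w hw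
        rw [kc, ← Finset.card_filter]
        congr 1
        ext j
        rw [Finset.mem_filter, ← hc0 w hw j]
        simp
      -- upper bound for E in the class
      have hub : (E.filter (fun w => s w = σ)).card ≤
          P1.card.choose (kk q1 w0) * P0.card.choose (kk q0 w0) := by
        rw [← Finset.card_powersetCard, ← Finset.card_powersetCard, ← Finset.card_product]
        apply Finset.card_le_card_of_injOn
          (fun w => (Finset.univ.filter (fun j => w j = q1), Finset.univ.filter (fun j => w j = q0)))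
        · intro w hw
          obtain ⟨hwE, hws⟩ := Finset.mem_filter.mp hw
          obtain ⟨b1, b0⟩ := hE w hwE w0 hw0E (by rw [← hs, hws, hw0s])
          rw [Finset.mem_coe, Finset.mem_product]
          simp only [Finset.mem_powersetCard]
          have e : ∀ a : A, kk a w = (Finset.univ.filter (fun j => w j = a)).card := by
            intro a
            rw [kk, Finset.card_filter]
          refine ⟨⟨?_, ?_⟩, ⟨?_, ?_⟩⟩
          · intro j hj
            exact (hc1 w hws j).mp (Or.inr (Finset.mem_filter.mp hj).2)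
          · rw [← e, b1]
          · intro j hj
            exact (hc0 w hws j).mp (Or.inr (Finset.mem_filter.mp hj).2)
          · rw [← e, b0]
        · intro w hw w' hw' hww
          obtain ⟨hwE, hws⟩ := Finset.mem_filter.mp hw
          obtain ⟨hwE', hws'⟩ := Finset.mem_filter.mp hw'
          simp only [Prod.mk.injEq] at hww
          obtain ⟨e1, e0⟩ := hww
          funext j
          have f1 : w j = q1 ↔ w' j = q1 := by
            have := Finset.ext_iff.mp e1 j
            simpa using this
          have f0 : w j = q0 ↔ w' j = q0 := by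
            have := Finset.ext_iff.mp e0 j
            simpa using this
          have hj : sk p1 q1 p0 q0 w j = sk p1 q1 p0 q0 w' j := by
            rw [← hs, hws, hws']
          simp only [sk] at hj
          by_cases a1 : w j = q1
          · rw [a1, f1.mp a1]
          · have a1' : ¬ w' j = q1 := fun h => a1 (f1.mpr h)
            rw [if_neg a1, if_neg a1'] at hj
            by_cases a2 : w j = q0
            · rw [a2, f0.mp a2]
            · have a2' : ¬ w' j = q0 := fun h => a2 (f0.mpr h)
              rw [if_neg a2, if_neg a2'] at hj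
              exact hj
      -- lower bound for the class
      have hlb : 2 ^ (P1.card + P0.card) ≤
          ((Finset.univ : Finset (Fin J → A)).filter (fun w => s w = σ)).card := by
        rw [pow_add, ← Finset.card_powerset, ← Finset.card_powerset, ← Finset.card_product]
        apply Finset.card_le_card_of_injOn
          (fun S => fun j => if j ∈ S.1 then q1 else if j ∈ S.2 then q0 else σ j)
        · intro S hS
          rw [Finset.mem_coe, Finset.mem_product, Finset.mem_powerset, Finset.mem_powerset] at hS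
          obtain ⟨hS1, hS0⟩ := hS
          rw [Finset.mem_coe, Finset.mem_filter]
          refine ⟨Finset.mem_univ _, ?_⟩
          rw [hs]
          funext j
          simp only [sk]
          by_cases a1 : j ∈ S.1
          · have := hS1 a1
            rw [hP1, Finset.mem_filter] at this
            rw [if_pos a1, if_pos rfl, this.2]
          · rw [if_neg a1]
            by_cases a2 : j ∈ S.2
            · have := hS0 a2
              rw [hP0, Finset.mem_filter] at this
              rw [if_pos a2, if_neg h5.symm, if_pos rfl, this.2]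
            · rw [if_neg a2, if_neg (hσ1 j), if_neg (hσ0 j)]
        · intro S hS S' hS' hSS
          rw [Finset.mem_coe, Finset.mem_product, Finset.mem_powerset, Finset.mem_powerset] at hS hS'
          have hpt := fun j => congrFun hSS j
          simp only at hpt
          have g1 : ∀ j, j ∈ S.1 ↔ j ∈ S'.1 := by
            intro j
            have h := hpt j
            constructor
            · intro a
              by_contra b
              rw [if_pos a, if_neg b] at h
              by_cases c : j ∈ S'.2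
              · rw [if_pos c] at h; exact h5 h
              · rw [if_neg c] at h; exact hσ1 j h.symm
            · intro a
              by_contra b
              rw [if_neg b, if_pos a] at h
              by_cases c : j ∈ S.2
              · rw [if_pos c] at h; exact h5 h.symm
              · rw [if_neg c] at h; exact hσ1 j h
          have d1 : ∀ j, j ∈ S.2 → j ∉ S.1 := by
            intro j a b
            have u1 := hS.1 b
            have u2 := hS.2 a
            rw [hP1, Finset.mem_filter] at u1
            rw [hP0, Finset.mem_filter] at u2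
            exact h2 (u1.2.symm.trans u2.2)
          have d2 : ∀ j, j ∈ S'.2 → j ∉ S'.1 := by
            intro j a b
            have u1 := hS'.1 b
            have u2 := hS'.2 a
            rw [hP1, Finset.mem_filter] at u1
            rw [hP0, Finset.mem_filter] at u2
            exact h2 (u1.2.symm.trans u2.2)
          have g0 : ∀ j, j ∈ S.2 ↔ j ∈ S'.2 := by
            intro j
            have h := hpt j
            constructor
            · intro a
              by_contra b
              have a' := d1 j a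
              have b' : j ∉ S'.1 := fun hh => a' ((g1 j).mpr hh)
              rw [if_neg a', if_pos a, if_neg b', if_neg b] at h
              exact hσ0 j h.symm
            · intro a
              by_contra b
              have a' := d2 j a
              have b' : j ∉ S.1 := fun hh => a' ((g1 j).mp hh)
              rw [if_neg b', if_neg b, if_neg a', if_pos a] at h
              exact hσ0 j h
          exact Prod.ext (Finset.ext g1) (Finset.ext g0)
      have hgc : ∀ w ∈ (Finset.univ : Finset (Fin J → A)).filter (fun w => s w = σ),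
          g w = (1 / ((P1.card : ℝ) + 1) + 1 / ((P0.card : ℝ) + 1)) / 2 := by
        intro w hw
        have hws := (Finset.mem_filter.mp hw).2
        rw [hg]
        simp only
        rw [hk1 w hws, hk0 w hws]
      rw [Finset.sum_congr rfl hgc, Finset.sum_const, nsmul_eq_mul]
      calc ((E.filter (fun w => s w = σ)).card : ℝ) ≤
          ((P1.card.choose (kk q1 w0) * P0.card.choose (kk q0 w0) : ℕ) : ℝ) := by exact_mod_cast hub
        _ ≤ 2 ^ (P1.card + P0.card) *
            ((1 / ((P1.card : ℝ) + 1) + 1 / ((P0.card : ℝ) + 1)) / 2) := prod_bd _ _ _ _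
        _ ≤ _ := by
            apply mul_le_mul_of_nonneg_right _ (by positivity)
            exact_mod_cast hlb
  have hsum : (E.card : ℝ) ≤ ∑ w : Fin J → A, g w := by
    calc (E.card : ℝ) = ((∑ σ : Fin J → A, (E.filter (fun w => s w = σ)).card : ℕ) : ℝ) := by
          rw [← Finset.card_eq_sum_card_fiberwise (fun w _ => Finset.mem_univ (s w))]
      _ = ∑ σ : Fin J → A, ((E.filter (fun w => s w = σ)).card : ℝ) := by push_cast; rfl
      _ ≤ ∑ σ : Fin J → A, ∑ w ∈ (Finset.univ : Finset (Fin J → A)).filter (fun w => s w = σ), g w :=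
          Finset.sum_le_sum (fun σ _ => key σ)
      _ = ∑ w : Fin J → A, g w := Finset.sum_fiberwise _ _ _
  have i1 := inv_sum h1 (A := A) J
  have i0 := inv_sum h0 (A := A) J
  have e : ∑ w : Fin J → A, g w = ((∑ w : Fin J → A, 1 / ((kc p1 q1 w : ℝ) + 1)) +
      ∑ w : Fin J → A, 1 / ((kc p0 q0 w : ℝ) + 1)) / 2 := by
    rw [hg, ← Finset.sum_add_distrib, Finset.sum_div]
  rw [e] at hsum
  have hJ : (0 : ℝ) < 2 * (J + 1) := by positivity
  calc 2 * (J + 1) * (E.card : ℝ) ≤ 2 * (J + 1) *
      (((∑ w : Fin J → A, 1 / ((kc p1 q1 w : ℝ) + 1)) +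
      ∑ w : Fin J → A, 1 / ((kc p0 q0 w : ℝ) + 1)) / 2) := mul_le_mul_of_nonneg_left hsum hJ.le
    _ = (2 * (J + 1) * (∑ w : Fin J → A, 1 / ((kc p1 q1 w : ℝ) + 1)) +
        2 * (J + 1) * ∑ w : Fin J → A, 1 / ((kc p0 q0 w : ℝ) + 1)) / 2 := by ring
    _ ≤ ((Fintype.card A : ℝ) ^ (J + 1) + (Fintype.card A : ℝ) ^ (J + 1)) / 2 := by
        apply div_le_div_of_nonneg_right _ (by norm_num)
        exact add_le_add i1 i0
    _ = (Fintype.card A : ℝ) ^ (J + 1) := by ring

end words

end Pool.RAT
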