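import Pool.Agent.H42.RAT2.Mom
import Pool.Agent.H42.RAT2.Llt

/-!
# RATS (MP_a315fd): words in triples of pairs of digits
-/

set_option autoImplicit false

namespace Pool.RAT

open List

theorem ofFn_rev {α : Type} {J : ℕ} (w : Fin J → α) :
    (List.ofFn w).reverse = List.ofFn (fun i : Fin J => w i.rev) := by
  apply List.ext_getElem
  · simp
  · intro i h1 h2
    have hi : i < J := by simpa using h2
    rw [List.getElem_reverse]
    simp only [List.getElem_ofFn, List.length_ofFn]
    have e : (Fin.rev ⟨i, hi⟩ : Fin J) = ⟨J - 1 - i, by omega⟩ := by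
      apply Fin.ext
      rw [Fin.val_rev]
      simp only
      omega
    rw [e]

section exch

variable {A : Type} [Fintype A] [DecidableEq A]

/-- equal up to special letters -/
def SR (σ : Fin 10 → A) {J : ℕ} (w w' : Fin J → A) : Prop :=
  ∀ j, w j = w' j ∨ ((∃ x, w j = σ x) ∧ (∃ y, w' j = σ y))

theorem out_sp {c : ℕ} (hc : c ≤ 1) (x : Fin 10) :
    out c [0, x.val, 0] = [c, x.val, 0] ∧ co c [0, x.val, 0] = 0 := by
  have hx := x.isLt
  have e1 : (0 + c) % 10 = c := by omega
  have e2 : (0 + c) / 10 = 0 := by omega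
  have e3 : (x.val + 0) % 10 = x.val := by omega
  have e4 : (x.val + 0) / 10 = 0 := by omega
  constructor
  · simp only [out, e1, e2, e3, e4]
  · simp only [co, e2, e4]

theorem exch (z : A → List ℕ) (σ : Fin 10 → A) (hσ : ∀ x, z (σ x) = [0, x.val, 0])
    (hi : Function.Injective σ) (hz : ∀ t, ∀ a ∈ z t, a ≤ 18) {J : ℕ} :
    ∀ (w w' : Fin J → A), SR σ w w' → ∀ c ≤ 1,
      co c ((List.ofFn w).flatMap z) = co c ((List.ofFn w').flatMap z) ∧
      ∀ d : Fin 10, (out c ((List.ofFn w).flatMap z)).count d.val + kk (σ d) w' =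
        (out c ((List.ofFn w').flatMap z)).count d.val + kk (σ d) w := by
  induction J with
  | zero =>
    intro w w' _ c _
    have : w = w' := Subsingleton.elim _ _
    subst this
    exact ⟨rfl, fun d => rfl⟩
  | succ J ih =>
    intro w w' h c hc
    obtain ⟨t, v, rfl⟩ : ∃ t v, w = Fin.cons t v := ⟨w 0, Fin.tail w, (Fin.cons_self_tail w).symm⟩
    obtain ⟨t', v', rfl⟩ : ∃ t v, w' = Fin.cons t v :=
      ⟨w' 0, Fin.tail w', (Fin.cons_self_tail w').symm⟩
    have h0 := h 0
    have hs : SR σ v v' := fun j => by simpa using h j.succ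
    simp only [Fin.cons_zero] at h0
    rw [List.ofFn_cons, List.ofFn_cons, flatMap_cons, flatMap_cons, co_append, co_append]
    rcases h0 with rfl | ⟨⟨x, rfl⟩, ⟨y, rfl⟩⟩
    · obtain ⟨h1, h2⟩ := ih v v' hs (co c (z t)) (co_le hc (hz t))
      refine ⟨h1, fun d => ?_⟩
      rw [out_append, out_append, count_append, count_append, kk_cons, kk_cons]
      have := h2 d
      omega
    · obtain ⟨h1, h2⟩ := ih v v' hs 0 (by norm_num)
      rw [hσ, hσ, (out_sp hc x).2, (out_sp hc y).2]
      refine ⟨h1, fun d => ?_⟩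
      rw [out_append, out_append, (out_sp hc x).1, (out_sp hc x).2, (out_sp hc y).1,
        (out_sp hc y).2, count_append, count_append, kk_cons, kk_cons]
      have := h2 d
      have ex : (if σ x = σ d then 1 else 0) = if x = d then 1 else 0 := by
        by_cases hxd : x = d
        · rw [if_pos hxd, if_pos (by rw [hxd])]
        · rw [if_neg hxd, if_neg (fun hh => hxd (hi hh))]
      have ey : (if σ y = σ d then 1 else 0) = if y = d then 1 else 0 := by
        by_cases hxd : y = d
        · rw [if_pos hxd, if_pos (by rw [hxd])]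
        · rw [if_neg hxd, if_neg (fun hh => hxd (hi hh))]
      rw [ex, ey]
      simp only [count_cons, count_nil, beq_iff_eq, Fin.val_inj]
      omega

theorem kk_rev (a : A) {J : ℕ} (w : Fin J → A) : kk a (fun i => w i.rev) = kk a w := by
  rw [kk, kk]
  exact Equiv.sum_comp Fin.revPerm (fun j => if w j = a then 1 else 0)

theorem kk_card (a : A) {J : ℕ} (w : Fin J → A) :
    kk a w = (Finset.univ.filter (fun j => w j = a)).card := by
  rw [kk, Finset.card_filter]

open Classical in
/-- the rest of a word -/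
noncomputable def rst (σ : Fin 10 → A) {J : ℕ} (w : Fin J → A) : Fin J → Option A :=
  fun j => if ∃ x, w j = σ x then none else some (w j)

theorem rst_sr {σ : Fin 10 → A} {J : ℕ} {w w' : Fin J → A} (h : rst σ w = rst σ w') : SR σ w w' := by
  intro j
  have hj := congrFun h j
  simp only [rst] at hj
  by_cases h1 : ∃ x, w j = σ x
  · rw [if_pos h1] at hj
    by_cases h2 : ∃ x, w' j = σ x
    · exact Or.inr ⟨h1, h2⟩
    · rw [if_neg h2] at hj
      simp at hj
  · rw [if_neg h1] at hj
    by_cases h2 : ∃ x, w' j = σ x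
    · rw [if_pos h2] at hj
      simp at hj
    · rw [if_neg h2] at hj
      exact Or.inl (by simpa using hj)

/-- the special positions -/
def SP (σ : Fin 10 → A) {J : ℕ} (w : Fin J → A) : Type := {j : Fin J // ∃ x, w j = σ x}

noncomputable instance (σ : Fin 10 → A) {J : ℕ} (w : Fin J → A) : Fintype (SP σ w) := by
  classical
  unfold SP
  infer_instance

noncomputable instance (σ : Fin 10 → A) {J : ℕ} (w : Fin J → A) : DecidableEq (SP σ w) :=
  Classical.decEq _

open Classical in
/-- fill the special positions -/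
noncomputable def fill (σ : Fin 10 → A) {J : ℕ} (w : Fin J → A) (f : SP σ w → Fin 10) : Fin J → A :=
  fun j => if h : ∃ x, w j = σ x then σ (f ⟨j, h⟩) else w j

theorem fill_rst (σ : Fin 10 → A) {J : ℕ} (w : Fin J → A) (f : SP σ w → Fin 10) :
    rst σ (fill σ w f) = rst σ w := by
  funext j
  simp only [rst]
  by_cases h : ∃ x, w j = σ x
  · have h1 : ∃ x, fill σ w f j = σ x := ⟨f ⟨j, h⟩, by rw [fill, dif_pos h]⟩
    rw [if_pos h, if_pos h1]
  · have h1 : fill σ w f j = w j := by rw [fill, dif_neg h]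
    rw [h1]

theorem fill_inj {σ : Fin 10 → A} (hi : Function.Injective σ) {J : ℕ} (w : Fin J → A) :
    Function.Injective (fill σ w) := by
  intro f g hfg
  funext p
  have h := congrFun hfg p.1
  rw [fill, fill, dif_pos p.2, dif_pos p.2] at h
  exact hi h

theorem fill_kk {σ : Fin 10 → A} (hi : Function.Injective σ) {J : ℕ} (w : Fin J → A)
    (f : SP σ w → Fin 10) (i : Fin 10) :
    kk (σ i) (fill σ w f) = (Finset.univ.filter (fun p => f p = i)).card := by
  rw [kk_card]
  symm
  apply Finset.card_bij (fun p _ => p.1)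
  · intro p hp
    simp only [Finset.mem_filter, Finset.mem_univ, true_and] at hp ⊢
    rw [fill, dif_pos p.2, ← hp]
    rfl
  · intro p _ q _ h
    exact Subtype.ext h
  · intro j hj
    simp only [Finset.mem_filter, Finset.mem_univ, true_and] at hj
    by_cases h : ∃ x, w j = σ x
    · refine ⟨⟨j, h⟩, ?_, rfl⟩
      simp only [Finset.mem_filter, Finset.mem_univ, true_and]
      rw [fill, dif_pos h] at hj
      exact hi hj
    · rw [fill, dif_neg h] at hj
      exact absurd ⟨i, hj⟩ h

theorem fill_surj {σ : Fin 10 → A} {J : ℕ} (w w' : Fin J → A) (h : rst σ w' = rst σ w) :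
    ∃ f, fill σ w f = w' := by
  have hs := rst_sr h
  have hx : ∀ p : SP σ w, ∃ x, w' p.1 = σ x := by
    intro p
    rcases hs p.1 with h1 | h1
    · rw [h1]; exact p.2
    · exact h1.1
  choose f hf using hx
  refine ⟨f, ?_⟩
  funext j
  by_cases h1 : ∃ x, w j = σ x
  · rw [fill, dif_pos h1]
    exact (hf ⟨j, h1⟩).symm
  · rw [fill, dif_neg h1]
    rcases hs j with h2 | h2
    · exact h2.symm
    · exact absurd h2.2 h1

theorem card_SP {σ : Fin 10 → A} (hi : Function.Injective σ) {J : ℕ} (w : Fin J → A) :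
    Fintype.card (SP σ w) = ∑ i, kk (σ i) w := by
  obtain ⟨f, hf⟩ := fill_surj (σ := σ) w w rfl
  have h : ∀ i, kk (σ i) w = (Finset.univ.filter (fun p => f p = i)).card := by
    intro i
    conv_lhs => rw [← hf]
    exact fill_kk hi w f i
  rw [Finset.sum_congr rfl (fun i _ => h i), ← Finset.card_univ]
  exact Finset.card_eq_sum_card_fiberwise (fun p _ => Finset.mem_univ (f p))

open Classical in
theorem class_le {σ : Fin 10 → A} (hi : Function.Injective σ) {J : ℕ} (w : Fin J → A) :
    (Finset.univ.filter (fun w' : Fin J → A => rst σ w' = rst σ w)).card ≤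
      10 ^ (∑ i, kk (σ i) w) := by
  have h : (Finset.univ.filter (fun w' : Fin J → A => rst σ w' = rst σ w)) ⊆
      (Finset.univ : Finset (SP σ w → Fin 10)).image (fill σ w) := by
    intro w' hw'
    simp only [Finset.mem_filter, Finset.mem_univ, true_and] at hw'
    obtain ⟨f, hf⟩ := fill_surj w w' hw'
    exact Finset.mem_image.mpr ⟨f, Finset.mem_univ _, hf⟩
  refine (Finset.card_le_card h).trans (Finset.card_image_le.trans ?_)
  rw [Finset.card_univ, Fintype.card_fun, Fintype.card_fin, card_SP hi]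

open Classical in
theorem class_ge {σ : Fin 10 → A} (hi : Function.Injective σ) {J : ℕ} (w : Fin J → A)
    {k : Fin 10 → ℕ} {K : ℕ} (hKw : ∑ i, kk (σ i) w = K)
    (hK : ∑ i, k i = K) (h1 : ∀ i, 1 ≤ k i) {D : ℝ}
    (hD : ∑ i, (10 * (k i : ℝ) - K) ^ 2 ≤ D * K) :
    ((Finset.univ.filter (fun w' : Fin J → A => rst σ w' = rst σ w)).card : ℝ) ≤
      Real.exp (10 + D / 10) * (Real.sqrt K) ^ 9 *
      ((Finset.univ.filter (fun w' : Fin J → A => rst σ w' = rst σ w ∧
        ∀ i, kk (σ i) w' = k i)).card : ℝ) := by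
  have hc : Fintype.card (SP σ w) = K := by rw [card_SP hi, hKw]
  have h2 := llt (P := SP σ w) (k := k) (D := D) (by rw [hK, hc]) h1 (by rw [hc]; exact hD)
  rw [hc] at h2
  have h3 : ((Finset.univ.filter (fun w' : Fin J → A => rst σ w' = rst σ w)).card : ℝ) ≤
      (10 : ℝ) ^ K := by
    have := class_le hi w
    rw [hKw] at this
    exact_mod_cast this
  refine h3.trans (h2.trans (mul_le_mul_of_nonneg_left ?_ (by positivity)))
  have h4 : (SK (SP σ w) k).card ≤ (Finset.univ.filter (fun w' : Fin J → A => rst σ w' = rst σ w ∧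
        ∀ i, kk (σ i) w' = k i)).card := by
    apply Finset.card_le_card_of_injOn (fill σ w)
    · intro f hf
      have hf' := (Finset.mem_filter.mp hf).2
      simp only [Finset.coe_filter, Set.mem_setOf_eq, Finset.mem_univ, true_and]
      exact ⟨fill_rst σ w f, fun i => by rw [fill_kk hi]; exact hf' i⟩
    · exact (fill_inj hi w).injOn
  exact_mod_cast h4

end exch

/-- triples of pairs of digits -/
abbrev A3 : Type := Fin 3 → Y2

theorem card_A3 : Fintype.card A3 = 1000000 := by
  rw [card_XB]; norm_num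

/-- the special triples -/
def sg (x : Fin 10) : A3 := ![(0, 0), (x, 0), (0, 0)]

theorem sg_inj : Function.Injective sg := by
  intro x y h
  have := congrFun h 1
  simpa [sg] using this

theorem zb_sg (x : Fin 10) : zb (sg x) = [0, x.val, 0] := by
  simp [zb, sg, List.ofFn_succ]

/-- from words in triples to blocks -/
def fe (J : ℕ) : (Fin J → A3) ≃ (Fin (J * 3) → Y2) :=
  (Equiv.curry (Fin J) (Fin 3) Y2).symm.trans (finProdFinEquiv.arrowCongr (Equiv.refl Y2))

theorem fe_apply {J : ℕ} (w : Fin J → A3) (i : Fin (J * 3)) : fe J w i = w i.divNat i.modNat := rfl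

theorem zb_fe {J : ℕ} (w : Fin J → A3) : zb (fe J w) = (List.ofFn w).flatMap zb := by
  rw [zb, List.ofFn_mul, List.flatMap_def, List.map_ofFn]
  congr 1
  congr 1
  funext i
  simp only [Function.comp_apply, zb]
  congr 1
  funext j
  rw [fe_apply]
  have e1 : Fin.divNat (⟨i.val * 3 + j.val, by have := i.isLt; have := j.isLt; omega⟩ : Fin (J * 3)) = i := by
    apply Fin.ext
    simp only [Fin.divNat]
    have := j.isLt
    omega
  have e2 : Fin.modNat (⟨i.val * 3 + j.val, by have := i.isLt; have := j.isLt; omega⟩ : Fin (J * 3)) = j := by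
    apply Fin.ext
    simp only [Fin.modNat]
    have := j.isLt
    omega
  rw [e1, e2]

theorem zb_fe_rev {J : ℕ} (w : Fin J → A3) : (zb (fe J w)).reverse =
    (List.ofFn (fun i : Fin J => w i.rev)).flatMap (fun t => (zb t).reverse) := by
  rw [zb_fe, List.reverse_flatMap, ofFn_rev]
  rfl

/-- exchange of special triples -/
theorem ph_exch {J : ℕ} {w w' : Fin J → A3} (h : rst sg w = rst sg w') (d : Fin 10) :
    ph (zb (fe J w)) d.val + 2 * kk (sg d) w' = ph (zb (fe J w')) d.val + 2 * kk (sg d) w := by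
  have hs := rst_sr h
  have hs' : SR sg (fun i : Fin J => w i.rev) (fun i : Fin J => w' i.rev) := fun j => hs j.rev
  have ha := exch (zb (B := 3)) sg zb_sg sg_inj (fun t => zb_le t) w w' hs 0 (by norm_num)
  have hb := exch (fun t : A3 => (zb t).reverse) sg (fun x => by simp [zb_sg]) sg_inj
    (fun t a ha => zb_le t a (mem_reverse.mp ha)) _ _ hs' 0 (by norm_num)
  rw [← zb_fe, ← zb_fe] at ha
  have e1 : (zb (fe J w)).reverse =
    (List.ofFn (fun i : Fin J => w i.rev)).flatMap (fun t : A3 => (zb t).reverse) := zb_fe_rev w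
  have e2 : (zb (fe J w')).reverse =
    (List.ofFn (fun i : Fin J => w' i.rev)).flatMap (fun t : A3 => (zb t).reverse) := zb_fe_rev w'
  rw [← e1, ← e2] at hb
  obtain ⟨a1, a2⟩ := ha
  obtain ⟨b1, b2⟩ := hb
  have a3 := a2 d
  have b3 := b2 d
  rw [kk_rev, kk_rev] at b3
  rw [ph, ph, a1, b1]
  omega

end Pool.RAT
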