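import Pool.Agent.H42.RAT2.Ub1
import Pool.Agent.H42.RAT2.Tf
import Pool.Agent.H42.RAT2.Wrd
import Pool.Agent.H42.RAT2.Alm

/-!
# RATS (MP_a315fd): an upper local bound for the third term
-/

set_option autoImplicit false

namespace Pool.RAT

open List

/-- the digits of `n + rev n` for a word with middle part `μ` -/
def DD (μ : List ℕ) {J : ℕ} (v : Fin J → A3) : List ℕ :=
  out 0 (zb (fe J v)) ++ (out (co 0 (zb (fe J v))) (cs μ) ++
    out (co (co 0 (zb (fe J v))) (cs μ)) (zb (fe J v)).reverse) ++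
    [co (co (co 0 (zb (fe J v))) (cs μ)) (zb (fe J v)).reverse]

theorem cs18 {μ : List ℕ} (hμ : ∀ d ∈ μ, d < 10) : ∀ a ∈ cs μ, a ≤ 18 := by
  intro a ha
  obtain ⟨x, hx, y, hy, rfl⟩ := mem_cs ha
  have := hμ x hx
  have := hμ y hy
  omega

theorem DD_exch {μ : List ℕ} (hμ : ∀ d ∈ μ, d < 10) {J : ℕ} {v v' : Fin J → A3} (h : SR sg v v')
    (d : Fin 10) :
    (DD μ v).count d.val + 2 * kk (sg d) v' = (DD μ v').count d.val + 2 * kk (sg d) v := by
  have hs' : SR sg (fun i : Fin J => v i.rev) (fun i : Fin J => v' i.rev) := fun j => h j.rev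
  obtain ⟨a1, a2⟩ := exch (zb (B := 3)) sg zb_sg sg_inj (fun t => zb_le t) v v' h 0 (by norm_num)
  rw [← zb_fe, ← zb_fe] at a1
  have a3 := a2 d
  rw [← zb_fe, ← zb_fe] at a3
  obtain ⟨c1, hc1⟩ : ∃ c, c = co 0 (zb (fe J v)) := ⟨_, rfl⟩
  have l1 : c1 ≤ 1 := by rw [hc1]; exact co_le (by norm_num) (zb_le _)
  obtain ⟨c2, hc2⟩ : ∃ c, c = co c1 (cs μ) := ⟨_, rfl⟩
  have l2 : c2 ≤ 1 := by rw [hc2]; exact co_le l1 (cs18 hμ)
  obtain ⟨b1, b2⟩ := exch (fun t : A3 => (zb t).reverse) sg (fun x => by simp [zb_sg]) sg_inj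
    (fun t a ha => zb_le t a (mem_reverse.mp ha)) _ _ hs' c2 l2
  have e1 : (zb (fe J v)).reverse =
    (List.ofFn (fun i : Fin J => v i.rev)).flatMap (fun t : A3 => (zb t).reverse) := zb_fe_rev v
  have e2 : (zb (fe J v')).reverse =
    (List.ofFn (fun i : Fin J => v' i.rev)).flatMap (fun t : A3 => (zb t).reverse) := zb_fe_rev v'
  rw [← e1, ← e2] at b1
  have b3 := b2 d
  rw [← e1, ← e2, kk_rev, kk_rev] at b3
  simp only [DD]
  rw [← a1, ← hc1, ← hc2, ← b1]
  simp only [count_append]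
  omega

/-- the number of a word with middle part `μ` -/
def nw (μ : List ℕ) {J : ℕ} (v : Fin J → A3) : List ℕ :=
  ub (fe J v) ++ (μ ++ (vb (fe J v)).reverse)

theorem rats_nw {μ : List ℕ} (hμ : ∀ d ∈ μ, d < 10) {J : ℕ} (v : Fin J → A3)
    (hl : ∀ h : nw μ v ≠ [], (nw μ v).getLast h ≠ 0) :
    rats (Nat.ofDigits 10 (nw μ v)) = Nat.ofDigits 10 (RL (fun d => (DD μ v).count d)) := by
  have h10 : ∀ d ∈ nw μ v, d < 10 := by
    intro d hd
    simp only [nw, mem_append, mem_reverse] at hd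
    rcases hd with hd | hd | hd
    · exact ub_lt _ d hd
    · exact hμ d hd
    · exact vb_lt _ d hd
  have hcs : cs (nw μ v) = zb (fe J v) ++ (cs μ ++ (zb (fe J v)).reverse) := by
    have e : (nw μ v).reverse = vb (fe J v) ++ (μ.reverse ++ (ub (fe J v)).reverse) := by
      simp [nw]
    rw [cs, e, nw, zipWith_append (by simp [len_ub, len_vb]), zipWith_append (by simp), zip_uv, cs,
      ← List.reverse_zipWith (by simp [len_ub, len_vb]), zip_comm' (vb (fe J v)), zip_uv]
  rw [rats_out h10 hl, hcs, out_append, co_append, out_append, co_append, nz_RL]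
  · rfl
  · intro d hd
    simp only [mem_append, mem_singleton] at hd
    rcases hd with (hd | hd | hd) | rfl
    · exact out_lt _ _ d hd
    · exact out_lt _ _ d hd
    · exact out_lt _ _ d hd
    · have l1 : co 0 (zb (fe J v)) ≤ 1 := co_le (by norm_num) (zb_le _)
      have l2 : co (co 0 (zb (fe J v))) (cs μ) ≤ 1 := co_le l1 (cs18 hμ)
      have l3 : co (co (co 0 (zb (fe J v))) (cs μ)) (zb (fe J v)).reverse ≤ 1 :=
        co_le l2 (fun a ha => zb_le _ a (mem_reverse.mp ha))
      omega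

theorem out_len (c : ℕ) (s : List ℕ) : (out c s).length = s.length := by
  induction s generalizing c with
  | nil => rfl
  | cons a s ih => rw [out, length_cons, length_cons, ih]

theorem count10 {l : List ℕ} (h : ∀ a ∈ l, a < 10) :
    l.count 0 + l.count 1 + l.count 2 + l.count 3 + l.count 4 + l.count 5 + l.count 6 +
      l.count 7 + l.count 8 + l.count 9 = l.length := by
  induction l with
  | nil => rfl
  | cons a l ih =>
    have ha := h a mem_cons_self
    have := ih (fun x hx => h x (mem_cons_of_mem _ hx))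
    rw [length_cons]
    simp only [count_cons, beq_iff_eq]
    interval_cases a <;> norm_num <;> omega

theorem DD_len {μ : List ℕ} (hμ : ∀ d ∈ μ, d < 10) {J : ℕ} (v : Fin J → A3) :
    (DD μ v).count 0 + (DD μ v).count 1 + (DD μ v).count 2 + (DD μ v).count 3 +
      (DD μ v).count 4 + (DD μ v).count 5 + (DD μ v).count 6 +
      (DD μ v).count 7 + (DD μ v).count 8 + (DD μ v).count 9 = 6 * J + μ.length + 1 := by
  rw [count10]
  · simp only [DD, length_append, out_len, length_reverse, length_singleton]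
    have e1 : (zb (fe J v)).length = J * 3 := by simp [zb]
    have e2 : (cs μ).length = μ.length := by rw [cs, length_zipWith, length_reverse, min_self]
    rw [e1, e2]
    ring
  · intro d hd
    simp only [DD, mem_append, mem_singleton] at hd
    rcases hd with (hd | hd | hd) | rfl
    · exact out_lt _ _ d hd
    · exact out_lt _ _ d hd
    · exact out_lt _ _ d hd
    · have l1 : co 0 (zb (fe J v)) ≤ 1 := co_le (by norm_num) (zb_le _)
      have l2 : co (co 0 (zb (fe J v))) (cs μ) ≤ 1 := co_le l1 (cs18 hμ)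
      have l3 : co (co (co 0 (zb (fe J v))) (cs μ)) (zb (fe J v)).reverse ≤ 1 :=
        co_le l2 (fun a ha => zb_le _ a (mem_reverse.mp ha))
      omega

/-- relations between the letter counts of words with the same skeleton -/
theorem sk_rel {A : Type} [Fintype A] [DecidableEq A] {p1 q1 p0 q0 : A} (h1 : p1 ≠ q1)
    (h0 : p0 ≠ q0) (h2 : p1 ≠ p0) (h3 : p1 ≠ q0) (h4 : q1 ≠ p0) (h5 : q1 ≠ q0) {J : ℕ}
    {w w' : Fin J → A} (h : sk p1 q1 p0 q0 w = sk p1 q1 p0 q0 w') :
    kk p1 w + kk q1 w = kk p1 w' + kk q1 w' ∧ kk p0 w + kk q0 w = kk p0 w' + kk q0 w' ∧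
    ∀ a, a ≠ p1 → a ≠ q1 → a ≠ p0 → a ≠ q0 → kk a w = kk a w' := by
  have hp : ∀ j, (w j = p1 ∨ w j = q1 ↔ w' j = p1 ∨ w' j = q1) ∧
      (w j = p0 ∨ w j = q0 ↔ w' j = p0 ∨ w' j = q0) ∧
      ∀ a, a ≠ p1 → a ≠ q1 → a ≠ p0 → a ≠ q0 → (w j = a ↔ w' j = a) := by
    intro j
    have hj := congrFun h j
    simp only [sk] at hj
    split_ifs at hj with c1 c2 c3 c4 c5 c6 c7 c8
    · rw [c1, c2]; simp
    · rw [c1, c3]; exact absurd hj h2
    · rw [c1, ← hj]
      refine ⟨by simp, ⟨fun x => ?_, fun x => ?_⟩, fun a a1 a2 a3 a4 => ⟨fun x => ?_, fun x => ?_⟩⟩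
      · rcases x with x | x
        · exact absurd x h4
        · exact absurd x h5
      · rcases x with x | x
        · exact absurd x h2
        · exact absurd x h3
      · exact absurd x.symm a2
      · exact absurd x.symm a1
    · rw [c4, c5]; exact absurd hj.symm h2
    · rw [c4, c6]; simp
    · rw [c4, ← hj]
      refine ⟨⟨fun x => ?_, fun x => ?_⟩, by simp, fun a a1 a2 a3 a4 => ⟨fun x => ?_, fun x => ?_⟩⟩
      · rcases x with x | x
        · exact absurd x.symm h3
        · exact absurd x.symm h5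
      · rcases x with x | x
        · exact absurd x.symm h2
        · exact absurd x.symm h4
      · exact absurd x.symm a4
      · exact absurd x.symm a3
    · rw [hj, c7]
      refine ⟨by simp, ⟨fun x => ?_, fun x => ?_⟩, fun a a1 a2 a3 a4 => ⟨fun x => ?_, fun x => ?_⟩⟩
      · rcases x with x | x
        · exact absurd x h2
        · exact absurd x h3
      · rcases x with x | x
        · exact absurd x h4
        · exact absurd x h5
      · exact absurd x.symm a1
      · exact absurd x.symm a2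
    · rw [hj, c8]
      refine ⟨⟨fun x => ?_, fun x => ?_⟩, by simp, fun a a1 a2 a3 a4 => ⟨fun x => ?_, fun x => ?_⟩⟩
      · rcases x with x | x
        · exact absurd x.symm h2
        · exact absurd x.symm h4
      · rcases x with x | x
        · exact absurd x.symm h3
        · exact absurd x.symm h5
      · exact absurd x.symm a3
      · exact absurd x.symm a4
    · rw [hj]
      exact ⟨Iff.rfl, Iff.rfl, fun a _ _ _ _ => Iff.rfl⟩
  have hadd : ∀ (p q : A) (hpq : p ≠ q) (u : Fin J → A), kk p u + kk q u =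
      ∑ j, if u j = p ∨ u j = q then 1 else 0 := by
    intro p q hpq u
    rw [kk, kk, ← Finset.sum_add_distrib]
    apply Finset.sum_congr rfl
    intro j _
    by_cases c1 : u j = p
    · rw [if_pos c1, if_neg (by rw [c1]; exact hpq), if_pos (Or.inl c1)]
    · by_cases c2 : u j = q
      · rw [if_neg c1, if_pos c2, if_pos (Or.inr c2)]
      · rw [if_neg c1, if_neg c2, if_neg (by tauto)]
  refine ⟨?_, ?_, ?_⟩
  · rw [hadd p1 q1 h1, hadd p1 q1 h1]
    apply Finset.sum_congr rfl
    intro j _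
    simp only [(hp j).1]
  · rw [hadd p0 q0 h0, hadd p0 q0 h0]
    apply Finset.sum_congr rfl
    intro j _
    simp only [(hp j).2.1]
  · intro a a1 a2 a3 a4
    rw [kk, kk]
    apply Finset.sum_congr rfl
    intro j _
    simp only [(hp j).2.2 a a1 a2 a3 a4]

theorem sk_sr {a b c e : Fin 10} {J : ℕ} {w w' : Fin J → A3}
    (h : sk (sg a) (sg b) (sg c) (sg e) w = sk (sg a) (sg b) (sg c) (sg e) w') : SR sg w w' := by
  intro j
  have hj := congrFun h j
  simp only [sk] at hj
  by_cases c1 : w j = sg b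
  · by_cases c2 : w' j = sg b
    · exact Or.inr ⟨⟨b, c1⟩, ⟨b, c2⟩⟩
    · by_cases c3 : w' j = sg e
      · exact Or.inr ⟨⟨b, c1⟩, ⟨e, c3⟩⟩
      · rw [if_pos c1, if_neg c2, if_neg c3] at hj
        exact Or.inr ⟨⟨b, c1⟩, ⟨a, hj.symm⟩⟩
  · by_cases c4 : w j = sg e
    · by_cases c2 : w' j = sg b
      · exact Or.inr ⟨⟨e, c4⟩, ⟨b, c2⟩⟩
      · by_cases c3 : w' j = sg e
        · exact Or.inr ⟨⟨e, c4⟩, ⟨e, c3⟩⟩
        · rw [if_neg c1, if_pos c4, if_neg c2, if_neg c3] at hj
          exact Or.inr ⟨⟨e, c4⟩, ⟨c, hj.symm⟩⟩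
    · by_cases c2 : w' j = sg b
      · rw [if_neg c1, if_neg c4, if_pos c2] at hj
        exact Or.inr ⟨⟨a, hj⟩, ⟨b, c2⟩⟩
      · by_cases c3 : w' j = sg e
        · rw [if_neg c1, if_neg c4, if_neg c2, if_pos c3] at hj
          exact Or.inr ⟨⟨c, hj⟩, ⟨e, c3⟩⟩
        · rw [if_neg c1, if_neg c4, if_neg c2, if_neg c3] at hj
          exact Or.inl hj

/-- digit counts -/
def tD (μ : List ℕ) {J : ℕ} (v : Fin J → A3) (d : ℕ) : ℕ := (DD μ v).count d

/-- the condition on a word for the third term `1^X 2^Y` -/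
def XY (μ : List ℕ) (J X Y : ℕ) (v : Fin J → A3) : Prop :=
  Yt (tD μ v) = Y ∧ X + Yt (tD μ v) + Zt (tD μ v) + tD μ v 0 = 6 * J + μ.length + 1

open Classical in
theorem ub_case {μ : List ℕ} (hμ : ∀ d ∈ μ, d < 10) (J X Y : ℕ) (a b : Fin 10) (hab : a ≠ b)
    (ha0 : a ≠ 0) (ha5 : a ≠ 5) (hb0 : b ≠ 0) (hb5 : b ≠ 5) (P : (ℕ → ℕ) → Prop)
    (hP : ∀ t t' : ℕ → ℕ, ∀ x x' y y' : ℕ, t b.val + 2 * x' = t' b.val + 2 * x →
      t a.val + 2 * x = t' a.val + 2 * x' → t 5 + 2 * y' = t' 5 + 2 * y →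
      t 0 + 2 * y = t' 0 + 2 * y' →
      (∀ d, d ≤ 9 → d ≠ a.val → d ≠ b.val → d ≠ 0 → d ≠ 5 → t d = t' d) →
      P t → P t' → Yt t = Y → Yt t' = Y → Yt t + Zt t + t 0 = Yt t' + Zt t' + t' 0 →
      x = x' ∧ y = y') :
    2 * ((J : ℝ) + 1) * (((Finset.univ : Finset (Fin J → A3)).filter
      (fun v => XY μ J X Y v ∧ P (tD μ v))).card : ℝ) ≤ 1000000 ^ (J + 1) := by
  have s1 : ∀ x y : Fin 10, x ≠ y → sg x ≠ sg y := fun x y h hh => h (sg_inj hh)
  have h := local_ub (p1 := sg a) (q1 := sg b) (p0 := sg 0) (q0 := sg 5) (s1 _ _ hab)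
    (s1 _ _ (by decide)) (s1 _ _ ha0) (s1 _ _ ha5) (s1 _ _ hb0) (s1 _ _ hb5)
    ((Finset.univ : Finset (Fin J → A3)).filter (fun v => XY μ J X Y v ∧ P (tD μ v))) (by
      intro w hw w' hw' hsk
      obtain ⟨-, ⟨hw1, hw2⟩, hw3⟩ := Finset.mem_filter.mp hw
      obtain ⟨-, ⟨hw1', hw2'⟩, hw3'⟩ := Finset.mem_filter.mp hw'
      obtain ⟨r1, r0, rr⟩ := sk_rel (s1 _ _ hab) (s1 _ _ (by decide)) (s1 _ _ ha0) (s1 _ _ ha5)
        (s1 _ _ hb0) (s1 _ _ hb5) hsk
      have hsr := sk_sr hsk
      have ex := fun d : Fin 10 => DD_exch hμ hsr d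
      apply hP (tD μ w) (tD μ w') (kk (sg b) w) (kk (sg b) w') (kk (sg 5) w) (kk (sg 5) w')
      · exact ex b
      · have := ex a
        simp only [tD]
        omega
      · exact ex 5
      · have := ex 0
        simp only [tD]
        simp only [Fin.val_zero] at this
        omega
      · intro d hd d1 d2 d3 d4
        have e := ex ⟨d, by omega⟩
        have e2 := rr (sg ⟨d, by omega⟩) (s1 _ _ (fun hh => d1 (congrArg Fin.val hh)))
          (s1 _ _ (fun hh => d2 (congrArg Fin.val hh)))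
          (s1 _ _ (fun hh => d3 (by simpa using congrArg Fin.val hh)))
          (s1 _ _ (fun hh => d4 (by
            have := congrArg Fin.val hh
            simp at this
            exact this)))
        simp only [tD]
        simp only at e
        omega
      · exact hw3
      · exact hw3'
      · exact hw1
      · exact hw1'
      · omega)
  rw [card_A3] at h
  exact_mod_cast h

theorem ub1 {μ : List ℕ} (hμ : ∀ d ∈ μ, d < 10) (J X Y : ℕ) [DecidablePred (fun v : Fin J → A3 => XY μ J X Y v ∧ tD μ v 1 < tD μ v 9)] :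
    2 * ((J : ℝ) + 1) * (((Finset.univ : Finset (Fin J → A3)).filter
      (fun v => XY μ J X Y v ∧ tD μ v 1 < tD μ v 9)).card : ℝ) ≤ 1000000 ^ (J + 1) := by
  have h := ub_case hμ J X Y 8 9 (by decide) (by decide) (by decide) (by decide) (by decide)
    (fun t => t 1 < t 9) (by
      intro t t' x x' y y' h1 h2 h3 h4 h5 h6 h7 h8 h9 h10
      have e1 := h5 1 (by norm_num) (by decide) (by decide) (by norm_num) (by norm_num)
      have e2 := h5 2 (by norm_num) (by decide) (by decide) (by norm_num) (by norm_num)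
      have e3 := h5 3 (by norm_num) (by decide) (by decide) (by norm_num) (by norm_num)
      have e4 := h5 4 (by norm_num) (by decide) (by decide) (by norm_num) (by norm_num)
      have e6 := h5 6 (by norm_num) (by decide) (by decide) (by norm_num) (by norm_num)
      have e7 := h5 7 (by norm_num) (by decide) (by decide) (by norm_num) (by norm_num)
      have v8 : (8 : Fin 10).val = 8 := rfl
      have v9 : (9 : Fin 10).val = 9 := rfl
      rw [v9] at h1
      rw [v8] at h2
      simp only [Yt] at h8 h9 h10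
      simp only [Zt] at h10
      omega)
  convert h

theorem ub2 {μ : List ℕ} (hμ : ∀ d ∈ μ, d < 10) (J X Y : ℕ) [DecidablePred (fun v : Fin J → A3 => XY μ J X Y v ∧ tD μ v 1 + tD μ v 2 < tD μ v 9 + tD μ v 8)] :
    2 * ((J : ℝ) + 1) * (((Finset.univ : Finset (Fin J → A3)).filter
      (fun v => XY μ J X Y v ∧ tD μ v 1 + tD μ v 2 < tD μ v 9 + tD μ v 8)).card : ℝ) ≤ 1000000 ^ (J + 1) := by
  have h := ub_case hμ J X Y 7 8 (by decide) (by decide) (by decide) (by decide) (by decide)
    (fun t => t 1 + t 2 < t 9 + t 8) (by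
      intro t t' x x' y y' h1 h2 h3 h4 h5 h6 h7 h8 h9 h10
      have e1 := h5 1 (by norm_num) (by decide) (by decide) (by norm_num) (by norm_num)
      have e2 := h5 2 (by norm_num) (by decide) (by decide) (by norm_num) (by norm_num)
      have e3 := h5 3 (by norm_num) (by decide) (by decide) (by norm_num) (by norm_num)
      have e4 := h5 4 (by norm_num) (by decide) (by decide) (by norm_num) (by norm_num)
      have e6 := h5 6 (by norm_num) (by decide) (by decide) (by norm_num) (by norm_num)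
      have e9 := h5 9 (by norm_num) (by decide) (by decide) (by norm_num) (by norm_num)
      have v7 : (7 : Fin 10).val = 7 := rfl
      have v8 : (8 : Fin 10).val = 8 := rfl
      rw [v8] at h1
      rw [v7] at h2
      simp only [Yt] at h8 h9 h10
      simp only [Zt] at h10
      omega)
  convert h

theorem ub3 {μ : List ℕ} (hμ : ∀ d ∈ μ, d < 10) (J X Y : ℕ) [DecidablePred (fun v : Fin J → A3 => XY μ J X Y v ∧ tD μ v 1 + tD μ v 2 + tD μ v 3 < tD μ v 9 + tD μ v 8 + tD μ v 7)] :
    2 * ((J : ℝ) + 1) * (((Finset.univ : Finset (Fin J → A3)).filter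
      (fun v => XY μ J X Y v ∧ tD μ v 1 + tD μ v 2 + tD μ v 3 < tD μ v 9 + tD μ v 8 + tD μ v 7)).card : ℝ) ≤ 1000000 ^ (J + 1) := by
  have h := ub_case hμ J X Y 6 7 (by decide) (by decide) (by decide) (by decide) (by decide)
    (fun t => t 1 + t 2 + t 3 < t 9 + t 8 + t 7) (by
      intro t t' x x' y y' h1 h2 h3 h4 h5 h6 h7 h8 h9 h10
      have e1 := h5 1 (by norm_num) (by decide) (by decide) (by norm_num) (by norm_num)
      have e2 := h5 2 (by norm_num) (by decide) (by decide) (by norm_num) (by norm_num)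
      have e3 := h5 3 (by norm_num) (by decide) (by decide) (by norm_num) (by norm_num)
      have e4 := h5 4 (by norm_num) (by decide) (by decide) (by norm_num) (by norm_num)
      have e8 := h5 8 (by norm_num) (by decide) (by decide) (by norm_num) (by norm_num)
      have e9 := h5 9 (by norm_num) (by decide) (by decide) (by norm_num) (by norm_num)
      have v6 : (6 : Fin 10).val = 6 := rfl
      have v7 : (7 : Fin 10).val = 7 := rfl
      rw [v7] at h1
      rw [v6] at h2
      simp only [Yt] at h8 h9 h10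
      simp only [Zt] at h10
      omega)
  convert h

theorem ub4 {μ : List ℕ} (hμ : ∀ d ∈ μ, d < 10) (J X Y : ℕ) [DecidablePred (fun v : Fin J → A3 => XY μ J X Y v ∧ tD μ v 1 + tD μ v 2 + tD μ v 3 + tD μ v 4 < tD μ v 9 + tD μ v 8 + tD μ v 7 + tD μ v 6)] :
    2 * ((J : ℝ) + 1) * (((Finset.univ : Finset (Fin J → A3)).filter
      (fun v => XY μ J X Y v ∧ tD μ v 1 + tD μ v 2 + tD μ v 3 + tD μ v 4 <
        tD μ v 9 + tD μ v 8 + tD μ v 7 + tD μ v 6)).card : ℝ) ≤ 1000000 ^ (J + 1) := by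
  have h := ub_case hμ J X Y 4 6 (by decide) (by decide) (by decide) (by decide) (by decide)
    (fun t => t 1 + t 2 + t 3 + t 4 < t 9 + t 8 + t 7 + t 6) (by
      intro t t' x x' y y' h1 h2 h3 h4 h5 h6 h7 h8 h9 h10
      have e1 := h5 1 (by norm_num) (by decide) (by decide) (by norm_num) (by norm_num)
      have e2 := h5 2 (by norm_num) (by decide) (by decide) (by norm_num) (by norm_num)
      have e3 := h5 3 (by norm_num) (by decide) (by decide) (by norm_num) (by norm_num)
      have e7 := h5 7 (by norm_num) (by decide) (by decide) (by norm_num) (by norm_num)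
      have e8 := h5 8 (by norm_num) (by decide) (by decide) (by norm_num) (by norm_num)
      have e9 := h5 9 (by norm_num) (by decide) (by decide) (by norm_num) (by norm_num)
      have v4 : (4 : Fin 10).val = 4 := rfl
      have v6 : (6 : Fin 10).val = 6 := rfl
      rw [v6] at h1
      rw [v4] at h2
      simp only [Yt] at h8 h9 h10
      simp only [Zt] at h10
      omega)
  convert h

open Classical in
/-- the upper local bound for words -/
theorem ub_words {μ : List ℕ} (hμ : ∀ d ∈ μ, d < 10) (J X Y : ℕ) (hY : 1 ≤ Y) :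
    ((J : ℝ) + 1) * (((Finset.univ : Finset (Fin J → A3)).filter (fun v => XY μ J X Y v)).card : ℝ) ≤
      2 * 1000000 ^ (J + 1) := by
  have h1 := ub1 hμ J X Y
  have h2 := ub2 hμ J X Y
  have h3 := ub3 hμ J X Y
  have h4 := ub4 hμ J X Y
  have hsub : (Finset.univ : Finset (Fin J → A3)).filter (fun v => XY μ J X Y v) ⊆
      ((Finset.univ.filter (fun v => XY μ J X Y v ∧ tD μ v 1 < tD μ v 9)) ∪
      (Finset.univ.filter (fun v => XY μ J X Y v ∧ tD μ v 1 + tD μ v 2 < tD μ v 9 + tD μ v 8))) ∪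
      ((Finset.univ.filter (fun v => XY μ J X Y v ∧ tD μ v 1 + tD μ v 2 + tD μ v 3 <
        tD μ v 9 + tD μ v 8 + tD μ v 7)) ∪
      (Finset.univ.filter (fun v => XY μ J X Y v ∧ tD μ v 1 + tD μ v 2 + tD μ v 3 + tD μ v 4 <
        tD μ v 9 + tD μ v 8 + tD μ v 7 + tD μ v 6))) := by
    intro v hv
    obtain ⟨-, hv⟩ := Finset.mem_filter.mp hv
    have hY' := hv.1
    simp only [Finset.mem_union, Finset.mem_filter, Finset.mem_univ, true_and]
    by_cases c1 : tD μ v 1 < tD μ v 9
    · exact Or.inl (Or.inl ⟨hv, c1⟩)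
    by_cases c2 : tD μ v 1 + tD μ v 2 < tD μ v 9 + tD μ v 8
    · exact Or.inl (Or.inr ⟨hv, c2⟩)
    by_cases c3 : tD μ v 1 + tD μ v 2 + tD μ v 3 < tD μ v 9 + tD μ v 8 + tD μ v 7
    · exact Or.inr (Or.inl ⟨hv, c3⟩)
    by_cases c4 : tD μ v 1 + tD μ v 2 + tD μ v 3 + tD μ v 4 <
        tD μ v 9 + tD μ v 8 + tD μ v 7 + tD μ v 6
    · exact Or.inr (Or.inr ⟨hv, c4⟩)
    exfalso
    rw [Yt] at hY'
    omega
  have hc := (Finset.card_le_card hsub).trans ((Finset.card_union_le _ _).trans
    (Nat.add_le_add (Finset.card_union_le _ _) (Finset.card_union_le _ _)))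
  have hc' : (((Finset.univ : Finset (Fin J → A3)).filter (fun v => XY μ J X Y v)).card : ℝ) ≤
      (((Finset.univ.filter (fun v : Fin J → A3 => XY μ J X Y v ∧ tD μ v 1 < tD μ v 9)).card : ℝ) +
      ((Finset.univ.filter (fun v : Fin J → A3 => XY μ J X Y v ∧
        tD μ v 1 + tD μ v 2 < tD μ v 9 + tD μ v 8)).card : ℝ)) +
      (((Finset.univ.filter (fun v : Fin J → A3 => XY μ J X Y v ∧
        tD μ v 1 + tD μ v 2 + tD μ v 3 < tD μ v 9 + tD μ v 8 + tD μ v 7)).card : ℝ) +
      ((Finset.univ.filter (fun v : Fin J → A3 => XY μ J X Y v ∧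
        tD μ v 1 + tD μ v 2 + tD μ v 3 + tD μ v 4 <
        tD μ v 9 + tD μ v 8 + tD μ v 7 + tD μ v 6)).card : ℝ)) := by exact_mod_cast hc
  have hJ : (0 : ℝ) < (J : ℝ) + 1 := by positivity
  have := mul_le_mul_of_nonneg_left hc' hJ.le
  linarith

end Pool.RAT
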