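import Pool.Agent.H42.RAT2.Ub2

/-!
# RATS (MP_a315fd): local and global bounds for the third term of the numbers with `L` digits
-/

set_option autoImplicit false

namespace Pool.RAT

open List

/-- the middle digits -/
def mu {e : ℕ} (m : Fin e → Fin 10) : List ℕ := List.ofFn (fun i => (m i).val)

theorem mu_lt {e : ℕ} (m : Fin e → Fin 10) : ∀ d ∈ mu m, d < 10 := by
  intro a ha
  rw [mu, List.mem_ofFn] at ha
  obtain ⟨i, rfl⟩ := ha
  exact (m i).isLt

theorem len_mu {e : ℕ} (m : Fin e → Fin 10) : (mu m).length = e := by simp [mu]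

open Classical in
/-- numbers with `L` digits are numbers of words -/
theorem cover {J e L : ℕ} (hL : L = 6 * J + e) (hL1 : 1 ≤ L) (P : ℕ → Prop)
    (Q : (Fin e → Fin 10) → (Fin J → A3) → Prop)
    (hPQ : ∀ m v, (∀ h : nw (mu m) v ≠ [], (nw (mu m) v).getLast h ≠ 0) →
      P (Nat.ofDigits 10 (nw (mu m) v)) → Q m v) :
    ({n | 10 ^ (L - 1) ≤ n ∧ n < 10 ^ L ∧ P n} : Set ℕ).ncard ≤
      ∑ m : Fin e → Fin 10, ((Finset.univ : Finset (Fin J → A3)).filter (fun v => Q m v)).card := by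
  have hsub : ({n | 10 ^ (L - 1) ≤ n ∧ n < 10 ^ L ∧ P n} : Set ℕ) ⊆
      ((((Finset.univ : Finset ((Fin e → Fin 10) × (Fin J → A3))).filter (fun p => Q p.1 p.2)).image
      (fun p => Nat.ofDigits 10 (nw (mu p.1) p.2)) : Finset ℕ) : Set ℕ) := by
    intro n hn
    obtain ⟨h1, h2, h3⟩ := hn
    have hn0 : n ≠ 0 := by
      have : 1 ≤ 10 ^ (L - 1) := Nat.one_le_pow _ _ (by norm_num)
      omega
    obtain ⟨l, hl⟩ : ∃ l, l = Nat.digits 10 n := ⟨_, rfl⟩
    have hlen : l.length = L := by rw [hl]; exact len_digits hL1 h1 h2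
    have hl10 : ∀ d ∈ l, d < 10 := by rw [hl]; exact fun d hd => Nat.digits_lt_base (by norm_num) hd
    have hlast : ∀ h : l ≠ [], l.getLast h ≠ 0 := by
      rw [hl]; exact fun h => Nat.getLast_digit_ne_zero 10 hn0
    obtain ⟨M, hM⟩ : ∃ M, M = J * 3 := ⟨_, rfl⟩
    have hsplit : l = l.take M ++ ((l.drop M).take e ++ (l.drop M).drop e) := by
      rw [take_append_drop, take_append_drop]
    obtain ⟨w, hw1, hw2⟩ := exists_word (M := M) (P := l.take M) (V := ((l.drop M).drop e).reverse)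
      (by rw [length_take, hlen]; omega)
      (by rw [length_reverse, length_drop, length_drop, hlen]; omega)
      (fun d hd => hl10 d (mem_of_mem_take hd))
      (fun d hd => hl10 d (mem_of_mem_drop (mem_of_mem_drop (mem_reverse.mp hd))))
    obtain ⟨μ, hμ⟩ : ∃ μ, μ = (l.drop M).take e := ⟨_, rfl⟩
    have hμl : μ.length = e := by rw [hμ, length_take, length_drop, hlen]; omega
    have hμ10 : ∀ d ∈ μ, d < 10 := by
      rw [hμ]
      exact fun d hd => hl10 d (mem_of_mem_drop (mem_of_mem_take hd))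
    subst hM
    obtain ⟨v, hv⟩ : ∃ v, fe J v = w := ⟨(fe J).symm w, by simp⟩
    obtain ⟨m, hm⟩ : ∃ m : Fin e → Fin 10, mu m = μ := by
      refine ⟨fun i => ⟨μ[i.val]'(by have := i.isLt; omega), hμ10 _ (getElem_mem _)⟩, ?_⟩
      apply List.ext_getElem
      · rw [len_mu, hμl]
      · intro i h1 h2
        simp [mu]
    have hl2 : l = nw (mu m) v := by
      rw [nw, hv, hm, hw1, hw2, reverse_reverse, hμ]; exact hsplit
    have hnl : n = Nat.ofDigits 10 (nw (mu m) v) := by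
      rw [← hl2, hl, Nat.ofDigits_digits]
    rw [Finset.coe_image]
    refine ⟨(m, v), ?_, hnl.symm⟩
    rw [Finset.mem_coe, Finset.mem_filter]
    refine ⟨Finset.mem_univ _, hPQ m v ?_ ?_⟩
    · rw [← hl2]; exact hlast
    · rw [← hnl]; exact h3
  have h1 := Set.ncard_le_ncard hsub (Finset.finite_toSet _)
  rw [Set.ncard_coe_finset] at h1
  refine h1.trans (Finset.card_image_le.trans (le_of_eq ?_))
  rw [Finset.card_filter, Fintype.sum_prod_type]
  apply Finset.sum_congr rfl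
  intro m _
  rw [Finset.card_filter]

theorem tD_eq (μ : List ℕ) {J : ℕ} (v : Fin J → A3) (d : ℕ) :
    tD μ v d = (out 0 (zb (fe J v))).count d + (out (co 0 (zb (fe J v))) (cs μ)).count d +
      (out (co (co 0 (zb (fe J v))) (cs μ)) (zb (fe J v)).reverse).count d +
      (if co (co (co 0 (zb (fe J v))) (cs μ)) (zb (fe J v)).reverse = d then 1 else 0) := by
  rw [tD, DD, count_append, count_append, count_append, count_singleton]
  simp only [beq_iff_eq]
  ring

/-- near uniform counts -/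
theorem tD_bd {μ : List ℕ} (hμ : ∀ d ∈ μ, d < 10) (hμ5 : μ.length ≤ 5) {J S : ℕ} {v : Fin J → A3}
    (hQ : Q2 (fe J v) ≤ (S : ℤ) ^ 2) {d : ℕ} (hd : d < 10) :
    6 * J ≤ 10 * tD μ v d + (2 * S + 60) ∧ 10 * tD μ v d ≤ 6 * J + (2 * S + 60) := by
  have hcs : ∀ a ∈ cs μ, a ≤ 18 := cs18 hμ
  obtain ⟨c1, hc1⟩ : ∃ c, c = co 0 (zb (fe J v)) := ⟨_, rfl⟩
  have l1 : c1 ≤ 1 := by rw [hc1]; exact co_le (by norm_num) (zb_le _)
  obtain ⟨c2, hc2⟩ : ∃ c, c = co c1 (cs μ) := ⟨_, rfl⟩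
  have l2 : c2 ≤ 1 := by rw [hc2]; exact co_le l1 hcs
  have h1 := Finset.single_le_sum (f := fun d : Fin 10 =>
    ((10 * ((out 0 (zb (fe J v))).count d.val : ℤ) - (J * 3 : ℕ)) ^ 2 +
    (10 * ((out 0 (zb (fe J v)).reverse).count d.val : ℤ) - (J * 3 : ℕ)) ^ 2 +
    (10 * ((out 1 (zb (fe J v)).reverse).count d.val : ℤ) - (J * 3 : ℕ)) ^ 2))
    (fun d _ => by positivity) (Finset.mem_univ (⟨d, hd⟩ : Fin 10))
  have h2 : ((10 * ((out 0 (zb (fe J v))).count d : ℤ) - (J * 3 : ℕ)) ^ 2 +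
    (10 * ((out 0 (zb (fe J v)).reverse).count d : ℤ) - (J * 3 : ℕ)) ^ 2 +
    (10 * ((out 1 (zb (fe J v)).reverse).count d : ℤ) - (J * 3 : ℕ)) ^ 2) ≤ Q2 (fe J v) := h1
  have p1 := sq_nonneg (10 * ((out 0 (zb (fe J v))).count d : ℤ) - (J * 3 : ℕ))
  have p2 := sq_nonneg (10 * ((out 0 (zb (fe J v)).reverse).count d : ℤ) - (J * 3 : ℕ))
  have p3 := sq_nonneg (10 * ((out 1 (zb (fe J v)).reverse).count d : ℤ) - (J * 3 : ℕ))
  have aux : ∀ x : ℤ, x ^ 2 ≤ (S : ℤ) ^ 2 → |x| ≤ S := by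
    intro x hx
    exact abs_le_of_sq_le_sq hx (Int.natCast_nonneg S)
  have a1 := aux _ (show (10 * ((out 0 (zb (fe J v))).count d : ℤ) - (J * 3 : ℕ)) ^ 2 ≤ (S : ℤ) ^ 2 by
    linarith)
  have a2 : |10 * ((out c2 (zb (fe J v)).reverse).count d : ℤ) - (J * 3 : ℕ)| ≤ S := by
    interval_cases c2
    · exact aux _ (by linarith)
    · exact aux _ (by linarith)
  have h3 := tD_eq μ v d
  rw [← hc1, ← hc2] at h3
  have h4 : (out c1 (cs μ)).count d ≤ 5 := by
    refine List.count_le_length.trans ?_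
    rw [out_len, cs, length_zipWith, length_reverse, min_self]
    exact hμ5
  have h5 : (if co c2 (zb (fe J v)).reverse = d then 1 else 0) ≤ 1 := by split_ifs <;> omega
  rw [abs_le] at a1 a2
  push_cast at a1 a2
  omega

end Pool.RAT
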