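import Pool.Agent.H42.RAT2.Ub3

/-!
# RATS (MP_a315fd): the third term of a near uniform word
-/

set_option autoImplicit false

namespace Pool.RAT

open List

theorem dev_sub {A B P c : ℕ} (h1 : 10 * A ≤ P + c) (h2 : P ≤ 10 * A + c) (h3 : 10 * B ≤ P + c)
    (h4 : P ≤ 10 * B + c) : 10 * ((A - B) + (B - A)) ≤ 2 * c := by
  omega

theorem YZ_bd {t : ℕ → ℕ} {P η : ℕ} (ha : ∀ d, 1 ≤ d → d ≤ 9 → P ≤ 10 * t d + η)
    (hb : ∀ d, 1 ≤ d → d ≤ 9 → 10 * t d ≤ P + η) :
    Yt t + Zt t ≤ 4 * η ∧ 10 * (t 1 + t 2 + t 3 + t 4 + t 5 + t 6 + t 7 + t 8 + t 9) ≤ 9 * P + 9 * η ∧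
    9 * P ≤ 10 * (t 1 + t 2 + t 3 + t 4 + t 5 + t 6 + t 7 + t 8 + t 9) + 9 * η := by
  have a1 := ha 1 (by norm_num) (by norm_num)
  have a2 := ha 2 (by norm_num) (by norm_num)
  have a3 := ha 3 (by norm_num) (by norm_num)
  have a4 := ha 4 (by norm_num) (by norm_num)
  have a5 := ha 5 (by norm_num) (by norm_num)
  have a6 := ha 6 (by norm_num) (by norm_num)
  have a7 := ha 7 (by norm_num) (by norm_num)
  have a8 := ha 8 (by norm_num) (by norm_num)
  have a9 := ha 9 (by norm_num) (by norm_num)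
  have b1 := hb 1 (by norm_num) (by norm_num)
  have b2 := hb 2 (by norm_num) (by norm_num)
  have b3 := hb 3 (by norm_num) (by norm_num)
  have b4 := hb 4 (by norm_num) (by norm_num)
  have b5 := hb 5 (by norm_num) (by norm_num)
  have b6 := hb 6 (by norm_num) (by norm_num)
  have b7 := hb 7 (by norm_num) (by norm_num)
  have b8 := hb 8 (by norm_num) (by norm_num)
  have b9 := hb 9 (by norm_num) (by norm_num)
  clear ha hb
  have k1 := dev_sub (A := t 9) (B := t 1) (P := P) (c := η) b9 a9 b1 a1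
  have k2 := dev_sub (A := t 9 + t 8) (B := t 1 + t 2) (P := 2 * P) (c := 2 * η)
    (by linarith) (by linarith) (by linarith) (by linarith)
  have k3 := dev_sub (A := t 9 + t 8 + t 7) (B := t 1 + t 2 + t 3) (P := 3 * P) (c := 3 * η)
    (by linarith) (by linarith) (by linarith) (by linarith)
  have k4 := dev_sub (A := t 9 + t 8 + t 7 + t 6) (B := t 1 + t 2 + t 3 + t 4) (P := 4 * P)
    (c := 4 * η) (by linarith) (by linarith) (by linarith) (by linarith)
  refine ⟨?_, by linarith, by linarith⟩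
  rw [Yt, Zt]
  linarith

/-- the third term of a near uniform word -/
theorem third {μ : List ℕ} (hμ : ∀ d ∈ μ, d < 10) (hμ5 : μ.length ≤ 5) {J S : ℕ} {v : Fin J → A3}
    (hQ : Q2 (fe J v) ≤ (S : ℤ) ^ 2) (hS : 15 * (2 * S + 60) < 6 * J)
    (hl : ∀ h : nw μ v ≠ [], (nw μ v).getLast h ≠ 0) :
    ∃ X, rats (rats (Nat.ofDigits 10 (nw μ v))) = Nat.ofDigits 10 (tw 2 1 (Yt (tD μ v)) X) ∧
      XY μ J X (Yt (tD μ v)) v ∧ Yt (tD μ v) ≤ 4 * (2 * S + 60) ∧
      10 * X ≤ 54 * J + 49 * (2 * S + 60) ∧ 54 * J ≤ 10 * X + 49 * (2 * S + 60) := by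
  have hb := fun d (hd : d < 10) => tD_bd hμ hμ5 hQ hd
  obtain ⟨X, h1, h2⟩ := rats_RL_form (t := tD μ v) (K := 6 * J) (η := 2 * S + 60)
    (fun d _ h9 => (hb d (by omega)).1) (fun d _ h9 => (hb d (by omega)).2) hS
  have hlen := DD_len hμ v
  have e : ∀ d, (DD μ v).count d = tD μ v d := fun d => rfl
  simp only [e] at hlen
  obtain ⟨k1, k2, k3⟩ := YZ_bd (t := tD μ v) (P := 6 * J) (η := 2 * S + 60)
    (fun d _ h9 => (hb d (by omega)).1) (fun d _ h9 => (hb d (by omega)).2)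
  clear hb
  refine ⟨X, ?_, ⟨rfl, ?_⟩, ?_, ?_, ?_⟩
  · rw [rats_nw hμ v hl]
    exact h1
  · linarith
  · linarith
  · linarith
  · linarith

/-- the letters of a number: `1^X 2^Y` determines `X` and `Y` -/
theorem tw_inj {X Y X' Y' : ℕ} (h : Nat.ofDigits 10 (tw 2 1 Y X) = Nat.ofDigits 10 (tw 2 1 Y' X')) :
    X = X' ∧ Y = Y' := by
  have s1 := st_tw (p := 2) (q := 1) (by norm_num) (by norm_num) (by norm_num) Y X
  have s2 := st_tw (p := 2) (q := 1) (by norm_num) (by norm_num) (by norm_num) Y' X'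
  have h1 : tw 2 1 Y X = tw 2 1 Y' X' := by
    rw [← digits_st s1, h, digits_st s2]
  have c1 := congrArg (List.count 1) h1
  have c2 := congrArg (List.count 2) h1
  simp only [tw, count_append, count_replicate] at c1 c2
  norm_num at c1 c2
  exact ⟨c1, c2⟩

end Pool.RAT
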