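import Pool.Agent.H42.RAT2.Ub4

/-!
# RATS (MP_a315fd): bounds for the numbers with `L` digits
-/

set_option autoImplicit false

namespace Pool.RAT

open List

open Classical in
/-- words with large deviation -/
theorem markov (J S : ℕ) : (S : ℝ) ^ 2 *
    (((Finset.univ : Finset (Fin J → A3)).filter (fun v => ¬ Q2 (fe J v) ≤ (S : ℤ) ^ 2)).card : ℝ) ≤
      810 * J * 1000000 ^ J := by
  have hQ0 : ∀ v : Fin J → A3, 0 ≤ Q2 (fe J v) := fun v => Finset.sum_nonneg (fun d _ => by positivity)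
  have hsum : ∑ v : Fin J → A3, Q2 (fe J v) = 810 * (J : ℤ) * 1000000 ^ J := by
    rw [Equiv.sum_comp (fe J) Q2, sum_Q2]
    have e : (100 : ℤ) ^ (J * 3) = 1000000 ^ J := by rw [mul_comm, pow_mul]; norm_num
    rw [e]
    push_cast
    ring
  have h : ((S : ℤ) ^ 2) * (((Finset.univ : Finset (Fin J → A3)).filter
      (fun v => ¬ Q2 (fe J v) ≤ (S : ℤ) ^ 2)).card : ℤ) ≤ 810 * J * 1000000 ^ J := by
    rw [← hsum]
    calc ((S : ℤ) ^ 2) * (((Finset.univ : Finset (Fin J → A3)).filter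
          (fun v => ¬ Q2 (fe J v) ≤ (S : ℤ) ^ 2)).card : ℤ) =
        ∑ v ∈ (Finset.univ : Finset (Fin J → A3)).filter (fun v => ¬ Q2 (fe J v) ≤ (S : ℤ) ^ 2),
          (S : ℤ) ^ 2 := by
          rw [Finset.sum_const, nsmul_eq_mul, mul_comm]
      _ ≤ ∑ v ∈ (Finset.univ : Finset (Fin J → A3)).filter (fun v => ¬ Q2 (fe J v) ≤ (S : ℤ) ^ 2),
          Q2 (fe J v) := by
          apply Finset.sum_le_sum
          intro v hv
          have := (Finset.mem_filter.mp hv).2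
          push Not at this
          exact this.le
      _ ≤ ∑ v : Fin J → A3, Q2 (fe J v) :=
          Finset.sum_le_sum_of_subset_of_nonneg (Finset.subset_univ _) (fun v _ _ => hQ0 v)
  exact_mod_cast h

theorem ncard_triv (L : ℕ) (P : ℕ → Prop) :
    ({n | 10 ^ (L - 1) ≤ n ∧ n < 10 ^ L ∧ P n} : Set ℕ).ncard ≤ 10 ^ L := by
  have hsub : ({n | 10 ^ (L - 1) ≤ n ∧ n < 10 ^ L ∧ P n} : Set ℕ) ⊆
      ((Finset.range (10 ^ L) : Finset ℕ) : Set ℕ) := by
    intro n hn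
    simp only [Finset.coe_range, Set.mem_Iio]
    exact hn.2.1
  have h := Set.ncard_le_ncard hsub (Finset.finite_toSet _)
  rwa [Set.ncard_coe_finset, Finset.card_range] at h

/-- upper local bound -/
theorem UBN (L X Y : ℕ) (hL : 1 ≤ L) (hY : 1 ≤ Y) : (L : ℝ) *
    (({n | 10 ^ (L - 1) ≤ n ∧ n < 10 ^ L ∧
      rats (rats n) = Nat.ofDigits 10 (tw 2 1 Y X)} : Set ℕ).ncard : ℝ) ≤
      20000000 * 10 ^ L := by
  classical
  obtain ⟨J, hJ⟩ : ∃ J, J = L / 6 := ⟨_, rfl⟩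
  obtain ⟨e, he⟩ : ∃ e, e = L % 6 := ⟨_, rfl⟩
  have hLJ : L = 6 * J + e := by omega
  have he5 : e ≤ 5 := by omega
  obtain ⟨c, hc⟩ : ∃ c, c = ({n | 10 ^ (L - 1) ≤ n ∧ n < 10 ^ L ∧
      rats (rats n) = Nat.ofDigits 10 (tw 2 1 Y X)} : Set ℕ).ncard := ⟨_, rfl⟩
  rw [← hc]
  by_cases hJ0 : J ≤ 300
  · have h1 : c ≤ 10 ^ L := by rw [hc]; exact ncard_triv L _
    have h2 : (c : ℝ) ≤ 10 ^ L := by exact_mod_cast h1
    have h3 : (L : ℝ) ≤ 2000 := by
      have : L ≤ 2000 := by omega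
      exact_mod_cast this
    have h4 : (0 : ℝ) < 10 ^ L := by positivity
    calc (L : ℝ) * c ≤ 2000 * 10 ^ L :=
          mul_le_mul h3 h2 (Nat.cast_nonneg _) (by norm_num)
      _ ≤ 20000000 * 10 ^ L := by linarith
  · push Not at hJ0
    obtain ⟨S, hS⟩ : ∃ S, S = J / 10 := ⟨_, rfl⟩
    have h15 : 15 * (2 * S + 60) < 6 * J := by omega
    have hcov := cover (J := J) (e := e) (L := L) hLJ hL
      (fun n => rats (rats n) = Nat.ofDigits 10 (tw 2 1 Y X))
      (fun m v => ¬ Q2 (fe J v) ≤ (S : ℤ) ^ 2 ∨ XY (mu m) J X Y v) (by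
        intro m v hl hP
        by_cases hQ : Q2 (fe J v) ≤ (S : ℤ) ^ 2
        · right
          obtain ⟨X', h1, h2, -⟩ := third (mu_lt m) (by rw [len_mu]; exact he5) hQ h15 hl
          rw [hP] at h1
          obtain ⟨e1, e2⟩ := tw_inj h1
          rw [← e1, ← e2] at h2
          exact h2
        · exact Or.inl hQ)
    rw [← hc] at hcov
    have hm := markov J S
    obtain ⟨b, hb⟩ : ∃ b, b = ((Finset.univ : Finset (Fin J → A3)).filter
      (fun v => ¬ Q2 (fe J v) ≤ (S : ℤ) ^ 2)).card := ⟨_, rfl⟩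
    rw [← hb] at hm
    have hJr : (300 : ℝ) < J := by exact_mod_cast hJ0
    have hSr : (J : ℝ) ≤ 11 * S := by
      have : J ≤ 11 * S := by omega
      exact_mod_cast this
    have hbJ : (J : ℝ) * b ≤ 98010 * 1000000 ^ J := by
      have h1 : (J : ℝ) ^ 2 * b ≤ 121 * (810 * J * 1000000 ^ J) := by
        calc (J : ℝ) ^ 2 * b ≤ (11 * S) ^ 2 * b := by
              apply mul_le_mul_of_nonneg_right _ (Nat.cast_nonneg _)
              exact pow_le_pow_left₀ (by linarith) hSr 2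
          _ = 121 * ((S : ℝ) ^ 2 * b) := by ring
          _ ≤ 121 * (810 * J * 1000000 ^ J) := mul_le_mul_of_nonneg_left hm (by norm_num)
      have hJp : (0 : ℝ) < J := by linarith
      refine le_of_mul_le_mul_left ?_ hJp
      calc (J : ℝ) * (J * b) = (J : ℝ) ^ 2 * b := by ring
        _ ≤ 121 * (810 * J * 1000000 ^ J) := h1
        _ = J * (98010 * 1000000 ^ J) := by ring
    have hterm : ∀ m : Fin e → Fin 10, (J : ℝ) * (((Finset.univ : Finset (Fin J → A3)).filter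
        (fun v => ¬ Q2 (fe J v) ≤ (S : ℤ) ^ 2 ∨ XY (mu m) J X Y v)).card : ℝ) ≤
        2098010 * 1000000 ^ J := by
      intro m
      have h1 : ((Finset.univ : Finset (Fin J → A3)).filter
        (fun v => ¬ Q2 (fe J v) ≤ (S : ℤ) ^ 2 ∨ XY (mu m) J X Y v)).card ≤ b +
        ((Finset.univ : Finset (Fin J → A3)).filter (fun v => XY (mu m) J X Y v)).card := by
        rw [Finset.filter_or, hb]
        exact Finset.card_union_le _ _
      have h2 := ub_words (mu_lt m) J X Y hY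
      obtain ⟨x, hx⟩ : ∃ x, x = ((Finset.univ : Finset (Fin J → A3)).filter
        (fun v => XY (mu m) J X Y v)).card := ⟨_, rfl⟩
      rw [← hx] at h1 h2
      have h3 : (J : ℝ) * x ≤ 2000000 * 1000000 ^ J := by
        have h4 : ((J : ℝ) + 1) * x ≤ 2 * 1000000 ^ (J + 1) := h2
        have h5 : (2 : ℝ) * 1000000 ^ (J + 1) = 2000000 * 1000000 ^ J := by rw [pow_succ]; ring
        rw [h5] at h4
        have h6 : (0 : ℝ) ≤ x := Nat.cast_nonneg _
        linarith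
      have h7 : (((Finset.univ : Finset (Fin J → A3)).filter
        (fun v => ¬ Q2 (fe J v) ≤ (S : ℤ) ^ 2 ∨ XY (mu m) J X Y v)).card : ℝ) ≤ b + x := by
        exact_mod_cast h1
      have h8 := mul_le_mul_of_nonneg_left h7 (show (0 : ℝ) ≤ J by linarith)
      linarith
    have hcr : (c : ℝ) ≤ ∑ m : Fin e → Fin 10, (((Finset.univ : Finset (Fin J → A3)).filter
        (fun v => ¬ Q2 (fe J v) ≤ (S : ℤ) ^ 2 ∨ XY (mu m) J X Y v)).card : ℝ) := by
      exact_mod_cast hcov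
    have h9 : (J : ℝ) * c ≤ 10 ^ e * (2098010 * 1000000 ^ J) := by
      calc (J : ℝ) * c ≤ J * ∑ m : Fin e → Fin 10, (((Finset.univ : Finset (Fin J → A3)).filter
            (fun v => ¬ Q2 (fe J v) ≤ (S : ℤ) ^ 2 ∨ XY (mu m) J X Y v)).card : ℝ) :=
            mul_le_mul_of_nonneg_left hcr (by linarith)
        _ = ∑ m : Fin e → Fin 10, (J : ℝ) * (((Finset.univ : Finset (Fin J → A3)).filter
            (fun v => ¬ Q2 (fe J v) ≤ (S : ℤ) ^ 2 ∨ XY (mu m) J X Y v)).card : ℝ) :=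
            Finset.mul_sum _ _ _
        _ ≤ ∑ m : Fin e → Fin 10, (2098010 * 1000000 ^ J : ℝ) :=
            Finset.sum_le_sum (fun m _ => hterm m)
        _ = 10 ^ e * (2098010 * 1000000 ^ J) := by
            rw [Finset.sum_const, Finset.card_univ, Fintype.card_fun, Fintype.card_fin,
              Fintype.card_fin, nsmul_eq_mul]
            push_cast
            ring
    have h10 : (10 : ℝ) ^ L = 10 ^ e * 1000000 ^ J := by
      rw [hLJ, pow_add, pow_mul]
      norm_num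
      ring
    have h11 : (L : ℝ) ≤ 7 * J := by
      have : L ≤ 7 * J := by omega
      exact_mod_cast this
    have h12 : (0 : ℝ) ≤ (c : ℝ) := Nat.cast_nonneg _
    have h13 : (0 : ℝ) < 10 ^ e * 1000000 ^ J := by positivity
    rw [h10]
    calc (L : ℝ) * c ≤ 7 * J * c := mul_le_mul_of_nonneg_right h11 h12
      _ = 7 * (J * c) := by ring
      _ ≤ 7 * (10 ^ e * (2098010 * 1000000 ^ J)) := mul_le_mul_of_nonneg_left h9 (by norm_num)
      _ = 14686070 * (10 ^ e * 1000000 ^ J) := by ring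
      _ ≤ 20000000 * (10 ^ e * 1000000 ^ J) := by linarith

/-- the third term of a typical number -/
def Typ (K : ℝ) (L n : ℕ) : Prop := ∃ X Y : ℕ, rats (rats n) = Nat.ofDigits 10 (tw 2 1 Y X) ∧
  |10 * (X : ℝ) - 9 * L| ≤ K * Real.sqrt L ∧ (Y : ℝ) ≤ K * Real.sqrt L

theorem TLN {δ : ℝ} (hδ : 0 < δ) : ∃ K : ℝ, 0 < K ∧ ∃ L0 : ℕ, ∀ L, L0 ≤ L →
    (({n | 10 ^ (L - 1) ≤ n ∧ n < 10 ^ L ∧ ¬ Typ K L n} : Set ℕ).ncard : ℝ) ≤ δ * 10 ^ L := by
  classical
  obtain ⟨a, ha⟩ : ∃ a, a = Real.sqrt (810 / δ) := ⟨_, rfl⟩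
  have ha0 : 0 < a := by rw [ha]; exact Real.sqrt_pos.mpr (by positivity)
  have ha2 : a ^ 2 = 810 / δ := by rw [ha]; exact Real.sq_sqrt (by positivity)
  obtain ⟨T, hT⟩ := exists_nat_gt (10 * a + 300)
  refine ⟨98 * a + 3083, by positivity, 6 * T ^ 2 + 6, fun L hL => ?_⟩
  obtain ⟨J, hJ⟩ : ∃ J, J = L / 6 := ⟨_, rfl⟩
  obtain ⟨e, he⟩ : ∃ e, e = L % 6 := ⟨_, rfl⟩
  have hLJ : L = 6 * J + e := by omega
  have he5 : e ≤ 5 := by omega
  have hJT : T ^ 2 ≤ J := by omega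
  obtain ⟨s, hs⟩ : ∃ s, s = Real.sqrt J := ⟨_, rfl⟩
  have hs2 : s ^ 2 = J := by rw [hs]; exact Real.sq_sqrt (Nat.cast_nonneg _)
  have hsT : (T : ℝ) ≤ s := by
    rw [hs]
    apply Real.le_sqrt_of_sq_le
    exact_mod_cast hJT
  have hsa : 10 * a + 300 ≤ s := hT.le.trans hsT
  have hs0 : 0 < s := by linarith
  obtain ⟨S, hS⟩ : ∃ S, S = ⌈a * s⌉₊ := ⟨_, rfl⟩
  have hS1 : a * s ≤ S := by rw [hS]; exact Nat.le_ceil _
  have hS2 : (S : ℝ) ≤ a * s + 1 := by rw [hS]; exact (Nat.ceil_lt_add_one (by positivity)).le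
  have h15 : 15 * (2 * S + 60) < 6 * J := by
    have h1 : 15 * (2 * (S : ℝ) + 60) < 6 * J := by
      rw [← hs2]
      have h2 : a * s ≤ (s - 300) / 10 * s := mul_le_mul_of_nonneg_right (by linarith) hs0.le
      have h3 : (s - 300) / 10 * s = s ^ 2 / 10 - 30 * s := by ring
      have h4 : 300 * s ≤ s ^ 2 := by nlinarith
      linarith
    exact_mod_cast h1
  have hLs : s ≤ Real.sqrt L := by
    rw [hs]
    apply Real.sqrt_le_sqrt
    have : J ≤ L := by omega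
    exact_mod_cast this
  have hL1 : 1 ≤ Real.sqrt L := by linarith
  have hbound : 49 * (2 * (S : ℝ) + 60) + 45 ≤ (98 * a + 3083) * Real.sqrt L := by
    have h1 : a * s ≤ a * Real.sqrt L := mul_le_mul_of_nonneg_left hLs ha0.le
    nlinarith
  have hcov := cover (J := J) (e := e) (L := L) hLJ (by omega)
    (fun n => ¬ Typ (98 * a + 3083) L n)
    (fun m v => ¬ Q2 (fe J v) ≤ (S : ℤ) ^ 2) (by
      intro m v hl hP hQ
      apply hP
      obtain ⟨X, h1, h2, h3, h4, h5⟩ := third (mu_lt m) (by rw [len_mu]; exact he5) hQ h15 hl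
      refine ⟨X, _, h1, ?_, ?_⟩
      · have h4' : 10 * (X : ℝ) ≤ 54 * J + 49 * (2 * S + 60) := by exact_mod_cast h4
        have h5' : 54 * (J : ℝ) ≤ 10 * X + 49 * (2 * S + 60) := by exact_mod_cast h5
        have hLr : (L : ℝ) = 6 * J + e := by exact_mod_cast hLJ
        have her : (e : ℝ) ≤ 5 := by exact_mod_cast he5
        have he0 : (0 : ℝ) ≤ e := Nat.cast_nonneg _
        rw [abs_le]
        constructor
        · linarith
        · linarith
      · have h3' : ((Yt (tD (mu m) v) : ℕ) : ℝ) ≤ 4 * (2 * S + 60) := by exact_mod_cast h3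
        have : (0 : ℝ) ≤ S := Nat.cast_nonneg _
        linarith)
  obtain ⟨b, hb⟩ : ∃ b, b = ((Finset.univ : Finset (Fin J → A3)).filter
    (fun v => ¬ Q2 (fe J v) ≤ (S : ℤ) ^ 2)).card := ⟨_, rfl⟩
  have hm := markov J S
  rw [← hb] at hm
  have hbJ : (b : ℝ) ≤ δ * 1000000 ^ J := by
    have h1 : 810 / δ * J * b ≤ 810 * J * 1000000 ^ J := by
      calc 810 / δ * J * b = (a * s) ^ 2 * b := by rw [mul_pow, ha2, hs2]
        _ ≤ (S : ℝ) ^ 2 * b := by
            apply mul_le_mul_of_nonneg_right _ (Nat.cast_nonneg _)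
            exact pow_le_pow_left₀ (by positivity) hS1 2
        _ ≤ _ := hm
    have hJp : (0 : ℝ) < J := by rw [← hs2]; positivity
    have h2 : (810 * J / δ) * b ≤ (810 * J / δ) * (δ * 1000000 ^ J) := by
      calc (810 * J / δ) * b = 810 / δ * J * b := by ring
        _ ≤ 810 * J * 1000000 ^ J := h1
        _ = (810 * J / δ) * (δ * 1000000 ^ J) := by field_simp
    exact le_of_mul_le_mul_left h2 (by positivity)
  have hcr : (({n | 10 ^ (L - 1) ≤ n ∧ n < 10 ^ L ∧ ¬ Typ (98 * a + 3083) L n} : Set ℕ).ncard : ℝ) ≤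
      10 ^ e * b := by
    have h1 : ({n | 10 ^ (L - 1) ≤ n ∧ n < 10 ^ L ∧ ¬ Typ (98 * a + 3083) L n} : Set ℕ).ncard ≤
        10 ^ e * b := by
      refine hcov.trans (le_of_eq ?_)
      rw [Finset.sum_const, Finset.card_univ, Fintype.card_fun, Fintype.card_fin,
        Fintype.card_fin, smul_eq_mul, hb]
      congr 2
      ext v
      simp only [Finset.mem_filter]
    exact_mod_cast h1
  have h10 : (10 : ℝ) ^ L = 10 ^ e * 1000000 ^ J := by
    rw [hLJ, pow_add, pow_mul]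
    norm_num
    ring
  rw [h10]
  calc (({n | 10 ^ (L - 1) ≤ n ∧ n < 10 ^ L ∧ ¬ Typ (98 * a + 3083) L n} : Set ℕ).ncard : ℝ) ≤
      10 ^ e * b := hcr
    _ ≤ 10 ^ e * (δ * 1000000 ^ J) := mul_le_mul_of_nonneg_left hbJ (by positivity)
    _ = δ * (10 ^ e * 1000000 ^ J) := by ring

end Pool.RAT
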